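import Pool.Agent.K7.H64.LS.Sums

/-!
Sumsets of sets from two sifted sets.
-/

set_option autoImplicit false

open Finset

namespace Pool.Agent.K7.H64.LS

open Pool.Agent.Y843.HS
open Pool.Agent.Helper112 (ee ls_norm_ee lsSep ls_ee_add ls_conj_ee)

set_option maxHeartbeats 4000000 in
/-- **sums of sets from two sifted sets** -/
theorem sums2 (r : ℕ) {κ : ℝ} (hκ : 0 < κ) : ∃ C : ℝ, 0 < C ∧ ∀ N : ℕ, 1 ≤ N →
    ∀ (A A' : ℕ) (Z Z' : ℕ → Finset ℕ),
    (∀ q : ℕ, q.Prime → (q : ℝ) ≤ (N : ℝ) ^ κ → (Z q).card ≤ r ∧ (Z q).card < q ∧ ∀ c ∈ Z q, c < q) →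
    (∀ q : ℕ, q.Prime → (q : ℝ) ≤ (N : ℝ) ^ κ → (Z' q).card ≤ r ∧ (Z' q).card < q ∧ ∀ c ∈ Z' q, c < q) →
    ∀ A1 A2 B : Finset ℕ, A1 ⊆ Ioc A (A + N) → A2 ⊆ Ioc A' (A' + N) →
    (∀ n ∈ A1, ∀ q : ℕ, q.Prime → (q : ℝ) ≤ (N : ℝ) ^ κ → n % q ∉ Z q) →
    (∀ n ∈ A2, ∀ q : ℕ, q.Prime → (q : ℝ) ≤ (N : ℝ) ^ κ → n % q ∉ Z' q) →
    A1.Nonempty → A2.Nonempty →
    (∀ m ∈ A1, ∀ n ∈ A2, m + n ∈ B) → B ⊆ Ioc (A + A') (A + A' + 2 * N) →
    ∃ k : ℕ, 1 ≤ k ∧ (k : ℝ) * (A1.card * A2.card) ^ 4 ≤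
      C * ((N * VV Z 0 ⌊(N : ℝ) ^ κ⌋₊) * (N * VV Z' 0 ⌊(N : ℝ) ^ κ⌋₊)) ^ 4 ∧
      (A1.card : ℝ) ≤ C * VV Z k ⌊(N : ℝ) ^ κ⌋₊ * B.card := by
  classical
  obtain ⟨C1, hC1, h1⟩ := lsf r hκ
  obtain ⟨C2, hC2, h2⟩ := VV_cmp r
  obtain ⟨C3, hC3, h3⟩ := lsp r hκ (s := 3 / 2) (by norm_num)
  -- logarithm against a power
  obtain ⟨C4, hC4, h4⟩ : ∃ C4 : ℝ, 0 < C4 ∧ ∀ k : ℕ, 1 ≤ k →
      (1 + Real.log k) ^ (2 * r) ≤ C4 * Real.sqrt k := by
    refine ⟨(4 * r + 2) ^ (2 * r), by positivity, fun k hk => ?_⟩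
    have hk1 : (1 : ℝ) ≤ k := by exact_mod_cast hk
    have hl : 0 ≤ Real.log k := Real.log_nonneg hk1
    have e0 : (0 : ℝ) < 1 / (4 * r + 1) := by positivity
    have e1 : 1 + Real.log k ≤ (4 * r + 2) * (k : ℝ) ^ ((1 : ℝ) / (4 * r + 1)) := by
      have e2 := Real.log_le_rpow_div (x := k) (by positivity) e0
      have e3 : (k : ℝ) ^ ((1 : ℝ) / (4 * r + 1)) / (1 / (4 * r + 1)) =
          (4 * r + 1) * (k : ℝ) ^ ((1 : ℝ) / (4 * r + 1)) := by
        field_simp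
      have e4 : (1 : ℝ) ≤ (k : ℝ) ^ ((1 : ℝ) / (4 * r + 1)) := Real.one_le_rpow hk1 e0.le
      rw [e3] at e2
      linarith
    calc (1 + Real.log k) ^ (2 * r) ≤ ((4 * r + 2) * (k : ℝ) ^ ((1 : ℝ) / (4 * r + 1))) ^ (2 * r) :=
          pow_le_pow_left₀ (by linarith) e1 _
      _ = (4 * r + 2) ^ (2 * r) * (k : ℝ) ^ ((1 : ℝ) / (4 * r + 1) * (2 * r : ℕ)) := by
          rw [mul_pow, ← Real.rpow_mul_natCast (by positivity)]
      _ ≤ (4 * r + 2) ^ (2 * r) * Real.sqrt k := by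
          apply mul_le_mul_of_nonneg_left _ (by positivity)
          rw [Real.sqrt_eq_rpow]
          apply Real.rpow_le_rpow_of_exponent_le hk1
          push_cast
          rw [div_mul_eq_mul_div, one_mul, div_le_div_iff₀ (by positivity) (by norm_num)]
          have : (0 : ℝ) ≤ r := Nat.cast_nonneg r
          linarith
  obtain ⟨Ck, hCk⟩ : ∃ Ck : ℝ, Ck = 3 * C1 * C2 * C4 * (432 * C3 ^ 2) := ⟨_, rfl⟩
  have hCk0 : 0 < Ck := by rw [hCk]; positivity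
  refine ⟨Ck ^ 2 + 6 * C1, by positivity, ?_⟩
  intro N hN A A' Z Z' hZ hZ2 A1 A2 B hA1 hA2 hSZ hSZ2 hn1 hn2 hB hBI
  obtain ⟨Y, hY⟩ : ∃ Y : ℕ, Y = ⌊(N : ℝ) ^ κ⌋₊ := ⟨_, rfl⟩
  have hYN : (Y : ℝ) ≤ (N : ℝ) ^ κ := by rw [hY]; exact Nat.floor_le (by positivity)
  have hZ' : ∀ p ∈ Pr 0 Y, (Z p).card ≤ r ∧ (Z p).card < p ∧ ∀ c ∈ Z p, c < p := by
    intro p hp
    rw [Pr_mem] at hp
    exact hZ p hp.2 (le_trans (by exact_mod_cast hp.1.2) hYN)
  have hZ2' : ∀ p ∈ Pr 0 Y, (Z' p).card ≤ r ∧ (Z' p).card < p ∧ ∀ c ∈ Z' p, c < p := by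
    intro p hp
    rw [Pr_mem] at hp
    exact hZ2 p hp.2 (le_trans (by exact_mod_cast hp.1.2) hYN)
  rw [← hY]
  obtain ⟨V, hV⟩ : ∃ V : ℝ, V = VV Z 0 Y := ⟨_, rfl⟩
  have hV0 : 0 < V := by rw [hV]; exact VV_nonneg fun p hp => (hZ' p hp).2.1
  obtain ⟨V', hV'⟩ : ∃ V' : ℝ, V' = VV Z' 0 Y := ⟨_, rfl⟩
  have hV'0 : 0 < V' := by rw [hV']; exact VV_nonneg fun p hp => (hZ2' p hp).2.1
  have hN0 : (0 : ℝ) < N := by exact_mod_cast hN
  obtain ⟨D, hD⟩ : ∃ D : ℝ, D = N * V := ⟨_, rfl⟩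
  have hD0 : 0 < D := by rw [hD]; positivity
  obtain ⟨D', hD'⟩ : ∃ D' : ℝ, D' = N * V' := ⟨_, rfl⟩
  have hD'0 : 0 < D' := by rw [hD']; positivity
  obtain ⟨M, hM⟩ : ∃ M : ℕ, M = 2 * N := ⟨_, rfl⟩
  have hM1 : 1 ≤ M := by omega
  have hMr : (M : ℝ) = 2 * N := by rw [hM]; push_cast; ring
  have hM0 : (0 : ℝ) < M := by rw [hMr]; positivity
  obtain ⟨L1, hL1⟩ : ∃ L1 : ℝ, L1 = A1.card := ⟨_, rfl⟩
  obtain ⟨L2, hL2⟩ : ∃ L2 : ℝ, L2 = A2.card := ⟨_, rfl⟩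
  have hL10 : 0 < L1 := by rw [hL1]; exact_mod_cast card_pos.2 hn1
  have hL20 : 0 < L2 := by rw [hL2]; exact_mod_cast card_pos.2 hn2
  obtain ⟨b, hb⟩ : ∃ b : ℕ → ℝ, b = fun j : ℕ => ‖∑ m ∈ B, ee (m * ((j : ℝ) / M))‖ := ⟨_, rfl⟩
  obtain ⟨u, hu⟩ : ∃ u : ℕ → ℝ, u = fun j : ℕ => ‖∑ m ∈ A1, ee (m * ((j : ℝ) / M))‖ := ⟨_, rfl⟩
  obtain ⟨v, hv⟩ : ∃ v : ℕ → ℝ, v = fun j : ℕ => ‖∑ m ∈ A2, ee (m * ((j : ℝ) / M))‖ := ⟨_, rfl⟩
  have hb0 : ∀ j, 0 ≤ b j := fun j => by rw [hb]; exact norm_nonneg _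
  have hu0 : ∀ j, 0 ≤ u j := fun j => by rw [hu]; exact norm_nonneg _
  have hv0 : ∀ j, 0 ≤ v j := fun j => by rw [hv]; exact norm_nonneg _
  have hvL : ∀ j, v j ≤ L2 := by
    intro j
    rw [hv, hL2]
    refine (norm_sum_le _ _).trans ?_
    simp [ls_norm_ee]
  have htri : (M : ℝ) * L1 * L2 ≤ ∑ j ∈ range M, b j * u j * v j := by
    rw [hL1, hL2, hb, hu, hv]
    exact trilinear hM1 A1 A2 B hB
  have hbb : ∑ j ∈ range M, b j ^ 2 = M * B.card := by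
    rw [hb]
    apply parseval hM1 B (a := A + A')
    rw [hM]
    exact hBI
  have hBM : (B.card : ℝ) ≤ M := by
    have := card_le_card hBI
    rw [Nat.card_Ioc] at this
    exact_mod_cast (by omega : B.card ≤ M)
  have hsep : ∀ i ∈ range M, ∀ j ∈ range M, i ≠ j →
      lsSep M ((j : ℝ) / M - (i : ℝ) / M) := by
    intro i hi j hj hij
    have := sep_grid (N := M) 0 (mem_range.1 hi) (mem_range.1 hj) hij
    simpa using this
  -- the large sieve at few points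
  have hLS : ∀ T ⊆ range M, ∑ j ∈ T, u j ^ 2 ≤ 3 * C1 * N * VV Z T.card Y * L1 := by
    intro T hT
    have := h1 N hN A Z hZ A1 hA1 hSZ ℕ T (fun j => (j : ℝ) / M) M hM1
      (fun i hi j hj => hsep i (hT hi) j (hT hj)) (fun _ => 1)
    simp only [one_mul, norm_one, one_pow, sum_const, nsmul_eq_mul, mul_one] at this
    rw [← hY, ← hL1] at this
    rw [hu]
    refine this.trans (le_of_eq ?_)
    rw [hMr]
    ring
  -- third powers
  have hcu : ∑ j ∈ range M, (u j ^ 2) ^ (3 / 2 : ℝ) ≤ C3 * (3 * D * L1) ^ (3 / 2 : ℝ) := by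
    have := h3 N hN A Z hZ A1 hA1 hSZ ℕ (range M)
      (fun j => (j : ℝ) / M) M hM1 hsep (fun _ => 1)
    simp only [one_mul, norm_one, one_pow, sum_const, nsmul_eq_mul, mul_one] at this
    rw [← hY, ← hV, ← hL1] at this
    rw [hu]
    refine this.trans (le_of_eq ?_)
    have e : ((N : ℝ) + M) * V * L1 = 3 * D * L1 := by
      rw [hMr, hD]
      ring
    rw [e]
  have hcv : ∑ j ∈ range M, (v j ^ 2) ^ (3 / 2 : ℝ) ≤ C3 * (3 * D' * L2) ^ (3 / 2 : ℝ) := by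
    have := h3 N hN A' Z' hZ2 A2 hA2 hSZ2 ℕ (range M)
      (fun j => (j : ℝ) / M) M hM1 hsep (fun _ => 1)
    simp only [one_mul, norm_one, one_pow, sum_const, nsmul_eq_mul, mul_one] at this
    rw [← hY, ← hV', ← hL2] at this
    rw [hv]
    refine this.trans (le_of_eq ?_)
    have e : ((N : ℝ) + M) * V' * L2 = 3 * D' * L2 := by
      rw [hMr, hD']
      ring
    rw [e]
  have huv : ∑ j ∈ range M, u j * v j ^ 2 ≤ C3 * (Real.sqrt (3 * D * L1) * (3 * D' * L2)) := by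
    have hpq : Real.HolderConjugate 3 (3 / 2) := by
      rw [Real.holderConjugate_iff]
      norm_num
    have e1 := Real.inner_le_Lp_mul_Lq_of_nonneg (range M) hpq (f := u) (g := fun j => v j ^ 2)
      (fun j _ => hu0 j) (fun j _ => by positivity)
    refine e1.trans ?_
    have e2 : (∑ j ∈ range M, u j ^ (3 : ℝ)) ^ (1 / (3 : ℝ)) ≤
        C3 ^ (1 / (3 : ℝ)) * Real.sqrt (3 * D * L1) := by
      have e3 : ∀ j ∈ range M, u j ^ (3 : ℝ) = (u j ^ 2) ^ (3 / 2 : ℝ) := by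
        intro j _
        rw [← Real.rpow_natCast_mul (hu0 j)]
        norm_num
      rw [sum_congr rfl e3]
      calc (∑ j ∈ range M, (u j ^ 2) ^ (3 / 2 : ℝ)) ^ (1 / (3 : ℝ)) ≤
            (C3 * (3 * D * L1) ^ (3 / 2 : ℝ)) ^ (1 / (3 : ℝ)) :=
            Real.rpow_le_rpow (sum_nonneg fun j _ => by positivity) hcu (by norm_num)
        _ = C3 ^ (1 / (3 : ℝ)) * Real.sqrt (3 * D * L1) := by
            rw [Real.mul_rpow hC3.le (by positivity), ← Real.rpow_mul (by positivity),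
              Real.sqrt_eq_rpow]
            norm_num
    have e3 : (∑ j ∈ range M, (v j ^ 2) ^ (3 / 2 : ℝ)) ^ (1 / (3 / 2 : ℝ)) ≤
        C3 ^ (2 / (3 : ℝ)) * (3 * D' * L2) := by
      calc (∑ j ∈ range M, (v j ^ 2) ^ (3 / 2 : ℝ)) ^ (1 / (3 / 2 : ℝ)) ≤
            (C3 * (3 * D' * L2) ^ (3 / 2 : ℝ)) ^ (1 / (3 / 2 : ℝ)) :=
            Real.rpow_le_rpow (sum_nonneg fun j _ => by positivity) hcv (by norm_num)
        _ = C3 ^ (2 / (3 : ℝ)) * (3 * D' * L2) := by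
            rw [Real.mul_rpow hC3.le (by positivity), ← Real.rpow_mul (by positivity)]
            norm_num
    calc _ ≤ (C3 ^ (1 / (3 : ℝ)) * Real.sqrt (3 * D * L1)) * (C3 ^ (2 / (3 : ℝ)) * (3 * D' * L2)) := by
          apply mul_le_mul e2 e3
          · apply Real.rpow_nonneg
            exact sum_nonneg fun j _ => by positivity
          · positivity
      _ = (C3 ^ (1 / (3 : ℝ)) * C3 ^ (2 / (3 : ℝ))) * (Real.sqrt (3 * D * L1) * (3 * D' * L2)) := by ring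
      _ = _ := by
          rw [← Real.rpow_add hC3]
          norm_num
  -- the threshold
  obtain ⟨s1, hs1⟩ : ∃ s1 : ℝ, s1 = Real.sqrt (3 * D * L1) := ⟨_, rfl⟩
  have hs10 : 0 < s1 := by rw [hs1]; exact Real.sqrt_pos.2 (by positivity)
  have hs1sq : s1 ^ 2 = 3 * D * L1 := by rw [hs1]; exact Real.sq_sqrt (by positivity)
  rw [← hs1] at huv
  obtain ⟨t, ht⟩ : ∃ t : ℝ, t = L1 ^ 2 * L2 / (12 * C3 * D' * s1) := ⟨_, rfl⟩
  have ht0 : 0 < t := by rw [ht]; positivity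
  obtain ⟨T, hT⟩ : ∃ T : Finset ℕ, T = (range M).filter (fun j => t ≤ u j) := ⟨_, rfl⟩
  have hTsub : T ⊆ range M := by rw [hT]; exact filter_subset _ _
  have hsplit : ∑ j ∈ range M, b j * u j * v j = ∑ j ∈ T, b j * u j * v j +
      ∑ j ∈ (range M).filter (fun j => ¬ t ≤ u j), b j * u j * v j := by
    rw [hT, sum_filter_add_sum_filter_not]
  -- the small part
  have hsmall : ∑ j ∈ (range M).filter (fun j => ¬ t ≤ u j), b j * u j * v j ≤ M * L1 * L2 / 2 := by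
    have e1 : ∑ j ∈ (range M).filter (fun j => ¬ t ≤ u j), b j * u j * v j ≤
        ∑ j ∈ range M, b j * (Real.sqrt t * (Real.sqrt (u j) * v j)) := by
      calc ∑ j ∈ (range M).filter (fun j => ¬ t ≤ u j), b j * u j * v j
          ≤ ∑ j ∈ (range M).filter (fun j => ¬ t ≤ u j), b j * (Real.sqrt t * (Real.sqrt (u j) * v j)) := by
            refine sum_le_sum fun j hj => ?_
            rw [mem_filter] at hj
            have e2 : u j ≤ t := by linarith [hj.2]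
            have e3 : u j = Real.sqrt (u j) * Real.sqrt (u j) := (Real.mul_self_sqrt (hu0 j)).symm
            have e4 : Real.sqrt (u j) ≤ Real.sqrt t := Real.sqrt_le_sqrt e2
            calc b j * u j * v j = b j * (Real.sqrt (u j) * (Real.sqrt (u j) * v j)) := by
                  conv_lhs => rw [e3]
                  ring
              _ ≤ b j * (Real.sqrt t * (Real.sqrt (u j) * v j)) := by
                  apply mul_le_mul_of_nonneg_left _ (hb0 j)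
                  exact mul_le_mul_of_nonneg_right e4 (mul_nonneg (Real.sqrt_nonneg _) (hv0 j))
        _ ≤ _ := by
            apply sum_le_sum_of_subset_of_nonneg (filter_subset _ _)
            intro j _ _
            exact mul_nonneg (hb0 j) (mul_nonneg (Real.sqrt_nonneg _)
              (mul_nonneg (Real.sqrt_nonneg _) (hv0 j)))
    have e2 := Finset.sum_mul_sq_le_sq_mul_sq (range M) b (fun j => Real.sqrt t * (Real.sqrt (u j) * v j))
    have e3 : ∑ j ∈ range M, (Real.sqrt t * (Real.sqrt (u j) * v j)) ^ 2 =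
        t * ∑ j ∈ range M, u j * v j ^ 2 := by
      rw [mul_sum]
      refine sum_congr rfl fun j _ => ?_
      rw [mul_pow, mul_pow, Real.sq_sqrt ht0.le, Real.sq_sqrt (hu0 j)]
    rw [hbb, e3] at e2
    have e4 : (M : ℝ) * B.card * (t * ∑ j ∈ range M, u j * v j ^ 2) ≤ (M * L1 * L2 / 2) ^ 2 := by
      calc (M : ℝ) * B.card * (t * ∑ j ∈ range M, u j * v j ^ 2) ≤
            M * M * (t * (C3 * (s1 * (3 * D' * L2)))) := by
            apply mul_le_mul (mul_le_mul_of_nonneg_left hBM hM0.le)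
              (mul_le_mul_of_nonneg_left huv ht0.le) (by
                apply mul_nonneg ht0.le
                exact sum_nonneg fun j _ => mul_nonneg (hu0 j) (by positivity)) (by positivity)
        _ = (M * L1 * L2 / 2) ^ 2 := by
            rw [ht]
            field_simp
            norm_num
    have e5 := e2.trans e4
    exact e1.trans (abs_le_of_sq_le_sq' e5 (by positivity)).2
  -- the large part
  have hlarge : M * L1 * L2 / 2 ≤ ∑ j ∈ T, b j * u j * v j := by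
    rw [hsplit] at htri
    linarith
  obtain ⟨k, hk⟩ : ∃ k : ℕ, k = T.card := ⟨_, rfl⟩
  have hk1 : 1 ≤ k := by
    rw [hk]
    apply card_pos.2
    rw [nonempty_iff_ne_empty]
    intro h
    rw [h, sum_empty] at hlarge
    have : 0 < M * L1 * L2 / 2 := by positivity
    linarith
  have hkr : (1 : ℝ) ≤ k := by exact_mod_cast hk1
  have hLT := hLS T hTsub
  rw [← hk] at hLT
  have hVk : 0 < VV Z k Y := VV_nonneg fun p hp => by
    rw [Pr_mem] at hp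
    exact (hZ' p (Pr_mem.2 ⟨by omega, hp.2⟩)).2.1
  have hlarge2 : ∑ j ∈ T, b j * u j * v j ≤ L2 * ∑ j ∈ T, b j * u j := by
    rw [mul_sum]
    refine sum_le_sum fun j _ => ?_
    calc b j * u j * v j ≤ b j * u j * L2 :=
          mul_le_mul_of_nonneg_left (hvL j) (mul_nonneg (hb0 j) (hu0 j))
      _ = _ := by ring
  have hlarge3 : (∑ j ∈ T, b j * u j) ^ 2 ≤ (M * B.card) * (3 * C1 * N * VV Z k Y * L1) := by
    refine (Finset.sum_mul_sq_le_sq_mul_sq T b u).trans ?_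
    apply mul_le_mul _ hLT (sum_nonneg fun j _ => by positivity) (by positivity)
    rw [← hbb]
    exact sum_le_sum_of_subset_of_nonneg hTsub fun j _ _ => by positivity
  have hfin : M * L1 / 2 ≤ ∑ j ∈ T, b j * u j := by
    have e1 := hlarge.trans hlarge2
    have e2 : L2 * (M * L1 / 2) ≤ L2 * ∑ j ∈ T, b j * u j := by linarith
    exact le_of_mul_le_mul_left e2 hL20
  have hfin2 : (M * L1 / 2) ^ 2 ≤ (M * B.card) * (3 * C1 * N * VV Z k Y * L1) :=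
    (pow_le_pow_left₀ (by positivity) hfin 2).trans hlarge3
  refine ⟨k, hk1, ?_, ?_⟩
  · -- the bound for `k`
    have e1 : (k : ℝ) * t ^ 2 ≤ 3 * C1 * N * VV Z k Y * L1 := by
      refine le_trans ?_ hLT
      rw [hk, ← nsmul_eq_mul, ← sum_const]
      refine sum_le_sum fun j hj => ?_
      rw [hT, mem_filter] at hj
      exact pow_le_pow_left₀ ht0.le hj.2 2
    have e2 := h2 k Y hk1 Z hZ'
    rw [← hV] at e2
    have e3 := h4 k hk1
    have hsk : 0 < Real.sqrt k := Real.sqrt_pos.2 (by linarith)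
    have hskk : Real.sqrt k * Real.sqrt k = k := Real.mul_self_sqrt (by linarith)
    have e4 : (k : ℝ) * t ^ 2 ≤ 3 * C1 * C2 * C4 * D * L1 * Real.sqrt k := by
      calc (k : ℝ) * t ^ 2 ≤ 3 * C1 * N * VV Z k Y * L1 := e1
        _ ≤ 3 * C1 * N * (C2 * V * (1 + Real.log k) ^ (2 * r)) * L1 := by gcongr
        _ ≤ 3 * C1 * N * (C2 * V * (C4 * Real.sqrt k)) * L1 := by gcongr
        _ = _ := by rw [hD]; ring
    have e5 : Real.sqrt k * t ^ 2 ≤ 3 * C1 * C2 * C4 * D * L1 := by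
      have e6 : Real.sqrt k * (Real.sqrt k * t ^ 2) ≤ Real.sqrt k * (3 * C1 * C2 * C4 * D * L1) := by
        calc Real.sqrt k * (Real.sqrt k * t ^ 2) = (Real.sqrt k * Real.sqrt k) * t ^ 2 := by ring
          _ = k * t ^ 2 := by rw [hskk]
          _ ≤ _ := e4
          _ = _ := by ring
      exact le_of_mul_le_mul_left e6 hsk
    have e6 : t ^ 2 * (432 * C3 ^ 2 * (D * D' ^ 2)) = L1 ^ 3 * L2 ^ 2 := by
      rw [ht, div_pow, mul_pow (12 * C3 * D') s1, hs1sq]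
      field_simp
      norm_num
    have e7 : Real.sqrt k * (L1 ^ 2 * L2 ^ 2) ≤ Ck * (D * D') ^ 2 := by
      have e8 : Real.sqrt k * (L1 ^ 3 * L2 ^ 2) ≤ L1 * (Ck * (D * D') ^ 2) := by
        rw [← e6]
        calc Real.sqrt k * (t ^ 2 * (432 * C3 ^ 2 * (D * D' ^ 2))) =
              (Real.sqrt k * t ^ 2) * (432 * C3 ^ 2 * (D * D' ^ 2)) := by ring
          _ ≤ (3 * C1 * C2 * C4 * D * L1) * (432 * C3 ^ 2 * (D * D' ^ 2)) :=
              mul_le_mul_of_nonneg_right e5 (by positivity)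
          _ = _ := by rw [hCk]; ring
      have e9 : L1 * (Real.sqrt k * (L1 ^ 2 * L2 ^ 2)) ≤ L1 * (Ck * (D * D') ^ 2) := by
        calc L1 * (Real.sqrt k * (L1 ^ 2 * L2 ^ 2)) = Real.sqrt k * (L1 ^ 3 * L2 ^ 2) := by ring
          _ ≤ _ := e8
      exact le_of_mul_le_mul_left e9 hL10
    have e8 := pow_le_pow_left₀ (by positivity) e7 2
    rw [← hL1, ← hL2, ← hV, ← hD, ← hV', ← hD']
    calc (k : ℝ) * (L1 * L2) ^ 4 = (Real.sqrt k * (L1 ^ 2 * L2 ^ 2)) ^ 2 := by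
          have e10 : (Real.sqrt k * (L1 ^ 2 * L2 ^ 2)) ^ 2 =
              (Real.sqrt k * Real.sqrt k) * (L1 * L2) ^ 4 := by ring
          rw [e10, hskk]
      _ ≤ (Ck * (D * D') ^ 2) ^ 2 := e8
      _ = Ck ^ 2 * (D * D') ^ 4 := by ring
      _ ≤ (Ck ^ 2 + 6 * C1) * (D * D') ^ 4 := by
          apply mul_le_mul_of_nonneg_right _ (by positivity)
          linarith
  · rw [← hL1]
    have e1 : (M : ℝ) * L1 * (M * L1) ≤ (M * L1) * (12 * C1 * N * VV Z k Y * B.card) := by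
      calc (M : ℝ) * L1 * (M * L1) = 4 * (M * L1 / 2) ^ 2 := by ring
        _ ≤ 4 * ((M * B.card) * (3 * C1 * N * VV Z k Y * L1)) :=
            mul_le_mul_of_nonneg_left hfin2 (by norm_num)
        _ = _ := by ring
    have e2 : (M : ℝ) * L1 ≤ 12 * C1 * N * VV Z k Y * B.card :=
      le_of_mul_le_mul_left e1 (by positivity)
    rw [hMr] at e2
    have e3 : (2 * N : ℝ) * L1 ≤ (2 * N) * (6 * C1 * VV Z k Y * B.card) := by
      calc (2 * N : ℝ) * L1 ≤ _ := e2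
        _ = _ := by ring
    have e4 : L1 ≤ 6 * C1 * VV Z k Y * B.card := le_of_mul_le_mul_left e3 (by positivity)
    refine e4.trans ?_
    apply mul_le_mul_of_nonneg_right _ (Nat.cast_nonneg _)
    apply mul_le_mul_of_nonneg_right _ hVk.le
    have : 0 ≤ Ck ^ 2 := by positivity
    linarith

end Pool.Agent.K7.H64.LS
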