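import Pool.Agent.K7.H64.LS.Inst

/-!
Families of polynomials of bounded degree without a fixed prime divisor: bounds uniform in the coefficients.
-/

set_option autoImplicit false

open Finset Polynomial

namespace Pool.Agent.K7.H64.LS

open Pool.Agent.Y843.HS
open Pool.Agent.Helper112 (ee ls_norm_ee lsSep)

variable {ι : Type} [Fintype ι]

/-- a family of nonconstant polynomials of total degree at most `d` without a fixed prime divisor -/
structure Adm (f : ι → ℤ[X]) (d : ℕ) : Prop where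
  deg : ∀ i, 0 < (f i).natDegree
  tot : ∑ i, (f i).natDegree ≤ d
  adm : ∀ p : ℕ, p.Prime → ∃ m : ℕ, ∀ i, ¬ (p : ℤ) ∣ (f i).eval (m : ℤ)

theorem roots_mod (h : ℤ[X]) {p : ℕ} (hp : p.Prime) {m : ℕ} (hm : ¬ (p : ℤ) ∣ h.eval (m : ℤ)) (T : Finset ℕ)
    (hT : ∀ a ∈ T, a < p ∧ (p : ℤ) ∣ h.eval (a : ℤ)) : T.card ≤ h.natDegree := by
  classical
  have : Fact p.Prime := ⟨hp⟩
  have hev : ∀ a : ℕ, (h.map (Int.castRingHom (ZMod p))).eval (a : ZMod p) = ((h.eval (a : ℤ) : ℤ) : ZMod p) := by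
    intro a
    simp
  have hne : h.map (Int.castRingHom (ZMod p)) ≠ 0 := by
    intro h0
    have h1 := hev m
    rw [h0, eval_zero] at h1
    exact hm ((ZMod.intCast_zmod_eq_zero_iff_dvd _ _).1 h1.symm)
  have h2 : T.image (fun a : ℕ => (a : ZMod p)) ⊆ (h.map (Int.castRingHom (ZMod p))).roots.toFinset := by
    intro x hx
    rw [mem_image] at hx
    obtain ⟨a, ha, rfl⟩ := hx
    rw [Multiset.mem_toFinset, mem_roots hne, IsRoot.def, hev a]
    exact (ZMod.intCast_zmod_eq_zero_iff_dvd _ _).2 (hT a ha).2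
  have h3 := card_le_card h2
  rw [card_image_of_injOn] at h3
  · exact h3.trans ((Multiset.toFinset_card_le _).trans ((card_roots' _).trans natDegree_map_le))
  · intro a ha b hb hab
    have h4 := (ZMod.natCast_eq_natCast_iff' a b p).1 hab
    rwa [Nat.mod_eq_of_lt (hT a ha).1, Nat.mod_eq_of_lt (hT b hb).1] at h4

theorem ZS_uni {f : ι → ℤ[X]} {d : ℕ} (hf : Adm f d) {p : ℕ} (hp : p.Prime) :
    (ZS f p).card ≤ d ∧ (ZS f p).card < p ∧ ∀ c ∈ ZS f p, c < p := by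
  classical
  obtain ⟨m, hm⟩ := hf.adm p hp
  refine ⟨?_, ?_, ZS_lt f p⟩
  · have h1 : ZS f p ⊆ univ.biUnion (fun i => (range p).filter (fun a : ℕ => (p : ℤ) ∣ (f i).eval (a : ℤ))) := by
      intro a ha
      have h2 := ZS_lt f p a ha
      have h3 := (ZS_mem f hp.pos a).1 (by rwa [Nat.mod_eq_of_lt h2])
      obtain ⟨i, hi⟩ := h3
      exact mem_biUnion.2 ⟨i, mem_univ _, mem_filter.2 ⟨mem_range.2 h2, hi⟩⟩
    refine (card_le_card h1).trans (card_biUnion_le.trans (le_trans ?_ hf.tot))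
    refine sum_le_sum fun i _ => ?_
    exact roots_mod (f i) hp (hm i) _ fun a ha => by
      rw [mem_filter, mem_range] at ha
      exact ha
  · have h1 : ZS f p ⊂ range p := by
      refine (Finset.ssubset_iff_of_subset (fun a ha => mem_range.2 (ZS_lt f p a ha))).2 ?_
      refine ⟨m % p, mem_range.2 (Nat.mod_lt _ hp.pos), ?_⟩
      intro h
      obtain ⟨i, hi⟩ := (ZS_mem f hp.pos m).1 h
      exact hm i hi
    have h2 := card_lt_card h1
    rwa [card_range] at h2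

open Classical in
/-- few exceptions, uniformly -/
theorem few_exc_uni (d : ℕ) (κ : ℝ) : ∃ C : ℝ, 0 < C ∧ ∀ (f : ι → ℤ[X]), Adm f d → ∀ N : ℕ, 1 ≤ N →
    ∀ S : Finset ℕ, (∀ n ∈ S, Good f κ N n) →
    ((S.filter (fun n => ¬ Rough f (min κ (1 / 2)) N n)).card : ℝ) ≤ C * Real.sqrt N := by
  refine ⟨3 * d + 1, by positivity, fun f hf N hN S hS => ?_⟩
  have hN1 : (1 : ℝ) ≤ N := by exact_mod_cast hN
  have hs1 : (1 : ℝ) ≤ Real.sqrt N := by rw [Real.one_le_sqrt]; exact hN1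
  obtain ⟨y, hy⟩ : ∃ y : ℕ, y = ⌊Real.sqrt N⌋₊ := ⟨_, rfl⟩
  have hyle : (y : ℝ) ≤ Real.sqrt N := by rw [hy]; exact Nat.floor_le (by positivity)
  have h1 : S.filter (fun n => ¬ Rough f (min κ (1 / 2)) N n) ⊆
      univ.biUnion (fun i => S.filter (fun n : ℕ => |(f i).eval (n : ℤ)| ≤ y)) := by
    intro n hn
    rw [mem_filter] at hn
    obtain ⟨hnS, hR⟩ := hn
    unfold Rough at hR
    push Not at hR
    obtain ⟨q, hq, ⟨i, hi⟩, hqN⟩ := hR
    have hprime : ((f i).eval (n : ℤ)).natAbs.Prime := by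
      rcases hS n hnS with h | h
      · exfalso
        have h2 := h q hq ⟨i, hi⟩
        have h3 : (N : ℝ) ^ min κ (1 / 2) ≤ (N : ℝ) ^ κ :=
          Real.rpow_le_rpow_of_exponent_le hN1 (min_le_left _ _)
        linarith
      · exact h i
    have hqe : q = ((f i).eval (n : ℤ)).natAbs := by
      have h2 : q ∣ ((f i).eval (n : ℤ)).natAbs := Int.natCast_dvd.1 hi
      exact (Nat.prime_dvd_prime_iff_eq hq hprime).1 h2
    rw [mem_biUnion]
    refine ⟨i, mem_univ _, mem_filter.2 ⟨hnS, ?_⟩⟩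
    have h3 : q ≤ y := by
      rw [hy]
      apply Nat.le_floor
      calc (q : ℝ) ≤ (N : ℝ) ^ min κ (1 / 2) := hqN
        _ ≤ (N : ℝ) ^ (1 / 2 : ℝ) := Real.rpow_le_rpow_of_exponent_le hN1 (min_le_right _ _)
        _ = Real.sqrt N := (Real.sqrt_eq_rpow _).symm
    rw [Int.abs_eq_natAbs, ← hqe]
    exact_mod_cast h3
  have h2 := (card_le_card h1).trans card_biUnion_le
  have h3 : ∑ i, (S.filter (fun n : ℕ => |(f i).eval (n : ℤ)| ≤ y)).card ≤
      ∑ i, (f i).natDegree * (2 * y + 1) := by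
    refine sum_le_sum fun i _ => ?_
    exact few_small (f i) (hf.deg i) y _ fun n hn => (mem_filter.1 hn).2
  rw [← sum_mul] at h3
  have h4 : ((S.filter (fun n => ¬ Rough f (min κ (1 / 2)) N n)).card : ℝ) ≤
      ((∑ i, (f i).natDegree : ℕ) : ℝ) * (2 * y + 1) := by exact_mod_cast h2.trans h3
  refine h4.trans ?_
  have h5 : ((∑ i, (f i).natDegree : ℕ) : ℝ) ≤ d := by exact_mod_cast hf.tot
  have h6 : (0 : ℝ) ≤ ((∑ i, (f i).natDegree : ℕ) : ℝ) := Nat.cast_nonneg _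
  have h7 : (0 : ℝ) ≤ d := Nat.cast_nonneg _
  calc ((∑ i, (f i).natDegree : ℕ) : ℝ) * (2 * y + 1) ≤ d * (2 * y + 1) :=
        mul_le_mul_of_nonneg_right h5 (by positivity)
    _ ≤ _ := by nlinarith

/-- the sieve product up to a power compared with the product up to `N` -/
theorem VV_ext (r : ℕ) {κ : ℝ} (hκ : 0 < κ) : ∃ C : ℝ, 0 < C ∧ ∀ N : ℕ, 1 ≤ N → ∀ Z : ℕ → Finset ℕ,
    (∀ p : ℕ, p.Prime → p ≤ N → (Z p).card ≤ r ∧ (Z p).card < p ∧ ∀ c ∈ Z p, c < p) →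
    ∀ k Y : ℕ, Y ≤ N → (N : ℝ) ^ κ < Y + 1 → VV Z k Y ≤ C * VV Z k N := by
  obtain ⟨L, hL⟩ := exists_nat_ge (2 / κ)
  obtain ⟨N1, hN1⟩ : ∃ N1 : ℕ, ∀ N : ℕ, N1 ≤ N → (4 : ℝ) ≤ (N : ℝ) ^ κ := by
    obtain ⟨N1, hN1⟩ := exists_nat_ge ((4 : ℝ) ^ (1 / κ))
    refine ⟨N1, fun N hN => ?_⟩
    have h1 : (4 : ℝ) ^ (1 / κ) ≤ N := hN1.trans (by exact_mod_cast hN)
    calc (4 : ℝ) = ((4 : ℝ) ^ (1 / κ)) ^ κ := by
          rw [← Real.rpow_mul (by norm_num), one_div_mul_cancel hκ.ne', Real.rpow_one]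
      _ ≤ _ := Real.rpow_le_rpow (by positivity) h1 hκ.le
  obtain ⟨c1, hc1, hc11, hlow⟩ := low_const r L N1
  refine ⟨1 / c1, by positivity, ?_⟩
  intro N hN Z hZ k Y hYN hY
  have hN1' : (1 : ℝ) ≤ N := by exact_mod_cast hN
  have hZ' : ∀ a b : ℕ, b ≤ N → ∀ p ∈ Pr a b, (Z p).card ≤ r ∧ (Z p).card < p ∧ ∀ c ∈ Z p, c < p := by
    intro a b hb p hp
    rw [Pr_mem] at hp
    exact hZ p hp.2 (by omega)
  have hpos : ∀ a b : ℕ, b ≤ N → 0 < VV Z a b := fun a b hb => VV_nonneg fun p hp => (hZ' a b hb p hp).2.1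
  -- `N` is at most a power of `Y`, or small
  have hNY : ∀ a : ℕ, Y ≤ a → N ≤ max N1 (a ^ L) := by
    intro a ha
    rcases le_or_gt N N1 with h | h
    · exact h.trans (le_max_left _ _)
    · refine le_trans ?_ (le_max_right _ _)
      have h4 := hN1 N h.le
      have hY0 : (3 : ℝ) < Y := by linarith
      have h5 : (N : ℝ) ^ (κ / 2) ≤ Y := by
        have h2 : (N : ℝ) ^ (κ / 2) * (N : ℝ) ^ (κ / 2) = (N : ℝ) ^ κ := by
          rw [← Real.rpow_add (by linarith)]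
          congr 1
          ring
        have h3 : 0 ≤ (N : ℝ) ^ (κ / 2) := by positivity
        have h4 : (2 : ℝ) ≤ (N : ℝ) ^ (κ / 2) := by nlinarith
        nlinarith
      have h6 : (N : ℝ) ≤ (Y : ℝ) ^ L := by
        calc (N : ℝ) = ((N : ℝ) ^ (κ / 2)) ^ (2 / κ) := by
              rw [← Real.rpow_mul (by linarith)]
              have : κ / 2 * (2 / κ) = 1 := by field_simp
              rw [this, Real.rpow_one]
          _ ≤ ((N : ℝ) ^ (κ / 2)) ^ (L : ℝ) := by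
              apply Real.rpow_le_rpow_of_exponent_le _ hL
              exact Real.one_le_rpow hN1' (by positivity)
          _ ≤ (Y : ℝ) ^ (L : ℝ) := Real.rpow_le_rpow (by positivity) h5 (by positivity)
          _ = (Y : ℝ) ^ L := Real.rpow_natCast _ _
      have h7 : (Y : ℝ) ^ L ≤ (a : ℝ) ^ L := pow_le_pow_left₀ (by linarith) (by exact_mod_cast ha) L
      exact_mod_cast h6.trans h7
  rcases le_or_gt k Y with h | h
  · have h1 := hlow Y N Z (hZ' Y N le_rfl) (hNY Y le_rfl)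
    rw [← VV_split Z h hYN]
    have h2 := hpos k Y hYN
    calc VV Z k Y = 1 / c1 * (VV Z k Y * c1) := by field_simp
      _ ≤ 1 / c1 * (VV Z k Y * VV Z Y N) := by
          apply mul_le_mul_of_nonneg_left _ (by positivity)
          exact mul_le_mul_of_nonneg_left h1 h2.le
  · have h1 := hlow k N Z (hZ' k N le_rfl) (hNY k h.le)
    have h2 : VV Z k Y ≤ 1 := VV_le_one fun p hp => (hZ' k Y hYN p hp).2.1
    refine h2.trans ?_
    rw [one_div_mul_eq_div, le_div_iff₀ hc1]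
    linarith

/-- **the large sieve at few points, uniformly for families of polynomials of bounded degree** -/
theorem lsf_uni (d : ℕ) {κ : ℝ} (hκ : 0 < κ) : ∃ C : ℝ, 0 < C ∧ ∀ (f : ι → ℤ[X]), Adm f d → ∀ N : ℕ, 2 ≤ N →
    ∀ (A : ℕ) (S : Finset ℕ), S ⊆ Ioc A (A + N) → (∀ n ∈ S, Good f κ N n) →
    ∀ (ι' : Type) [DecidableEq ι'] (I : Finset ι') (ξ : ι' → ℝ) (K : ℕ), 1 ≤ K →
    (∀ i ∈ I, ∀ j ∈ I, i ≠ j → lsSep K (ξ j - ξ i)) → ∀ a : ℕ → ℂ,
    ∑ i ∈ I, ‖∑ n ∈ S, a n * ee (n * ξ i)‖ ^ 2 ≤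
      C * ((N : ℝ) + K) * VV (ZS f) I.card N * ∑ n ∈ S, ‖a n‖ ^ 2 := by
  classical
  obtain ⟨κ0, hκ0⟩ : ∃ κ0 : ℝ, κ0 = min κ (1 / 2) := ⟨_, rfl⟩
  have hκ00 : 0 < κ0 := by rw [hκ0]; exact lt_min hκ (by norm_num)
  have hκ01 : κ0 ≤ 1 := by rw [hκ0]; exact (min_le_right _ _).trans (by norm_num)
  obtain ⟨C1, hC1, h1⟩ := lsf d hκ00
  obtain ⟨C2, hC2, h2⟩ := VV_ext d hκ00
  obtain ⟨C3, hC3, h3⟩ := few_exc_uni (ι := ι) d κ
  obtain ⟨C4, hC4, h4⟩ := log_pow_le' (2 * d)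
  obtain ⟨cV, hcV, hVlow⟩ := Pool.Agent.Y843.HG.VV_low d
  obtain ⟨c5, hc5, hc51, hlow5⟩ := low_const d 4 (2 * d + 3)
  refine ⟨2 * (C1 * C2) + 2 * (C3 * (C4 / cV + 1 / c5) + 6 / c5), by positivity, ?_⟩
  intro f hf N hN A S hSI hSG ι' _ I ξ K hK hsep a
  have hN1 : 1 ≤ N := by omega
  have hN2 : (2 : ℝ) ≤ N := by exact_mod_cast hN
  have hN0 : (0 : ℝ) < N := by linarith
  have hlN : 0 < Real.log N := Real.log_pos (by linarith)
  have hNK : (0 : ℝ) < (N : ℝ) + K := by positivity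
  have hr : ∀ p : ℕ, p.Prime → (ZS f p).card ≤ d ∧ (ZS f p).card < p ∧ ∀ c ∈ ZS f p, c < p :=
    fun p hp => ZS_uni hf hp
  set G : ℝ := ∑ n ∈ S, ‖a n‖ ^ 2 with hG
  have hG0 : 0 ≤ G := sum_nonneg fun i _ => by positivity
  obtain ⟨k, hk⟩ : ∃ k : ℕ, k = I.card := ⟨_, rfl⟩
  rw [← hk]
  obtain ⟨W, hW⟩ : ∃ W : ℝ, W = VV (ZS f) k N := ⟨_, rfl⟩
  have hW0 : 0 < W := by rw [hW]; exact VV_nonneg fun p hp => (hr p (Pr_prime hp)).2.1
  rw [← hW]
  rcases Nat.eq_zero_or_pos k with hk0 | hk0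
  · have hI : I = ∅ := card_eq_zero.1 (hk ▸ hk0)
    rw [hI, sum_empty]
    positivity
  have hk1 : (1 : ℝ) ≤ k := by exact_mod_cast hk0
  -- the two parts
  set S0 := S.filter (fun n => Rough f κ0 N n) with hS0
  set S1 := S.filter (fun n => ¬ Rough f κ0 N n) with hS1
  have hS0s : S0 ⊆ S := filter_subset _ _
  have hS1s : S1 ⊆ S := filter_subset _ _
  have hsum0 : ∑ n ∈ S0, ‖a n‖ ^ 2 ≤ G := sum_le_sum_of_subset_of_nonneg hS0s fun _ _ _ => by positivity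
  have hsum1 : ∑ n ∈ S1, ‖a n‖ ^ 2 ≤ G := sum_le_sum_of_subset_of_nonneg hS1s fun _ _ _ => by positivity
  have hsum00 : 0 ≤ ∑ n ∈ S0, ‖a n‖ ^ 2 := sum_nonneg fun i _ => by positivity
  have hsum10 : 0 ≤ ∑ n ∈ S1, ‖a n‖ ^ 2 := sum_nonneg fun i _ => by positivity
  have hsplit : ∀ i ∈ I, ‖∑ n ∈ S, a n * ee (n * ξ i)‖ ^ 2 ≤
      2 * ‖∑ n ∈ S0, a n * ee (n * ξ i)‖ ^ 2 + 2 * ‖∑ n ∈ S1, a n * ee (n * ξ i)‖ ^ 2 := by
    intro i _
    rw [← sum_filter_add_sum_filter_not S (fun n => Rough f κ0 N n)]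
    have h5 := norm_add_le (∑ n ∈ S0, a n * ee (n * ξ i)) (∑ n ∈ S1, a n * ee (n * ξ i))
    have h6 := pow_le_pow_left₀ (norm_nonneg _) h5 2
    refine h6.trans ?_
    nlinarith [sq_nonneg (‖∑ n ∈ S0, a n * ee (n * ξ i)‖ - ‖∑ n ∈ S1, a n * ee (n * ξ i)‖)]
  refine (sum_le_sum hsplit).trans ?_
  rw [sum_add_distrib, ← mul_sum, ← mul_sum]
  have hprod0 : 0 ≤ ((N : ℝ) + K) * W * G := by positivity
  -- the sifted part
  have p0 : ∑ i ∈ I, ‖∑ n ∈ S0, a n * ee (n * ξ i)‖ ^ 2 ≤ C1 * C2 * (((N : ℝ) + K) * W * G) := by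
    have e1 := h1 N hN1 A (ZS f) (fun p hp _ => hr p hp) S0 (hS0s.trans hSI) (fun n hn p hp hpN => by
      rw [ZS_mem f hp.pos]
      intro hd
      have := (mem_filter.1 hn).2 p hp hd
      linarith) ι' I ξ K hK hsep a
    rw [← hk] at e1
    have e2 := h2 N hN1 (ZS f) (fun p hp _ => hr p hp) k ⌊(N : ℝ) ^ κ0⌋₊ (by
      apply Nat.floor_le_of_le
      calc (N : ℝ) ^ κ0 ≤ (N : ℝ) ^ (1 : ℝ) := Real.rpow_le_rpow_of_exponent_le (by linarith) hκ01
        _ = N := Real.rpow_one _) (Nat.lt_floor_add_one _)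
    rw [← hW] at e2
    have e4 : 0 < VV (ZS f) k ⌊(N : ℝ) ^ κ0⌋₊ := VV_nonneg fun p hp => (hr p (Pr_prime hp)).2.1
    calc _ ≤ C1 * ((N : ℝ) + K) * VV (ZS f) k ⌊(N : ℝ) ^ κ0⌋₊ * ∑ n ∈ S0, ‖a n‖ ^ 2 := e1
      _ ≤ C1 * ((N : ℝ) + K) * (C2 * W) * G := by
          apply mul_le_mul (mul_le_mul_of_nonneg_left e2 (by positivity)) hsum0 hsum00 (by positivity)
      _ = _ := by ring
  -- the exceptional part
  have p1 : ∑ i ∈ I, ‖∑ n ∈ S1, a n * ee (n * ξ i)‖ ^ 2 ≤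
      (C3 * (C4 / cV + 1 / c5) + 6 / c5) * (((N : ℝ) + K) * W * G) := by
    rcases le_or_gt (k : ℝ) ((N : ℝ) ^ (1 / 4 : ℝ)) with h | h
    · have hcard : (S1.card : ℝ) ≤ C3 * Real.sqrt N := by
        rw [hS1, hκ0]
        exact h3 f hf N hN1 S hSG
      have e1 : ∀ i ∈ I, ‖∑ n ∈ S1, a n * ee (n * ξ i)‖ ^ 2 ≤ C3 * Real.sqrt N * G := by
        intro i _
        calc ‖∑ n ∈ S1, a n * ee (n * ξ i)‖ ^ 2 ≤ (∑ n ∈ S1, ‖a n‖) ^ 2 := by
              apply pow_le_pow_left₀ (norm_nonneg _)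
              refine (norm_sum_le _ _).trans (le_of_eq ?_)
              exact sum_congr rfl fun n _ => by rw [norm_mul, ls_norm_ee, mul_one]
          _ ≤ S1.card * ∑ n ∈ S1, ‖a n‖ ^ 2 := sq_sum_le_card_mul_sum_sq
          _ ≤ C3 * Real.sqrt N * G := mul_le_mul hcard hsum1 hsum10 (by positivity)
      have e2 : (k : ℝ) * Real.sqrt N * (N : ℝ) ^ (1 / 4 : ℝ) ≤ N := by
        calc (k : ℝ) * Real.sqrt N * (N : ℝ) ^ (1 / 4 : ℝ) ≤
              (N : ℝ) ^ (1 / 4 : ℝ) * Real.sqrt N * (N : ℝ) ^ (1 / 4 : ℝ) := by gcongr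
          _ = N := by
              rw [Real.sqrt_eq_rpow, ← Real.rpow_add hN0, ← Real.rpow_add hN0]
              norm_num
      have hN14 : (1 : ℝ) ≤ (N : ℝ) ^ (1 / 4 : ℝ) := Real.one_le_rpow (by linarith) (by norm_num)
      -- the lower bound for the product
      have e5 : 1 ≤ (C4 / cV + 1 / c5) * (W * (N : ℝ) ^ (1 / 4 : ℝ)) := by
        have hWge : VV (ZS f) 0 N ≤ W := by
          rw [hW]
          have hkN : k ≤ N := by
            have : (k : ℝ) ≤ N := by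
              refine h.trans ?_
              calc (N : ℝ) ^ (1 / 4 : ℝ) ≤ (N : ℝ) ^ (1 : ℝ) :=
                    Real.rpow_le_rpow_of_exponent_le (by linarith) (by norm_num)
                _ = N := Real.rpow_one _
            exact_mod_cast this
          rw [← VV_split (ZS f) (Nat.zero_le k) hkN]
          have e6 : VV (ZS f) 0 k ≤ 1 := VV_le_one fun p hp => (hr p (Pr_prime hp)).2.1
          have e7 : 0 < VV (ZS f) k N := VV_nonneg fun p hp => (hr p (Pr_prime hp)).2.1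
          nlinarith
        rcases le_or_gt (2 * d + 3) N with h6 | h6
        · have e6 := hVlow N h6 (ZS f) (fun p hp => hr p (Pr_prime hp))
          rw [div_le_iff₀ (by positivity)] at e6
          have e7 := h4 N hN1
          have e8 : cV ≤ W * (C4 * (N : ℝ) ^ (1 / 4 : ℝ)) :=
            e6.trans (mul_le_mul hWge e7 (by positivity) hW0.le)
          have e9 : 1 ≤ C4 / cV * (W * (N : ℝ) ^ (1 / 4 : ℝ)) := by
            rw [div_mul_eq_mul_div, le_div_iff₀ hcV]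
            linarith
          have e10 : 0 ≤ 1 / c5 * (W * (N : ℝ) ^ (1 / 4 : ℝ)) := by positivity
          linarith
        · have e6 := hlow5 0 N (ZS f) (fun p hp => hr p (Pr_prime hp)) (h6.le.trans (le_max_left _ _))
          have e8 : c5 ≤ W * (N : ℝ) ^ (1 / 4 : ℝ) := by nlinarith
          have e9 : 1 ≤ 1 / c5 * (W * (N : ℝ) ^ (1 / 4 : ℝ)) := by
            rw [one_div_mul_eq_div, le_div_iff₀ hc5]
            linarith
          have e10 : 0 ≤ C4 / cV * (W * (N : ℝ) ^ (1 / 4 : ℝ)) := by positivity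
          linarith
      have e6 : (k : ℝ) * Real.sqrt N ≤ (C4 / cV + 1 / c5) * (N * W) := by
        have e7 : 0 ≤ (k : ℝ) * Real.sqrt N := by positivity
        have e8 : 0 ≤ (C4 / cV + 1 / c5) * W := by positivity
        calc (k : ℝ) * Real.sqrt N = (k : ℝ) * Real.sqrt N * 1 := by ring
          _ ≤ (k : ℝ) * Real.sqrt N * ((C4 / cV + 1 / c5) * (W * (N : ℝ) ^ (1 / 4 : ℝ))) :=
              mul_le_mul_of_nonneg_left e5 e7
          _ = ((C4 / cV + 1 / c5) * W) * ((k : ℝ) * Real.sqrt N * (N : ℝ) ^ (1 / 4 : ℝ)) := by ring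
          _ ≤ ((C4 / cV + 1 / c5) * W) * N := mul_le_mul_of_nonneg_left e2 e8
          _ = _ := by ring
      calc ∑ i ∈ I, ‖∑ n ∈ S1, a n * ee (n * ξ i)‖ ^ 2 ≤ ∑ _i ∈ I, C3 * Real.sqrt N * G :=
            sum_le_sum e1
        _ = C3 * ((k : ℝ) * Real.sqrt N) * G := by
            rw [sum_const, nsmul_eq_mul, ← hk]
            ring
        _ ≤ C3 * ((C4 / cV + 1 / c5) * (N * W)) * G := by gcongr
        _ = C3 * (C4 / cV + 1 / c5) * (N * W * G) := by ring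
        _ ≤ C3 * (C4 / cV + 1 / c5) * (((N : ℝ) + K) * W * G) := by
            apply mul_le_mul_of_nonneg_left _ (by positivity)
            have : (0 : ℝ) ≤ K := Nat.cast_nonneg K
            gcongr
            linarith
        _ ≤ _ := by
            apply mul_le_mul_of_nonneg_right _ hprod0
            have : (0 : ℝ) ≤ 6 / c5 := by positivity
            linarith
    · have e1 := ls_sub I ξ K N A hK hsep S1 (hS1s.trans hSI) a
      have e2 : c5 ≤ W := by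
        rw [hW]
        apply hlow5 k N (ZS f) (fun p hp => hr p (Pr_prime hp))
        refine le_trans ?_ (le_max_right _ _)
        have e3 : (N : ℝ) ≤ (k : ℝ) ^ 4 := by
          calc (N : ℝ) = ((N : ℝ) ^ (1 / 4 : ℝ)) ^ 4 := by
                rw [← Real.rpow_natCast, ← Real.rpow_mul hN0.le]
                norm_num
            _ ≤ (k : ℝ) ^ 4 := pow_le_pow_left₀ (by positivity) h.le 4
        exact_mod_cast e3
      have e3 : 1 ≤ 1 / c5 * W := by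
        rw [one_div_mul_eq_div, le_div_iff₀ hc5]
        linarith
      calc ∑ i ∈ I, ‖∑ n ∈ S1, a n * ee (n * ξ i)‖ ^ 2 ≤ 6 * ((N : ℝ) + K) * ∑ n ∈ S1, ‖a n‖ ^ 2 := e1
        _ ≤ 6 * ((N : ℝ) + K) * G := mul_le_mul_of_nonneg_left hsum1 (by positivity)
        _ = 6 * (((N : ℝ) + K) * G) * 1 := by ring
        _ ≤ 6 * (((N : ℝ) + K) * G) * (1 / c5 * W) := mul_le_mul_of_nonneg_left e3 (by positivity)
        _ = 6 / c5 * (((N : ℝ) + K) * W * G) := by ring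
        _ ≤ _ := by
            apply mul_le_mul_of_nonneg_right _ hprod0
            have : (0 : ℝ) ≤ C3 * (C4 / cV + 1 / c5) := by positivity
            linarith
  calc 2 * ∑ i ∈ I, ‖∑ n ∈ S0, a n * ee (n * ξ i)‖ ^ 2 + 2 * ∑ i ∈ I, ‖∑ n ∈ S1, a n * ee (n * ξ i)‖ ^ 2
      ≤ 2 * (C1 * C2 * (((N : ℝ) + K) * W * G)) +
        2 * ((C3 * (C4 / cV + 1 / c5) + 6 / c5) * (((N : ℝ) + K) * W * G)) := by linarith
    _ = _ := by ring

/-- **powers at spaced points, uniformly** -/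
theorem lsp_uni (d : ℕ) {κ : ℝ} (hκ : 0 < κ) {s : ℝ} (hs : 1 < s) : ∃ C : ℝ, 0 < C ∧
    ∀ (f : ι → ℤ[X]), Adm f d → ∀ N : ℕ, 2 ≤ N →
    ∀ (A : ℕ) (S : Finset ℕ), S ⊆ Ioc A (A + N) → (∀ n ∈ S, Good f κ N n) →
    ∀ (ι' : Type) [DecidableEq ι'] (I : Finset ι') (ξ : ι' → ℝ) (K : ℕ), 1 ≤ K →
    (∀ i ∈ I, ∀ j ∈ I, i ≠ j → lsSep K (ξ j - ξ i)) → ∀ a : ℕ → ℂ,
    ∑ i ∈ I, (‖∑ n ∈ S, a n * ee (n * ξ i)‖ ^ 2) ^ s ≤
      C * (((N : ℝ) + K) * VV (ZS f) 0 N * ∑ n ∈ S, ‖a n‖ ^ 2) ^ s := by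
  classical
  obtain ⟨C1, hC1, h1⟩ := lsf_uni (ι := ι) d hκ
  obtain ⟨C2, hC2, h2⟩ := VV_cmp d
  obtain ⟨C3, hC3, h3⟩ := series_bound (2 * d) hs
  have hs0 : 0 < s := by linarith
  refine ⟨(C1 * C2) ^ s * C3, by positivity, ?_⟩
  intro f hf N hN A S hSI hSG ι' _ I ξ K hK hsep a
  have hr : ∀ p : ℕ, p.Prime → (ZS f p).card ≤ d ∧ (ZS f p).card < p ∧ ∀ c ∈ ZS f p, c < p :=
    fun p hp => ZS_uni hf hp
  set G : ℝ := ∑ n ∈ S, ‖a n‖ ^ 2 with hG
  have hG0 : 0 ≤ G := sum_nonneg fun i _ => by positivity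
  have hV0 : 0 < VV (ZS f) 0 N := VV_nonneg fun p hp => (hr p (Pr_prime hp)).2.1
  obtain ⟨B, hB⟩ : ∃ B : ℝ, B = ((N : ℝ) + K) * VV (ZS f) 0 N * G := ⟨_, rfl⟩
  have hB0 : 0 ≤ B := by rw [hB]; positivity
  rw [← hB]
  have h4 := power_sum (fun i => ‖∑ n ∈ S, a n * ee (n * ξ i)‖ ^ 2) (fun i => by positivity)
    (fun k : ℕ => C1 * ((N : ℝ) + K) * VV (ZS f) k N * G) hs0.le I (fun T hT =>
      h1 f hf N hN A S hSI hSG ι' T ξ K hK (fun i hi j hj => hsep i (hT hi) j (hT hj)) a)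
  refine h4.trans ?_
  have h5 : ∀ k ∈ Finset.Icc 1 I.card, (C1 * ((N : ℝ) + K) * VV (ZS f) k N * G / k) ^ s ≤
      (C1 * C2 * B) ^ s * ((1 + Real.log k) ^ (2 * d) / k) ^ s := by
    intro k hk
    rw [Finset.mem_Icc] at hk
    have hk1 : (1 : ℝ) ≤ k := by exact_mod_cast hk.1
    have hk0 : (0 : ℝ) < k := by linarith
    have hl : 0 ≤ Real.log k := Real.log_nonneg hk1
    have hVk : 0 < VV (ZS f) k N := VV_nonneg fun p hp => (hr p (Pr_prime hp)).2.1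
    rw [← Real.mul_rpow (by positivity) (by positivity)]
    apply Real.rpow_le_rpow (by positivity) _ hs0.le
    have h6 := h2 k N hk.1 (ZS f) (fun p hp => hr p (Pr_prime hp))
    calc C1 * ((N : ℝ) + K) * VV (ZS f) k N * G / k ≤
          C1 * ((N : ℝ) + K) * (C2 * VV (ZS f) 0 N * (1 + Real.log k) ^ (2 * d)) * G / k := by
          apply div_le_div_of_nonneg_right _ hk0.le
          apply mul_le_mul_of_nonneg_right _ hG0
          apply mul_le_mul_of_nonneg_left h6 (by positivity)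
      _ = _ := by rw [hB]; ring
  refine (sum_le_sum h5).trans ?_
  rw [← mul_sum, Real.mul_rpow (by positivity) hB0]
  calc (C1 * C2) ^ s * B ^ s * ∑ k ∈ Finset.Icc 1 I.card, ((1 + Real.log k) ^ (2 * d) / k) ^ s
      ≤ (C1 * C2) ^ s * B ^ s * C3 := mul_le_mul_of_nonneg_left (h3 _) (by positivity)
    _ = _ := by ring

/-- **the restriction theorem, uniformly** -/
theorem restr_uni (d : ℕ) {κ : ℝ} (hκ : 0 < κ) {p : ℝ} (hp : 2 < p) : ∃ C : ℝ, 0 < C ∧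
    ∀ (f : ι → ℤ[X]), Adm f d → ∀ N : ℕ, 2 ≤ N →
    ∀ (A : ℕ) (S : Finset ℕ), S ⊆ Ioc A (A + N) → (∀ n ∈ S, Good f κ N n) → ∀ a : ℕ → ℂ,
    ∫ α in (0 : ℝ)..1, ‖∑ n ∈ S, a n * ee (n * α)‖ ^ p ≤
      C / N * (N * VV (ZS f) 0 N * ∑ n ∈ S, ‖a n‖ ^ 2) ^ (p / 2) := by
  classical
  obtain ⟨C, hC, h⟩ := lsp_uni (ι := ι) d hκ (s := p / 2) (by linarith)
  refine ⟨C * 2 ^ (p / 2), by positivity, ?_⟩
  intro f hf N hN A S hSI hSG a
  have hN0 : (0 : ℝ) < N := by exact_mod_cast (by omega : 0 < N)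
  have hr : ∀ p : ℕ, p.Prime → (ZS f p).card ≤ d ∧ (ZS f p).card < p ∧ ∀ c ∈ ZS f p, c < p :=
    fun p hp => ZS_uni hf hp
  have hV0 : 0 < VV (ZS f) 0 N := VV_nonneg fun p hp => (hr p (Pr_prime hp)).2.1
  set G : ℝ := ∑ n ∈ S, ‖a n‖ ^ 2 with hG
  have hG0 : 0 ≤ G := sum_nonneg fun i _ => by positivity
  have hcont : Continuous (fun α : ℝ => ‖∑ n ∈ S, a n * ee (n * α)‖ ^ p) := by
    have h1 : Continuous (fun α : ℝ => ‖∑ n ∈ S, a n * ee (n * α)‖) := by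
      refine Continuous.norm ?_
      exact continuous_finsetSum _ fun n _ => continuous_const.mul (ee_cont.comp (by fun_prop))
    exact h1.rpow_const fun _ => Or.inr (by linarith)
  have key := grid_integral (by omega : 1 ≤ N) _ hcont
    (C * (((N : ℝ) + N) * VV (ZS f) 0 N * G) ^ (p / 2)) (fun t => by
    have h1 := h f hf N hN A S hSI hSG ℕ (range N) (fun j => t + (j : ℝ) / N) N (by omega)
      (fun i hi j hj hij => sep_grid t (mem_range.1 hi) (mem_range.1 hj) hij) a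
    refine le_trans (le_of_eq ?_) h1
    refine sum_congr rfl fun j _ => ?_
    rw [← Real.rpow_natCast_mul (norm_nonneg _)]
    congr 1
    push_cast
    ring)
  refine key.trans (le_of_eq ?_)
  have h2 : ((N : ℝ) + N) * VV (ZS f) 0 N * G = 2 * (N * VV (ZS f) 0 N * G) := by ring
  rw [h2, Real.mul_rpow (by norm_num) (by positivity)]
  ring

end Pool.Agent.K7.H64.LS
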