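import Pool.Agent.K7.H64.LS.SysS

/-!
Real spacings, single polynomials, and the polynomial `X ^ 2 + 1`.
-/

set_option autoImplicit false

open Finset Polynomial

namespace Pool.Agent.K7.H64.LS

open Pool.Agent.W123.RU.Poly (Sys)
open Pool.Agent.Helper112 (ee lsSep)

/-- separation in terms of a real number -/
theorem sep_real {δ : ℝ} (hδ : 0 < δ) {x : ℝ} (h : ∀ m : ℤ, δ ≤ |x - m|) : lsSep ⌈1 / δ⌉₊ x := by
  have hK : 1 / δ ≤ (⌈1 / δ⌉₊ : ℝ) := Nat.le_ceil _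
  have h0 : 1 / (⌈1 / δ⌉₊ : ℝ) ≤ δ := by
    rw [div_le_iff₀ (lt_of_lt_of_le (by positivity) hK)]
    calc (1 : ℝ) = δ * (1 / δ) := by field_simp
      _ ≤ δ * ⌈1 / δ⌉₊ := mul_le_mul_of_nonneg_left hK hδ.le
  have h1 := h ⌊x⌋
  have h2 := h (⌊x⌋ + 1)
  have h3 : |x - ⌊x⌋| = Int.fract x := by
    rw [← Int.self_sub_floor]
    exact abs_of_nonneg (by have := Int.floor_le x; linarith)
  have h4 : |x - ((⌊x⌋ + 1 : ℤ) : ℝ)| = 1 - Int.fract x := by
    rw [← Int.self_sub_floor]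
    push_cast
    rw [abs_of_nonpos (by have := Int.lt_floor_add_one x; linarith)]
    ring
  rw [h3] at h1
  rw [h4] at h2
  exact ⟨by linarith, by linarith⟩

variable {ι : Type} [Fintype ι]

/-- the large sieve at few points with a real spacing -/
theorem lsf_real (f : ι → ℤ[X]) (hf : Sys f) {κ : ℝ} (hκ : 0 < κ) : ∃ C : ℝ, 0 < C ∧ ∀ N : ℕ, 2 ≤ N →
    ∀ (A : ℕ) (S : Finset ℕ), S ⊆ Ioc A (A + N) → (∀ n ∈ S, Good f κ N n) →
    ∀ (k : ℕ) (α : Fin k → ℝ) (δ : ℝ), 0 < δ →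
    (∀ i j, i ≠ j → ∀ m : ℤ, δ ≤ |α i - α j - m|) → ∀ a : ℕ → ℂ,
    ∑ i, ‖∑ n ∈ S, a n * Complex.exp (2 * Real.pi * Complex.I * n * α i)‖ ^ 2 ≤
      C * ((N : ℝ) + 1 / δ) * (Real.log (2 * k) / Real.log N) ^ Fintype.card ι *
        ∑ n ∈ S, ‖a n‖ ^ 2 := by
  obtain ⟨C, hC, h⟩ := lsf_sys f hf hκ
  refine ⟨2 * C, by positivity, ?_⟩
  intro N hN A S hSI hSG k α δ hδ hsep a
  have hN2 : (2 : ℝ) ≤ N := by exact_mod_cast hN
  have hK1 : 1 ≤ ⌈1 / δ⌉₊ := Nat.one_le_ceil_iff.2 (by positivity)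
  have hKle : (⌈1 / δ⌉₊ : ℝ) ≤ 1 / δ + 1 := (Nat.ceil_lt_add_one (by positivity)).le
  have h1 := h N hN A S hSI hSG (Fin k) univ α ⌈1 / δ⌉₊ hK1 (fun i _ j _ hij =>
    sep_real hδ (fun m => hsep j i (Ne.symm hij) m)) a
  rw [card_univ, Fintype.card_fin] at h1
  have hG0 : 0 ≤ ∑ n ∈ S, ‖a n‖ ^ 2 := sum_nonneg fun i _ => by positivity
  have hW : 0 ≤ (Real.log (2 * k) / Real.log N) ^ Fintype.card ι := by
    apply pow_nonneg
    apply div_nonneg _ (Real.log_nonneg (by linarith))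
    rcases Nat.eq_zero_or_pos k with hk | hk
    · rw [hk]; simp
    · have : (1 : ℝ) ≤ k := by exact_mod_cast hk
      exact Real.log_nonneg (by linarith)
  have hd : 0 < 1 / δ := by positivity
  calc ∑ i, ‖∑ n ∈ S, a n * Complex.exp (2 * Real.pi * Complex.I * n * α i)‖ ^ 2
      = ∑ i, ‖∑ n ∈ S, a n * ee (n * α i)‖ ^ 2 := by
        refine sum_congr rfl fun i _ => ?_
        have e : ∑ n ∈ S, a n * Complex.exp (2 * Real.pi * Complex.I * n * α i) =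
            ∑ n ∈ S, a n * ee (n * α i) := by
          refine sum_congr rfl fun n _ => ?_
          unfold ee
          congr 2
          push_cast
          ring
        rw [e]
    _ ≤ _ := h1
    _ ≤ (2 * C) * ((N : ℝ) + 1 / δ) * (Real.log (2 * k) / Real.log N) ^ Fintype.card ι *
        ∑ n ∈ S, ‖a n‖ ^ 2 := by
        apply mul_le_mul_of_nonneg_right _ hG0
        apply mul_le_mul_of_nonneg_right _ hW
        nlinarith

/-- the restriction theorem with exponentials -/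
theorem restr_real (f : ι → ℤ[X]) (hf : Sys f) {κ : ℝ} (hκ : 0 < κ) {p : ℝ} (hp : 2 < p) :
    ∃ C : ℝ, 0 < C ∧ ∀ N : ℕ, 2 ≤ N →
    ∀ (A : ℕ) (S : Finset ℕ), S ⊆ Ioc A (A + N) → (∀ n ∈ S, Good f κ N n) → ∀ a : ℕ → ℂ,
    ∫ α in (0 : ℝ)..1, ‖∑ n ∈ S, a n * Complex.exp (2 * Real.pi * Complex.I * n * α)‖ ^ p ≤
      C * ((N : ℝ) ^ (p / 2 - 1) / (Real.log N ^ Fintype.card ι) ^ (p / 2) *
        (∑ n ∈ S, ‖a n‖ ^ 2) ^ (p / 2)) := by
  obtain ⟨C, hC, h⟩ := restr_sys f hf hκ hp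
  refine ⟨C, hC, ?_⟩
  intro N hN A S hSI hSG a
  refine le_trans (le_of_eq ?_) (h N hN A S hSI hSG a)
  congr 1
  funext α
  have e : ∑ n ∈ S, a n * Complex.exp (2 * Real.pi * Complex.I * n * α) =
      ∑ n ∈ S, a n * ee (n * α) := by
    refine sum_congr rfl fun n _ => ?_
    unfold ee
    congr 2
    push_cast
    ring
  rw [e]

/-- a single polynomial -/
theorem sysOne (h : ℤ[X]) (h1 : Irreducible h) (h2 : 0 < h.natDegree) (h3 : 0 < h.leadingCoeff)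
    (h4 : ∀ p : ℕ, p.Prime → ∃ m : ℕ, ¬ (p : ℤ) ∣ h.eval (m : ℤ)) : Sys (fun _ : Unit => h) where
  irr := fun _ => h1
  deg := fun _ => h2
  lead := fun _ => h3
  inj := fun _ _ _ => rfl
  adm := fun p hp => by
    obtain ⟨m, hm⟩ := h4 p hp
    exact ⟨m, fun _ => hm⟩

theorem irr_sq_add_one : Irreducible (X ^ 2 + 1 : ℤ[X]) := by
  have hm : (X ^ 2 + 1 : ℤ[X]).Monic := by monicity!
  have hd : (X ^ 2 + 1 : ℤ[X]).natDegree = 2 := by compute_degree!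
  rw [hm.irreducible_iff_roots_eq_zero_of_degree_le_three (by rw [hd]) (by rw [hd]; norm_num)]
  rw [Multiset.eq_zero_iff_forall_notMem]
  intro x hx
  rw [mem_roots hm.ne_zero, IsRoot.def] at hx
  simp only [eval_add, eval_pow, eval_X, eval_one] at hx
  nlinarith [sq_nonneg x]

/-- the polynomial `X ^ 2 + 1` -/
theorem sysQ : Sys (fun _ : Unit => (X ^ 2 + 1 : ℤ[X])) := by
  have hm : (X ^ 2 + 1 : ℤ[X]).Monic := by monicity!
  have hd : (X ^ 2 + 1 : ℤ[X]).natDegree = 2 := by compute_degree!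
  refine sysOne _ irr_sq_add_one (by rw [hd]; norm_num) (by rw [hm.leadingCoeff]; norm_num) ?_
  intro p hp
  refine ⟨0, ?_⟩
  simp only [eval_add, eval_pow, eval_X, eval_one]
  norm_num
  intro h
  exact hp.one_lt.ne' (by exact_mod_cast Int.eq_one_of_dvd_one (by positivity) h)

end Pool.Agent.K7.H64.LS
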