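import Pool.Agent.K7.H64.LS.LocW

/-!
Sums of dense subsets of sifted sets.
-/

set_option autoImplicit false

open Finset

namespace Pool.Agent.K7.H64.LS

open Pool.Agent.Y843.HS
open Pool.Agent.Helper112 (ee ls_norm_ee lsSep ls_ee_add ls_conj_ee)

/-- the upper bound sieve -/
theorem upper (r : ℕ) {κ : ℝ} (hκ : 0 < κ) : ∃ C : ℝ, 0 < C ∧ ∀ N : ℕ, 1 ≤ N →
    ∀ (A : ℕ) (Z : ℕ → Finset ℕ),
    (∀ q : ℕ, q.Prime → (q : ℝ) ≤ (N : ℝ) ^ κ → (Z q).card ≤ r ∧ (Z q).card < q ∧ ∀ c ∈ Z q, c < q) →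
    ∀ S : Finset ℕ, S ⊆ Ioc A (A + N) →
    (∀ n ∈ S, ∀ q : ℕ, q.Prime → (q : ℝ) ≤ (N : ℝ) ^ κ → n % q ∉ Z q) →
    (S.card : ℝ) ≤ C * N * VV Z 0 ⌊(N : ℝ) ^ κ⌋₊ := by
  obtain ⟨C, hC, h⟩ := lsf r hκ
  refine ⟨2 * C, by positivity, ?_⟩
  intro N hN A Z hZ S hSI hS
  have hN1 : (1 : ℝ) ≤ N := by exact_mod_cast hN
  have h1 := h N hN A Z hZ S hSI hS Unit univ (fun _ => 0) 1 le_rfl (by
    intro i _ j _ hij
    exact absurd (Subsingleton.elim i j) hij) (fun _ => 1)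
  have e0 : ∀ n : ℕ, ee ((n : ℝ) * 0) = 1 := by
    intro n
    rw [mul_zero]
    exact Pool.Agent.Helper112.ls_ee_zero
  simp only [e0, mul_one, sum_const, nsmul_eq_mul, norm_one, one_pow, univ_unique, card_singleton] at h1
  rw [Complex.norm_natCast] at h1
  have h2 : VV Z 1 ⌊(N : ℝ) ^ κ⌋₊ = VV Z 0 ⌊(N : ℝ) ^ κ⌋₊ := by
    unfold VV
    congr 1
    ext p
    rw [Pr_mem, Pr_mem]
    constructor
    · rintro ⟨h3, h4⟩
      exact ⟨by omega, h4⟩
    · rintro ⟨h3, h4⟩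
      exact ⟨⟨h4.one_lt, h3.2⟩, h4⟩
  rw [h2] at h1
  have hV : 0 < VV Z 0 ⌊(N : ℝ) ^ κ⌋₊ := VV_nonneg fun p hp => by
    rw [Pr_mem] at hp
    refine (hZ p hp.2 ?_).2.1
    refine le_trans ?_ (Nat.floor_le (by positivity))
    exact_mod_cast hp.1.2
  rcases Nat.eq_zero_or_pos S.card with h3 | h3
  · rw [h3]
    push_cast
    positivity
  · have h4 : (0 : ℝ) < S.card := by exact_mod_cast h3
    push_cast at h1
    have h5 : (S.card : ℝ) * S.card ≤ S.card * (2 * C * N * VV Z 0 ⌊(N : ℝ) ^ κ⌋₊) := by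
      have h6 : C * ((N : ℝ) + 1) * VV Z 0 ⌊(N : ℝ) ^ κ⌋₊ ≤ 2 * C * N * VV Z 0 ⌊(N : ℝ) ^ κ⌋₊ := by
        apply mul_le_mul_of_nonneg_right _ hV.le
        nlinarith
      nlinarith
    exact le_of_mul_le_mul_left h5 h4

/-- the classes for the integers `m` with `n = W (m - 1) + a` -/
def Zt (Z : ℕ → Finset ℕ) (w W a q : ℕ) : Finset ℕ :=
  if w < q then (Z q).image (fun y : ℕ => ((((y : ZMod q) - (a : ZMod q)) * (W : ZMod q)⁻¹ + 1).val)) else ∅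

theorem Zt_small {Z : ℕ → Finset ℕ} {w W a q : ℕ} (h : q ≤ w) : Zt Z w W a q = ∅ := by
  unfold Zt
  rw [if_neg (by omega)]

theorem Zt_card {Z : ℕ → Finset ℕ} {w W a q : ℕ} (hq : q.Prime) (h : w < q) (hW : ¬ q ∣ W)
    (hZ : ∀ c ∈ Z q, c < q) : (Zt Z w W a q).card = (Z q).card := by
  have : Fact q.Prime := ⟨hq⟩
  unfold Zt
  rw [if_pos h]
  apply card_image_of_injOn
  intro y hy y' hy' hyy
  have hW0 : (W : ZMod q) ≠ 0 := by
    rw [Ne, ZMod.natCast_eq_zero_iff]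
    exact hW
  have h1 := ZMod.val_injective q hyy
  have h2 : ((y : ZMod q) - (a : ZMod q)) * (W : ZMod q)⁻¹ = ((y' : ZMod q) - (a : ZMod q)) * (W : ZMod q)⁻¹ :=
    add_right_cancel h1
  have h3 := mul_right_cancel₀ (inv_ne_zero hW0) h2
  have h4 : (y : ZMod q) = (y' : ZMod q) := by
    have := congrArg (fun x => x + (a : ZMod q)) h3
    simpa using this
  rw [ZMod.natCast_eq_natCast_iff] at h4
  have h5 : y % q = y' % q := h4
  rwa [Nat.mod_eq_of_lt (hZ y hy), Nat.mod_eq_of_lt (hZ y' hy')] at h5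

theorem Zt_lt {Z : ℕ → Finset ℕ} {w W a q : ℕ} (hq : q.Prime) : ∀ c ∈ Zt Z w W a q, c < q := by
  have : NeZero q := ⟨hq.ne_zero⟩
  intro c hc
  unfold Zt at hc
  split_ifs at hc with h
  · rw [mem_image] at hc
    obtain ⟨y, _, rfl⟩ := hc
    exact ZMod.val_lt _
  · simp at hc

theorem Zt_sift {Z : ℕ → Finset ℕ} {w W a q m n : ℕ} (hq : q.Prime) (hW : ¬ q ∣ W)
    (hZ : ∀ c ∈ Z q, c < q) (hm : 1 ≤ m) (hn : n = W * (m - 1) + a) (h : n % q ∉ Z q) :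
    m % q ∉ Zt Z w W a q := by
  have : Fact q.Prime := ⟨hq⟩
  intro hmem
  unfold Zt at hmem
  split_ifs at hmem with hw
  · rw [mem_image] at hmem
    obtain ⟨y, hy, hyy⟩ := hmem
    have hW0 : (W : ZMod q) ≠ 0 := by
      rw [Ne, ZMod.natCast_eq_zero_iff]
      exact hW
    have h1 : (m : ZMod q) = ((y : ZMod q) - (a : ZMod q)) * (W : ZMod q)⁻¹ + 1 := by
      have h2 : ((m % q : ℕ) : ZMod q) = (m : ZMod q) := by
        rw [ZMod.natCast_mod]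
      rw [← h2, ← hyy, ZMod.natCast_zmod_val]
    have h3 : (n : ZMod q) = (y : ZMod q) := by
      rw [hn]
      push_cast [hm]
      rw [h1]
      field_simp
      ring
    rw [ZMod.natCast_eq_natCast_iff] at h3
    have h4 : n % q = y % q := h3
    rw [Nat.mod_eq_of_lt (hZ y hy)] at h4
    rw [h4] at h
    exact h hy
  · simp at hmem

theorem VV_congr {Z Z' : ℕ → Finset ℕ} {a b : ℕ} (h : ∀ p ∈ Pr a b, (Z p).card = (Z' p).card) :
    VV Z a b = VV Z' a b := by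
  unfold VV
  exact prod_congr rfl fun p hp => by rw [h p hp]

theorem VV_Zt {Z : ℕ → Finset ℕ} {w W a Y k : ℕ} (hW : W = primorial w)
    (hZ : ∀ q : ℕ, q.Prime → q ≤ Y → ∀ c ∈ Z q, c < q) (hwY : w ≤ Y) (hk : k ≤ w) :
    VV (Zt Z w W a) k Y = VV Z w Y := by
  rw [← VV_split (Zt Z w W a) hk hwY]
  have h1 : VV (Zt Z w W a) k w = 1 := by
    unfold VV
    apply prod_eq_one
    intro p hp
    rw [Pr_mem] at hp
    rw [Zt_small hp.1.2]
    simp
  rw [h1, one_mul]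
  apply VV_congr
  intro p hp
  rw [Pr_mem] at hp
  apply Zt_card hp.2 hp.1.1 _ (hZ p hp.2 hp.1.2)
  rw [hW, hp.2.dvd_primorial_iff]
  omega

/-- the products and the exponential function -/
theorem exp_VV {Z : ℕ → Finset ℕ} {r z w : ℕ} (hz : 1 ≤ z) (hr : 2 * r ≤ z) (hzw : z ≤ w)
    (hZ : ∀ p ∈ Pr z w, (Z p).card ≤ r) :
    1 ≤ Real.exp (14 * r ^ 2) *
      (Real.exp (∑ p ∈ Pr z w, (((Z p).card : ℝ) / p - 12 * r ^ 2 / (p : ℝ) ^ 2)) * VV Z z w) := by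
  have h1 : Real.exp (∑ p ∈ Pr z w, (- (((Z p).card : ℝ) / p) - 2 * r ^ 2 / (p : ℝ) ^ 2)) ≤ VV Z z w := by
    rw [Real.exp_sum]
    unfold VV
    apply prod_le_prod (fun _ _ => (Real.exp_pos _).le)
    intro p hp
    have hp' := Pr_mem.1 hp
    have hp0 : (0 : ℝ) < p := by exact_mod_cast hp'.2.pos
    have hzp : (z : ℝ) ≤ p := by exact_mod_cast hp'.1.1.le
    have hr' : 2 * (r : ℝ) ≤ z := by exact_mod_cast hr
    have hc : ((Z p).card : ℝ) ≤ r := by exact_mod_cast hZ p hp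
    obtain ⟨x, hx⟩ : ∃ x : ℝ, x = ((Z p).card : ℝ) / p := ⟨_, rfl⟩
    have hx0 : 0 ≤ x := by rw [hx]; positivity
    have hx1 : x ≤ r / p := by rw [hx]; gcongr
    have hx2 : x ≤ 1 / 2 := by
      refine hx1.trans ?_
      rw [div_le_div_iff₀ hp0 (by norm_num)]
      linarith
    rw [← hx]
    have h2 : -x - 2 * x ^ 2 ≤ Real.log (1 - x) := by
      have h3 := Real.one_sub_inv_le_log_of_pos (x := 1 - x) (by linarith)
      refine le_trans ?_ h3
      have h4 : 0 < 1 - x := by linarith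
      have h5 : (1 - x)⁻¹ ≤ 1 + x + 2 * x ^ 2 := by
        rw [inv_le_iff_one_le_mul₀ h4]
        nlinarith [mul_nonneg (mul_nonneg hx0 hx0) (show (0 : ℝ) ≤ 1 / 2 - x by linarith)]
      linarith
    have h3 : x ^ 2 ≤ r ^ 2 / (p : ℝ) ^ 2 := by
      rw [← div_pow]
      exact pow_le_pow_left₀ hx0 hx1 2
    have h4 : -x - 2 * r ^ 2 / (p : ℝ) ^ 2 ≤ Real.log (1 - x) := by
      refine le_trans ?_ h2
      have : 2 * (r : ℝ) ^ 2 / (p : ℝ) ^ 2 = 2 * (r ^ 2 / (p : ℝ) ^ 2) := by ring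
      rw [this]
      linarith
    calc Real.exp (-x - 2 * r ^ 2 / (p : ℝ) ^ 2) ≤ Real.exp (Real.log (1 - x)) := Real.exp_le_exp.2 h4
      _ = 1 - x := Real.exp_log (by linarith)
  have h2 : ∑ p ∈ Pr z w, 1 / (p : ℝ) ^ 2 ≤ 1 := by
    calc ∑ p ∈ Pr z w, 1 / (p : ℝ) ^ 2 ≤ ∑ p ∈ Ioc z w, ((p : ℝ) ^ 2)⁻¹ := by
          simp only [one_div]
          apply sum_le_sum_of_subset_of_nonneg
          · intro p hp
            rw [mem_Ioc]
            exact (Pr_mem.1 hp).1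
          · intro p _ _
            positivity
      _ ≤ (z : ℝ)⁻¹ - (w : ℝ)⁻¹ := sum_Ioc_inv_sq_le_sub (α := ℝ) (by omega) hzw
      _ ≤ 1 := by
          have e1 : (z : ℝ)⁻¹ ≤ 1 := inv_le_one_of_one_le₀ (by exact_mod_cast hz)
          have e2 : (0 : ℝ) ≤ (w : ℝ)⁻¹ := by positivity
          linarith
  have h3 : ∑ p ∈ Pr z w, (((Z p).card : ℝ) / p - 12 * r ^ 2 / (p : ℝ) ^ 2) +
      ∑ p ∈ Pr z w, (- (((Z p).card : ℝ) / p) - 2 * r ^ 2 / (p : ℝ) ^ 2) =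
      - (14 * (r : ℝ) ^ 2 * ∑ p ∈ Pr z w, 1 / (p : ℝ) ^ 2) := by
    rw [← sum_add_distrib, mul_sum, ← sum_neg_distrib]
    refine sum_congr rfl fun p _ => ?_
    ring
  calc (1 : ℝ) = Real.exp 0 := Real.exp_zero.symm
    _ ≤ Real.exp (14 * r ^ 2 + (∑ p ∈ Pr z w, (((Z p).card : ℝ) / p - 12 * r ^ 2 / (p : ℝ) ^ 2) +
        ∑ p ∈ Pr z w, (- (((Z p).card : ℝ) / p) - 2 * r ^ 2 / (p : ℝ) ^ 2))) := by
        apply Real.exp_le_exp.2
        rw [h3]
        have : (0 : ℝ) ≤ 14 * r ^ 2 := by positivity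
        nlinarith
    _ = Real.exp (14 * r ^ 2) *
        (Real.exp (∑ p ∈ Pr z w, (((Z p).card : ℝ) / p - 12 * r ^ 2 / (p : ℝ) ^ 2)) *
        Real.exp (∑ p ∈ Pr z w, (- (((Z p).card : ℝ) / p) - 2 * r ^ 2 / (p : ℝ) ^ 2))) := by
        rw [Real.exp_add, Real.exp_add]
    _ ≤ _ := by
        apply mul_le_mul_of_nonneg_left _ (Real.exp_pos _).le
        exact mul_le_mul_of_nonneg_left h1 (Real.exp_pos _).le

/-- the slices -/
def sl (A : Finset ℕ) (W : ℕ) (a : ZMod W) : Finset ℕ :=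
  (A.filter (fun n : ℕ => (n : ZMod W) = a)).image (fun n => n / W + 1)

theorem sl_mem {A : Finset ℕ} {W : ℕ} [NeZero W] {a : ZMod W} {m : ℕ} (hm : m ∈ sl A W a) :
    ∃ n ∈ A, (n : ZMod W) = a ∧ m = n / W + 1 ∧ n = W * (m - 1) + a.val := by
  unfold sl at hm
  rw [mem_image] at hm
  obtain ⟨n, hn, rfl⟩ := hm
  rw [mem_filter] at hn
  refine ⟨n, hn.1, hn.2, rfl, ?_⟩
  rw [← hn.2, ZMod.val_natCast, Nat.add_sub_cancel]
  exact (Nat.div_add_mod n W).symm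

theorem sl_card (A : Finset ℕ) (W : ℕ) [NeZero W] (a : ZMod W) :
    (sl A W a).card = (A.filter (fun n : ℕ => (n : ZMod W) = a)).card := by
  unfold sl
  apply card_image_of_injOn
  intro n hn n' hn' hnn
  rw [mem_coe, mem_filter] at hn hn'
  have h1 : n % W = n' % W := by
    have := hn.2.trans hn'.2.symm
    rw [ZMod.natCast_eq_natCast_iff] at this
    exact this
  simp only at hnn
  have h2 := Nat.div_add_mod n W
  have h3 := Nat.div_add_mod n' W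
  have h4 : n / W = n' / W := by omega
  rw [← h2, ← h3, h1, h4]

theorem sl_Ioc {A : Finset ℕ} {W x N : ℕ} [NeZero W] (hA : A ⊆ Ioc x (x + N)) (a : ZMod W) :
    sl A W a ⊆ Ioc (x / W) (x / W + (N / W + 2)) := by
  intro m hm
  have hW : 0 < W := Nat.pos_of_ne_zero (NeZero.ne W)
  obtain ⟨n, hn, -, rfl, -⟩ := sl_mem hm
  have h1 := mem_Ioc.1 (hA hn)
  rw [mem_Ioc]
  have h2 : x / W ≤ n / W := Nat.div_le_div_right (by omega)
  have h3 : n / W < x / W + N / W + 2 := by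
    apply Nat.div_lt_of_lt_mul
    have e1 := Nat.lt_mul_div_succ x hW
    have e2 := Nat.lt_mul_div_succ N hW
    have e3 : W * (x / W + N / W + 2) = W * (x / W + 1) + W * (N / W + 1) := by ring
    rw [e3]
    omega
  omega

theorem sl_total (A : Finset ℕ) (W : ℕ) [NeZero W] : ∑ a : ZMod W, (sl A W a).card = A.card := by
  rw [card_eq_sum_card_fiberwise (f := fun n : ℕ => (n : ZMod W)) (t := univ) (by intro n _; simp)]
  exact sum_congr rfl fun a _ => sl_card A W a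

theorem sl_sum {A1 A2 B : Finset ℕ} {W : ℕ} [NeZero W] (hB : ∀ m ∈ A1, ∀ n ∈ A2, m + n ∈ B)
    (a b : ZMod W) :
    ((sl A1 W a ×ˢ sl A2 W b).image (fun x => x.1 + x.2)).card ≤
      (B.filter (fun d : ℕ => (d : ZMod W) = a + b)).card := by
  have hW : 0 < W := Nat.pos_of_ne_zero (NeZero.ne W)
  apply card_le_card_of_injOn (fun s => W * (s - 2) + a.val + b.val)
  · intro s hs
    rw [mem_coe, mem_image] at hs
    obtain ⟨⟨m, m'⟩, hmm, rfl⟩ := hs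
    rw [mem_product] at hmm
    obtain ⟨n, hn, h1, h2, h3⟩ := sl_mem hmm.1
    obtain ⟨n', hn', h1', h2', h3'⟩ := sl_mem hmm.2
    simp only at h2 h2' h3 h3' ⊢
    have e : W * (m + m' - 2) + a.val + b.val = n + n' := by
      have m1 : 1 ≤ m := by rw [h2]; exact Nat.le_add_left _ _
      have m1' : 1 ≤ m' := by rw [h2']; exact Nat.le_add_left _ _
      have e1 : m + m' - 2 = (m - 1) + (m' - 1) := by omega
      rw [e1]
      conv_rhs => rw [h3, h3']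
      ring
    rw [e, mem_coe, mem_filter]
    refine ⟨hB n hn n' hn', ?_⟩
    push_cast
    rw [h1, h1']
  · intro s hs s' hs' hss
    rw [mem_coe, mem_image] at hs hs'
    obtain ⟨⟨m, m'⟩, hmm, rfl⟩ := hs
    obtain ⟨⟨k, k'⟩, hkk, rfl⟩ := hs'
    rw [mem_product] at hmm hkk
    obtain ⟨_, _, _, h2, _⟩ := sl_mem hmm.1
    obtain ⟨_, _, _, h2', _⟩ := sl_mem hmm.2
    obtain ⟨_, _, _, h3, _⟩ := sl_mem hkk.1
    obtain ⟨_, _, _, h3', _⟩ := sl_mem hkk.2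
    simp only at h2 h2' h3 h3' hss ⊢
    have m1 : 1 ≤ m := by rw [h2]; exact Nat.le_add_left _ _
    have m1' : 1 ≤ m' := by rw [h2']; exact Nat.le_add_left _ _
    have k1 : 1 ≤ k := by rw [h3]; exact Nat.le_add_left _ _
    have k1' : 1 ≤ k' := by rw [h3']; exact Nat.le_add_left _ _
    have e : W * (m + m' - 2) = W * (k + k' - 2) :=
      Nat.add_right_cancel (Nat.add_right_cancel hss)
    have e2 := Nat.eq_of_mul_eq_mul_left hW e
    omega

end Pool.Agent.K7.H64.LS
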