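import Pool.Agent.K7.H64.LS.Dense

/-!
Sums of dense subsets of sifted sets: the main theorem.
-/

set_option autoImplicit false

open Finset

namespace Pool.Agent.K7.H64.LS

open Pool.Agent.Y843.HS

set_option maxHeartbeats 4000000 in
theorem dense_core (r : ℕ) {κ : ℝ} (hκ : 0 < κ) : ∃ C : ℝ, 1 ≤ C ∧ ∀ w N N' W : ℕ, 1 ≤ N →
    W = primorial w → N' = N / W + 2 → (w : ℝ) ≤ (N' : ℝ) ^ κ → ∀ (A A' : ℕ) (Z Z' : ℕ → Finset ℕ),
    (∀ q : ℕ, q.Prime → (q : ℝ) ≤ (N' : ℝ) ^ κ → (Z q).card ≤ r ∧ (Z q).card < q ∧ ∀ c ∈ Z q, c < q) →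
    (∀ q : ℕ, q.Prime → (q : ℝ) ≤ (N' : ℝ) ^ κ → (Z' q).card ≤ r ∧ (Z' q).card < q ∧ ∀ c ∈ Z' q, c < q) →
    ∀ A1 A2 B : Finset ℕ, A1 ⊆ Ioc A (A + N) → A2 ⊆ Ioc A' (A' + N) →
    (∀ n ∈ A1, ∀ q : ℕ, q.Prime → (q : ℝ) ≤ (N' : ℝ) ^ κ → n % q ∉ Z q) →
    (∀ n ∈ A2, ∀ q : ℕ, q.Prime → (q : ℝ) ≤ (N' : ℝ) ^ κ → n % q ∉ Z' q) →
    A1.Nonempty → A2.Nonempty →
    (∀ m ∈ A1, ∀ n ∈ A2, m + n ∈ B) →
    ∀ z : ℕ, 2 * r ≤ z → 1 ≤ z → z ≤ w →
    C * ((N' * W * VV Z 0 ⌊(N' : ℝ) ^ κ⌋₊ / A1.card) * (N' * W * VV Z' 0 ⌊(N' : ℝ) ^ κ⌋₊ / A2.card)) ^ 4 ≤ w →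
    Real.log (C * (N' * W * VV Z' 0 ⌊(N' : ℝ) ^ κ⌋₊ / A2.card)) ≤ z →
    (A1.card : ℝ) ≤ C * VV Z z ⌊(N' : ℝ) ^ κ⌋₊ * B.card := by
  classical
  obtain ⟨C1, hC1, h1⟩ := sums2 r hκ
  obtain ⟨C5, hC5, h5⟩ := upper r hκ
  obtain ⟨Ce, hCe⟩ : ∃ Ce : ℝ, Ce = Real.exp (6 * r) * Real.exp (14 * r ^ 2) := ⟨_, rfl⟩
  have hCe0 : 0 < Ce := by rw [hCe]; positivity
  obtain ⟨C, hC⟩ : ∃ C : ℝ, C = 256 * C1 + 2 * C5 + 2 * C1 * Ce + 1 := ⟨_, rfl⟩
  have hC0 : 1 ≤ C := by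
    rw [hC]
    have : 0 < 256 * C1 + 2 * C5 + 2 * C1 * Ce := by positivity
    linarith
  refine ⟨C, hC0, ?_⟩
  intro w N N' W hN hW hN' hwN A A' Z Z' hZ hZ' A1 A2 B hA1 hA2 hS1 hS2 hn1 hn2 hB z hrz hz1 hzw hkw hlog
  have : NeZero W := ⟨by rw [hW]; exact primorial_ne_zero w⟩
  have hW0 : (0 : ℝ) < W := by
    have : 0 < W := Nat.pos_of_ne_zero (NeZero.ne W)
    exact_mod_cast this
  have hN'1 : 1 ≤ N' := by
    rw [hN']
    exact (Nat.le_trans (by norm_num) (Nat.le_add_left 2 _))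
  have hN'0 : (0 : ℝ) < N' := by exact_mod_cast hN'1
  obtain ⟨Y, hY⟩ : ∃ Y : ℕ, Y = ⌊(N' : ℝ) ^ κ⌋₊ := ⟨_, rfl⟩
  rw [← hY] at hkw hlog ⊢
  have hYN : (Y : ℝ) ≤ (N' : ℝ) ^ κ := by rw [hY]; exact Nat.floor_le (by positivity)
  have hwY : w ≤ Y := by rw [hY]; exact Nat.le_floor hwN
  have hZ1 : ∀ p : ℕ, p.Prime → p ≤ Y → (Z p).card ≤ r ∧ (Z p).card < p ∧ ∀ c ∈ Z p, c < p :=
    fun p hp hpY => hZ p hp (le_trans (by exact_mod_cast hpY) hYN)
  have hZ2 : ∀ p : ℕ, p.Prime → p ≤ Y → (Z' p).card ≤ r ∧ (Z' p).card < p ∧ ∀ c ∈ Z' p, c < p :=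
    fun p hp hpY => hZ' p hp (le_trans (by exact_mod_cast hpY) hYN)
  have hWq : ∀ q : ℕ, q.Prime → w < q → ¬ q ∣ W := by
    intro q hq hwq
    rw [hW, hq.dvd_primorial_iff]
    omega
  have hVp : ∀ a b : ℕ, b ≤ Y → 0 < VV Z a b := fun a b hb => VV_nonneg fun p hp => by
    rw [Pr_mem] at hp
    exact (hZ1 p hp.2 (by omega)).2.1
  have hVp' : ∀ a b : ℕ, b ≤ Y → 0 < VV Z' a b := fun a b hb => VV_nonneg fun p hp => by
    rw [Pr_mem] at hp
    exact (hZ2 p hp.2 (by omega)).2.1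
  -- notation
  obtain ⟨VA, hVA⟩ : ∃ VA : ℝ, VA = VV Z w Y := ⟨_, rfl⟩
  obtain ⟨VB, hVB⟩ : ∃ VB : ℝ, VB = VV Z' w Y := ⟨_, rfl⟩
  have hVA0 : 0 < VA := by rw [hVA]; exact hVp _ _ le_rfl
  have hVB0 : 0 < VB := by rw [hVB]; exact hVp' _ _ le_rfl
  obtain ⟨L1, hL1⟩ : ∃ L1 : ℝ, L1 = A1.card := ⟨_, rfl⟩
  obtain ⟨L2, hL2⟩ : ∃ L2 : ℝ, L2 = A2.card := ⟨_, rfl⟩
  have hL10 : 0 < L1 := by rw [hL1]; exact_mod_cast card_pos.2 hn1
  have hL20 : 0 < L2 := by rw [hL2]; exact_mod_cast card_pos.2 hn2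
  obtain ⟨ρ1, hρ1⟩ : ∃ ρ1 : ℝ, ρ1 = W * VV Z 0 w := ⟨_, rfl⟩
  obtain ⟨ρ2, hρ2⟩ : ∃ ρ2 : ℝ, ρ2 = W * VV Z' 0 w := ⟨_, rfl⟩
  have hρ10 : 0 < ρ1 := by rw [hρ1]; exact mul_pos hW0 (hVp _ _ hwY)
  have hρ20 : 0 < ρ2 := by rw [hρ2]; exact mul_pos hW0 (hVp' _ _ hwY)
  have hcardR : ((RW Z w W).card : ℝ) = ρ1 := by
    rw [hρ1]
    exact card_RW Z w (fun p hp hpw => (hZ1 p hp (by omega)).2.2) W hW
  have hcardS : ((RW Z' w W).card : ℝ) = ρ2 := by
    rw [hρ2]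
    exact card_RW Z' w (fun p hp hpw => (hZ2 p hp (by omega)).2.2) W hW
  have hX1 : N' * W * VV Z 0 Y / L1 = N' * VA * ρ1 / L1 := by
    rw [hρ1, hVA, ← VV_split Z (Nat.zero_le w) hwY]
    ring
  have hX2 : N' * W * VV Z' 0 Y / L2 = N' * VB * ρ2 / L2 := by
    rw [hρ2, hVB, ← VV_split Z' (Nat.zero_le w) hwY]
    ring
  rw [← hL1, ← hL2, hX1, hX2] at hkw
  rw [← hL2, hX2] at hlog
  rw [← hL1]
  -- the slices
  have hsl : ∀ (A0 : ℕ) (T : Finset ℕ), T ⊆ Ioc A0 (A0 + N) → ∀ a : ZMod W,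
      sl T W a ⊆ Ioc (A0 / W) (A0 / W + N') := by
    intro A0 T hT a
    rw [hN']
    exact sl_Ioc hT a
  have hZt : ∀ (Y' : ℕ → Finset ℕ), (∀ q : ℕ, q.Prime → (q : ℝ) ≤ (N' : ℝ) ^ κ →
      (Y' q).card ≤ r ∧ (Y' q).card < q ∧ ∀ c ∈ Y' q, c < q) → ∀ (a : ℕ) (q : ℕ), q.Prime →
      (q : ℝ) ≤ (N' : ℝ) ^ κ → (Zt Y' w W a q).card ≤ r ∧ (Zt Y' w W a q).card < q ∧
        ∀ c ∈ Zt Y' w W a q, c < q := by
    intro Y' hY' a q hq hqN
    rcases Nat.lt_or_ge w q with hwq | hwq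
    · rw [Zt_card hq hwq (hWq q hq hwq) (hY' q hq hqN).2.2]
      exact ⟨(hY' q hq hqN).1, (hY' q hq hqN).2.1, Zt_lt hq⟩
    · rw [Zt_small hwq]
      exact ⟨by simp, by simpa using hq.pos, by simp⟩
  have hsift : ∀ (Y' : ℕ → Finset ℕ) (T : Finset ℕ), (∀ q : ℕ, q.Prime → (q : ℝ) ≤ (N' : ℝ) ^ κ →
      (Y' q).card ≤ r ∧ (Y' q).card < q ∧ ∀ c ∈ Y' q, c < q) →
      (∀ n ∈ T, ∀ q : ℕ, q.Prime → (q : ℝ) ≤ (N' : ℝ) ^ κ → n % q ∉ Y' q) →
      ∀ (a : ZMod W), ∀ m ∈ sl T W a, ∀ q : ℕ, q.Prime → (q : ℝ) ≤ (N' : ℝ) ^ κ →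
      m % q ∉ Zt Y' w W a.val q := by
    intro Y' T hY' hT a m hm q hq hqN
    rcases Nat.lt_or_ge w q with hwq | hwq
    · obtain ⟨n, hn, _, h2, h3⟩ := sl_mem hm
      exact Zt_sift hq (hWq q hq hwq) (hY' q hq hqN).2.2 (by rw [h2]; exact Nat.le_add_left _ _) h3
        (hT n hn q hq hqN)
    · rw [Zt_small hwq]
      simp
  -- classes of nonempty slices
  have hcls : ∀ (Y' : ℕ → Finset ℕ) (T : Finset ℕ),
      (∀ n ∈ T, ∀ q : ℕ, q.Prime → (q : ℝ) ≤ (N' : ℝ) ^ κ → n % q ∉ Y' q) →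
      ∀ (a : ZMod W), (sl T W a).Nonempty → a ∈ RW Y' w W := by
    intro Y' T hT a hne
    obtain ⟨m, hm⟩ := hne
    obtain ⟨n, hn, h2, _, _⟩ := sl_mem hm
    rw [RW_mem]
    intro p hp hpw
    have h3 := hT n hn p hp (le_trans (by exact_mod_cast hpw) hwN)
    rw [← h2, ZMod.val_natCast, Nat.mod_mod_of_dvd]
    · exact h3
    · rw [hW]; exact hp.dvd_primorial_iff.2 hpw
  -- the weights
  obtain ⟨f, hf⟩ : ∃ f : ZMod W → ℝ, f = fun a =>
    if L1 ≤ 2 * ρ1 * (sl A1 W a).card then ((sl A1 W a).card : ℝ) else 0 := ⟨_, rfl⟩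
  have hf0 : ∀ a, 0 ≤ f a := by
    intro a
    rw [hf]
    simp only
    split_ifs
    · positivity
    · exact le_rfl
  have hfR : ∀ a, a ∉ RW Z w W → f a = 0 := by
    intro a ha
    have h2 : sl A1 W a = ∅ := by
      by_contra hne
      exact ha (hcls Z A1 hS1 a (nonempty_iff_ne_empty.2 hne))
    rw [hf]
    simp only
    rw [h2]
    simp
  have htot1 : ∑ a : ZMod W, ((sl A1 W a).card : ℝ) = L1 := by
    rw [hL1]
    exact_mod_cast sl_total A1 W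
  have htot2 : ∑ a : ZMod W, ((sl A2 W a).card : ℝ) = L2 := by
    rw [hL2]
    exact_mod_cast sl_total A2 W
  have hfs : L1 / 2 ≤ ∑ a, f a := by
    have e1 : ∀ a : ZMod W, ((sl A1 W a).card : ℝ) ≤ f a + (if a ∈ RW Z w W then L1 / (2 * ρ1) else 0) := by
      intro a
      rw [hf]
      simp only
      split_ifs with h2 h3 h3
      · have : 0 ≤ L1 / (2 * ρ1) := by positivity
        linarith
      · linarith
      · rw [zero_add, le_div_iff₀ (by positivity)]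
        push Not at h2
        linarith
      · have h4 : sl A1 W a = ∅ := by
          by_contra hne
          exact h3 (hcls Z A1 hS1 a (nonempty_iff_ne_empty.2 hne))
        rw [h4]; simp
    have e2 := sum_le_sum fun a (_ : a ∈ (univ : Finset (ZMod W))) => e1 a
    rw [htot1, sum_add_distrib, ← sum_filter, sum_const, nsmul_eq_mul] at e2
    have e3 : univ.filter (fun a => a ∈ RW Z w W) = RW Z w W := by ext; simp
    rw [e3, hcardR] at e2
    have e4 : ρ1 * (L1 / (2 * ρ1)) = L1 / 2 := by field_simp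
    rw [e4] at e2
    linarith
  -- the classes of the second set
  obtain ⟨T, hT⟩ : ∃ T : Finset (ZMod W), T = (RW Z' w W).filter (fun b => L2 ≤ 2 * ρ2 * (sl A2 W b).card) :=
    ⟨_, rfl⟩
  have hTS : T ⊆ RW Z' w W := by rw [hT]; exact filter_subset _ _
  have hupper : ∀ b : ZMod W, ((sl A2 W b).card : ℝ) ≤ C5 * (N' * VB) := by
    intro b
    have := h5 N' hN'1 (A' / W) (Zt Z' w W b.val) (hZt Z' hZ' b.val) (sl A2 W b) (hsl A' A2 hA2 b)
      (hsift Z' A2 hZ' hS2 b)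
    rw [← hY, VV_Zt hW (fun q hq hqY => (hZ2 q hq hqY).2.2) hwY (Nat.zero_le w), ← hVB] at this
    linarith
  have hTc : L2 ≤ 2 * C5 * (N' * VB) * T.card := by
    have e1 : ∀ b : ZMod W, ((sl A2 W b).card : ℝ) ≤ (if b ∈ T then C5 * (N' * VB) else 0) +
        (if b ∈ RW Z' w W then L2 / (2 * ρ2) else 0) := by
      intro b
      by_cases h3 : b ∈ RW Z' w W
      · rw [if_pos h3]
        have h6 : 0 ≤ L2 / (2 * ρ2) := by positivity
        by_cases h2 : b ∈ T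
        · rw [if_pos h2]
          have := hupper b
          linarith
        · rw [if_neg h2, zero_add, le_div_iff₀ (by positivity)]
          rw [hT, mem_filter] at h2
          push Not at h2
          have := h2 h3
          linarith
      · have h4 : sl A2 W b = ∅ := by
          by_contra hne
          exact h3 (hcls Z' A2 hS2 b (nonempty_iff_ne_empty.2 hne))
        rw [h4, if_neg h3, if_neg (fun h => h3 (hTS h))]
        simp
    have e2 := sum_le_sum fun a (_ : a ∈ (univ : Finset (ZMod W))) => e1 a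
    rw [htot2, sum_add_distrib, ← sum_filter, ← sum_filter, sum_const, sum_const, nsmul_eq_mul,
      nsmul_eq_mul] at e2
    have e3 : univ.filter (fun a => a ∈ RW Z' w W) = RW Z' w W := by ext; simp
    have e3' : univ.filter (fun a => a ∈ T) = T := by ext; simp
    rw [e3, e3', hcardS] at e2
    have e4 : ρ2 * (L2 / (2 * ρ2)) = L2 / 2 := by field_simp
    rw [e4] at e2
    linarith
  have hTne : T.Nonempty := by
    rw [← card_pos]
    by_contra h0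
    have : T.card = 0 := by omega
    rw [this] at hTc
    push_cast at hTc
    linarith
  have hTc0 : (0 : ℝ) < T.card := by exact_mod_cast card_pos.2 hTne
  -- the sums of slices
  obtain ⟨M, hM⟩ : ∃ M : ZMod W → ℝ, M = fun c => ((B.filter (fun d : ℕ => (d : ZMod W) = c)).card : ℝ) :=
    ⟨_, rfl⟩
  have hM0 : ∀ c, 0 ≤ M c := fun c => by rw [hM]; positivity
  have hMs : ∑ c, M c = B.card := by
    rw [hM]
    rw [card_eq_sum_card_fiberwise (s := B) (f := fun n : ℕ => (n : ZMod W)) (t := univ) (by intro n _; simp)]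
    push_cast
    rfl
  have hsum : ∀ a, 0 < f a → ∀ b ∈ T, 1 / (C1 * VA) * f a ≤ M (a + b) := by
    intro a ha b hb
    have hb2 : L2 ≤ 2 * ρ2 * (sl A2 W b).card := by
      rw [hT, mem_filter] at hb
      exact hb.2
    have ha2 : L1 ≤ 2 * ρ1 * (sl A1 W a).card ∧ f a = (sl A1 W a).card := by
      rw [hf] at ha ⊢
      simp only at ha ⊢
      split_ifs at ha ⊢ with h2
      · exact ⟨h2, rfl⟩
      · exact absurd ha (lt_irrefl _)
    have hal : (0 : ℝ) < (sl A1 W a).card := by rw [← ha2.2]; exact ha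
    have hbl : (0 : ℝ) < (sl A2 W b).card := by
      by_contra h0
      push Not at h0
      have : 2 * ρ2 * ((sl A2 W b).card : ℝ) ≤ 0 := by nlinarith
      linarith
    obtain ⟨k, hk1, hk2, hk3⟩ := h1 N' hN'1 (A / W) (A' / W) (Zt Z w W a.val) (Zt Z' w W b.val)
      (hZt Z hZ a.val) (hZt Z' hZ' b.val) (sl A1 W a) (sl A2 W b)
      ((sl A1 W a ×ˢ sl A2 W b).image (fun x => x.1 + x.2)) (hsl A A1 hA1 a) (hsl A' A2 hA2 b)
      (hsift Z A1 hZ hS1 a) (hsift Z' A2 hZ' hS2 b) (card_pos.1 (by exact_mod_cast hal))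
      (card_pos.1 (by exact_mod_cast hbl))
      (fun m hm n hn => mem_image.2 ⟨(m, n), mem_product.2 ⟨hm, hn⟩, rfl⟩)
      (by
        intro x hx
        rw [mem_image] at hx
        obtain ⟨⟨m, n⟩, hmn, rfl⟩ := hx
        rw [mem_product] at hmn
        have e1 := mem_Ioc.1 (hsl A A1 hA1 a hmn.1)
        have e2 := mem_Ioc.1 (hsl A' A2 hA2 b hmn.2)
        rw [mem_Ioc]
        simp only at e1 e2 ⊢
        omega)
    rw [← hY] at hk2 hk3
    rw [VV_Zt hW (fun q hq hqY => (hZ1 q hq hqY).2.2) hwY (Nat.zero_le w), ← hVA,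
      VV_Zt hW (fun q hq hqY => (hZ2 q hq hqY).2.2) hwY (Nat.zero_le w), ← hVB] at hk2
    -- the size of `k`
    have hkw' : k ≤ w := by
      obtain ⟨u, hu⟩ : ∃ u : ℝ, u = ((sl A1 W a).card : ℝ) * (sl A2 W b).card := ⟨_, rfl⟩
      rw [← hu] at hk2
      have hu0 : 0 < u := by rw [hu]; positivity
      have e1 : L1 * L2 ≤ 4 * (ρ1 * ρ2) * u := by
        calc L1 * L2 ≤ (2 * ρ1 * (sl A1 W a).card) * (2 * ρ2 * (sl A2 W b).card) :=
              mul_le_mul ha2.1 hb2 hL20.le (by positivity)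
          _ = _ := by rw [hu]; ring
      have e2 : (N' * VA) * (N' * VB) ≤ 4 * ((N' * VA * ρ1 / L1) * (N' * VB * ρ2 / L2)) * u := by
        have e3 : 4 * ((N' * VA * ρ1 / L1) * (N' * VB * ρ2 / L2)) * u =
            ((N' * VA) * (N' * VB)) * ((4 * (ρ1 * ρ2) * u) / (L1 * L2)) := by
          field_simp
        rw [e3]
        have e4 : 1 ≤ (4 * (ρ1 * ρ2) * u) / (L1 * L2) := by
          rw [le_div_iff₀ (by positivity), one_mul]
          exact e1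
        have e5 : 0 ≤ (N' * VA) * (N' * VB) := by positivity
        nlinarith
      obtain ⟨P, hP⟩ : ∃ P : ℝ, P = (N' * VA * ρ1 / L1) * (N' * VB * ρ2 / L2) := ⟨_, rfl⟩
      rw [← hP] at e2 hkw
      have hP0 : 0 < P := by rw [hP]; positivity
      have e3 : (k : ℝ) * u ^ 4 ≤ (256 * C1 * P ^ 4) * u ^ 4 := by
        calc (k : ℝ) * u ^ 4 ≤ C1 * ((N' * VA) * (N' * VB)) ^ 4 := hk2
          _ ≤ C1 * (4 * P * u) ^ 4 := by
              apply mul_le_mul_of_nonneg_left _ hC1.le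
              exact pow_le_pow_left₀ (by positivity) e2 4
          _ = _ := by ring
      have e4 := le_of_mul_le_mul_right e3 (by positivity)
      have e5 : 256 * C1 * P ^ 4 ≤ C * P ^ 4 := by
        apply mul_le_mul_of_nonneg_right _ (by positivity)
        rw [hC]
        have : 0 < 2 * C5 + 2 * C1 * Ce := by positivity
        linarith
      have e6 : (k : ℝ) ≤ w := e4.trans (e5.trans hkw)
      exact_mod_cast e6
    rw [VV_Zt hW (fun q hq hqY => (hZ1 q hq hqY).2.2) hwY hkw', ← hVA] at hk3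
    have e1 := sl_sum hB a b
    have e2 : (((sl A1 W a ×ˢ sl A2 W b).image (fun x => x.1 + x.2)).card : ℝ) ≤ M (a + b) := by
      rw [hM]
      simp only
      exact_mod_cast e1
    rw [ha2.2, one_div, inv_mul_le_iff₀ (by positivity)]
    exact hk3.trans (mul_le_mul_of_nonneg_left e2 (by positivity))
  -- the entropy inequality
  have hloc := locW r z hrz Z Z' w (fun p hp hpw => ⟨(hZ1 p hp (by omega)).1, (hZ1 p hp (by omega)).2.2⟩)
    (fun p hp hpw => ⟨(hZ2 p hp (by omega)).1, (hZ2 p hp (by omega)).2.2⟩) W hW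
  have hmain := loc_use hloc f hf0 hfR T hTS hTne M hM0 (t := 1 / (C1 * VA)) (by positivity) hsum
  rw [hMs, hcardS] at hmain
  obtain ⟨Λ, hΛ⟩ : ∃ Λ : ℝ, Λ = ∑ p ∈ Pr z w, (((Z p).card : ℝ) / p - 12 * r ^ 2 / (p : ℝ) ^ 2) := ⟨_, rfl⟩
  rw [← hΛ] at hmain
  have hz0 : (0 : ℝ) < z := by exact_mod_cast hz1
  have hdef : 6 * r / z * (Real.log ρ2 - Real.log T.card) ≤ 6 * (r : ℝ) := by
    have e1 : Real.log ρ2 - Real.log T.card ≤ z := by
      rw [← Real.log_div hρ20.ne' hTc0.ne']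
      refine le_trans ?_ hlog
      apply Real.log_le_log (by positivity)
      rw [div_le_iff₀ hTc0]
      have e2 : ρ2 ≤ ρ2 / L2 * (2 * C5 * (N' * VB) * T.card) := by
        calc ρ2 = ρ2 / L2 * L2 := by field_simp
          _ ≤ _ := mul_le_mul_of_nonneg_left hTc (by positivity)
      have e3 : ρ2 / L2 * (2 * C5 * (N' * VB) * T.card) = 2 * C5 * (N' * VB * ρ2 / L2) * T.card := by ring
      rw [e3] at e2
      refine e2.trans ?_
      apply mul_le_mul_of_nonneg_right _ hTc0.le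
      apply mul_le_mul_of_nonneg_right _ (by positivity)
      rw [hC]
      have : 0 < 256 * C1 + 2 * C1 * Ce := by positivity
      linarith
    calc 6 * (r : ℝ) / z * (Real.log ρ2 - Real.log T.card) ≤ 6 * r / z * z :=
          mul_le_mul_of_nonneg_left e1 (by positivity)
      _ = 6 * r := by field_simp
  have hexpV := exp_VV hz1 hrz hzw (Z := Z) (fun p hp => (hZ1 p (Pr_prime hp) (by
    have := (Pr_mem.1 hp).1.2; omega)).1)
  rw [← hΛ] at hexpV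
  have hVzw : 0 < VV Z z w := hVp _ _ hwY
  have hsplit : VV Z z w * VA = VV Z z Y := by rw [hVA]; exact VV_split Z hzw hwY
  have hBc : (0 : ℝ) ≤ B.card := by positivity
  have e1 : 1 / (C1 * VA) * (L1 / 2) * (Real.exp Λ * Real.exp (- (6 * r))) ≤ B.card := by
    refine le_trans ?_ hmain
    apply mul_le_mul
    · exact mul_le_mul_of_nonneg_left hfs (by positivity)
    · rw [← Real.exp_add]
      apply Real.exp_le_exp.2
      linarith
    · positivity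
    · exact mul_nonneg (by positivity) (sum_nonneg fun a _ => hf0 a)
  have e2 : L1 ≤ 2 * C1 * VA * Real.exp (6 * r) * (Real.exp (14 * r ^ 2) * VV Z z w) * B.card := by
    have e3 : L1 * (Real.exp Λ * VV Z z w) ≤
        2 * C1 * VA * Real.exp (6 * r) * VV Z z w * B.card := by
      have e4 : 1 / (C1 * VA) * (L1 / 2) * (Real.exp Λ * Real.exp (- (6 * r))) =
          L1 * (Real.exp Λ * VV Z z w) / (2 * C1 * VA * Real.exp (6 * r) * VV Z z w) := by
        rw [Real.exp_neg]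
        field_simp
      rw [e4, div_le_iff₀ (by positivity)] at e1
      linarith
    calc L1 = L1 * 1 := (mul_one _).symm
      _ ≤ L1 * (Real.exp (14 * r ^ 2) * (Real.exp Λ * VV Z z w)) := mul_le_mul_of_nonneg_left hexpV hL10.le
      _ = Real.exp (14 * r ^ 2) * (L1 * (Real.exp Λ * VV Z z w)) := by ring
      _ ≤ Real.exp (14 * r ^ 2) * (2 * C1 * VA * Real.exp (6 * r) * VV Z z w * B.card) :=
          mul_le_mul_of_nonneg_left e3 (Real.exp_pos _).le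
      _ = _ := by ring
  calc L1 ≤ _ := e2
    _ = (2 * C1 * Ce) * VV Z z Y * B.card := by rw [hCe, ← hsplit]; ring
    _ ≤ C * VV Z z Y * B.card := by
        apply mul_le_mul_of_nonneg_right _ hBc
        apply mul_le_mul_of_nonneg_right _ (hVp _ _ le_rfl).le
        rw [hC]
        have : 0 < 256 * C1 + 2 * C5 := by positivity
        linarith

end Pool.Agent.K7.H64.LS
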