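import Pool.Agent.K7.H64.LS.SysT
import Pool.Agent.K7.H64.LS.Sums2

/-!
Sumsets of sets of arguments with prime or almost prime values of systems of polynomials.
-/

set_option autoImplicit false

open Finset Polynomial

namespace Pool.Agent.K7.H64.LS

open Pool.Agent.Y843.HS
open Pool.Agent.W123.RU.Poly (Sys)

variable {ι : Type} [Fintype ι] {ι' : Type} [Fintype ι']

/-- the logarithm is not much smaller when a constant is removed -/
theorem log_low {K : ℝ} (hK : 1 ≤ K) : ∃ m : ℝ, 1 ≤ m ∧ ∀ x : ℝ, 1 ≤ x →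
    Real.log x ≤ m * Real.log (2 + x / K) := by
  have hlog2 : 0 < Real.log 2 := Real.log_pos (by norm_num)
  have hlK : 0 ≤ Real.log K := Real.log_nonneg hK
  refine ⟨2 + 2 * Real.log K / Real.log 2, by
    have : 0 ≤ 2 * Real.log K / Real.log 2 := by positivity
    linarith, fun x hx => ?_⟩
  have hx0 : 0 < x := by linarith
  have h1 : Real.log 2 ≤ Real.log (2 + x / K) :=
    Real.log_le_log (by norm_num) (by have : 0 ≤ x / K := by positivity
                                      linarith)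
  have h2 : Real.log x - Real.log K ≤ Real.log (2 + x / K) := by
    rw [← Real.log_div hx0.ne' (by linarith)]
    exact Real.log_le_log (by positivity) (by linarith)
  have h3 : Real.log K ≤ Real.log K / Real.log 2 * Real.log (2 + x / K) := by
    rw [div_mul_eq_mul_div, le_div_iff₀ hlog2]
    exact mul_le_mul_of_nonneg_left h1 hlK
  have h4 : 0 ≤ Real.log (2 + x / K) := by linarith
  have h5 : 0 ≤ Real.log K / Real.log 2 := by positivity
  have h6 : (2 + 2 * Real.log K / Real.log 2) * Real.log (2 + x / K) =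
      2 * Real.log (2 + x / K) + 2 * (Real.log K / Real.log 2 * Real.log (2 + x / K)) := by ring
  rw [h6]
  nlinarith

/-- the trivial range -/
theorem small_range (g' : ℕ) {C3 : ℝ} (hC3 : 0 < C3) : ∃ m : ℝ, 1 ≤ m ∧ ∀ N : ℕ, 2 ≤ N → ∀ L : ℝ, 0 < L →
    L ≤ C3 * Real.sqrt N → Real.log N ≤ m * Real.log (2 + N / (L * Real.log N ^ g')) := by
  obtain ⟨C4, hC4, h4⟩ := log_pow_le' g'
  obtain ⟨m, hm1, hm⟩ := log_low (K := C3 * C4 + 1) (by nlinarith [mul_pos hC3 hC4])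
  refine ⟨4 * m, by linarith, fun N hN L hL0 hL => ?_⟩
  have hN2 : (2 : ℝ) ≤ N := by exact_mod_cast hN
  have hN0 : (0 : ℝ) < N := by linarith
  have hlN : 0 < Real.log N := Real.log_pos (by linarith)
  have h1 := hm ((N : ℝ) ^ (1 / 4 : ℝ)) (Real.one_le_rpow (by linarith) (by norm_num))
  rw [Real.log_rpow hN0] at h1
  have h2 : (N : ℝ) ^ (1 / 4 : ℝ) / (C3 * C4 + 1) ≤ N / (L * Real.log N ^ g') := by
    rw [div_le_div_iff₀ (by positivity) (by positivity)]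
    have h3 : L * Real.log N ^ g' ≤ (C3 * C4 + 1) * (Real.sqrt N * (N : ℝ) ^ (1 / 4 : ℝ)) := by
      calc L * Real.log N ^ g' ≤ (C3 * Real.sqrt N) * (C4 * (N : ℝ) ^ (1 / 4 : ℝ)) :=
            mul_le_mul hL (h4 N (by omega)) (by positivity) (by positivity)
        _ = (C3 * C4) * (Real.sqrt N * (N : ℝ) ^ (1 / 4 : ℝ)) := by ring
        _ ≤ _ := mul_le_mul_of_nonneg_right (by linarith) (by positivity)
    have h5 : (N : ℝ) ^ (1 / 4 : ℝ) * (Real.sqrt N * (N : ℝ) ^ (1 / 4 : ℝ)) = N := by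
      rw [Real.sqrt_eq_rpow, ← Real.rpow_add hN0, ← Real.rpow_add hN0]
      norm_num
    calc (N : ℝ) ^ (1 / 4 : ℝ) * (L * Real.log N ^ g') ≤
          (N : ℝ) ^ (1 / 4 : ℝ) * ((C3 * C4 + 1) * (Real.sqrt N * (N : ℝ) ^ (1 / 4 : ℝ))) :=
          mul_le_mul_of_nonneg_left h3 (by positivity)
      _ = ((N : ℝ) ^ (1 / 4 : ℝ) * (Real.sqrt N * (N : ℝ) ^ (1 / 4 : ℝ))) * (C3 * C4 + 1) := by ring
      _ = _ := by rw [h5]
  have h6 : Real.log (2 + (N : ℝ) ^ (1 / 4 : ℝ) / (C3 * C4 + 1)) ≤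
      Real.log (2 + N / (L * Real.log N ^ g')) := by
    apply Real.log_le_log _ (by linarith)
    positivity
  have h7 : m * Real.log (2 + (N : ℝ) ^ (1 / 4 : ℝ) / (C3 * C4 + 1)) ≤
      m * Real.log (2 + N / (L * Real.log N ^ g')) := mul_le_mul_of_nonneg_left h6 (by linarith)
  linarith

set_option maxHeartbeats 4000000 in
/-- **sums of sets of arguments with prime or almost prime values** -/
theorem sums_sys (f : ι → ℤ[X]) (hf : Sys f) (f' : ι' → ℤ[X]) (hf' : Sys f') {κ : ℝ} (hκ : 0 < κ) :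
    ∃ C : ℝ, 0 < C ∧ ∀ N : ℕ, 2 ≤ N →
    ∀ (A A' : ℕ) (A1 A2 B : Finset ℕ), A1 ⊆ Ioc A (A + N) → A2 ⊆ Ioc A' (A' + N) →
    (∀ n ∈ A1, Good f κ N n) → (∀ n ∈ A2, Good f' κ N n) → A1.Nonempty → A2.Nonempty →
    (∀ m ∈ A1, ∀ n ∈ A2, m + n ∈ B) →
    (A1.card : ℝ) * Real.log N ^ Fintype.card ι ≤
      C * (Real.log (2 + N / (A1.card * Real.log N ^ Fintype.card ι)) +
        Real.log (2 + N / (A2.card * Real.log N ^ Fintype.card ι'))) ^ Fintype.card ι * B.card := by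
  classical
  obtain ⟨κ0, hκ0⟩ : ∃ κ0 : ℝ, κ0 = min κ (1 / 2) := ⟨_, rfl⟩
  have hκ00 : 0 < κ0 := by rw [hκ0]; exact lt_min hκ (by norm_num)
  obtain ⟨r, hr⟩ := ZS_ok f hf
  obtain ⟨r', hr'⟩ := ZS_ok f' hf'
  obtain ⟨C1, hC1, h1⟩ := sums2 (r + r') hκ00
  obtain ⟨C2, hC2, h2⟩ := W_bounds f hf hκ00
  obtain ⟨C2', hC2', h2'⟩ := W_bounds f' hf' hκ00
  obtain ⟨C3, hC3, h3⟩ := few_exc f hf κ
  obtain ⟨C3', hC3', h3'⟩ := few_exc f' hf' κ
  set g := Fintype.card ι with hg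
  set g' := Fintype.card ι' with hg'
  obtain ⟨m, hm1, hm⟩ := small_range g (C3 := 2 * C3) (by positivity)
  obtain ⟨m', hm1', hm'⟩ := small_range g' (C3 := 2 * C3') (by positivity)
  have hlog2 : 0 < Real.log 2 := Real.log_pos (by norm_num)
  obtain ⟨C5, hC5⟩ : ∃ C5 : ℝ, C5 = 2 * (C1 * (C2 * C2') ^ 4 * 2 ^ 8) + 1 := ⟨_, rfl⟩
  have hC51 : 1 ≤ C5 := by
    rw [hC5]
    have : 0 ≤ 2 * (C1 * (C2 * C2') ^ 4 * 2 ^ 8) := by positivity
    linarith
  have hlC5 : 0 ≤ Real.log C5 := Real.log_nonneg hC51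
  obtain ⟨C6, hC6⟩ : ∃ C6 : ℝ, C6 = Real.log C5 / Real.log 2 + 4 := ⟨_, rfl⟩
  have hC60 : 0 < C6 := by rw [hC6]; positivity
  refine ⟨m ^ g + m' ^ g + 2 * C1 * C2 * C6 ^ g, by positivity, ?_⟩
  intro N hN A A' A1 A2 B hA1 hA2 hG1 hG2 hn1 hn2 hB
  have hN1 : 1 ≤ N := by omega
  have hN2 : (2 : ℝ) ≤ N := by exact_mod_cast hN
  have hN0 : (0 : ℝ) < N := by linarith
  have hlN : 0 < Real.log N := Real.log_pos (by linarith)
  obtain ⟨L1, hL1⟩ : ∃ L1 : ℝ, L1 = A1.card := ⟨_, rfl⟩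
  obtain ⟨L2, hL2⟩ : ∃ L2 : ℝ, L2 = A2.card := ⟨_, rfl⟩
  have hL10 : 0 < L1 := by rw [hL1]; exact_mod_cast card_pos.2 hn1
  have hL20 : 0 < L2 := by rw [hL2]; exact_mod_cast card_pos.2 hn2
  rw [← hL1, ← hL2]
  obtain ⟨X1, hX1⟩ : ∃ X1 : ℝ, X1 = N / (L1 * Real.log N ^ g) := ⟨_, rfl⟩
  obtain ⟨X2, hX2⟩ : ∃ X2 : ℝ, X2 = N / (L2 * Real.log N ^ g') := ⟨_, rfl⟩
  have hX10 : 0 < X1 := by rw [hX1]; positivity
  have hX20 : 0 < X2 := by rw [hX2]; positivity
  rw [← hX1, ← hX2]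
  have hlX1 : Real.log 2 ≤ Real.log (2 + X1) := Real.log_le_log (by norm_num) (by linarith)
  have hlX2 : Real.log 2 ≤ Real.log (2 + X2) := Real.log_le_log (by norm_num) (by linarith)
  obtain ⟨Λ, hΛ⟩ : ∃ Λ : ℝ, Λ = Real.log (2 + X1) + Real.log (2 + X2) := ⟨_, rfl⟩
  have hΛ0 : 0 < Λ := by rw [hΛ]; linarith
  rw [← hΛ]
  -- the trivial bound
  have hBcard : L1 ≤ B.card := by
    obtain ⟨b, hb⟩ := hn2
    rw [hL1]
    have h5 : A1.image (fun a => a + b) ⊆ B := by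
      intro x hx
      obtain ⟨a, ha, rfl⟩ := mem_image.1 hx
      exact hB a ha b hb
    have h6 := card_le_card h5
    rw [card_image_of_injective _ (add_left_injective b)] at h6
    exact_mod_cast h6
  have hBc0 : (0 : ℝ) < B.card := by linarith
  have htriv : ∀ μ : ℝ, 1 ≤ μ → Real.log N ≤ μ * Λ →
      μ ^ g ≤ m ^ g + m' ^ g + 2 * C1 * C2 * C6 ^ g →
      L1 * Real.log N ^ g ≤ (m ^ g + m' ^ g + 2 * C1 * C2 * C6 ^ g) * Λ ^ g * B.card := by
    intro μ hμ1 hμ hμ2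
    calc L1 * Real.log N ^ g ≤ B.card * (μ * Λ) ^ g :=
          mul_le_mul hBcard (pow_le_pow_left₀ hlN.le hμ g) (by positivity) hBc0.le
      _ = μ ^ g * (Λ ^ g * B.card) := by rw [mul_pow]; ring
      _ ≤ (m ^ g + m' ^ g + 2 * C1 * C2 * C6 ^ g) * (Λ ^ g * B.card) :=
          mul_le_mul_of_nonneg_right hμ2 (by positivity)
      _ = _ := by ring
  have hmg : 0 < m ^ g := by positivity
  have hmg' : 0 < m' ^ g := by positivity
  have hC6g : 0 < 2 * C1 * C2 * C6 ^ g := by positivity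
  rcases le_or_gt L1 (2 * C3 * Real.sqrt N) with hsm | hbig1
  · have h5 := hm N hN L1 hL10 hsm
    rw [← hX1] at h5
    apply htriv m hm1 _ (by linarith)
    rw [hΛ, mul_add]
    have : 0 ≤ m * Real.log (2 + X2) := mul_nonneg (by linarith) (by linarith)
    linarith
  rcases le_or_gt L2 (2 * C3' * Real.sqrt N) with hsm | hbig2
  · have h5 := hm' N hN L2 hL20 hsm
    rw [← hX2] at h5
    apply htriv m' hm1' _ (by linarith)
    rw [hΛ, mul_add]
    have : 0 ≤ m' * Real.log (2 + X1) := mul_nonneg (by linarith) (by linarith)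
    linarith
  -- the sifted parts
  obtain ⟨R1, hR1⟩ : ∃ R1 : Finset ℕ, R1 = A1.filter (fun n => Rough f κ0 N n) := ⟨_, rfl⟩
  obtain ⟨R2, hR2⟩ : ∃ R2 : Finset ℕ, R2 = A2.filter (fun n => Rough f' κ0 N n) := ⟨_, rfl⟩
  have hR1s : R1 ⊆ A1 := by rw [hR1]; exact filter_subset _ _
  have hR2s : R2 ⊆ A2 := by rw [hR2]; exact filter_subset _ _
  have hR1c : L1 ≤ 2 * R1.card := by
    have h5 := h3 N hN1 A1 hG1
    have h6 := card_filter_add_card_filter_not (s := A1) (fun n => Rough f κ0 N n)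
    rw [← hκ0] at h5
    rw [← hR1] at h6
    have h7 : (R1.card : ℝ) + ((A1.filter (fun n => ¬ Rough f κ0 N n)).card : ℝ) = L1 := by
      rw [hL1]
      exact_mod_cast h6
    linarith
  have hR2c : L2 ≤ 2 * R2.card := by
    have h5 := h3' N hN1 A2 hG2
    have h6 := card_filter_add_card_filter_not (s := A2) (fun n => Rough f' κ0 N n)
    rw [← hκ0] at h5
    rw [← hR2] at h6
    have h7 : (R2.card : ℝ) + ((A2.filter (fun n => ¬ Rough f' κ0 N n)).card : ℝ) = L2 := by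
      rw [hL2]
      exact_mod_cast h6
    linarith
  have hR10 : (0 : ℝ) < R1.card := by linarith
  have hR20 : (0 : ℝ) < R2.card := by linarith
  obtain ⟨B', hB'⟩ : ∃ B' : Finset ℕ, B' = (A1 ×ˢ A2).image (fun x => x.1 + x.2) := ⟨_, rfl⟩
  have hB'B : B' ⊆ B := by
    intro x hx
    rw [hB', mem_image] at hx
    obtain ⟨⟨a, b⟩, hab, rfl⟩ := hx
    rw [mem_product] at hab
    exact hB a hab.1 b hab.2
  obtain ⟨Y, hY⟩ : ∃ Y : ℕ, Y = ⌊(N : ℝ) ^ κ0⌋₊ := ⟨_, rfl⟩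
  obtain ⟨k, hk1, hk2, hk3⟩ := h1 N hN1 A A' (ZS f) (ZS f')
    (fun q hq _ => ⟨(hr q hq).1.trans (by omega), (hr q hq).2⟩)
    (fun q hq _ => ⟨(hr' q hq).1.trans (by omega), (hr' q hq).2⟩)
    R1 R2 B' (hR1s.trans hA1) (hR2s.trans hA2)
    (fun n hn p hp hpN => by
      rw [ZS_mem f hp.pos]
      intro hd
      rw [hR1] at hn
      have := (mem_filter.1 hn).2 p hp hd
      linarith)
    (fun n hn p hp hpN => by
      rw [ZS_mem f' hp.pos]
      intro hd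
      rw [hR2] at hn
      have := (mem_filter.1 hn).2 p hp hd
      linarith)
    (card_pos.1 (by exact_mod_cast hR10)) (card_pos.1 (by exact_mod_cast hR20))
    (fun m hm n hn => by
      rw [hB', mem_image]
      exact ⟨(m, n), mem_product.2 ⟨hR1s hm, hR2s hn⟩, rfl⟩)
    (by
      intro x hx
      rw [hB', mem_image] at hx
      obtain ⟨⟨a, b⟩, hab, rfl⟩ := hx
      rw [mem_product] at hab
      have e1 := mem_Ioc.1 (hA1 hab.1)
      have e2 := mem_Ioc.1 (hA2 hab.2)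
      rw [mem_Ioc]
      simp only at e1 e2 ⊢
      omega)
  rw [← hY] at hk2 hk3
  have hkr : (1 : ℝ) ≤ k := by exact_mod_cast hk1
  have hWa := (h2 N hN).1
  have hWk := (h2 N hN).2.2 k hk1
  have hWa' := (h2' N hN).1
  rw [← hY] at hWa hWk hWa'
  obtain ⟨V, hV⟩ : ∃ V : ℝ, V = VV (ZS f) 0 Y := ⟨_, rfl⟩
  have hV0 : 0 < V := by rw [hV]; exact VV_nonneg fun p hp => (hr p (Pr_prime hp)).2.1
  obtain ⟨V', hV'⟩ : ∃ V' : ℝ, V' = VV (ZS f') 0 Y := ⟨_, rfl⟩
  have hV'0 : 0 < V' := by rw [hV']; exact VV_nonneg fun p hp => (hr' p (Pr_prime hp)).2.1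
  obtain ⟨Vk, hVk⟩ : ∃ Vk : ℝ, Vk = VV (ZS f) k Y := ⟨_, rfl⟩
  have hVk0 : 0 < Vk := by rw [hVk]; exact VV_nonneg fun p hp => (hr p (Pr_prime hp)).2.1
  rw [← hV] at hWa hk2
  rw [← hV'] at hWa' hk2
  rw [← hVk] at hWk hk3
  -- the size of `k`
  have hkle : (k : ℝ) ≤ C1 * (C2 * C2') ^ 4 * 2 ^ 8 * (X1 * X2) ^ 4 := by
    have e1 : (L1 * L2) ^ 4 ≤ 2 ^ 8 * (R1.card * R2.card : ℝ) ^ 4 := by
      calc (L1 * L2) ^ 4 ≤ ((2 * R1.card) * (2 * R2.card)) ^ 4 :=
            pow_le_pow_left₀ (by positivity) (mul_le_mul hR1c hR2c hL20.le (by positivity)) 4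
        _ = _ := by ring
    have e2 : N * V ≤ C2 * (X1 * L1) := by
      have e3 : X1 * L1 = N / Real.log N ^ g := by rw [hX1]; field_simp
      rw [e3, ← mul_div_assoc, le_div_iff₀ (by positivity)]
      nlinarith
    have e3 : N * V' ≤ C2' * (X2 * L2) := by
      have e4 : X2 * L2 = N / Real.log N ^ g' := by rw [hX2]; field_simp
      rw [e4, ← mul_div_assoc, le_div_iff₀ (by positivity)]
      nlinarith
    have e4 : ((N * V) * (N * V')) ^ 4 ≤ ((C2 * (X1 * L1)) * (C2' * (X2 * L2))) ^ 4 :=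
      pow_le_pow_left₀ (by positivity) (mul_le_mul e2 e3 (by positivity) (by positivity)) 4
    have e5 : (k : ℝ) * (L1 * L2) ^ 4 ≤
        C1 * (C2 * C2') ^ 4 * 2 ^ 8 * (X1 * X2) ^ 4 * (L1 * L2) ^ 4 := by
      calc (k : ℝ) * (L1 * L2) ^ 4 ≤ k * (2 ^ 8 * (R1.card * R2.card : ℝ) ^ 4) :=
            mul_le_mul_of_nonneg_left e1 (by linarith)
        _ = 2 ^ 8 * (k * (R1.card * R2.card : ℝ) ^ 4) := by ring
        _ ≤ 2 ^ 8 * (C1 * ((N * V) * (N * V')) ^ 4) := mul_le_mul_of_nonneg_left hk2 (by norm_num)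
        _ ≤ 2 ^ 8 * (C1 * ((C2 * (X1 * L1)) * (C2' * (X2 * L2))) ^ 4) := by gcongr
        _ = _ := by ring
    exact le_of_mul_le_mul_right e5 (by positivity)
  have hlogk : Real.log (2 * k) ≤ C6 * Λ := by
    have e1 : (2 : ℝ) * k ≤ C5 * ((2 + X1) ^ 4 * (2 + X2) ^ 4) := by
      have e2 : (X1 * X2) ^ 4 ≤ (2 + X1) ^ 4 * (2 + X2) ^ 4 := by
        rw [← mul_pow]
        apply pow_le_pow_left₀ (by positivity)
        nlinarith
      have e3 : 0 ≤ C1 * (C2 * C2') ^ 4 * 2 ^ 8 := by positivity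
      calc (2 : ℝ) * k ≤ 2 * (C1 * (C2 * C2') ^ 4 * 2 ^ 8 * (X1 * X2) ^ 4) := by linarith
        _ ≤ 2 * (C1 * (C2 * C2') ^ 4 * 2 ^ 8 * ((2 + X1) ^ 4 * (2 + X2) ^ 4)) := by gcongr
        _ = (2 * (C1 * (C2 * C2') ^ 4 * 2 ^ 8)) * ((2 + X1) ^ 4 * (2 + X2) ^ 4) := by ring
        _ ≤ C5 * ((2 + X1) ^ 4 * (2 + X2) ^ 4) := by
            apply mul_le_mul_of_nonneg_right _ (by positivity)
            rw [hC5]
            linarith
    have e2 : Real.log (2 * k) ≤ Real.log C5 + 4 * Λ := by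
      refine (Real.log_le_log (by linarith) e1).trans (le_of_eq ?_)
      rw [Real.log_mul (by linarith) (by positivity), Real.log_mul (by positivity) (by positivity),
        Real.log_pow, Real.log_pow, hΛ]
      push_cast
      ring
    have e3 : Real.log C5 ≤ Real.log C5 / Real.log 2 * Λ := by
      rw [div_mul_eq_mul_div, le_div_iff₀ hlog2]
      apply mul_le_mul_of_nonneg_left _ hlC5
      rw [hΛ]
      linarith
    rw [hC6, add_mul]
    linarith
  have hlk0 : 0 < Real.log (2 * k) := Real.log_pos (by linarith)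
  have hB'c : (B'.card : ℝ) ≤ B.card := by exact_mod_cast card_le_card hB'B
  calc L1 * Real.log N ^ g ≤ 2 * R1.card * Real.log N ^ g :=
        mul_le_mul_of_nonneg_right hR1c (by positivity)
    _ ≤ 2 * (C1 * Vk * B'.card) * Real.log N ^ g := by
        apply mul_le_mul_of_nonneg_right _ (by positivity)
        linarith
    _ = 2 * C1 * (Vk * Real.log N ^ g) * B'.card := by ring
    _ ≤ 2 * C1 * (C2 * Real.log (2 * k) ^ g) * B.card := by
        apply mul_le_mul (mul_le_mul_of_nonneg_left hWk (by positivity)) hB'c (Nat.cast_nonneg _)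
          (by positivity)
    _ ≤ 2 * C1 * (C2 * (C6 * Λ) ^ g) * B.card := by
        apply mul_le_mul_of_nonneg_right _ hBc0.le
        apply mul_le_mul_of_nonneg_left _ (by positivity)
        apply mul_le_mul_of_nonneg_left _ hC2.le
        exact pow_le_pow_left₀ hlk0.le hlogk g
    _ = (2 * C1 * C2 * C6 ^ g) * Λ ^ g * B.card := by rw [mul_pow]; ring
    _ ≤ _ := by
        apply mul_le_mul_of_nonneg_right _ hBc0.le
        apply mul_le_mul_of_nonneg_right _ (by positivity)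
        linarith

end Pool.Agent.K7.H64.LS
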