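import Pool.Agent.K7.H64.LS.DenseC
import Pool.Agent.K7.H64.LS.SysS

/-!
Sums of dense sets of arguments with prime or almost prime values of systems of polynomials.
-/

set_option autoImplicit false

open Finset Polynomial

namespace Pool.Agent.K7.H64.LS

open Pool.Agent.Y843.HS
open Pool.Agent.W123.RU.Poly (Sys)

variable {ι : Type} [Fintype ι] {ι' : Type} [Fintype ι']

/-- conditions on a large logarithm -/
theorem large_log (g : ℕ) {κ K K' C3 : ℝ} (hκ : 0 < κ) (hK : 0 < K) (hC3 : 0 < C3) :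
    ∃ x0 : ℝ, 16 ≤ x0 ∧ ∀ x : ℝ, x0 ≤ x →
    x / 4 ≤ Real.exp (κ * (x / 2)) ∧ 2 * C3 * x ^ (g + 1) ≤ Real.exp (x / 2) ∧
    K * x ^ (8 / 9 : ℝ) ≤ x / 8 ∧ Real.log (K * x ^ (1 / 9 : ℝ) + 1) + K' ≤ x / 8 := by
  have e1 : ∀ᶠ x : ℝ in Filter.atTop, x / 4 ≤ Real.exp (κ * (x / 2)) := by
    have h1 := isLittleO_pow_exp_pos_mul_atTop (b := κ / 2) 1 (by positivity)
    filter_upwards [h1.bound (show (0 : ℝ) < 4 by norm_num), Filter.eventually_ge_atTop 0] with x hx hx0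
    rw [Real.norm_eq_abs, Real.norm_eq_abs, abs_of_nonneg (by positivity), abs_of_pos (Real.exp_pos _)] at hx
    rw [pow_one] at hx
    have : κ / 2 * x = κ * (x / 2) := by ring
    rw [this] at hx
    linarith
  have e2 : ∀ᶠ x : ℝ in Filter.atTop, 2 * C3 * x ^ (g + 1) ≤ Real.exp (x / 2) := by
    have h1 := isLittleO_pow_exp_pos_mul_atTop (b := 1 / 2) (g + 1) (by norm_num)
    filter_upwards [h1.bound (show (0 : ℝ) < 1 / (2 * C3) by positivity), Filter.eventually_ge_atTop 0] with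
      x hx hx0
    rw [Real.norm_eq_abs, Real.norm_eq_abs, abs_of_nonneg (by positivity), abs_of_pos (Real.exp_pos _)] at hx
    have : (1 : ℝ) / 2 * x = x / 2 := by ring
    rw [this] at hx
    calc 2 * C3 * x ^ (g + 1) ≤ 2 * C3 * (1 / (2 * C3) * Real.exp (x / 2)) :=
          mul_le_mul_of_nonneg_left hx (by positivity)
      _ = _ := by field_simp
  have e3 : ∀ᶠ x : ℝ in Filter.atTop, 16 * K ≤ x ^ (1 / 9 : ℝ) :=
    (tendsto_rpow_atTop (show (0 : ℝ) < 1 / 9 by norm_num)).eventually (Filter.eventually_ge_atTop _)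
  obtain ⟨x0, hx0⟩ := Filter.eventually_atTop.1 ((e1.and (e2.and e3)).and
    ((Filter.eventually_ge_atTop (16 : ℝ)).and (Filter.eventually_ge_atTop (16 * K'))))
  refine ⟨max x0 16, le_max_right _ _, fun x hx => ?_⟩
  obtain ⟨⟨h1, h2, h3⟩, h4, h5⟩ := hx0 x ((le_max_left _ _).trans hx)
  have hx1 : (1 : ℝ) ≤ x := by linarith
  have hx0' : (0 : ℝ) < x := by linarith
  have h6 : x ^ (8 / 9 : ℝ) * x ^ (1 / 9 : ℝ) = x := by
    rw [← Real.rpow_add hx0']
    norm_num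
  have h7 : 0 < x ^ (8 / 9 : ℝ) := by positivity
  have h8 : x ^ (1 / 9 : ℝ) ≤ x ^ (8 / 9 : ℝ) := Real.rpow_le_rpow_of_exponent_le hx1 (by norm_num)
  have h9 : K * x ^ (8 / 9 : ℝ) ≤ x / 16 := by
    have : 16 * K * x ^ (8 / 9 : ℝ) ≤ x ^ (1 / 9 : ℝ) * x ^ (8 / 9 : ℝ) :=
      mul_le_mul_of_nonneg_right h3 h7.le
    rw [mul_comm (x ^ (1 / 9 : ℝ)), h6] at this
    linarith
  refine ⟨h1, h2, by linarith, ?_⟩
  have h10 : 0 < K * x ^ (1 / 9 : ℝ) + 1 := by positivity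
  have h11 := Real.log_le_sub_one_of_pos h10
  have h12 : K * x ^ (1 / 9 : ℝ) ≤ K * x ^ (8 / 9 : ℝ) := mul_le_mul_of_nonneg_left h8 hK.le
  linarith

set_option maxHeartbeats 4000000 in
/-- **sums of dense sets of arguments with prime or almost prime values** -/
theorem dense_sys (f : ι → ℤ[X]) (hf : Sys f) (f' : ι' → ℤ[X]) (hf' : Sys f') {κ : ℝ} (hκ : 0 < κ) :
    ∃ C : ℝ, 0 < C ∧ ∀ N : ℕ, 2 ≤ N →
    ∀ (A A' : ℕ) (A1 A2 B : Finset ℕ), A1 ⊆ Ioc A (A + N) → A2 ⊆ Ioc A' (A' + N) →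
    (∀ n ∈ A1, Good f κ N n) → (∀ n ∈ A2, Good f' κ N n) → A1.Nonempty → A2.Nonempty →
    (∀ m ∈ A1, ∀ n ∈ A2, m + n ∈ B) →
    N / (A1.card * Real.log N ^ Fintype.card ι) ≤ Real.log N ^ (1 / 9 : ℝ) →
    N / (A2.card * Real.log N ^ Fintype.card ι') ≤ Real.log N ^ (1 / 9 : ℝ) →
    (A1.card : ℝ) * Real.log N ^ Fintype.card ι ≤
      C * Real.log (2 + Real.log (2 + N / (A2.card * Real.log N ^ Fintype.card ι'))) ^ Fintype.card ι *
        B.card := by
  classical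
  obtain ⟨κ0, hκ0⟩ : ∃ κ0 : ℝ, κ0 = min κ (1 / 2) := ⟨_, rfl⟩
  have hκ00 : 0 < κ0 := by rw [hκ0]; exact lt_min hκ (by norm_num)
  obtain ⟨r, hr⟩ := ZS_ok f hf
  obtain ⟨r', hr'⟩ := ZS_ok f' hf'
  obtain ⟨C, hC, h1⟩ := dense_core (r + r') hκ00
  have hC0 : 0 < C := by linarith
  obtain ⟨C2, hC2, h2⟩ := W_bounds f hf hκ00
  obtain ⟨C2', hC2', h2'⟩ := W_bounds f' hf' hκ00
  obtain ⟨C3, hC3, h3⟩ := few_exc f hf κ
  obtain ⟨C3', hC3', h3'⟩ := few_exc f' hf' κ
  set g := Fintype.card ι with hg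
  set g' := Fintype.card ι' with hg'
  obtain ⟨K1, hK1⟩ : ∃ K1 : ℝ, K1 = 6 * 2 ^ g * C2 := ⟨_, rfl⟩
  obtain ⟨K2, hK2⟩ : ∃ K2 : ℝ, K2 = 6 * 2 ^ g' * C2' := ⟨_, rfl⟩
  have hK10 : 0 < K1 := by rw [hK1]; positivity
  have hK20 : 0 < K2 := by rw [hK2]; positivity
  obtain ⟨K, hK⟩ : ∃ K : ℝ, K = C * (K1 * K2) ^ 4 + C * K2 := ⟨_, rfl⟩
  have hK0 : 0 < K := by rw [hK]; positivity
  obtain ⟨x0, hx016, hx0⟩ := large_log (g + g') (K' := 2 * (r + r') + 3) hκ00 hK0 (C3 := C3 + C3') (by positivity)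
  have hlog2 : 0 < Real.log 2 := Real.log_pos (by norm_num)
  -- the constant for `z`
  obtain ⟨K4, hK4⟩ : ∃ K4 : ℝ, K4 = 2 * (Real.log (C * K2 + 1) + 2 * (r + r') + 3) + 2 := ⟨_, rfl⟩
  have hCK2 : 0 < C * K2 := by positivity
  have hlogCK : 0 ≤ Real.log (C * K2 + 1) := Real.log_nonneg (by linarith)
  have hK42 : 2 ≤ K4 := by
    rw [hK4]
    have : (0 : ℝ) ≤ 2 * (r + r') := by positivity
    linarith
  have hlK4 : 0 ≤ Real.log K4 := Real.log_nonneg (by linarith)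
  obtain ⟨K5, hK5⟩ : ∃ K5 : ℝ, K5 = Real.log K4 / Real.log 2 + 1 := ⟨_, rfl⟩
  have hK50 : 0 < K5 := by rw [hK5]; positivity
  refine ⟨(x0 / Real.log 2) ^ g + 2 ^ (g + 1) * C * C2 * K5 ^ g, by positivity, ?_⟩
  intro N hN A A' A1 A2 B hA1 hA2 hG1 hG2 hn1 hn2 hB hd1 hd2
  have hN1 : 1 ≤ N := by omega
  have hN2 : (2 : ℝ) ≤ N := by exact_mod_cast hN
  have hN0 : (0 : ℝ) < N := by linarith
  have hlN : 0 < Real.log N := Real.log_pos (by linarith)
  obtain ⟨L1, hL1⟩ : ∃ L1 : ℝ, L1 = A1.card := ⟨_, rfl⟩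
  obtain ⟨L2, hL2⟩ : ∃ L2 : ℝ, L2 = A2.card := ⟨_, rfl⟩
  have hL10 : 0 < L1 := by rw [hL1]; exact_mod_cast card_pos.2 hn1
  have hL20 : 0 < L2 := by rw [hL2]; exact_mod_cast card_pos.2 hn2
  rw [← hL1] at hd1
  rw [← hL2] at hd2
  rw [← hL1, ← hL2]
  obtain ⟨X1, hX1⟩ : ∃ X1 : ℝ, X1 = N / (L1 * Real.log N ^ g) := ⟨_, rfl⟩
  obtain ⟨X2, hX2⟩ : ∃ X2 : ℝ, X2 = N / (L2 * Real.log N ^ g') := ⟨_, rfl⟩
  have hX10 : 0 < X1 := by rw [hX1]; positivity
  have hX20 : 0 < X2 := by rw [hX2]; positivity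
  rw [← hX1] at hd1
  rw [← hX2] at hd2
  rw [← hX2]
  obtain ⟨Λ, hΛ⟩ : ∃ Λ : ℝ, Λ = Real.log (2 + Real.log (2 + X2)) := ⟨_, rfl⟩
  have hlX2 : 0 < Real.log (2 + X2) := Real.log_pos (by linarith)
  have hΛ2 : Real.log 2 ≤ Λ := by rw [hΛ]; exact Real.log_le_log (by norm_num) (by linarith)
  have hΛ0 : 0 < Λ := by linarith
  rw [← hΛ]
  have hBcard : L1 ≤ B.card := by
    obtain ⟨b, hb⟩ := hn2
    rw [hL1]
    have h5 : A1.image (fun a => a + b) ⊆ B := by
      intro x hx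
      obtain ⟨a, ha, rfl⟩ := mem_image.1 hx
      exact hB a ha b hb
    have h6 := card_le_card h5
    rw [card_image_of_injective _ (add_left_injective b)] at h6
    exact_mod_cast h6
  have hBc0 : (0 : ℝ) < B.card := by linarith
  rcases lt_or_ge (Real.log N) x0 with hsm | hbig
  · -- small `N`
    calc L1 * Real.log N ^ g ≤ B.card * (x0 / Real.log 2 * Λ) ^ g := by
          apply mul_le_mul hBcard _ (by positivity) hBc0.le
          apply pow_le_pow_left₀ hlN.le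
          have : x0 = x0 / Real.log 2 * Real.log 2 := by field_simp
          calc Real.log N ≤ x0 := hsm.le
            _ = x0 / Real.log 2 * Real.log 2 := this
            _ ≤ _ := mul_le_mul_of_nonneg_left hΛ2 (by positivity)
      _ = (x0 / Real.log 2) ^ g * (Λ ^ g * B.card) := by rw [mul_pow]; ring
      _ ≤ ((x0 / Real.log 2) ^ g + 2 ^ (g + 1) * C * C2 * K5 ^ g) * (Λ ^ g * B.card) := by
          apply mul_le_mul_of_nonneg_right _ (by positivity)
          have : 0 < 2 ^ (g + 1) * C * C2 * K5 ^ g := by positivity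
          linarith
      _ = _ := by ring
  obtain ⟨x, hx⟩ : ∃ x : ℝ, x = Real.log N := ⟨_, rfl⟩
  have hNx : (N : ℝ) = Real.exp x := by rw [hx, Real.exp_log hN0]
  obtain ⟨b1, b2, b3, b4⟩ := hx0 x (by rw [hx]; exact hbig)
  have hx16 : 16 ≤ x := by rw [hx]; linarith
  rw [← hx] at hd1 hd2 hlN ⊢
  -- the modulus
  obtain ⟨w, hw⟩ : ∃ w : ℕ, w = ⌊x / 4⌋₊ := ⟨_, rfl⟩
  have hw1 : (w : ℝ) ≤ x / 4 := by rw [hw]; exact Nat.floor_le (by positivity)
  have hw2 : x / 8 ≤ w := by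
    have := Nat.lt_floor_add_one (x / 4)
    rw [← hw] at this
    linarith
  obtain ⟨W, hW⟩ : ∃ W : ℕ, W = primorial w := ⟨_, rfl⟩
  have hW1 : 1 ≤ W := by rw [hW]; exact primorial_pos w
  have hW1' : (1 : ℝ) ≤ W := by exact_mod_cast hW1
  have hWle : (W : ℝ) ≤ Real.exp (x / 2) := by
    have e1 : (W : ℝ) ≤ (4 : ℝ) ^ w := by rw [hW]; exact_mod_cast primorial_le_four_pow w
    have e2 : (4 : ℝ) ≤ Real.exp 2 := by
      have := Real.exp_one_gt_d9
      have e3 : Real.exp 2 = Real.exp 1 * Real.exp 1 := by rw [← Real.exp_add]; norm_num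
      rw [e3]
      nlinarith
    calc (W : ℝ) ≤ (4 : ℝ) ^ w := e1
      _ ≤ (Real.exp 2) ^ w := pow_le_pow_left₀ (by norm_num) e2 w
      _ = Real.exp (w * 2) := by rw [← Real.exp_nat_mul]
      _ ≤ Real.exp (x / 2) := Real.exp_le_exp.2 (by linarith)
  have hee : Real.exp (x / 2) * Real.exp (x / 2) = N := by
    rw [hNx, ← Real.exp_add]
    congr 1
    ring
  have he2 : 2 ≤ Real.exp (x / 2) := by
    have := Real.add_one_le_exp (x / 2)
    linarith
  obtain ⟨N', hN'⟩ : ∃ N' : ℕ, N' = N / W + 2 := ⟨_, rfl⟩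
  have hN'up : (N' : ℝ) * W ≤ 3 * N := by
    have e1 : (N / W) * W ≤ N := Nat.div_mul_le_self N W
    have e2 : ((N / W : ℕ) : ℝ) * W ≤ N := by exact_mod_cast e1
    have e3 : (W : ℝ) ≤ N := by
      rw [← hee]
      nlinarith
    rw [hN']
    push_cast
    nlinarith
  have hN'low : Real.exp (x / 2) ≤ N' := by
    have e1 : (N : ℝ) < ((N / W : ℕ) + 1) * W := by
      have := Nat.lt_mul_div_succ N (show 0 < W by omega)
      have e2 : (N : ℝ) < W * ((N / W : ℕ) + 1) := by exact_mod_cast this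
      linarith
    have e2 : Real.exp (x / 2) * Real.exp (x / 2) < ((N / W : ℕ) + 1) * Real.exp (x / 2) := by
      rw [hee]
      refine e1.trans_le ?_
      exact mul_le_mul_of_nonneg_left hWle (by positivity)
    have e3 := lt_of_mul_lt_mul_right e2 (Real.exp_pos _).le
    rw [hN']
    push_cast
    linarith
  have hN'2 : 2 ≤ N' := by rw [hN']; exact Nat.le_add_left _ _
  have hN'0 : (0 : ℝ) < N' := by positivity
  have hw2' : 2 ≤ w := by
    have : (2 : ℝ) ≤ w := by linarith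
    exact_mod_cast this
  have hW2 : (2 : ℝ) ≤ W := by
    have : 2 ≤ W := by
      rw [hW]
      calc 2 = primorial 2 := primorial_two.symm
        _ ≤ primorial w := primorial_mono hw2'
    exact_mod_cast this
  have hN'N : (N' : ℝ) ≤ N := by
    have e1 : ((N / W : ℕ) : ℝ) * W ≤ N := by exact_mod_cast Nat.div_mul_le_self N W
    have e2 : (16 : ℝ) ≤ N := by
      rw [hNx]
      have := Real.add_one_le_exp x
      linarith
    have e3 : 2 * ((N / W : ℕ) : ℝ) ≤ N := by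
      have : (0 : ℝ) ≤ ((N / W : ℕ) : ℝ) := by positivity
      nlinarith
    rw [hN']
    push_cast
    linarith
  have hlogN' : x / 2 ≤ Real.log N' := by
    rw [Real.le_log_iff_exp_le hN'0]
    exact hN'low
  have hlN'0 : 0 < Real.log N' := by linarith
  have hκN : (N' : ℝ) ^ κ0 ≤ (N : ℝ) ^ κ0 := Real.rpow_le_rpow hN'0.le hN'N hκ00.le
  have hwN' : (w : ℝ) ≤ (N' : ℝ) ^ κ0 := by
    refine hw1.trans (b1.trans ?_)
    rw [Real.rpow_def_of_pos hN'0]
    apply Real.exp_le_exp.2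
    rw [mul_comm]
    exact mul_le_mul_of_nonneg_right hlogN' hκ00.le
  -- the sifted parts
  have hbigset : ∀ (g0 : ℕ) (C0 L X : ℝ), g0 ≤ g + g' → 0 < C0 → C0 ≤ C3 + C3' → 0 < L →
      X = N / (L * x ^ g0) → X ≤ x ^ (1 / 9 : ℝ) → C0 * Real.sqrt N ≤ L / 2 := by
    intro g0 C0 L X hg0 hC00 hC03 hL0 hX hXle
    have e1 : Real.sqrt N = Real.exp (x / 2) := by
      rw [← hee, Real.sqrt_mul_self (Real.exp_pos _).le]
    have e2 : (N : ℝ) ≤ L * x ^ (g + g' + 1) := by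
      have e3 : (N : ℝ) = X * (L * x ^ g0) := by
        rw [hX]
        field_simp
      rw [e3]
      have e4 : x ^ (1 / 9 : ℝ) ≤ x := by
        calc x ^ (1 / 9 : ℝ) ≤ x ^ (1 : ℝ) := Real.rpow_le_rpow_of_exponent_le (by linarith) (by norm_num)
          _ = x := Real.rpow_one x
      have e5 : x ^ g0 ≤ x ^ (g + g') := pow_le_pow_right₀ (by linarith) hg0
      calc X * (L * x ^ g0) ≤ x * (L * x ^ (g + g')) := by
            apply mul_le_mul (hXle.trans e4) (mul_le_mul_of_nonneg_left e5 hL0.le) (by positivity)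
              (by linarith)
        _ = L * x ^ (g + g' + 1) := by ring
    have e3 : 2 * C0 * x ^ (g + g' + 1) ≤ Real.exp (x / 2) := by
      refine le_trans ?_ b2
      apply mul_le_mul_of_nonneg_right _ (by positivity)
      linarith
    rw [e1]
    have e4 : 2 * C0 * Real.exp (x / 2) * x ^ (g + g' + 1) ≤ L * x ^ (g + g' + 1) := by
      calc 2 * C0 * Real.exp (x / 2) * x ^ (g + g' + 1) =
            Real.exp (x / 2) * (2 * C0 * x ^ (g + g' + 1)) := by ring
        _ ≤ Real.exp (x / 2) * Real.exp (x / 2) := mul_le_mul_of_nonneg_left e3 (Real.exp_pos _).le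
        _ = N := hee
        _ ≤ _ := e2
    have e5 := le_of_mul_le_mul_right e4 (by positivity)
    linarith
  obtain ⟨R1, hR1⟩ : ∃ R1 : Finset ℕ, R1 = A1.filter (fun n => Rough f κ0 N n) := ⟨_, rfl⟩
  obtain ⟨R2, hR2⟩ : ∃ R2 : Finset ℕ, R2 = A2.filter (fun n => Rough f' κ0 N n) := ⟨_, rfl⟩
  have hR1s : R1 ⊆ A1 := by rw [hR1]; exact filter_subset _ _
  have hR2s : R2 ⊆ A2 := by rw [hR2]; exact filter_subset _ _
  have hX1' : X1 = N / (L1 * x ^ g) := by rw [hX1, hx]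
  have hX2' : X2 = N / (L2 * x ^ g') := by rw [hX2, hx]
  have hR1c : L1 ≤ 2 * R1.card := by
    have h5 := h3 N hN1 A1 hG1
    have h6 := card_filter_add_card_filter_not (s := A1) (fun n => Rough f κ0 N n)
    rw [← hκ0] at h5
    rw [← hR1] at h6
    have h7 : (R1.card : ℝ) + ((A1.filter (fun n => ¬ Rough f κ0 N n)).card : ℝ) = L1 := by
      rw [hL1]
      exact_mod_cast h6
    have h8 := hbigset g C3 L1 X1 (by omega) hC3 (by linarith) hL10 hX1' hd1
    linarith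
  have hR2c : L2 ≤ 2 * R2.card := by
    have h5 := h3' N hN1 A2 hG2
    have h6 := card_filter_add_card_filter_not (s := A2) (fun n => Rough f' κ0 N n)
    rw [← hκ0] at h5
    rw [← hR2] at h6
    have h7 : (R2.card : ℝ) + ((A2.filter (fun n => ¬ Rough f' κ0 N n)).card : ℝ) = L2 := by
      rw [hL2]
      exact_mod_cast h6
    have h8 := hbigset g' C3' L2 X2 (by omega) hC3' (by linarith) hL20 hX2' hd2
    linarith
  have hR10 : (0 : ℝ) < R1.card := by linarith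
  have hR20 : (0 : ℝ) < R2.card := by linarith
  -- the densities
  have hWa := (h2 N' hN'2).1
  have hWa' := (h2' N' hN'2).1
  obtain ⟨Y, hY⟩ : ∃ Y : ℕ, Y = ⌊(N' : ℝ) ^ κ0⌋₊ := ⟨_, rfl⟩
  rw [← hY] at hWa hWa'
  have hV0 : ∀ a b : ℕ, 0 < VV (ZS f) a b := fun a b => VV_nonneg fun p hp => (hr p (Pr_prime hp)).2.1
  have hV0' : ∀ a b : ℕ, 0 < VV (ZS f') a b := fun a b => VV_nonneg fun p hp => (hr' p (Pr_prime hp)).2.1
  have hdens : ∀ (g0 : ℕ) (V c2 L X : ℝ) (R : ℝ), 0 < V → 0 < c2 → V * Real.log N' ^ g0 ≤ c2 → 0 < L →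
      L ≤ 2 * R → X = N / (L * x ^ g0) → N' * W * V / R ≤ 6 * 2 ^ g0 * c2 * X := by
    intro g0 V c2 L X R hV hc2 hVl hL0 hLR hX
    have hRp : 0 < R := by linarith
    rw [div_le_iff₀ hRp]
    have e1 : x ^ g0 ≤ 2 ^ g0 * Real.log N' ^ g0 := by
      rw [← mul_pow]
      exact pow_le_pow_left₀ (by linarith) (by linarith) g0
    have e2 : V * x ^ g0 ≤ 2 ^ g0 * c2 := by
      calc V * x ^ g0 ≤ V * (2 ^ g0 * Real.log N' ^ g0) := mul_le_mul_of_nonneg_left e1 hV.le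
        _ = 2 ^ g0 * (V * Real.log N' ^ g0) := by ring
        _ ≤ _ := mul_le_mul_of_nonneg_left hVl (by positivity)
    have e3 : V ≤ 2 ^ g0 * c2 / x ^ g0 := by
      rw [le_div_iff₀ (by positivity)]
      exact e2
    have e4 : 6 * 2 ^ g0 * c2 * X * R = 3 * N * (2 ^ g0 * c2 / x ^ g0) * (2 * R / L) := by
      rw [hX]
      field_simp
      ring
    rw [e4]
    have e5 : 1 ≤ 2 * R / L := by
      rw [le_div_iff₀ hL0]
      linarith
    calc N' * W * V ≤ 3 * N * (2 ^ g0 * c2 / x ^ g0) :=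
          mul_le_mul hN'up e3 hV.le (by positivity)
      _ = 3 * N * (2 ^ g0 * c2 / x ^ g0) * 1 := (mul_one _).symm
      _ ≤ _ := mul_le_mul_of_nonneg_left e5 (by positivity)
  have hD1 := hdens g (VV (ZS f) 0 Y) C2 L1 X1 R1.card (hV0 _ _) hC2 hWa hL10 hR1c hX1'
  have hD2 := hdens g' (VV (ZS f') 0 Y) C2' L2 X2 R2.card (hV0' _ _) hC2' hWa' hL20 hR2c hX2'
  rw [← hK1] at hD1
  rw [← hK2] at hD2
  -- the threshold
  obtain ⟨z, hz⟩ : ∃ z : ℕ, z = ⌈Real.log (C * K2 * X2 + 1)⌉₊ + 2 * (r + r') + 1 := ⟨_, rfl⟩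
  have hCKX : 0 < C * K2 * X2 := by positivity
  have hzlog : Real.log (C * K2 * X2 + 1) ≤ z := by
    rw [hz]
    push_cast
    have := Nat.le_ceil (Real.log (C * K2 * X2 + 1))
    have : (0 : ℝ) ≤ 2 * ((r : ℝ) + r') + 1 := by positivity
    linarith
  have hzup : (z : ℝ) ≤ Real.log (C * K2 * X2 + 1) + (2 * (r + r') + 2) := by
    rw [hz]
    push_cast
    have := (Nat.ceil_lt_add_one (Real.log_nonneg (show 1 ≤ C * K2 * X2 + 1 by linarith))).le
    linarith
  have hzw : z ≤ w := by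
    have e1 : Real.log (C * K2 * X2 + 1) ≤ Real.log (K * x ^ (1 / 9 : ℝ) + 1) := by
      apply Real.log_le_log (by positivity)
      have : C * K2 * X2 ≤ K * x ^ (1 / 9 : ℝ) := by
        apply mul_le_mul _ hd2 hX20.le hK0.le
        rw [hK]
        have : 0 < C * (K1 * K2) ^ 4 := by positivity
        linarith
      linarith
    have e2 : (z : ℝ) ≤ w := by linarith
    exact_mod_cast e2
  have hz1 : 1 ≤ z := by rw [hz]; omega
  have hfin := h1 w N N' W hN1 hW hN' hwN' A A' (ZS f) (ZS f')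
    (fun q hq _ => ⟨(hr q hq).1.trans (by omega), (hr q hq).2⟩)
    (fun q hq _ => ⟨(hr' q hq).1.trans (by omega), (hr' q hq).2⟩)
    R1 R2 B (hR1s.trans hA1) (hR2s.trans hA2)
    (fun n hn p hp hpN => by
      rw [ZS_mem f hp.pos]
      intro hd
      rw [hR1] at hn
      have := (mem_filter.1 hn).2 p hp hd
      linarith)
    (fun n hn p hp hpN => by
      rw [ZS_mem f' hp.pos]
      intro hd
      rw [hR2] at hn
      have := (mem_filter.1 hn).2 p hp hd
      linarith)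
    (card_pos.1 (by exact_mod_cast hR10)) (card_pos.1 (by exact_mod_cast hR20))
    (fun m hm n hn => hB m (hR1s hm) n (hR2s hn)) z (by rw [hz]; omega) hz1 hzw
    (by
      rw [← hY]
      refine le_trans ?_ hw2
      refine le_trans ?_ b3
      have e1 : (N' * W * VV (ZS f) 0 Y / R1.card) * (N' * W * VV (ZS f') 0 Y / R2.card) ≤
          (K1 * x ^ (1 / 9 : ℝ)) * (K2 * x ^ (1 / 9 : ℝ)) := by
        have p1 : 0 < VV (ZS f) 0 Y := hV0 _ _
        have p2 : 0 < VV (ZS f') 0 Y := hV0' _ _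
        apply mul_le_mul (hD1.trans (mul_le_mul_of_nonneg_left hd1 hK10.le))
          (hD2.trans (mul_le_mul_of_nonneg_left hd2 hK20.le))
          (div_nonneg (mul_nonneg (by positivity) p2.le) hR20.le) (by positivity)
      have e2 : ((K1 * x ^ (1 / 9 : ℝ)) * (K2 * x ^ (1 / 9 : ℝ))) ^ 4 = (K1 * K2) ^ 4 * x ^ (8 / 9 : ℝ) := by
        have e3 : x ^ (8 / 9 : ℝ) = (x ^ (1 / 9 : ℝ)) ^ 8 := by
          rw [← Real.rpow_mul_natCast (by linarith)]
          norm_num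
        rw [e3]
        ring
      have p1 : 0 < VV (ZS f) 0 Y := hV0 _ _
      have p2 : 0 < VV (ZS f') 0 Y := hV0' _ _
      calc C * ((N' * W * VV (ZS f) 0 Y / R1.card) * (N' * W * VV (ZS f') 0 Y / R2.card)) ^ 4 ≤
            C * ((K1 * x ^ (1 / 9 : ℝ)) * (K2 * x ^ (1 / 9 : ℝ))) ^ 4 := by
            apply mul_le_mul_of_nonneg_left _ hC0.le
            exact pow_le_pow_left₀ (mul_nonneg (div_nonneg (mul_nonneg (by positivity) p1.le) hR10.le)
              (div_nonneg (mul_nonneg (by positivity) p2.le) hR20.le)) e1 4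
        _ = C * (K1 * K2) ^ 4 * x ^ (8 / 9 : ℝ) := by rw [e2]; ring
        _ ≤ K * x ^ (8 / 9 : ℝ) := by
            apply mul_le_mul_of_nonneg_right _ (by positivity)
            rw [hK]
            have : 0 < C * K2 := by positivity
            linarith)
    (by
      rw [← hY]
      have p2 : 0 < VV (ZS f') 0 Y := hV0' _ _
      refine le_trans (Real.log_le_log
        (mul_pos hC0 (div_pos (mul_pos (mul_pos hN'0 (by linarith)) p2) hR20)) ?_) hzlog
      have : C * (N' * W * VV (ZS f') 0 Y / R2.card) ≤ C * (K2 * X2) := mul_le_mul_of_nonneg_left hD2 hC0.le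
      linarith)
  rw [← hY] at hfin
  have hWk := (h2 N' hN'2).2.2 z hz1
  rw [← hY] at hWk
  -- the logarithm of `z`
  have hlogz : Real.log (2 * z) ≤ K5 * Λ := by
    have e1 : (2 : ℝ) * z ≤ K4 * (2 + Real.log (2 + X2)) := by
      have e2 : Real.log (C * K2 * X2 + 1) ≤ Real.log (C * K2 + 1) + Real.log (2 + X2) := by
        rw [← Real.log_mul (by positivity) (by positivity)]
        apply Real.log_le_log (by positivity)
        nlinarith [mul_pos hC0 hK20]
      have e3 : (2 : ℝ) * z ≤ K4 + 2 * Real.log (2 + X2) := by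
        rw [hK4]
        linarith
      nlinarith
    have hz0 : (0 : ℝ) < 2 * z := by positivity
    have e2 := Real.log_le_log hz0 e1
    have e2' := Real.log_mul (show K4 ≠ 0 by linarith) (show 2 + Real.log (2 + X2) ≠ 0 by linarith)
    rw [e2', ← hΛ] at e2
    have e3 : Real.log K4 ≤ Real.log K4 / Real.log 2 * Λ := by
      rw [div_mul_eq_mul_div, le_div_iff₀ hlog2]
      exact mul_le_mul_of_nonneg_left hΛ2 hlK4
    rw [hK5, add_mul, one_mul]
    linarith
  have hz1r : (1 : ℝ) ≤ z := by exact_mod_cast hz1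
  have hlz0 : 0 ≤ Real.log (2 * z) := Real.log_nonneg (by linarith)
  calc L1 * x ^ g ≤ (2 * R1.card) * (2 ^ g * Real.log N' ^ g) := by
        apply mul_le_mul hR1c _ (by positivity) (by linarith)
        rw [← mul_pow]
        exact pow_le_pow_left₀ (by linarith) (by linarith) g
    _ ≤ (2 * (C * VV (ZS f) z Y * B.card)) * (2 ^ g * Real.log N' ^ g) := by
        apply mul_le_mul_of_nonneg_right _ (by positivity)
        linarith
    _ = 2 ^ (g + 1) * C * (VV (ZS f) z Y * Real.log N' ^ g) * B.card := by ring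
    _ ≤ 2 ^ (g + 1) * C * (C2 * Real.log (2 * z) ^ g) * B.card := by
        apply mul_le_mul_of_nonneg_right _ hBc0.le
        exact mul_le_mul_of_nonneg_left hWk (by positivity)
    _ ≤ 2 ^ (g + 1) * C * (C2 * (K5 * Λ) ^ g) * B.card := by
        apply mul_le_mul_of_nonneg_right _ hBc0.le
        apply mul_le_mul_of_nonneg_left _ (by positivity)
        apply mul_le_mul_of_nonneg_left _ hC2.le
        exact pow_le_pow_left₀ hlz0 hlogz g
    _ = (2 ^ (g + 1) * C * C2 * K5 ^ g) * Λ ^ g * B.card := by rw [mul_pow]; ring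
    _ ≤ _ := by
        apply mul_le_mul_of_nonneg_right _ hBc0.le
        apply mul_le_mul_of_nonneg_right _ (by positivity)
        have : 0 < (x0 / Real.log 2) ^ g := by positivity
        linarith

end Pool.Agent.K7.H64.LS
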