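import Pool.Agent.K7.H64.LS.DenseS
import Pool.Agent.K7.H64.LS.Uni

/-!
Sums of dense sets of arguments with prime or almost prime values, uniformly for families of polynomials of bounded
degree without a fixed prime divisor.
-/

set_option autoImplicit false

open Finset Polynomial

namespace Pool.Agent.K7.H64.LS

open Pool.Agent.Y843.HS

variable {ι : Type} [Fintype ι] {ι' : Type} [Fintype ι']

theorem nl_exp : (4 : ℝ) ≤ Real.exp 2 := by
  have := Real.exp_one_gt_d9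
  have e3 : Real.exp 2 = Real.exp 1 * Real.exp 1 := by rw [← Real.exp_add]; norm_num
  rw [e3]
  nlinarith

theorem nl_sq {W e : ℝ} (h1 : W ≤ e) (h2 : 2 ≤ e) : W ≤ e * e := by nlinarith

theorem nl_up {q W N : ℝ} (h1 : q * W ≤ N) (h2 : W ≤ N) : (q + 2) * W ≤ 3 * N := by nlinarith

theorem nl_half {q W N : ℝ} (h1 : q * W ≤ N) (h2 : 2 ≤ W) (h3 : 0 ≤ q) : 2 * q ≤ N := by nlinarith

theorem nl_kap {x l k : ℝ} (h1 : x / 2 ≤ l) (h2 : 0 < k) : x * (k / 2) ≤ l * k := by nlinarith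

theorem nl_prod {c X : ℝ} (h1 : 0 < c) (h2 : 0 < X) : c * X + 1 ≤ (c + 1) * (2 + X) := by nlinarith

theorem nl_fac {V V' c : ℝ} (h1 : V ≤ V') (h2 : 1 ≤ c) (h3 : 0 < V') : V ≤ c * V' := by nlinarith

theorem nl_pow {z K y : ℕ} (h1 : z ≤ K + y) (h2 : K < y) (h3 : 2 ≤ y) : z ≤ y ^ 2 := by nlinarith

set_option maxHeartbeats 4000000 in
/-- **sums of dense sets of arguments with prime or almost prime values, uniformly** -/
theorem dense_uni (r r' : ℕ) {κ : ℝ} (hκ : 0 < κ) : ∃ C : ℝ, 0 < C ∧ ∀ (f : ι → ℤ[X]) (f' : ι' → ℤ[X]),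
    Adm f r → Adm f' r' → ∀ N : ℕ, 2 ≤ N →
    ∀ (A A' : ℕ) (A1 A2 B : Finset ℕ), A1 ⊆ Ioc A (A + N) → A2 ⊆ Ioc A' (A' + N) →
    (∀ n ∈ A1, Good f κ N n) → (∀ n ∈ A2, Good f' κ N n) → A1.Nonempty → A2.Nonempty →
    (∀ m ∈ A1, ∀ n ∈ A2, m + n ∈ B) →
    N * VV (ZS f) 0 N / A1.card ≤ Real.log N ^ (1 / 9 : ℝ) →
    N * VV (ZS f') 0 N / A2.card ≤ Real.log N ^ (1 / 9 : ℝ) →
    ∀ y : ℕ, Real.log (2 + N * VV (ZS f') 0 N / A2.card) ≤ y →
    (A1.card : ℝ) ≤ C * VV (ZS f) y N * B.card := by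
  classical
  obtain ⟨κ0, hκ0⟩ : ∃ κ0 : ℝ, κ0 = min κ (1 / 2) := ⟨_, rfl⟩
  have hκ00 : 0 < κ0 := by rw [hκ0]; exact lt_min hκ (by norm_num)
  have hκ01 : κ0 ≤ 1 / 2 := by rw [hκ0]; exact min_le_right _ _
  obtain ⟨C, hC, h1⟩ := dense_core (r + r') hκ00
  have hC0 : 0 < C := by linarith
  obtain ⟨C2, hC2, h2⟩ := VV_ext r (κ := κ0 / 2) (by positivity)
  obtain ⟨C2', hC2', h2'⟩ := VV_ext r' (κ := κ0 / 2) (by positivity)
  obtain ⟨C3, hC3, h3⟩ := few_exc_uni (ι := ι) r κ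
  obtain ⟨C3', hC3', h3'⟩ := few_exc_uni (ι := ι') r' κ
  obtain ⟨cV, hcV, hVlow⟩ := Pool.Agent.Y843.HG.VV_low r
  obtain ⟨cV', hcV', hVlow'⟩ := Pool.Agent.Y843.HG.VV_low r'
  obtain ⟨K1, hK1⟩ : ∃ K1 : ℝ, K1 = 6 * C2 := ⟨_, rfl⟩
  obtain ⟨K2, hK2⟩ : ∃ K2 : ℝ, K2 = 6 * C2' := ⟨_, rfl⟩
  have hK10 : 0 < K1 := by rw [hK1]; positivity
  have hK20 : 0 < K2 := by rw [hK2]; positivity
  obtain ⟨K, hK⟩ : ∃ K : ℝ, K = C * (K1 * K2) ^ 4 + C * K2 := ⟨_, rfl⟩
  have hK0 : 0 < K := by rw [hK]; positivity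
  obtain ⟨x1, hx116, hx1⟩ := large_log (2 * r + 2 * r') (K' := 2 * (r + r') + 3) hκ00 hK0
    (C3 := (C3 + C3') * (1 / cV + 1 / cV')) (by positivity)
  obtain ⟨x0, hx0⟩ : ∃ x0 : ℝ, x0 = max x1 (2 * r + 2 * r' + 3) := ⟨_, rfl⟩
  have hx016 : 16 ≤ x0 := by rw [hx0]; exact hx116.trans (le_max_left _ _)
  obtain ⟨B0, hB0⟩ : ∃ B0 : ℕ, B0 = ⌊Real.exp x0⌋₊ := ⟨_, rfl⟩
  obtain ⟨c0, hc0, hc01, hlow0⟩ := low_const r 0 B0
  -- the constant for `z`
  have hCK2 : 0 < C * K2 := by positivity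
  have hlogCK : 0 ≤ Real.log (C * K2 + 1) := Real.log_nonneg (by linarith)
  obtain ⟨K4, hK4⟩ : ∃ K4 : ℕ, K4 = ⌈Real.log (C * K2 + 1)⌉₊ + 2 * (r + r') + 4 := ⟨_, rfl⟩
  obtain ⟨c4, hc4, hc41, hlow4⟩ := low_const r 2 (2 * K4)
  refine ⟨1 / c0 + 2 * C * (C2 / c4), by positivity, ?_⟩
  intro f f' hf hf' N hN A A' A1 A2 B hA1 hA2 hG1 hG2 hn1 hn2 hB hd1 hd2 y hy
  have hr : ∀ p : ℕ, p.Prime → (ZS f p).card ≤ r ∧ (ZS f p).card < p ∧ ∀ c ∈ ZS f p, c < p :=
    fun p hp => ZS_uni hf hp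
  have hr' : ∀ p : ℕ, p.Prime → (ZS f' p).card ≤ r' ∧ (ZS f' p).card < p ∧ ∀ c ∈ ZS f' p, c < p :=
    fun p hp => ZS_uni hf' hp
  have hN1 : 1 ≤ N := by omega
  have hN2 : (2 : ℝ) ≤ N := by exact_mod_cast hN
  have hN0 : (0 : ℝ) < N := by linarith
  have hlN : 0 < Real.log N := Real.log_pos (by linarith)
  have hV0 : ∀ a b : ℕ, 0 < VV (ZS f) a b := fun a b => VV_nonneg fun p hp => (hr p (Pr_prime hp)).2.1
  have hV0' : ∀ a b : ℕ, 0 < VV (ZS f') a b := fun a b => VV_nonneg fun p hp => (hr' p (Pr_prime hp)).2.1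
  obtain ⟨L1, hL1⟩ : ∃ L1 : ℝ, L1 = A1.card := ⟨_, rfl⟩
  obtain ⟨L2, hL2⟩ : ∃ L2 : ℝ, L2 = A2.card := ⟨_, rfl⟩
  have hL10 : 0 < L1 := by rw [hL1]; exact_mod_cast card_pos.2 hn1
  have hL20 : 0 < L2 := by rw [hL2]; exact_mod_cast card_pos.2 hn2
  rw [← hL1] at hd1
  rw [← hL2] at hd2 hy
  rw [← hL1]
  obtain ⟨X1, hX1⟩ : ∃ X1 : ℝ, X1 = N * VV (ZS f) 0 N / L1 := ⟨_, rfl⟩
  obtain ⟨X2, hX2⟩ : ∃ X2 : ℝ, X2 = N * VV (ZS f') 0 N / L2 := ⟨_, rfl⟩
  have hX10 : 0 < X1 := by rw [hX1]; exact div_pos (mul_pos hN0 (hV0 _ _)) hL10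
  have hX20 : 0 < X2 := by rw [hX2]; exact div_pos (mul_pos hN0 (hV0' _ _)) hL20
  rw [← hX1] at hd1
  rw [← hX2] at hd2 hy
  have hBcard : L1 ≤ B.card := by
    obtain ⟨b, hb⟩ := hn2
    rw [hL1]
    have h5 : A1.image (fun a => a + b) ⊆ B := by
      intro x hx
      obtain ⟨a, ha, rfl⟩ := mem_image.1 hx
      exact hB a ha b hb
    have h6 := card_le_card h5
    rw [card_image_of_injective _ (add_left_injective b)] at h6
    exact_mod_cast h6
  have hBc0 : (0 : ℝ) < B.card := by linarith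
  have hWyN : 0 < VV (ZS f) y N := hV0 _ _
  rcases lt_or_ge (Real.log N) x0 with hsm | hbig
  · -- small `N`
    have h5 : c0 ≤ VV (ZS f) y N := by
      apply hlow0 y N (ZS f) (fun p hp => hr p (Pr_prime hp))
      refine le_trans ?_ (le_max_left _ _)
      rw [hB0]
      apply Nat.le_floor
      rw [← Real.exp_log hN0]
      exact Real.exp_le_exp.2 hsm.le
    have h6 : 1 ≤ 1 / c0 * VV (ZS f) y N := by
      rw [one_div_mul_eq_div, le_div_iff₀ hc0]
      linarith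
    calc L1 ≤ B.card := hBcard
      _ = 1 * B.card := (one_mul _).symm
      _ ≤ (1 / c0 * VV (ZS f) y N) * B.card := mul_le_mul_of_nonneg_right h6 hBc0.le
      _ ≤ (1 / c0 + 2 * C * (C2 / c4)) * VV (ZS f) y N * B.card := by
          apply mul_le_mul_of_nonneg_right _ hBc0.le
          apply mul_le_mul_of_nonneg_right _ hWyN.le
          have : 0 < 2 * C * (C2 / c4) := by positivity
          linarith
  obtain ⟨x, hx⟩ : ∃ x : ℝ, x = Real.log N := ⟨_, rfl⟩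
  have hNx : (N : ℝ) = Real.exp x := by rw [hx, Real.exp_log hN0]
  obtain ⟨b1, b2, b3, b4⟩ := hx1 x (by rw [hx]; exact (le_max_left _ _).trans (hx0 ▸ hbig))
  have hx16 : 16 ≤ x := by rw [hx]; linarith
  have hxr : 2 * (r : ℝ) + 2 * r' + 3 ≤ x := by rw [hx]; exact (le_max_right _ _).trans (hx0 ▸ hbig)
  rw [← hx] at hd1 hd2 hlN
  -- the modulus
  obtain ⟨w, hw⟩ : ∃ w : ℕ, w = ⌊x / 4⌋₊ := ⟨_, rfl⟩
  have hw1 : (w : ℝ) ≤ x / 4 := by rw [hw]; exact Nat.floor_le (by positivity)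
  have hw2 : x / 8 ≤ w := by
    have := Nat.lt_floor_add_one (x / 4)
    rw [← hw] at this
    linarith
  obtain ⟨W, hW⟩ : ∃ W : ℕ, W = primorial w := ⟨_, rfl⟩
  have hW1 : 1 ≤ W := by rw [hW]; exact primorial_pos w
  have hW1' : (1 : ℝ) ≤ W := by exact_mod_cast hW1
  have hWle : (W : ℝ) ≤ Real.exp (x / 2) := by
    have e1 : (W : ℝ) ≤ (4 : ℝ) ^ w := by rw [hW]; exact_mod_cast primorial_le_four_pow w
    have e2 : (4 : ℝ) ≤ Real.exp 2 := nl_exp
    calc (W : ℝ) ≤ (4 : ℝ) ^ w := e1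
      _ ≤ (Real.exp 2) ^ w := pow_le_pow_left₀ (by norm_num) e2 w
      _ = Real.exp (w * 2) := by rw [← Real.exp_nat_mul]
      _ ≤ Real.exp (x / 2) := Real.exp_le_exp.2 (by linarith)
  have hee : Real.exp (x / 2) * Real.exp (x / 2) = N := by
    rw [hNx, ← Real.exp_add]
    congr 1
    ring
  have he2 : 2 ≤ Real.exp (x / 2) := by
    have := Real.add_one_le_exp (x / 2)
    linarith
  obtain ⟨N', hN'⟩ : ∃ N' : ℕ, N' = N / W + 2 := ⟨_, rfl⟩
  have hN'up : (N' : ℝ) * W ≤ 3 * N := by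
    have e1 : (N / W) * W ≤ N := Nat.div_mul_le_self N W
    have e2 : ((N / W : ℕ) : ℝ) * W ≤ N := by exact_mod_cast e1
    have e3 : (W : ℝ) ≤ N := by
      rw [← hee]
      exact nl_sq hWle he2
    rw [hN']
    push_cast
    exact nl_up e2 e3
  have hN'low : Real.exp (x / 2) ≤ N' := by
    have e1 : (N : ℝ) < ((N / W : ℕ) + 1) * W := by
      have := Nat.lt_mul_div_succ N (show 0 < W by omega)
      have e2 : (N : ℝ) < W * ((N / W : ℕ) + 1) := by exact_mod_cast this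
      linarith
    have e2 : Real.exp (x / 2) * Real.exp (x / 2) < ((N / W : ℕ) + 1) * Real.exp (x / 2) := by
      rw [hee]
      refine e1.trans_le ?_
      exact mul_le_mul_of_nonneg_left hWle (by positivity)
    have e3 := lt_of_mul_lt_mul_right e2 (Real.exp_pos _).le
    rw [hN']
    push_cast
    linarith
  have hN'2 : 2 ≤ N' := by rw [hN']; exact Nat.le_add_left _ _
  have hN'0 : (0 : ℝ) < N' := by positivity
  have hw2' : 2 ≤ w := by
    have : (2 : ℝ) ≤ w := by linarith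
    exact_mod_cast this
  have hW2 : (2 : ℝ) ≤ W := by
    have : 2 ≤ W := by
      rw [hW]
      calc 2 = primorial 2 := primorial_two.symm
        _ ≤ primorial w := primorial_mono hw2'
    exact_mod_cast this
  have hN'N : (N' : ℝ) ≤ N := by
    have e1 : ((N / W : ℕ) : ℝ) * W ≤ N := by exact_mod_cast Nat.div_mul_le_self N W
    have e2 : (16 : ℝ) ≤ N := by
      rw [hNx]
      have := Real.add_one_le_exp x
      linarith
    have e3 : 2 * ((N / W : ℕ) : ℝ) ≤ N := by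
      have : (0 : ℝ) ≤ ((N / W : ℕ) : ℝ) := by positivity
      exact nl_half e1 hW2 this
    rw [hN']
    push_cast
    linarith
  have hlogN' : x / 2 ≤ Real.log N' := by
    rw [Real.le_log_iff_exp_le hN'0]
    exact hN'low
  have hlN'0 : 0 < Real.log N' := by linarith
  have hκN : (N' : ℝ) ^ κ0 ≤ (N : ℝ) ^ κ0 := Real.rpow_le_rpow hN'0.le hN'N hκ00.le
  have hwN' : (w : ℝ) ≤ (N' : ℝ) ^ κ0 := by
    refine hw1.trans (b1.trans ?_)
    rw [Real.rpow_def_of_pos hN'0]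
    apply Real.exp_le_exp.2
    rw [mul_comm]
    exact mul_le_mul_of_nonneg_right hlogN' hκ00.le
  -- the sifted parts
  have hbigset : ∀ (g0 : ℕ) (c C0 L X V : ℝ), g0 ≤ 2 * r + 2 * r' → 0 < c → 1 / c ≤ 1 / cV + 1 / cV' → 0 < C0 →
      C0 ≤ C3 + C3' → 0 < L → c / x ^ g0 ≤ V → X = N * V / L → X ≤ x ^ (1 / 9 : ℝ) → C0 * Real.sqrt N ≤ L / 2 := by
    intro g0 c C0 L X V hg0 hc hcc hC00 hC03 hL0 hV hX hXle
    have e1 : Real.sqrt N = Real.exp (x / 2) := by
      rw [← hee, Real.sqrt_mul_self (Real.exp_pos _).le]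
    have hx1' : 1 ≤ x := by linarith
    have e2 : (N : ℝ) ≤ 1 / c * (L * x ^ (2 * r + 2 * r' + 1)) := by
      have e3 : (N : ℝ) * V = X * L := by
        rw [hX]
        field_simp
      have e4 : x ^ (1 / 9 : ℝ) ≤ x := by
        calc x ^ (1 / 9 : ℝ) ≤ x ^ (1 : ℝ) := Real.rpow_le_rpow_of_exponent_le (by linarith) (by norm_num)
          _ = x := Real.rpow_one x
      have e5 : x ^ g0 ≤ x ^ (2 * r + 2 * r') := pow_le_pow_right₀ (by linarith) hg0
      have e6 : (N : ℝ) * (c / x ^ g0) ≤ x * L := by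
        calc (N : ℝ) * (c / x ^ g0) ≤ N * V := mul_le_mul_of_nonneg_left hV hN0.le
          _ = X * L := e3
          _ ≤ x * L := mul_le_mul_of_nonneg_right (hXle.trans e4) hL0.le
      have e7 : (N : ℝ) * c ≤ x * L * x ^ g0 := by
        rw [← mul_div_assoc, div_le_iff₀ (by positivity)] at e6
        exact e6
      rw [one_div_mul_eq_div, le_div_iff₀ hc]
      calc (N : ℝ) * c ≤ x * L * x ^ g0 := e7
        _ ≤ x * L * x ^ (2 * r + 2 * r') := mul_le_mul_of_nonneg_left e5 (by positivity)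
        _ = L * x ^ (2 * r + 2 * r' + 1) := by ring
    have e3 : 2 * C0 * (1 / c) * x ^ (2 * r + 2 * r' + 1) ≤ Real.exp (x / 2) := by
      refine le_trans ?_ b2
      apply mul_le_mul_of_nonneg_right _ (by positivity)
      have : C0 * (1 / c) ≤ (C3 + C3') * (1 / cV + 1 / cV') :=
        mul_le_mul hC03 hcc (by positivity) (by positivity)
      linarith
    rw [e1]
    have hP : 0 < x ^ (2 * r + 2 * r' + 1) := by positivity
    have e4 : (2 * C0 * Real.exp (x / 2)) * (1 / c * x ^ (2 * r + 2 * r' + 1)) ≤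
        L * (1 / c * x ^ (2 * r + 2 * r' + 1)) := by
      calc (2 * C0 * Real.exp (x / 2)) * (1 / c * x ^ (2 * r + 2 * r' + 1)) =
            Real.exp (x / 2) * (2 * C0 * (1 / c) * x ^ (2 * r + 2 * r' + 1)) := by ring
        _ ≤ Real.exp (x / 2) * Real.exp (x / 2) := mul_le_mul_of_nonneg_left e3 (Real.exp_pos _).le
        _ = N := hee
        _ ≤ _ := e2
        _ = _ := by ring
    have e5 := le_of_mul_le_mul_right e4 (by positivity)
    linarith
  have hNbig : 2 * r + 2 * r' + 3 ≤ N := by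
    have e1 : (2 : ℝ) * r + 2 * r' + 3 ≤ N := by
      rw [hNx]
      have := Real.add_one_le_exp x
      linarith
    exact_mod_cast e1
  have hVl : cV / x ^ (2 * r) ≤ VV (ZS f) 0 N := by
    have := hVlow N (by omega) (ZS f) (fun p hp => hr p (Pr_prime hp))
    rwa [← hx] at this
  have hVl' : cV' / x ^ (2 * r') ≤ VV (ZS f') 0 N := by
    have := hVlow' N (by omega) (ZS f') (fun p hp => hr' p (Pr_prime hp))
    rwa [← hx] at this
  have hcc1 : 1 / cV ≤ 1 / cV + 1 / cV' := by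
    have : 0 < 1 / cV' := by positivity
    linarith
  have hcc2 : 1 / cV' ≤ 1 / cV + 1 / cV' := by
    have : 0 < 1 / cV := by positivity
    linarith
  obtain ⟨R1, hR1⟩ : ∃ R1 : Finset ℕ, R1 = A1.filter (fun n => Rough f κ0 N n) := ⟨_, rfl⟩
  obtain ⟨R2, hR2⟩ : ∃ R2 : Finset ℕ, R2 = A2.filter (fun n => Rough f' κ0 N n) := ⟨_, rfl⟩
  have hR1s : R1 ⊆ A1 := by rw [hR1]; exact filter_subset _ _
  have hR2s : R2 ⊆ A2 := by rw [hR2]; exact filter_subset _ _
  have hR1c : L1 ≤ 2 * R1.card := by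
    have h5 := h3 f hf N hN1 A1 hG1
    have h6 := card_filter_add_card_filter_not (s := A1) (fun n => Rough f κ0 N n)
    rw [← hκ0] at h5
    rw [← hR1] at h6
    have h7 : (R1.card : ℝ) + ((A1.filter (fun n => ¬ Rough f κ0 N n)).card : ℝ) = L1 := by
      rw [hL1]
      exact_mod_cast h6
    have h8 := hbigset (2 * r) cV C3 L1 X1 _ (by omega) hcV hcc1 hC3 (by linarith) hL10 hVl hX1 hd1
    linarith
  have hR2c : L2 ≤ 2 * R2.card := by
    have h5 := h3' f' hf' N hN1 A2 hG2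
    have h6 := card_filter_add_card_filter_not (s := A2) (fun n => Rough f' κ0 N n)
    rw [← hκ0] at h5
    rw [← hR2] at h6
    have h7 : (R2.card : ℝ) + ((A2.filter (fun n => ¬ Rough f' κ0 N n)).card : ℝ) = L2 := by
      rw [hL2]
      exact_mod_cast h6
    have h8 := hbigset (2 * r') cV' C3' L2 X2 _ (by omega) hcV' hcc2 hC3' (by linarith) hL20 hVl' hX2 hd2
    linarith
  have hR10 : (0 : ℝ) < R1.card := by linarith
  have hR20 : (0 : ℝ) < R2.card := by linarith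
  -- the densities
  obtain ⟨Y, hY⟩ : ∃ Y : ℕ, Y = ⌊(N' : ℝ) ^ κ0⌋₊ := ⟨_, rfl⟩
  have hN1r : (1 : ℝ) ≤ N := by linarith
  have hYN : Y ≤ N := by
    rw [hY]
    apply Nat.floor_le_of_le
    refine hκN.trans ?_
    calc (N : ℝ) ^ κ0 ≤ (N : ℝ) ^ (1 : ℝ) := Real.rpow_le_rpow_of_exponent_le hN1r (by linarith)
      _ = N := Real.rpow_one _
  have hYlow : (N : ℝ) ^ (κ0 / 2) < Y + 1 := by
    refine lt_of_le_of_lt ?_ (by rw [hY]; exact Nat.lt_floor_add_one _)
    rw [Real.rpow_def_of_pos hN0, Real.rpow_def_of_pos hN'0]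
    apply Real.exp_le_exp.2
    rw [← hx]
    exact nl_kap hlogN' hκ00
  have hWa := h2 N hN1 (ZS f) (fun p hp _ => hr p hp) 0 Y hYN hYlow
  have hWa' := h2' N hN1 (ZS f') (fun p hp _ => hr' p hp) 0 Y hYN hYlow
  have hdens : ∀ (V V0 c2 L X : ℝ) (R : ℝ), 0 < V → 0 < c2 → V ≤ c2 * V0 → 0 < L →
      L ≤ 2 * R → X = N * V0 / L → N' * W * V / R ≤ 6 * c2 * X := by
    intro V V0 c2 L X R hV hc2 hVl hL0 hLR hX
    have hRp : 0 < R := by linarith
    rw [div_le_iff₀ hRp]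
    have e4 : 6 * c2 * X * R = 3 * N * (c2 * V0) * (2 * R / L) := by
      rw [hX]
      field_simp
      ring
    rw [e4]
    have e5 : 1 ≤ 2 * R / L := by
      rw [le_div_iff₀ hL0]
      linarith
    have e6 : 0 ≤ 3 * N * (c2 * V0) := by
      have : 0 < c2 * V0 := lt_of_lt_of_le hV hVl
      positivity
    calc N' * W * V ≤ 3 * N * (c2 * V0) :=
          mul_le_mul hN'up hVl hV.le (by positivity)
      _ = 3 * N * (c2 * V0) * 1 := (mul_one _).symm
      _ ≤ _ := mul_le_mul_of_nonneg_left e5 e6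
  have hD1 := hdens (VV (ZS f) 0 Y) (VV (ZS f) 0 N) C2 L1 X1 R1.card (hV0 _ _) hC2 hWa hL10 hR1c hX1
  have hD2 := hdens (VV (ZS f') 0 Y) (VV (ZS f') 0 N) C2' L2 X2 R2.card (hV0' _ _) hC2' hWa' hL20 hR2c hX2
  rw [← hK1] at hD1
  rw [← hK2] at hD2
  -- the threshold
  obtain ⟨z, hz⟩ : ∃ z : ℕ, z = ⌈Real.log (C * K2 * X2 + 1)⌉₊ + 2 * (r + r') + 1 := ⟨_, rfl⟩
  have hCKX : 0 < C * K2 * X2 := by positivity
  have hzlog : Real.log (C * K2 * X2 + 1) ≤ z := by
    rw [hz]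
    push_cast
    have := Nat.le_ceil (Real.log (C * K2 * X2 + 1))
    have : (0 : ℝ) ≤ 2 * ((r : ℝ) + r') + 1 := by positivity
    linarith
  have hzup : (z : ℝ) ≤ Real.log (C * K2 * X2 + 1) + (2 * (r + r') + 2) := by
    rw [hz]
    push_cast
    have := (Nat.ceil_lt_add_one (Real.log_nonneg (show 1 ≤ C * K2 * X2 + 1 by linarith))).le
    linarith
  have hzw : z ≤ w := by
    have e1 : Real.log (C * K2 * X2 + 1) ≤ Real.log (K * x ^ (1 / 9 : ℝ) + 1) := by
      apply Real.log_le_log (by positivity)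
      have : C * K2 * X2 ≤ K * x ^ (1 / 9 : ℝ) := by
        apply mul_le_mul _ hd2 hX20.le hK0.le
        rw [hK]
        have : 0 < C * (K1 * K2) ^ 4 := by positivity
        linarith
      linarith
    have e2 : (z : ℝ) ≤ w := by linarith
    exact_mod_cast e2
  have hz1 : 1 ≤ z := by rw [hz]; omega
  have hfin := h1 w N N' W hN1 hW hN' hwN' A A' (ZS f) (ZS f')
    (fun q hq _ => ⟨(hr q hq).1.trans (by omega), (hr q hq).2⟩)
    (fun q hq _ => ⟨(hr' q hq).1.trans (by omega), (hr' q hq).2⟩)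
    R1 R2 B (hR1s.trans hA1) (hR2s.trans hA2)
    (fun n hn p hp hpN => by
      rw [ZS_mem f hp.pos]
      intro hd
      rw [hR1] at hn
      have := (mem_filter.1 hn).2 p hp hd
      linarith)
    (fun n hn p hp hpN => by
      rw [ZS_mem f' hp.pos]
      intro hd
      rw [hR2] at hn
      have := (mem_filter.1 hn).2 p hp hd
      linarith)
    (card_pos.1 (by exact_mod_cast hR10)) (card_pos.1 (by exact_mod_cast hR20))
    (fun m hm n hn => hB m (hR1s hm) n (hR2s hn)) z (by rw [hz]; omega) hz1 hzw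
    (by
      rw [← hY]
      refine le_trans ?_ hw2
      refine le_trans ?_ b3
      have e1 : (N' * W * VV (ZS f) 0 Y / R1.card) * (N' * W * VV (ZS f') 0 Y / R2.card) ≤
          (K1 * x ^ (1 / 9 : ℝ)) * (K2 * x ^ (1 / 9 : ℝ)) := by
        have p1 : 0 < VV (ZS f) 0 Y := hV0 _ _
        have p2 : 0 < VV (ZS f') 0 Y := hV0' _ _
        apply mul_le_mul (hD1.trans (mul_le_mul_of_nonneg_left hd1 hK10.le))
          (hD2.trans (mul_le_mul_of_nonneg_left hd2 hK20.le))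
          (div_nonneg (mul_nonneg (by positivity) p2.le) hR20.le) (by positivity)
      have e2 : ((K1 * x ^ (1 / 9 : ℝ)) * (K2 * x ^ (1 / 9 : ℝ))) ^ 4 = (K1 * K2) ^ 4 * x ^ (8 / 9 : ℝ) := by
        have e3 : x ^ (8 / 9 : ℝ) = (x ^ (1 / 9 : ℝ)) ^ 8 := by
          rw [← Real.rpow_mul_natCast (by linarith)]
          norm_num
        rw [e3]
        ring
      have p1 : 0 < VV (ZS f) 0 Y := hV0 _ _
      have p2 : 0 < VV (ZS f') 0 Y := hV0' _ _
      calc C * ((N' * W * VV (ZS f) 0 Y / R1.card) * (N' * W * VV (ZS f') 0 Y / R2.card)) ^ 4 ≤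
            C * ((K1 * x ^ (1 / 9 : ℝ)) * (K2 * x ^ (1 / 9 : ℝ))) ^ 4 := by
            apply mul_le_mul_of_nonneg_left _ hC0.le
            exact pow_le_pow_left₀ (mul_nonneg (div_nonneg (mul_nonneg (by positivity) p1.le) hR10.le)
              (div_nonneg (mul_nonneg (by positivity) p2.le) hR20.le)) e1 4
        _ = C * (K1 * K2) ^ 4 * x ^ (8 / 9 : ℝ) := by rw [e2]; ring
        _ ≤ K * x ^ (8 / 9 : ℝ) := by
            apply mul_le_mul_of_nonneg_right _ (by positivity)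
            rw [hK]
            have : 0 < C * K2 := by positivity
            linarith)
    (by
      rw [← hY]
      have p2 : 0 < VV (ZS f') 0 Y := hV0' _ _
      refine le_trans (Real.log_le_log
        (mul_pos hC0 (div_pos (mul_pos (mul_pos hN'0 (by linarith)) p2) hR20)) ?_) hzlog
      have : C * (N' * W * VV (ZS f') 0 Y / R2.card) ≤ C * (K2 * X2) := mul_le_mul_of_nonneg_left hD2 hC0.le
      linarith)
  rw [← hY] at hfin
  -- the two thresholds
  have hwY : w ≤ Y := by rw [hY]; exact Nat.le_floor hwN'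
  have hzy : z ≤ K4 + y := by
    have e2 : Real.log (C * K2 * X2 + 1) ≤ Real.log (C * K2 + 1) + Real.log (2 + X2) := by
      rw [← Real.log_mul (by positivity) (by positivity)]
      apply Real.log_le_log (by positivity)
      exact nl_prod (mul_pos hC0 hK20) hX20
    have e3 : (z : ℝ) ≤ ((K4 + y : ℕ) : ℝ) := by
      rw [hK4]
      push_cast
      have := Nat.le_ceil (Real.log (C * K2 + 1))
      linarith
    exact_mod_cast e3
  have hcmp : VV (ZS f) z Y ≤ 1 / c4 * VV (ZS f) y Y := by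
    have hc4' : 1 ≤ 1 / c4 := by rw [le_div_iff₀ hc4]; linarith
    rcases le_or_gt z y with h5 | h5
    · have h6 := VV_mono (Z := ZS f) (Y := Y) (fun p hp => (hr p (Pr_prime hp)).2.1) h5
      exact nl_fac h6 hc4' (hV0 y Y)
    · have h6 := VV_split (ZS f) h5.le (hzw.trans hwY)
      have h7 : c4 ≤ VV (ZS f) y z := by
        apply hlow4 y z (ZS f) (fun p hp => hr p (Pr_prime hp))
        rcases le_or_gt y K4 with h8 | h8
        · exact (by omega : z ≤ 2 * K4).trans (le_max_left _ _)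
        · refine le_trans ?_ (le_max_right _ _)
          have h9 : 2 ≤ y := by
            have : 4 ≤ K4 := by rw [hK4]; omega
            omega
          exact nl_pow hzy h8 h9
      rw [← h6]
      have := hV0 z Y
      calc VV (ZS f) z Y = 1 / c4 * (c4 * VV (ZS f) z Y) := by
            rw [← mul_assoc, one_div_mul_cancel hc4.ne', one_mul]
        _ ≤ _ := by
            apply mul_le_mul_of_nonneg_left _ (one_div_pos.2 hc4).le
            exact mul_le_mul_of_nonneg_right h7 this.le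
  have hWk := h2 N hN1 (ZS f) (fun p hp _ => hr p hp) y Y hYN hYlow
  have hCsum : 0 < 1 / c0 := by positivity
  calc L1 ≤ 2 * R1.card := hR1c
    _ ≤ 2 * (C * VV (ZS f) z Y * B.card) := by linarith
    _ ≤ 2 * (C * (1 / c4 * (C2 * VV (ZS f) y N)) * B.card) := by
        have : VV (ZS f) z Y ≤ 1 / c4 * (C2 * VV (ZS f) y N) :=
          hcmp.trans (mul_le_mul_of_nonneg_left hWk (one_div_pos.2 hc4).le)
        apply mul_le_mul_of_nonneg_left _ (by norm_num)
        apply mul_le_mul_of_nonneg_right _ hBc0.le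
        exact mul_le_mul_of_nonneg_left this hC0.le
    _ = (2 * C * (C2 / c4)) * VV (ZS f) y N * B.card := by ring
    _ ≤ (1 / c0 + 2 * C * (C2 / c4)) * VV (ZS f) y N * B.card := by
        apply mul_le_mul_of_nonneg_right _ hBc0.le
        apply mul_le_mul_of_nonneg_right _ hWyN.le
        linarith

end Pool.Agent.K7.H64.LS
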