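import Mathlib

/-!
Entropy of convolutions on finite groups: sums of two independent random elements which avoid few residues.
-/

set_option autoImplicit false

open Finset

namespace Pool.Agent.K7.H64.LS

section basic

variable {α : Type} [Fintype α]

/-- homogeneous entropy: `m` times the entropy of `f / m`, `m` the mass of `f` -/
noncomputable def Ht (f : α → ℝ) : ℝ := ∑ x, Real.negMulLog (f x) - Real.negMulLog (∑ x, f x)

theorem Ht_smul (c : ℝ) (f : α → ℝ) : Ht (fun x => c * f x) = c * Ht f := by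
  unfold Ht
  simp only [Real.negMulLog_mul]
  rw [← mul_sum, Real.negMulLog_mul, sum_add_distrib, ← mul_sum, ← sum_mul]
  ring

/-- Gibbs' inequality -/
theorem gibbs (f k : α → ℝ) (hf : ∀ x, 0 ≤ f x) (hk : ∀ x, 0 ≤ k x) (h : ∀ x, k x = 0 → f x = 0) :
    Ht f ≤ - ∑ x, f x * Real.log (k x) + (∑ x, f x) * Real.log (∑ x, k x) := by
  obtain ⟨m, hm⟩ : ∃ m : ℝ, m = ∑ x, f x := ⟨_, rfl⟩
  obtain ⟨M, hM⟩ : ∃ M : ℝ, M = ∑ x, k x := ⟨_, rfl⟩
  have hm0 : 0 ≤ m := by rw [hm]; exact sum_nonneg fun x _ => hf x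
  have hM0 : 0 ≤ M := by rw [hM]; exact sum_nonneg fun x _ => hk x
  unfold Ht
  rw [← hm, ← hM]
  rcases hm0.eq_or_lt with h0 | h0
  · have hz : ∀ x, f x = 0 := by
      intro x
      have := (sum_eq_zero_iff_of_nonneg (fun x _ => hf x)).1 (hm.symm.trans h0.symm) x (mem_univ x)
      exact this
    simp [hz, ← h0]
  have hMpos : 0 < M := by
    rcases hM0.eq_or_lt with h1 | h1
    · exfalso
      have hz : ∀ x, k x = 0 := fun x =>
        (sum_eq_zero_iff_of_nonneg (fun x _ => hk x)).1 (hM.symm.trans h1.symm) x (mem_univ x)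
      have : m = 0 := by
        rw [hm]
        exact sum_eq_zero fun x _ => h x (hz x)
      linarith
    · exact h1
  have key : ∀ x, Real.negMulLog (f x) + f x * Real.log (k x) + f x * (Real.log m - Real.log M) ≤
      k x * (m / M) - f x := by
    intro x
    rcases (hf x).eq_or_lt with h1 | h1
    · rw [← h1]
      simp only [Real.negMulLog_zero, zero_mul, add_zero, sub_zero]
      exact mul_nonneg (hk x) (by positivity)
    · have hkx : 0 < k x := lt_of_le_of_ne (hk x) (fun h2 => h1.ne' (h x h2.symm))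
      have h2 := Real.log_le_sub_one_of_pos (x := k x * m / (f x * M)) (by positivity)
      rw [Real.log_div (by positivity) (by positivity), Real.log_mul hkx.ne' h0.ne',
        Real.log_mul h1.ne' hMpos.ne'] at h2
      have h3 := mul_le_mul_of_nonneg_left h2 h1.le
      have h4 : f x * (k x * m / (f x * M) - 1) = k x * (m / M) - f x := by
        field_simp
      rw [h4] at h3
      unfold Real.negMulLog
      nlinarith
  have hs := sum_le_sum fun x (_ : x ∈ (univ : Finset α)) => key x
  rw [sum_add_distrib, sum_add_distrib, sum_sub_distrib, ← sum_mul, ← sum_mul, ← hm, ← hM] at hs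
  have h5 : M * (m / M) = m := by field_simp
  rw [h5] at hs
  have h6 : Real.negMulLog m = - (m * Real.log m) := by unfold Real.negMulLog; ring
  rw [h6]
  linarith

theorem Ht_nonneg (f : α → ℝ) (hf : ∀ x, 0 ≤ f x) : 0 ≤ Ht f := by
  unfold Ht
  have hm0 : 0 ≤ ∑ x, f x := sum_nonneg fun x _ => hf x
  have h1 : ∀ x, f x * (- Real.log (∑ y, f y)) ≤ Real.negMulLog (f x) := by
    intro x
    rcases (hf x).eq_or_lt with h | h
    · rw [← h]; simp
    · have h2 : f x ≤ ∑ y, f y := single_le_sum (f := f) (fun y _ => hf y) (mem_univ x)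
      have h3 := Real.log_le_log h h2
      unfold Real.negMulLog
      nlinarith
  have h2 := sum_le_sum fun x (_ : x ∈ (univ : Finset α)) => h1 x
  rw [← sum_mul] at h2
  have h6 : Real.negMulLog (∑ x, f x) = (∑ x, f x) * (- Real.log (∑ y, f y)) := by
    unfold Real.negMulLog; ring
  rw [h6]
  linarith

/-- entropy is at most the logarithm of the size of the support -/
theorem Ht_le_log (f : α → ℝ) (hf : ∀ x, 0 ≤ f x) (S : Finset α) (hS : ∀ x, x ∉ S → f x = 0) :
    Ht f ≤ (∑ x, f x) * Real.log S.card := by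
  classical
  have h := gibbs f (fun x => if x ∈ S then 1 else 0) hf (fun x => by split_ifs <;> norm_num)
    (fun x hx => by
      apply hS
      intro h
      simp [h] at hx)
  have h1 : ∑ x, f x * Real.log (if x ∈ S then (1 : ℝ) else 0) = 0 := by
    apply sum_eq_zero
    intro x _
    split_ifs <;> simp
  rw [h1] at h
  simpa using h

/-- superadditivity -/
theorem Ht_sum {ι : Type} (s : Finset ι) (f : ι → α → ℝ) (hf : ∀ i ∈ s, ∀ x, 0 ≤ f i x) :
    ∑ i ∈ s, Ht (f i) ≤ Ht (fun x => ∑ i ∈ s, f i x) := by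
  have h1 : ∀ i ∈ s, Ht (f i) ≤ - ∑ x, f i x * Real.log (∑ j ∈ s, f j x) +
      (∑ x, f i x) * Real.log (∑ x, ∑ j ∈ s, f j x) := by
    intro i hi
    apply gibbs _ _ (hf i hi) (fun x => sum_nonneg fun j hj => hf j hj x)
    intro x hx
    exact (sum_eq_zero_iff_of_nonneg (fun j hj => hf j hj x)).1 hx i hi
  refine (sum_le_sum h1).trans (le_of_eq ?_)
  rw [sum_add_distrib, sum_neg_distrib, sum_comm, ← sum_mul]
  unfold Ht Real.negMulLog
  have h2 : ∀ x, ∑ i ∈ s, f i x * Real.log (∑ j ∈ s, f j x) =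
      (∑ i ∈ s, f i x) * Real.log (∑ j ∈ s, f j x) := fun x => by rw [sum_mul]
  rw [sum_congr rfl fun x _ => h2 x]
  rw [sum_comm (s := s)]
  simp only [neg_mul, sum_neg_distrib]
  ring

/-- the chain rule -/
theorem Ht_prod {β : Type} [Fintype β] (f : α × β → ℝ) :
    Ht f = Ht (fun x => ∑ y, f (x, y)) + ∑ x, Ht (fun y => f (x, y)) := by
  unfold Ht
  rw [Fintype.sum_prod_type, Fintype.sum_prod_type, sum_sub_distrib]
  ring

end basic

section group

variable {G : Type} [AddCommGroup G] [Fintype G]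

/-- convolution -/
def cv (f g : G → ℝ) (c : G) : ℝ := ∑ x, f x * g (c - x)

theorem cv_nonneg {f g : G → ℝ} (hf : ∀ x, 0 ≤ f x) (hg : ∀ x, 0 ≤ g x) (c : G) : 0 ≤ cv f g c :=
  sum_nonneg fun x _ => mul_nonneg (hf x) (hg _)

theorem cv_sum (f g k : G → ℝ) : ∑ c, cv f g c * k c = ∑ x, ∑ y, f x * g y * k (x + y) := by
  unfold cv
  simp only [sum_mul]
  rw [sum_comm]
  refine sum_congr rfl fun x _ => ?_
  rw [← Equiv.sum_comp (Equiv.addLeft x)]
  refine sum_congr rfl fun y _ => ?_
  simp

theorem cv_mass (f g : G → ℝ) : ∑ c, cv f g c = (∑ x, f x) * ∑ x, g x := by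
  have := cv_sum f g (fun _ => 1)
  simp only [mul_one] at this
  rw [this, sum_mul_sum]

/-- the entropy inequality for sums of elements of `R` and `S` -/
def Loc (G : Type) [AddCommGroup G] [Fintype G] (R S : Finset G) (L κ : ℝ) : Prop :=
  ∀ f g : G → ℝ, (∀ x, 0 ≤ f x) → (∀ x, 0 ≤ g x) → (∀ x, x ∉ R → f x = 0) → (∀ x, x ∉ S → g x = 0) →
    (∑ x, g x) * Ht f + (∑ x, f x) * (∑ x, g x) * L -
      κ * (∑ x, f x) * ((∑ x, g x) * Real.log S.card - Ht g) ≤ Ht (cv f g)

/-- the basic inequality: gain from the elements which are avoided -/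
theorem basic_gain [DecidableEq G] (f g : G → ℝ) (R : Finset G) (hf : ∀ x, 0 ≤ f x) (hg : ∀ x, 0 ≤ g x)
    (hR : ∀ x, x ∉ R → f x = 0) (hg1 : ∑ x, g x = 1) :
    Ht f + ∑ e ∈ Rᶜ, ∑ x, f x * ∑ y, g y * g (x + y - e) ≤ Ht (cv f g) := by
  obtain ⟨m, hm⟩ : ∃ m : ℝ, m = ∑ x, f x := ⟨_, rfl⟩
  have hcm : ∑ c, cv f g c = m := by rw [cv_mass, hg1, mul_one, hm]
  -- the pointwise inequality
  have key : ∀ x y, f x * g y * (1 - Real.log (f x) + Real.log (cv f g (x + y))) ≤
      (if x ∈ R then g y * cv f g (x + y) else 0) := by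
    intro x y
    rcases (hf x).eq_or_lt with h | h
    · rw [← h]
      simp only [zero_mul]
      split_ifs
      · exact mul_nonneg (hg y) (cv_nonneg hf hg _)
      · exact le_rfl
    · have hxR : x ∈ R := by
        by_contra hx
        exact h.ne' (hR x hx)
      rw [if_pos hxR]
      rcases (hg y).eq_or_lt with h' | h'
      · rw [← h']; simp
      · have hc : 0 < cv f g (x + y) := by
          have h1 : f x * g (x + y - x) ≤ cv f g (x + y) :=
            single_le_sum (f := fun x' => f x' * g (x + y - x')) (fun x' _ => mul_nonneg (hf x') (hg _))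
              (mem_univ x)
          rw [add_sub_cancel_left] at h1
          exact lt_of_lt_of_le (mul_pos h h') h1
        have h2 := Real.log_le_sub_one_of_pos (x := cv f g (x + y) / f x) (by positivity)
        rw [Real.log_div hc.ne' h.ne'] at h2
        have h3 : f x * g y * (1 - Real.log (f x) + Real.log (cv f g (x + y))) ≤
            f x * g y * (cv f g (x + y) / f x) :=
          mul_le_mul_of_nonneg_left (by linarith) (by positivity)
        refine h3.trans (le_of_eq ?_)
        field_simp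
  have hs := sum_le_sum fun x (_ : x ∈ (univ : Finset G)) =>
    sum_le_sum fun y (_ : y ∈ (univ : Finset G)) => key x y
  -- left side
  have hl : ∑ x, ∑ y, f x * g y * (1 - Real.log (f x) + Real.log (cv f g (x + y))) =
      m + ∑ x, Real.negMulLog (f x) - ∑ c, Real.negMulLog (cv f g c) := by
    have e1 : ∀ x y, f x * g y * (1 - Real.log (f x) + Real.log (cv f g (x + y))) =
        g y * (f x + Real.negMulLog (f x)) + f x * g y * Real.log (cv f g (x + y)) := by
      intro x y
      unfold Real.negMulLog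
      ring
    simp only [e1, sum_add_distrib]
    rw [← cv_sum f g (fun c => Real.log (cv f g c))]
    have e2 : ∑ x, ∑ y, g y * (f x + Real.negMulLog (f x)) = m + ∑ x, Real.negMulLog (f x) := by
      simp only [← sum_mul, hg1, one_mul]
      rw [sum_add_distrib, hm]
    rw [e2]
    unfold Real.negMulLog
    simp only [neg_mul, sum_neg_distrib]
    ring
  -- right side
  have hr : ∑ x, ∑ y, (if x ∈ R then g y * cv f g (x + y) else 0) =
      m - ∑ e ∈ Rᶜ, ∑ x, f x * ∑ y, g y * g (x + y - e) := by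
    have e1 : ∀ x, ∑ y, (if x ∈ R then g y * cv f g (x + y) else 0) =
        if x ∈ R then ∑ c, g (c - x) * cv f g c else 0 := by
      intro x
      by_cases hx : x ∈ R
      · simp only [hx, if_true]
        rw [← Equiv.sum_comp (Equiv.addLeft x) (fun c => g (c - x) * cv f g c)]
        refine sum_congr rfl fun y _ => ?_
        simp
      · simp [hx]
    rw [sum_congr rfl fun x _ => e1 x]
    rw [← sum_filter]
    have e2 : univ.filter (fun x => x ∈ R) = R := by ext; simp
    rw [e2]
    have e3 : ∑ x, ∑ c, g (c - x) * cv f g c = m := by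
      rw [sum_comm]
      have : ∀ c, ∑ x, g (c - x) * cv f g c = cv f g c := by
        intro c
        rw [← sum_mul]
        have : ∑ x, g (c - x) = ∑ x, g x := Equiv.sum_comp (Equiv.subLeft c) g
        rw [this, hg1, one_mul]
      rw [sum_congr rfl fun c _ => this c, hcm]
    rw [← sum_add_sum_compl R] at e3
    have e4 : ∀ e, ∑ c, g (c - e) * cv f g c = ∑ x, f x * ∑ y, g y * g (x + y - e) := by
      intro e
      have := cv_sum f g (fun c => g (c - e))
      rw [sum_congr rfl fun c _ => mul_comm (g (c - e)) (cv f g c), this]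
      refine sum_congr rfl fun x _ => ?_
      rw [mul_sum]
      refine sum_congr rfl fun y _ => ?_
      ring
    rw [← sum_congr rfl fun e _ => e4 e]
    linarith
  rw [hl, hr] at hs
  unfold Ht
  rw [hcm, ← hm]
  linarith

/-- the elementary inequality for the relative entropy -/
theorem psi_bound {t : ℝ} (ht : 0 ≤ t) :
    2 * (t - min t 2) + (1 - min t 2) ^ 2 ≤ 6 * (t * Real.log t - t + 1) := by
  obtain ⟨u, hu⟩ : ∃ u : ℝ, u = Real.sqrt t := ⟨_, rfl⟩
  have hu0 : 0 ≤ u := by rw [hu]; positivity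
  have hut : t = u ^ 2 := by rw [hu, Real.sq_sqrt ht]
  have h1 : (u - 1) ^ 2 ≤ t * Real.log t - t + 1 := by
    rcases hu0.eq_or_lt with h | h
    · rw [hut, ← h]; norm_num
    · have h2 := Real.one_sub_inv_le_log_of_pos h
      rw [hut, Real.log_pow]
      push_cast
      have h3 : u ^ 2 * (2 * (1 - u⁻¹)) ≤ u ^ 2 * (2 * Real.log u) :=
        mul_le_mul_of_nonneg_left (by linarith) (by positivity)
      have h4 : u ^ 2 * (2 * (1 - u⁻¹)) = 2 * u ^ 2 - 2 * u := by field_simp
      nlinarith
  have h2 : 2 * (t - min t 2) + (1 - min t 2) ^ 2 ≤ 6 * (u - 1) ^ 2 := by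
    rcases le_or_gt t 2 with h | h
    · rw [min_eq_left h, hut]
      have h3 : u ^ 2 ≤ 2 := by rw [← hut]; exact h
      have h4 : u ≤ 1.42 := by nlinarith
      have h5 : (1 - u ^ 2) ^ 2 = (u - 1) ^ 2 * (1 + u) ^ 2 := by ring
      rw [h5]
      have h6 : (1 + u) ^ 2 ≤ 6 := by nlinarith
      nlinarith [mul_le_mul_of_nonneg_left h6 (sq_nonneg (u - 1))]
    · rw [min_eq_right h.le, hut]
      nlinarith [sq_nonneg (2 * u - 3)]
  linarith

end group

end Pool.Agent.K7.H64.LS
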