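import Pool.Agent.K7.H64.LS.TH2
import Pool.Agent.Helper112.LS

/-!
Fourier expansion of the upper bound sieve: the exponential sums of the weights.
-/

set_option autoImplicit false

open Finset

namespace Pool.Agent.K7.H64.LS

open Pool.Agent.Y843.HS
open Pool.Agent.Helper112 (ee ls_ee_zero ls_ee_add ls_ee_int ls_ee_nat ls_norm_ee ls_ee_ne_zero
  ls_conj_ee ls_ee_nat_mul ls_ee_eq_one lsD lsD_fract lsD_bound_sin)

/-- the indicator of the `n` in the classes of `Z p` for all `p ∈ U` -/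
noncomputable def hU (Z : ℕ → Finset ℕ) (U : Finset ℕ) (n : ℕ) : ℝ :=
  ∏ p ∈ U, if n % p ∈ Z p then (1 : ℝ) else 0

theorem hU_nonneg (Z : ℕ → Finset ℕ) (U : Finset ℕ) (n : ℕ) : 0 ≤ hU Z U n :=
  prod_nonneg fun p _ => by split_ifs <;> norm_num

theorem hU_le_one (Z : ℕ → Finset ℕ) (U : Finset ℕ) (n : ℕ) : hU Z U n ≤ 1 :=
  prod_le_one (fun p _ => by split_ifs <;> norm_num) fun p _ => by split_ifs <;> norm_num

theorem hU_period (Z : ℕ → Finset ℕ) (U : Finset ℕ) (u v : ℕ) :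
    hU Z U (u + (∏ p ∈ U, p) * v) = hU Z U u := by
  unfold hU
  refine prod_congr rfl fun p hp => ?_
  have h1 : p ∣ (∏ p ∈ U, p) * v := (dvd_prod_of_mem _ hp).mul_right _
  obtain ⟨k, hk⟩ := h1
  rw [hk, Nat.add_mul_mod_self_left]

theorem hU_mod (Z : ℕ → Finset ℕ) (U : Finset ℕ) (n : ℕ) :
    hU Z U (n % ∏ p ∈ U, p) = hU Z U n := by
  conv_rhs => rw [← Nat.mod_add_div n (∏ p ∈ U, p)]
  rw [hU_period]

/-- sums over `range (d * k)` -/
theorem sum_range_mul' (f : ℕ → ℂ) (d k : ℕ) :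
    ∑ m ∈ range (d * k), f m = ∑ u ∈ range d, ∑ v ∈ range k, f (u + d * v) := by
  induction k with
  | zero => simp
  | succ k ih =>
    rw [Nat.mul_succ, sum_range_add, ih, ← sum_add_distrib]
    refine sum_congr rfl fun u _ => ?_
    rw [sum_range_succ, add_comm (d * k) u]

/-- the Fourier coefficient -/
noncomputable def co (Z : ℕ → Finset ℕ) (U : Finset ℕ) (x : ℝ) : ℂ :=
  (1 / ((∏ p ∈ U, p : ℕ) : ℂ)) * ∑ m ∈ range (∏ p ∈ U, p), (hU Z U m : ℂ) * ee (-(m * x))

/-- the number of the `v` with `u + d v` in a class of `Z p` -/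
theorem count_v {Z : Finset ℕ} {p d : ℕ} (hp : p.Prime) (hd : d.Coprime p)
    (hZ : ∀ c ∈ Z, c < p) (u : ℕ) :
    ∑ v ∈ range p, (if (u + d * v) % p ∈ Z then (1 : ℂ) else 0) = Z.card := by
  classical
  rw [← sum_filter, sum_const, nsmul_eq_mul, mul_one]
  congr 1
  have h1 : ((range p).filter (fun v => (u + d * v) % p ∈ Z)).image (fun v => (u + d * v) % p) = Z := by
    ext c
    rw [mem_image]
    constructor
    · rintro ⟨v, hv, rfl⟩
      exact (mem_filter.1 hv).2
    · intro hc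
      -- solve u + d v ≡ c
      obtain ⟨w, hw⟩ : ∃ w : ℤ, (p : ℤ) ∣ (u + d * w - c : ℤ) := by
        have h2 : IsCoprime (d : ℤ) (p : ℤ) := Nat.isCoprime_iff_coprime.2 hd
        obtain ⟨a, b, hab⟩ := h2
        refine ⟨a * (c - u), ?_⟩
        refine ⟨-(b * (c - u)), ?_⟩
        linear_combination (↑c - ↑u : ℤ) * hab
      have hp0 : (0 : ℤ) < p := by exact_mod_cast hp.pos
      refine ⟨(w % p).toNat, ?_⟩
      have hw0 : 0 ≤ w % p := Int.emod_nonneg _ hp0.ne'
      have hw1 : w % p < p := Int.emod_lt_of_pos _ hp0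
      have hcast : (((w % p).toNat : ℕ) : ℤ) = w % p := Int.toNat_of_nonneg hw0
      have h3 : (u + d * (w % p).toNat) % p = c := by
        have h4 : ((u + d * (w % p).toNat : ℕ) : ℤ) ≡ c [ZMOD p] := by
          push_cast
          rw [hcast]
          have h5 : (u + d * (w % p) : ℤ) ≡ u + d * w [ZMOD p] :=
            Int.ModEq.add_left _ (Int.ModEq.mul_left _ (Int.mod_modEq w p))
          refine h5.trans ?_
          exact (Int.modEq_iff_dvd.2 (by
            have := dvd_neg.2 hw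
            rwa [neg_sub] at this))
        have h6 : (u + d * (w % p).toNat) % p = c % p := by
          have := Int.natCast_modEq_iff.1 h4
          exact this
        rw [h6, Nat.mod_eq_of_lt (hZ c hc)]
      refine ⟨?_, h3⟩
      rw [mem_filter, mem_range]
      refine ⟨by omega, ?_⟩
      rw [h3]
      exact hc
  have h2 : Set.InjOn (fun v => (u + d * v) % p)
      ((range p).filter (fun v => (u + d * v) % p ∈ Z) : Set ℕ) := by
    intro v hv v' hv' h
    rw [mem_coe, mem_filter, mem_range] at hv hv'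
    simp only at h
    have h3 : d * v ≡ d * v' [MOD p] := Nat.ModEq.add_left_cancel' u h
    have h4 : v ≡ v' [MOD p] := Nat.ModEq.cancel_left_of_coprime (by rwa [Nat.Coprime, Nat.gcd_comm] at hd) h3
    have h5 : v % p = v' % p := h4
    rwa [Nat.mod_eq_of_lt hv.1, Nat.mod_eq_of_lt hv'.1] at h5
  rw [← card_image_of_injOn h2, h1]

/-- a prime outside -/
theorem co_insert {Z : ℕ → Finset ℕ} {U : Finset ℕ} {p : ℕ} (hpU : p ∉ U) (hp : p.Prime)
    (hU' : ∀ q ∈ U, q.Prime) (hZ : ∀ c ∈ Z p, c < p) {x : ℝ} {k : ℤ}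
    (hx : ((∏ q ∈ U, q : ℕ) : ℝ) * x = k) :
    co Z (insert p U) x = (((Z p).card : ℝ) / p : ℝ) * co Z U x := by
  unfold co
  obtain ⟨d, hd⟩ : ∃ d : ℕ, d = ∏ q ∈ U, q := ⟨_, rfl⟩
  rw [prod_insert hpU, ← hd]
  rw [← hd] at hx
  have hcop : d.Coprime p := by
    rw [hd]
    refine Nat.Coprime.prod_left fun q hq => ?_
    rw [Nat.coprime_primes (hU' q hq) hp]
    intro h
    exact hpU (h ▸ hq)
  have h1 : ∑ m ∈ range (p * d), (hU Z (insert p U) m : ℂ) * ee (-(m * x)) =
      ((Z p).card : ℂ) * ∑ m ∈ range d, (hU Z U m : ℂ) * ee (-(m * x)) := by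
    rw [mul_comm p d, sum_range_mul', mul_sum]
    refine sum_congr rfl fun u _ => ?_
    have h2 : ∀ v ∈ range p, (hU Z (insert p U) (u + d * v) : ℂ) * ee (-(((u + d * v : ℕ) : ℝ) * x)) =
        (if (u + d * v) % p ∈ Z p then (1 : ℂ) else 0) * ((hU Z U u : ℂ) * ee (-(u * x))) := by
      intro v _
      have h3 : hU Z (insert p U) (u + d * v) =
          (if (u + d * v) % p ∈ Z p then (1 : ℝ) else 0) * hU Z U u := by
        rw [hU, prod_insert hpU]
        congr 1
        have := hU_period Z U u v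
        rw [← hd] at this
        exact this
      have h4 : ee (-(((u + d * v : ℕ) : ℝ) * x)) = ee (-(u * x)) := by
        have h5 : -(((u + d * v : ℕ) : ℝ) * x) = -(u * x) + ((-(v * k) : ℤ) : ℝ) := by
          push_cast
          linear_combination (-(v : ℝ)) * hx
        rw [h5, ls_ee_add, ls_ee_int, mul_one]
      rw [h3, h4]
      split_ifs <;> simp
    rw [sum_congr rfl h2, ← sum_mul, count_v hp hcop hZ u]
  rw [h1]
  generalize ∑ m ∈ range d, (hU Z U m : ℂ) * ee (-(m * x)) = S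
  push_cast
  have hp0 : (p : ℂ) ≠ 0 := by exact_mod_cast hp.ne_zero
  have hd0 : (d : ℂ) ≠ 0 := by
    have : d ≠ 0 := by
      rw [hd]
      exact prod_ne_zero_iff.2 fun q hq => (hU' q hq).ne_zero
    exact_mod_cast this
  field_simp

theorem co_union {Z : ℕ → Finset ℕ} {Q : Finset ℕ} (hQ : ∀ q ∈ Q, q.Prime) {x : ℝ} {k : ℤ}
    (hx : ((∏ q ∈ Q, q : ℕ) : ℝ) * x = k) (W : Finset ℕ) :
    (∀ p ∈ W, p.Prime ∧ p ∉ Q ∧ ∀ c ∈ Z p, c < p) →
    co Z (W ∪ Q) x = ((∏ p ∈ W, ((Z p).card : ℝ) / p : ℝ) : ℂ) * co Z Q x := by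
  classical
  induction W using Finset.induction_on with
  | empty => intro _; simp
  | insert p W hpW ih =>
    intro h
    have h1 := ih fun q hq => h q (mem_insert_of_mem hq)
    have h2 := h p (mem_insert_self p W)
    have hpU : p ∉ W ∪ Q := by
      rw [mem_union]
      rintro (h3 | h3)
      · exact hpW h3
      · exact h2.2.1 h3
    have hprod : ((∏ q ∈ W ∪ Q, q : ℕ) : ℝ) * x = (((∏ q ∈ W, q : ℕ) : ℤ) * k : ℤ) := by
      rw [prod_union]
      · push_cast
        push_cast at hx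
        rw [mul_assoc, hx]
      · rw [disjoint_left]
        intro q hq
        exact (h q (mem_insert_of_mem hq)).2.1
    rw [insert_union, co_insert hpU h2.1 ?_ h2.2.2 hprod, h1, prod_insert hpW]
    · push_cast
      ring
    · intro q hq
      rcases mem_union.1 hq with h3 | h3
      · exact (h q (mem_insert_of_mem h3)).1
      · exact hQ q h3

theorem co_empty (Z : ℕ → Finset ℕ) (x : ℝ) : co Z ∅ x = 1 := by
  unfold co hU
  simp [ls_ee_zero]

/-- the mean value -/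
theorem co_zero {Z : ℕ → Finset ℕ} {U : Finset ℕ} (h : ∀ p ∈ U, p.Prime ∧ ∀ c ∈ Z p, c < p) :
    co Z U 0 = ((∏ p ∈ U, ((Z p).card : ℝ) / p : ℝ) : ℂ) := by
  have h1 := co_union (Z := Z) (Q := ∅) (x := 0) (k := 0) (by simp) (by simp) U
    (fun p hp => ⟨(h p hp).1, by simp, (h p hp).2⟩)
  rw [union_empty, co_empty, mul_one] at h1
  exact h1

theorem co_norm {Z : ℕ → Finset ℕ} {U : Finset ℕ} (h : ∀ p ∈ U, p.Prime ∧ ∀ c ∈ Z p, c < p)
    (x : ℝ) : ‖co Z U x‖ ≤ ∏ p ∈ U, ((Z p).card : ℝ) / p := by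
  have h1 := co_zero h
  have h2 : ‖co Z U x‖ ≤ ‖co Z U 0‖ := by
    unfold co
    rw [norm_mul, norm_mul]
    refine mul_le_mul_of_nonneg_left ?_ (norm_nonneg _)
    have h3 : ∑ m ∈ range (∏ p ∈ U, p), (hU Z U m : ℂ) * ee (-(m * (0 : ℝ))) =
        ((∑ m ∈ range (∏ p ∈ U, p), hU Z U m : ℝ) : ℂ) := by
      push_cast
      refine sum_congr rfl fun m _ => ?_
      rw [mul_zero, neg_zero, ls_ee_zero, mul_one]
    rw [h3, Complex.norm_real, Real.norm_of_nonneg (sum_nonneg fun m _ => hU_nonneg Z U m)]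
    refine (norm_sum_le _ _).trans (sum_le_sum fun m _ => ?_)
    rw [norm_mul, ls_norm_ee, mul_one, Complex.norm_real, Real.norm_of_nonneg (hU_nonneg Z U m)]
  rw [h1, Complex.norm_real, Real.norm_of_nonneg] at h2
  · exact h2
  · exact prod_nonneg fun p _ => by positivity

theorem co_norm_one {Z : ℕ → Finset ℕ} {U : Finset ℕ} (h : ∀ p ∈ U, p.Prime ∧ ∀ c ∈ Z p, c < p)
    (x : ℝ) : ‖co Z U x‖ ≤ 1 := by
  refine (co_norm h x).trans ?_
  refine prod_le_one (fun p _ => by positivity) fun p hp => ?_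
  have h1 := (h p hp).1.pos
  rw [div_le_one (by exact_mod_cast h1)]
  have h2 : (Z p).card ≤ p := by
    have : Z p ⊆ range p := fun c hc => mem_range.2 ((h p hp).2 c hc)
    simpa using card_le_card this
  exact_mod_cast h2

/-- the geometric sums -/
theorem ee_orth {d : ℕ} (hd : 0 < d) (j : ℤ) :
    ∑ b ∈ range d, ee (j * (b / d)) = if (d : ℤ) ∣ j then (d : ℂ) else 0 := by
  have hd0 : (d : ℝ) ≠ 0 := by exact_mod_cast hd.ne'
  have h1 : ∀ b ∈ range d, ee (j * (b / d)) = ee (j / d) ^ b := by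
    intro b _
    rw [← ls_ee_nat_mul]
    congr 1
    ring
  rw [sum_congr rfl h1]
  split_ifs with h
  · obtain ⟨k, rfl⟩ := h
    have h2 : (((d : ℤ) * k : ℤ) : ℝ) / d = (k : ℝ) := by
      push_cast
      field_simp
    rw [h2, ls_ee_int]
    simp
  · have h2 : ee (j / d) ≠ 1 := by
      intro h3
      obtain ⟨n, hn⟩ := ls_ee_eq_one h3
      apply h
      refine ⟨n, ?_⟩
      rw [div_eq_iff hd0] at hn
      have : (j : ℝ) = ((d : ℤ) * n : ℤ) := by
        push_cast
        rw [hn, mul_comm]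
      exact_mod_cast this
    have h3 := geom_sum_mul (ee ((j : ℝ) / d)) d
    have h4 : ee ((j : ℝ) / d) ^ d = 1 := by
      rw [← ls_ee_nat_mul]
      have : (d : ℝ) * (j / d) = (j : ℝ) := by field_simp
      rw [this, ls_ee_int]
    rw [h4, sub_self] at h3
    rcases mul_eq_zero.1 h3 with h5 | h5
    · exact h5
    · exact absurd (sub_eq_zero.1 h5) h2

/-- Fourier inversion -/
theorem inversion (Z : ℕ → Finset ℕ) {U : Finset ℕ} (hpr : ∀ p ∈ U, p.Prime) (n : ℕ) :
    (hU Z U n : ℂ) = ∑ b ∈ range (∏ p ∈ U, p), co Z U (b / (∏ p ∈ U, p : ℕ)) *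
      ee (n * (b / (∏ p ∈ U, p : ℕ))) := by
  obtain ⟨d, hd⟩ : ∃ d : ℕ, d = ∏ q ∈ U, q := ⟨_, rfl⟩
  have hd0 : 0 < d := by
    rw [hd]
    exact Nat.pos_of_ne_zero (prod_ne_zero_iff.2 fun q hq => (hpr q hq).ne_zero)
  have hdC : (d : ℂ) ≠ 0 := by exact_mod_cast hd0.ne'
  have hco : ∀ x : ℝ, co Z U x = (1 / (d : ℂ)) * ∑ m ∈ range d, (hU Z U m : ℂ) * ee (-(m * x)) := by
    intro x
    unfold co
    rw [← hd]
  rw [← hd]
  have h1 : ∀ b ∈ range d, co Z U (b / (d : ℝ)) * ee (n * (b / (d : ℝ))) =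
      (1 / (d : ℂ)) * ∑ m ∈ range d, (hU Z U m : ℂ) * ee ((((n : ℤ) - m : ℤ) : ℝ) * (b / d)) := by
    intro b _
    rw [hco, mul_assoc, sum_mul]
    congr 1
    refine sum_congr rfl fun m _ => ?_
    rw [mul_assoc, ← ls_ee_add]
    congr 2
    push_cast
    ring
  rw [sum_congr rfl h1, ← mul_sum, sum_comm]
  have h2 : ∀ m ∈ range d, ∑ b ∈ range d, (hU Z U m : ℂ) * ee ((((n : ℤ) - m : ℤ) : ℝ) * (b / d)) =
      if m = n % d then (d : ℂ) * hU Z U n else 0 := by
    intro m hm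
    rw [mem_range] at hm
    rw [← mul_sum, ee_orth hd0]
    by_cases h : m = n % d
    · rw [if_pos h, if_pos]
      · have := hU_mod Z U n
        rw [← hd, ← h] at this
        rw [this]
        ring
      · rw [h, Int.natCast_mod]
        exact Int.dvd_self_sub_emod
    · rw [if_neg h, if_neg, mul_zero]
      intro h3
      apply h
      have h4 : (m : ℤ) ≡ n [ZMOD d] := Int.modEq_iff_dvd.2 h3
      have h5 := Int.natCast_modEq_iff.1 h4
      have h6 : m % d = n % d := h5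
      rwa [Nat.mod_eq_of_lt hm] at h6
  rw [sum_congr rfl h2, sum_ite_eq', if_pos (mem_range.2 (Nat.mod_lt _ hd0))]
  field_simp

end Pool.Agent.K7.H64.LS
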