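import Pool.Agent.K7.H64.LS.Unif
import Pool.Agent.Y843.HS.PartA
import Pool.Agent.Y843.HG.Prs
import Pool.Agent.Y79.HS.Den

/-!
The large sieve inequality at few points for sifted sets.
-/

set_option autoImplicit false

open Finset

namespace Pool.Agent.K7.H64.LS

open Pool.Agent.Y843.HS
open Pool.Agent.Helper112 (ee ls_ee_zero ls_ee_add ls_ee_int ls_ee_nat ls_norm_ee ls_ee_ne_zero
  ls_conj_ee ls_ee_nat_mul ls_ee_eq_one lsD lsD_fract lsD_bound_sin lsSep ls_dual ls_general)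

/-- the dual large sieve on an arbitrary interval -/
theorem dual_shift {ι : Type*} [DecidableEq ι] (R : Finset ι) (ξ : ι → ℝ) (K N A : ℕ) (hK : 1 ≤ K)
    (hsep : ∀ r ∈ R, ∀ s ∈ R, r ≠ s → lsSep K (ξ s - ξ r)) (c : ι → ℂ) :
    ∑ n ∈ Ioc A (A + N), ‖∑ r ∈ R, c r * ee (n * ξ r)‖ ^ 2 ≤
      6 * ((N : ℝ) + K) * ∑ r ∈ R, ‖c r‖ ^ 2 := by
  have h1 := ls_dual R ξ K N hK hsep (fun r => c r * ee (A * ξ r))
  have h2 : ∑ r ∈ R, ‖c r * ee (A * ξ r)‖ ^ 2 = ∑ r ∈ R, ‖c r‖ ^ 2 :=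
    sum_congr rfl fun r _ => by rw [norm_mul, ls_norm_ee, mul_one]
  rw [h2] at h1
  refine le_trans (le_of_eq ?_) h1
  have h : Ioc A (A + N) = (Icc 1 N).image (fun j => A + j) := by
    ext n
    rw [mem_Ioc, mem_image]
    constructor
    · intro h
      exact ⟨n - A, mem_Icc.2 (by omega), by omega⟩
    · rintro ⟨j, hj, rfl⟩
      rw [mem_Icc] at hj
      omega
  rw [h, sum_image]
  · refine sum_congr rfl fun j _ => ?_
    congr 2
    refine sum_congr rfl fun r _ => ?_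
    rw [mul_assoc, ← ls_ee_add]
    congr 2
    push_cast
    ring
  · intro a _ b _ hab
    simp only at hab
    omega

variable {r C : ℕ} {Z : ℕ → Finset ℕ} {z R : ℕ} {θ : Finset ℕ → ℝ}

theorem core (hW : Wt C Z z R θ) (hS : Sv r z R Z)
    (hsup : ∀ Q ⊆ Pr z R, |∑ U ∈ (Pr z R).powerset.filter (fun U => Q ⊆ U),
      θ U * ∏ p ∈ U \ Q, ((Z p).card : ℝ) / p| ≤ (C : ℝ) ^ (Q.card + 1) * VV Z z R)
    (hV : 0 ≤ VV Z z R) (hR : 1 ≤ R) (hz : 1 ≤ z) (hCr : (C * r) ^ 2 ≤ z)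
    {ι : Type*} [DecidableEq ι] (I : Finset ι) (ξ : ι → ℝ) (K : ℕ) (hK : 1 ≤ K)
    (hsep : ∀ i ∈ I, ∀ j ∈ I, i ≠ j → lsSep K (ξ j - ξ i)) (A N : ℕ) (S : Finset ℕ)
    (hSI : S ⊆ Ioc A (A + N)) (hSZ : ∀ n ∈ S, ∀ p ∈ Pr z R, n % p ∉ Z p) (a : ℕ → ℂ) :
    ∑ i ∈ I, ‖∑ n ∈ S, a n * ee (n * ξ i)‖ ^ 2 ≤
      (6 * ((N : ℝ) + K) * qq Z z R θ + I.card *
        (C * VV Z z R * (N / Real.sqrt z) + ((R ^ C : ℕ) : ℝ) ^ 4)) * ∑ n ∈ S, ‖a n‖ ^ 2 := by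
  set B : ℝ := C * VV Z z R * (N / Real.sqrt z) + ((R ^ C : ℕ) : ℝ) ^ 4 with hB
  have hB0 : 0 ≤ B := by rw [hB]; positivity
  set T : ι → ℂ := fun i => ∑ n ∈ S, a n * ee (n * ξ i) with hT
  set X : ℝ := ∑ i ∈ I, ‖T i‖ ^ 2 with hX
  set G : ℝ := ∑ n ∈ S, ‖a n‖ ^ 2 with hG
  have hX0 : 0 ≤ X := sum_nonneg fun i _ => by positivity
  have hG0 : 0 ≤ G := sum_nonneg fun i _ => by positivity
  set c : ι → ℂ := fun i => (starRingEnd ℂ) (T i) with hc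
  set H : ℕ → ℂ := fun n => ∑ i ∈ I, c i * ee (n * ξ i) with hH
  have hcc : ∑ i ∈ I, ‖c i‖ ^ 2 = X := sum_congr rfl fun i _ => by rw [hc, RCLike.norm_conj]
  -- duality
  have h1 : (X : ℂ) = ∑ n ∈ S, a n * H n := by
    rw [hX]
    push_cast
    have : ∀ i ∈ I, ((‖T i‖ : ℂ)) ^ 2 = ∑ n ∈ S, a n * (c i * ee (n * ξ i)) := by
      intro i _
      rw [← Complex.mul_conj']
      conv_lhs => rw [hT]
      simp only
      rw [Finset.sum_mul]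
      refine Finset.sum_congr rfl fun n _ => ?_
      rw [hc]
      ring
    rw [Finset.sum_congr rfl this, Finset.sum_comm]
    refine Finset.sum_congr rfl fun n _ => ?_
    rw [hH, Finset.mul_sum]
  have h2 : X ≤ ∑ n ∈ S, ‖a n‖ * ‖H n‖ := by
    have h3 : X = ‖(X : ℂ)‖ := by
      rw [Complex.norm_real, Real.norm_eq_abs, abs_of_nonneg hX0]
    rw [h3, h1]
    refine le_trans (norm_sum_le _ _) (le_of_eq ?_)
    exact Finset.sum_congr rfl fun n _ => norm_mul _ _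
  have h3 : X ^ 2 ≤ G * ∑ n ∈ S, ‖H n‖ ^ 2 :=
    (pow_le_pow_left₀ hX0 h2 2).trans (Finset.sum_mul_sq_le_sq_mul_sq S (fun n => ‖a n‖) fun n => ‖H n‖)
  -- the majorant
  have h4 : ∑ n ∈ S, ‖H n‖ ^ 2 ≤ ∑ n ∈ Ioc A (A + N), Th Z z R θ n * ‖H n‖ ^ 2 := by
    calc ∑ n ∈ S, ‖H n‖ ^ 2 ≤ ∑ n ∈ S, Th Z z R θ n * ‖H n‖ ^ 2 := by
          refine sum_le_sum fun n hn => ?_
          rw [Th_one hW.one fun p hp => hSZ n hn p hp, one_mul]
      _ ≤ _ := sum_le_sum_of_subset_of_nonneg hSI fun n _ _ => mul_nonneg (hW.nonneg n) (by positivity)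
  have h5 : ∑ n ∈ Ioc A (A + N), Th Z z R θ n * ‖H n‖ ^ 2 =
      qq Z z R θ * ∑ n ∈ Ioc A (A + N), ‖H n‖ ^ 2 +
      ∑ n ∈ Ioc A (A + N), (Th Z z R θ n - qq Z z R θ) * ‖H n‖ ^ 2 := by
    rw [mul_sum, ← sum_add_distrib]
    exact sum_congr rfl fun n _ => by ring
  have hq0 : 0 ≤ qq Z z R θ := hV.trans hW.lo
  have h6 : ∑ n ∈ Ioc A (A + N), ‖H n‖ ^ 2 ≤ 6 * ((N : ℝ) + K) * X := by
    rw [← hcc]
    exact dual_shift I ξ K N A hK hsep c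
  have h7 : ∑ n ∈ Ioc A (A + N), (Th Z z R θ n - qq Z z R θ) * ‖H n‖ ^ 2 ≤ I.card * B * X := by
    have e1 : ((∑ n ∈ Ioc A (A + N), (Th Z z R θ n - qq Z z R θ) * ‖H n‖ ^ 2 : ℝ) : ℂ) =
        ∑ i ∈ I, ∑ j ∈ I, c i * (starRingEnd ℂ) (c j) *
          ∑ n ∈ Ioc A (A + N), ((Th Z z R θ n - qq Z z R θ : ℝ) : ℂ) * ee (n * (ξ i - ξ j)) := by
      have e2 : ∀ n ∈ Ioc A (A + N), (((Th Z z R θ n - qq Z z R θ) * ‖H n‖ ^ 2 : ℝ) : ℂ) =
          ∑ i ∈ I, ∑ j ∈ I, c i * (starRingEnd ℂ) (c j) *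
            (((Th Z z R θ n - qq Z z R θ : ℝ) : ℂ) * ee (n * (ξ i - ξ j))) := by
        intro n _
        have e3 : ((‖H n‖ ^ 2 : ℝ) : ℂ) = ∑ i ∈ I, ∑ j ∈ I, c i * (starRingEnd ℂ) (c j) *
            ee (n * (ξ i - ξ j)) := by
          push_cast
          rw [← Complex.mul_conj', hH]
          simp only
          rw [map_sum, sum_mul_sum]
          refine sum_congr rfl fun i _ => sum_congr rfl fun j _ => ?_
          rw [map_mul, ls_conj_ee, show (n : ℝ) * (ξ i - ξ j) = n * ξ i + -(n * ξ j) by ring,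
            ls_ee_add]
          ring
        rw [Complex.ofReal_mul, e3, mul_sum]
        refine sum_congr rfl fun i _ => ?_
        rw [mul_sum]
        refine sum_congr rfl fun j _ => ?_
        ring
      rw [Complex.ofReal_sum, sum_congr rfl e2, sum_comm]
      refine sum_congr rfl fun i _ => ?_
      rw [sum_comm]
      refine sum_congr rfl fun j _ => ?_
      rw [mul_sum]
    have e4 : ‖((∑ n ∈ Ioc A (A + N), (Th Z z R θ n - qq Z z R θ) * ‖H n‖ ^ 2 : ℝ) : ℂ)‖ ≤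
        B * (∑ i ∈ I, ‖c i‖) ^ 2 := by
      rw [e1, sq, sum_mul_sum, mul_sum]
      refine (norm_sum_le _ _).trans (sum_le_sum fun i _ => ?_)
      rw [mul_sum]
      refine (norm_sum_le _ _).trans (sum_le_sum fun j _ => ?_)
      have e55 : ‖(starRingEnd ℂ) (c j)‖ = ‖c j‖ := RCLike.norm_conj _
      rw [norm_mul, norm_mul, e55]
      have e5 := unif hW hS hsup hV hR hz hCr A N (ξ i - ξ j)
      refine (mul_le_mul_of_nonneg_left e5 (by positivity)).trans (le_of_eq ?_)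
      rw [← hB]
      ring
    have e6 : (∑ i ∈ I, ‖c i‖) ^ 2 ≤ I.card * X := by
      rw [← hcc]
      exact sq_sum_le_card_mul_sum_sq
    rw [Complex.norm_real] at e4
    calc ∑ n ∈ Ioc A (A + N), (Th Z z R θ n - qq Z z R θ) * ‖H n‖ ^ 2 ≤ _ := Real.le_norm_self _
      _ ≤ B * (∑ i ∈ I, ‖c i‖) ^ 2 := e4
      _ ≤ B * (I.card * X) := mul_le_mul_of_nonneg_left e6 hB0
      _ = _ := by ring
  have h8 : ∑ n ∈ S, ‖H n‖ ^ 2 ≤ (6 * ((N : ℝ) + K) * qq Z z R θ + I.card * B) * X := by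
    have := mul_le_mul_of_nonneg_left h6 hq0
    nlinarith [h4, h5, h7]
  have h9 : X ^ 2 ≤ G * ((6 * ((N : ℝ) + K) * qq Z z R θ + I.card * B) * X) :=
    h3.trans (mul_le_mul_of_nonneg_left h8 hG0)
  rcases hX0.eq_or_lt with h | h
  · rw [← h]
    have : 0 ≤ 6 * ((N : ℝ) + K) * qq Z z R θ + I.card * B := by positivity
    exact mul_nonneg this hG0
  · have h10 : X * X ≤ X * ((6 * ((N : ℝ) + K) * qq Z z R θ + I.card * B) * G) := by nlinarith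
    exact le_of_mul_le_mul_left h10 h

end Pool.Agent.K7.H64.LS
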