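import Pool.Agent.K7.H64.LS.Uni

/-!
Systems of linear forms.
-/

set_option autoImplicit false

open Finset Polynomial

namespace Pool.Agent.K7.H64.LS

open Pool.Agent.Y843.HS
open Pool.Agent.Helper112 (ee lsSep)

/-- the linear forms `a i x + b i` -/
noncomputable def linf {k : ℕ} (a : Fin k → ℕ) (b : Fin k → ℤ) : Fin k → ℤ[X] := fun i => C (a i : ℤ) * X + C (b i)

theorem linf_eval {k : ℕ} (a : Fin k → ℕ) (b : Fin k → ℤ) (i : Fin k) (n : ℤ) :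
    (linf a b i).eval n = a i * n + b i := by
  unfold linf
  simp

theorem linf_adm {k : ℕ} {a : Fin k → ℕ} {b : Fin k → ℤ} (ha : ∀ i, 0 < a i)
    (hadm : ∀ p : ℕ, p.Prime → ∃ n : ℤ, ∀ i, ¬ (p : ℤ) ∣ a i * n + b i) : Adm (linf a b) k := by
  have hdeg : ∀ i, (linf a b i).natDegree = 1 := by
    intro i
    unfold linf
    exact natDegree_linear (by exact_mod_cast (ha i).ne')
  refine ⟨fun i => by rw [hdeg i]; norm_num, ?_, ?_⟩
  · rw [sum_congr rfl fun i _ => hdeg i]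
    simp
  · intro p hp
    obtain ⟨n, hn⟩ := hadm p hp
    have hp0 : (p : ℤ) ≠ 0 := by exact_mod_cast hp.ne_zero
    refine ⟨(n % p).toNat, fun i hd => hn i ?_⟩
    have h1 : (((n % p).toNat : ℕ) : ℤ) = n % p := Int.toNat_of_nonneg (Int.emod_nonneg n hp0)
    rw [linf_eval, h1] at hd
    have h3 : (a i : ℤ) * n + b i = ((a i : ℤ) * (n % p) + b i) + p * (a i * (n / p)) := by
      have := Int.emod_add_mul_ediv n p
      linear_combination (-(a i : ℤ)) * this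
    rw [h3]
    exact dvd_add hd (Dvd.intro _ rfl)

open Classical in
theorem ZS_linf {k : ℕ} (a : Fin k → ℕ) (b : Fin k → ℤ) {p : ℕ} (hp : p.Prime) :
    ZS (linf a b) p = (range p).filter (fun n : ℕ => ∃ i, (p : ℤ) ∣ a i * n + b i) := by
  ext c
  rw [mem_filter, mem_range]
  constructor
  · intro hc
    have h1 := ZS_lt _ p c hc
    refine ⟨h1, ?_⟩
    obtain ⟨i, hi⟩ := (ZS_mem (linf a b) hp.pos c).1 (by rwa [Nat.mod_eq_of_lt h1])
    rw [linf_eval] at hi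
    exact ⟨i, hi⟩
  · rintro ⟨h1, i, hi⟩
    have := (ZS_mem (linf a b) hp.pos c).2 ⟨i, by rw [linf_eval]; exact hi⟩
    rwa [Nat.mod_eq_of_lt h1] at this

open Classical in
theorem lsf_lin (k : ℕ) {κ : ℝ} (hκ : 0 < κ) : ∃ C : ℝ, 0 < C ∧ ∀ (a : Fin k → ℕ) (b : Fin k → ℤ),
    (∀ i, 0 < a i) → (∀ p : ℕ, p.Prime → ∃ n : ℤ, ∀ i, ¬ (p : ℤ) ∣ a i * n + b i) → ∀ N : ℕ, 2 ≤ N →
    ∀ (A : ℕ) (S : Finset ℕ), S ⊆ Ioc A (A + N) → (∀ n ∈ S, Good (linf a b) κ N n) →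
    ∀ (m : ℕ) (α : Fin m → ℝ) (δ : ℝ), 0 < δ →
    (∀ i j, i ≠ j → ∀ l : ℤ, δ ≤ |α i - α j - l|) → ∀ c : ℕ → ℂ,
    ∑ i, ‖∑ n ∈ S, c n * Complex.exp (2 * Real.pi * Complex.I * n * α i)‖ ^ 2 ≤
      C * ((N : ℝ) + 1 / δ) * (∏ p ∈ (Ioc m N).filter Nat.Prime,
        (1 - (((range p).filter (fun n : ℕ => ∃ i, (p : ℤ) ∣ a i * n + b i)).card : ℝ) / p)) *
        ∑ n ∈ S, ‖c n‖ ^ 2 := by
  obtain ⟨C, hC, h⟩ := lsf_uni (ι := Fin k) k hκ
  refine ⟨2 * C, by positivity, ?_⟩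
  intro a b ha hadm N hN A S hSI hSG m α δ hδ hsep c
  have hK1 : 1 ≤ ⌈1 / δ⌉₊ := Nat.one_le_ceil_iff.2 (by positivity)
  have hKle : (⌈1 / δ⌉₊ : ℝ) ≤ 1 / δ + 1 := (Nat.ceil_lt_add_one (by positivity)).le
  have hf := linf_adm ha hadm
  have h1 := h (linf a b) hf N hN A S hSI hSG (Fin m) univ α ⌈1 / δ⌉₊ hK1 (fun i _ j _ hij =>
    sep_real hδ (fun l => hsep j i (Ne.symm hij) l)) c
  rw [card_univ, Fintype.card_fin] at h1
  have hV : VV (ZS (linf a b)) m N = ∏ p ∈ (Ioc m N).filter Nat.Prime,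
      (1 - (((range p).filter (fun n : ℕ => ∃ i, (p : ℤ) ∣ a i * n + b i)).card : ℝ) / p) := by
    unfold VV
    refine prod_congr rfl fun p hp => ?_
    rw [ZS_linf a b (Pr_prime hp)]
  rw [hV] at h1
  have hV0 : 0 ≤ ∏ p ∈ (Ioc m N).filter Nat.Prime,
      (1 - (((range p).filter (fun n : ℕ => ∃ i, (p : ℤ) ∣ a i * n + b i)).card : ℝ) / p) := by
    rw [← hV]
    exact (VV_nonneg fun p hp => (ZS_uni hf (Pr_prime hp)).2.1).le
  have hG0 : 0 ≤ ∑ n ∈ S, ‖c n‖ ^ 2 := sum_nonneg fun i _ => by positivity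
  have hd : 0 < 1 / δ := by positivity
  have hN2 : (2 : ℝ) ≤ N := by exact_mod_cast hN
  calc ∑ i, ‖∑ n ∈ S, c n * Complex.exp (2 * Real.pi * Complex.I * n * α i)‖ ^ 2
      = ∑ i, ‖∑ n ∈ S, c n * ee (n * α i)‖ ^ 2 := by
        refine sum_congr rfl fun i _ => ?_
        have e : ∑ n ∈ S, c n * Complex.exp (2 * Real.pi * Complex.I * n * α i) =
            ∑ n ∈ S, c n * ee (n * α i) := by
          refine sum_congr rfl fun n _ => ?_
          unfold ee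
          congr 2
          push_cast
          ring
        rw [e]
    _ ≤ _ := h1
    _ ≤ _ := by
        apply mul_le_mul_of_nonneg_right _ hG0
        apply mul_le_mul_of_nonneg_right _ hV0
        nlinarith

end Pool.Agent.K7.H64.LS
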