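import Pool.Agent.K7.H64.LS.Ent

/-!
The entropy inequality for products of groups, for one group, and its use.
-/

set_option autoImplicit false

open Finset

namespace Pool.Agent.K7.H64.LS

theorem loc_prod {G1 G2 : Type} [AddCommGroup G1] [Fintype G1] [AddCommGroup G2] [Fintype G2]
    {R1 S1 : Finset G1} {R2 S2 : Finset G2} {L1 L2 κ : ℝ}
    (h1 : Loc G1 R1 S1 L1 κ) (h2 : Loc G2 R2 S2 L2 κ) :
    Loc (G1 × G2) (R1 ×ˢ R2) (S1 ×ˢ S2) (L1 + L2) κ := by
  intro f g hf hg hR hS
  obtain ⟨f1, hf1⟩ : ∃ f1 : G1 → ℝ, f1 = fun x => ∑ y, f (x, y) := ⟨_, rfl⟩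
  obtain ⟨g1, hg1⟩ : ∃ g1 : G1 → ℝ, g1 = fun x => ∑ y, g (x, y) := ⟨_, rfl⟩
  have hf10 : ∀ x, 0 ≤ f1 x := fun x => by rw [hf1]; exact sum_nonneg fun y _ => hf _
  have hg10 : ∀ x, 0 ≤ g1 x := fun x => by rw [hg1]; exact sum_nonneg fun y _ => hg _
  have hmf : ∑ x, f x = ∑ x, f1 x := by rw [hf1, Fintype.sum_prod_type]
  have hmg : ∑ x, g x = ∑ x, g1 x := by rw [hg1, Fintype.sum_prod_type]
  -- the convolution in terms of the slices
  have hcv : ∀ c1 c2, cv f g (c1, c2) =
      ∑ x1, cv (fun y => f (x1, y)) (fun y => g (c1 - x1, y)) c2 := by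
    intro c1 c2
    unfold cv
    rw [Fintype.sum_prod_type]
    rfl
  have hmarg : (fun c1 => ∑ c2, cv f g (c1, c2)) = cv f1 g1 := by
    funext c1
    simp only [hcv]
    rw [sum_comm]
    unfold cv
    refine sum_congr rfl fun x1 _ => ?_
    have := cv_mass (fun y => f (x1, y)) (fun y => g (c1 - x1, y))
    unfold cv at this
    rw [this, hf1, hg1]
  have e1 := Ht_prod (cv f g)
  rw [hmarg] at e1
  have e2 : ∑ x1, ∑ y1, Ht (cv (fun y => f (x1, y)) (fun y => g (y1, y))) ≤
      ∑ c1, Ht (fun c2 => cv f g (c1, c2)) := by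
    have e3 : ∀ c1, ∑ x1, Ht (cv (fun y => f (x1, y)) (fun y => g (c1 - x1, y))) ≤
        Ht (fun c2 => cv f g (c1, c2)) := by
      intro c1
      simp only [hcv]
      apply Ht_sum
      intro x1 _ c2
      exact cv_nonneg (fun y => hf _) (fun y => hg _) c2
    refine le_trans (le_of_eq ?_) (sum_le_sum fun c1 _ => e3 c1)
    rw [sum_comm (s := (univ : Finset G1)) (t := (univ : Finset G1))
      (f := fun c1 x1 => Ht (cv (fun y => f (x1, y)) (fun y => g (c1 - x1, y))))]
    refine sum_congr rfl fun x1 _ => ?_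
    rw [← Equiv.sum_comp (Equiv.addLeft x1)
      (fun c1 => Ht (cv (fun y => f (x1, y)) (fun y => g (c1 - x1, y))))]
    refine sum_congr rfl fun y1 _ => ?_
    simp
  have e3 : ∀ x1 y1, g1 y1 * Ht (fun y => f (x1, y)) + f1 x1 * g1 y1 * L2 -
      κ * f1 x1 * (g1 y1 * Real.log S2.card - Ht (fun y => g (y1, y))) ≤
      Ht (cv (fun y => f (x1, y)) (fun y => g (y1, y))) := by
    intro x1 y1
    have := h2 (fun y => f (x1, y)) (fun y => g (y1, y)) (fun _ => hf _) (fun _ => hg _)
      (fun y hy => hR _ (by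
        rw [mem_product]
        exact fun h => hy h.2)) (fun y hy => hS _ (by
        rw [mem_product]
        exact fun h => hy h.2))
    rw [hf1, hg1]
    exact this
  have e4 := h1 f1 g1 hf10 hg10 (fun x hx => by
    rw [hf1]
    exact sum_eq_zero fun y _ => hR _ (by
      rw [mem_product]
      exact fun h => hx h.1)) (fun x hx => by
    rw [hg1]
    exact sum_eq_zero fun y _ => hS _ (by
      rw [mem_product]
      exact fun h => hx h.1))
  have e5 : ∑ x1, ∑ y1, (g1 y1 * Ht (fun y => f (x1, y)) + f1 x1 * g1 y1 * L2 -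
      κ * f1 x1 * (g1 y1 * Real.log S2.card - Ht (fun y => g (y1, y)))) =
      (∑ y1, g1 y1) * ∑ x1, Ht (fun y => f (x1, y)) + (∑ x1, f1 x1) * (∑ y1, g1 y1) * L2 -
      κ * (∑ x1, f1 x1) * ((∑ y1, g1 y1) * Real.log S2.card - ∑ y1, Ht (fun y => g (y1, y))) := by
    simp only [sum_sub_distrib, sum_add_distrib]
    congr 1
    · congr 1
      · rw [sum_comm, sum_mul_sum]
      · rw [sum_mul_sum, sum_mul]
        refine sum_congr rfl fun x _ => ?_
        rw [sum_mul]
    · rw [sum_mul, ← sum_sub_distrib, mul_sum (s := univ) (f := f1), sum_mul_sum]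
  have e6 : (∑ x, g x) * Real.log ((S1 ×ˢ S2).card : ℝ) =
      (∑ y1, g1 y1) * (Real.log S1.card + Real.log S2.card) := by
    rw [hmg]
    rcases S1.eq_empty_or_nonempty with h | h
    · have : ∑ y1, g1 y1 = 0 := by
        rw [← hmg]
        apply sum_eq_zero
        intro x _
        apply hS
        rw [mem_product, h]
        simp
      rw [this]; simp
    rcases S2.eq_empty_or_nonempty with h' | h'
    · have : ∑ y1, g1 y1 = 0 := by
        rw [← hmg]
        apply sum_eq_zero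
        intro x _
        apply hS
        rw [mem_product, h']
        simp
      rw [this]; simp
    rw [card_product]
    push_cast
    rw [Real.log_mul]
    · have := card_pos.2 h
      positivity
    · have := card_pos.2 h'
      positivity
  have e7 := Ht_prod f
  have e8 := Ht_prod g
  rw [← hf1] at e7
  rw [← hg1] at e8
  have e9 := sum_le_sum fun x (_ : x ∈ (univ : Finset G1)) =>
    sum_le_sum fun y (_ : y ∈ (univ : Finset G1)) => e3 x y
  rw [e5] at e9
  rw [e6, hmf, hmg, e7, e8, e1]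
  nlinarith [e2, e4, e9]

theorem loc_mono {G : Type} [AddCommGroup G] [Fintype G] {R S : Finset G} {L L' κ κ' : ℝ}
    (h : Loc G R S L κ) (hL : L' ≤ L) (hκ : κ ≤ κ') : Loc G R S L' κ' := by
  intro f g hf hg hR hS
  have h1 := h f g hf hg hR hS
  have hm : 0 ≤ ∑ x, f x := sum_nonneg fun x _ => hf x
  have hm' : 0 ≤ ∑ x, g x := sum_nonneg fun x _ => hg x
  have h2 := Ht_le_log g hg S hS
  have h3 : 0 ≤ (∑ x, f x) * ((∑ x, g x) * Real.log S.card - Ht g) := mul_nonneg hm (by linarith)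
  have h4 : (∑ x, f x) * (∑ x, g x) * L' ≤ (∑ x, f x) * (∑ x, g x) * L :=
    mul_le_mul_of_nonneg_left hL (mul_nonneg hm hm')
  have h5 := mul_le_mul_of_nonneg_right hκ h3
  nlinarith

theorem loc_iso {G G' : Type} [AddCommGroup G] [Fintype G] [AddCommGroup G'] [Fintype G']
    (e : G ≃+ G') {R S : Finset G} {L κ : ℝ} (h : Loc G R S L κ) {R' S' : Finset G'}
    (hR' : ∀ x, x ∈ R ↔ e x ∈ R') (hS' : ∀ x, x ∈ S ↔ e x ∈ S') : Loc G' R' S' L κ := by
  intro f g hf hg hR hS
  have h1 := h (fun x => f (e x)) (fun x => g (e x)) (fun _ => hf _) (fun _ => hg _)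
    (fun x hx => hR _ (fun h => hx ((hR' x).2 h))) (fun x hx => hS _ (fun h => hx ((hS' x).2 h)))
  have s1 : ∀ k : G' → ℝ, ∑ x, k (e x) = ∑ x, k x := fun k => Equiv.sum_comp e.toEquiv k
  have s2 : ∀ k : G' → ℝ, Ht (fun x => k (e x)) = Ht k := by
    intro k
    unfold Ht
    rw [s1 k, s1 (fun x => Real.negMulLog (k x))]
  have s3 : cv (fun x => f (e x)) (fun x => g (e x)) = fun x => cv f g (e x) := by
    funext c
    unfold cv
    rw [← s1 (fun x => f x * g (e c - x))]
    refine sum_congr rfl fun x _ => ?_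
    simp only [map_sub]
  have s4 : S'.card = S.card := by
    symm
    apply card_bij (fun x _ => e x)
    · intro x hx; exact (hS' x).1 hx
    · intro x _ y _ hxy; exact e.injective hxy
    · intro y hy
      refine ⟨e.symm y, ?_, by simp⟩
      rw [hS']
      simpa using hy
  rw [s1, s1, s2, s2, s3, s2] at h1
  rw [s4]
  exact h1

/-- the autocorrelations are not much smaller than for the uniform distribution -/
theorem autocorr {G : Type} [AddCommGroup G] [Fintype G] (g : G → ℝ) (hg : ∀ x, 0 ≤ g x)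
    (hg1 : ∑ x, g x = 1) (v : G) :
    1 / (Fintype.card G : ℝ) * (1 - 6 * (Real.log (Fintype.card G) - Ht g)) ≤
      ∑ y, g y * g (v + y) := by
  obtain ⟨n, hn⟩ : ∃ n : ℝ, n = (Fintype.card G : ℝ) := ⟨_, rfl⟩
  have hn0 : 0 < n := by rw [hn]; exact_mod_cast Fintype.card_pos
  rw [← hn]
  have key : ∀ y, min (n * g y) 2 + min (n * g (v + y)) 2 - 1 -
      ((1 - min (n * g y) 2) ^ 2 + (1 - min (n * g (v + y)) 2) ^ 2) / 2 ≤ n ^ 2 * (g y * g (v + y)) := by
    intro y
    have h1 : 0 ≤ n * g y := mul_nonneg hn0.le (hg y)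
    have h2 : 0 ≤ n * g (v + y) := mul_nonneg hn0.le (hg _)
    have h3 : min (n * g y) 2 * min (n * g (v + y)) 2 ≤ (n * g y) * (n * g (v + y)) :=
      mul_le_mul (min_le_left _ _) (min_le_left _ _) (le_min h2 (by norm_num)) h1
    have h4 : (n * g y) * (n * g (v + y)) = n ^ 2 * (g y * g (v + y)) := by ring
    rw [h4] at h3
    nlinarith [sq_nonneg ((1 - min (n * g y) 2) + (1 - min (n * g (v + y)) 2))]
  have hs := sum_le_sum fun y (_ : y ∈ (univ : Finset G)) => key y
  rw [← mul_sum] at hs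
  have hsh : ∀ k : G → ℝ, ∑ y, k (v + y) = ∑ y, k y := fun k => Equiv.sum_comp (Equiv.addLeft v) k
  have e1 : ∑ y, (min (n * g y) 2 + min (n * g (v + y)) 2 - 1 -
      ((1 - min (n * g y) 2) ^ 2 + (1 - min (n * g (v + y)) 2) ^ 2) / 2) =
      2 * ∑ y, min (n * g y) 2 - n - ∑ y, (1 - min (n * g y) 2) ^ 2 := by
    simp only [sum_sub_distrib, sum_add_distrib, ← sum_div]
    rw [hsh (fun y => min (n * g y) 2), hsh (fun y => (1 - min (n * g y) 2) ^ 2)]
    simp only [sum_const, card_univ, nsmul_eq_mul, mul_one]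
    rw [← hn]
    ring
  rw [e1] at hs
  have h2 := sum_le_sum fun y (_ : y ∈ (univ : Finset G)) =>
    psi_bound (t := n * g y) (mul_nonneg hn0.le (hg y))
  have e2 : ∑ y, (2 * (n * g y - min (n * g y) 2) + (1 - min (n * g y) 2) ^ 2) =
      2 * n - 2 * ∑ y, min (n * g y) 2 + ∑ y, (1 - min (n * g y) 2) ^ 2 := by
    rw [sum_add_distrib, ← mul_sum, sum_sub_distrib, ← mul_sum, hg1]
    ring
  have e3 : ∑ y, 6 * (n * g y * Real.log (n * g y) - n * g y + 1) =
      6 * n * (Real.log n - Ht g) := by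
    have e4 : ∀ y, 6 * (n * g y * Real.log (n * g y) - n * g y + 1) =
        6 * n * (g y * Real.log n - Real.negMulLog (g y)) - 6 * n * g y + 6 := by
      intro y
      rcases (hg y).eq_or_lt with h | h
      · rw [← h]; simp
      · rw [Real.log_mul hn0.ne' h.ne']
        unfold Real.negMulLog
        ring
    simp only [e4]
    rw [sum_add_distrib, sum_sub_distrib, ← mul_sum, ← mul_sum, sum_sub_distrib, ← sum_mul, hg1]
    simp only [sum_const, card_univ, nsmul_eq_mul]
    rw [← hn]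
    unfold Ht
    rw [hg1]
    simp
    ring
  rw [e2, e3] at h2
  have h5 : n - 6 * n * (Real.log n - Ht g) ≤ n ^ 2 * ∑ y, g y * g (v + y) := by linarith
  rw [div_mul_eq_mul_div, one_mul, div_le_iff₀ hn0]
  have h6 : n * (1 - 6 * (Real.log n - Ht g)) ≤ n * ((∑ y, g y * g (v + y)) * n) := by nlinarith
  exact le_of_mul_le_mul_left h6 hn0

/-- one group -/
theorem loc_one {G : Type} [AddCommGroup G] [Fintype G] [DecidableEq G] (R S : Finset G) (r : ℕ)
    (hR : Rᶜ.card ≤ r) (hS : Sᶜ.card ≤ r) (hr : 2 * r ≤ Fintype.card G) :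
    Loc G R S (Rᶜ.card / (Fintype.card G : ℝ) - 12 * r ^ 2 / (Fintype.card G : ℝ) ^ 2)
      (6 * r / (Fintype.card G : ℝ)) := by
  obtain ⟨n, hn⟩ : ∃ n : ℝ, n = (Fintype.card G : ℝ) := ⟨_, rfl⟩
  have hn0 : 0 < n := by rw [hn]; exact_mod_cast Fintype.card_pos
  have hr' : 2 * (r : ℝ) ≤ n := by rw [hn]; exact_mod_cast hr
  rw [← hn]
  obtain ⟨w, hw⟩ : ∃ w : ℝ, w = (Rᶜ.card : ℝ) := ⟨_, rfl⟩
  have hw0 : 0 ≤ w := by rw [hw]; positivity
  have hwr : w ≤ r := by rw [hw]; exact_mod_cast hR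
  rw [← hw]
  have hScard : (S.card : ℝ) = n - Sᶜ.card := by
    have := card_add_card_compl S
    rw [hn]
    have h2 : ((S.card + Sᶜ.card : ℕ) : ℝ) = Fintype.card G := by rw [this]
    push_cast at h2
    linarith
  have hSr : (Sᶜ.card : ℝ) ≤ r := by exact_mod_cast hS
  have hS2 : n / 2 ≤ S.card := by linarith
  have hS0 : (0 : ℝ) < S.card := by linarith
  have hlogS : Real.log n - Real.log S.card ≤ 2 * r / n := by
    rw [← Real.log_div hn0.ne' hS0.ne']
    refine (Real.log_le_sub_one_of_pos (by positivity)).trans ?_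
    have h1 : n / S.card - 1 = (Sᶜ.card : ℝ) / S.card := by
      rw [hScard]
      have : n - (Sᶜ.card : ℝ) ≠ 0 := by rw [← hScard]; exact hS0.ne'
      field_simp
      ring
    rw [h1, div_le_div_iff₀ hS0 hn0]
    nlinarith [(Nat.cast_nonneg r : (0 : ℝ) ≤ r)]
  -- mass one
  have main : ∀ f g : G → ℝ, (∀ x, 0 ≤ f x) → (∀ x, 0 ≤ g x) → (∀ x, x ∉ R → f x = 0) →
      (∀ x, x ∉ S → g x = 0) → ∑ x, g x = 1 →
      Ht f + (∑ x, f x) * (w / n - 12 * r ^ 2 / n ^ 2) -
        6 * r / n * (∑ x, f x) * (Real.log S.card - Ht g) ≤ Ht (cv f g) := by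
    intro f g hf hg hRf hSg hg1
    have h1 := basic_gain f g R hf hg hRf hg1
    have hm : 0 ≤ ∑ x, f x := sum_nonneg fun x _ => hf x
    have h2 : w * ((∑ x, f x) * (1 / n * (1 - 6 * (Real.log n - Ht g)))) ≤
        ∑ e ∈ Rᶜ, ∑ x, f x * ∑ y, g y * g (x + y - e) := by
      rw [hw, ← nsmul_eq_mul, ← sum_const]
      refine sum_le_sum fun e _ => ?_
      rw [sum_mul]
      refine sum_le_sum fun x _ => ?_
      apply mul_le_mul_of_nonneg_left _ (hf x)
      have := autocorr g hg hg1 (x - e)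
      rw [← hn] at this
      refine this.trans (le_of_eq ?_)
      refine sum_congr rfl fun y _ => ?_
      congr 2
      abel
    have h3 := Ht_le_log g hg S hSg
    rw [hg1, one_mul] at h3
    obtain ⟨m, hm'⟩ : ∃ m : ℝ, m = ∑ x, f x := ⟨_, rfl⟩
    rw [← hm'] at hm h2 ⊢
    obtain ⟨D, hD⟩ : ∃ D : ℝ, D = Real.log S.card - Ht g := ⟨_, rfl⟩
    have hD0 : 0 ≤ D := by rw [hD]; linarith
    rw [← hD]
    have h4 : m * (w / n - 12 * r ^ 2 / n ^ 2) - 6 * r / n * m * D ≤
        w * (m * (1 / n * (1 - 6 * (Real.log n - Ht g)))) := by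
      have h5 : Real.log n - Ht g ≤ D + 2 * r / n := by rw [hD]; linarith
      have h6 : w * (m * (1 / n * (1 - 6 * (D + 2 * r / n)))) ≤
          w * (m * (1 / n * (1 - 6 * (Real.log n - Ht g)))) := by
        apply mul_le_mul_of_nonneg_left _ hw0
        apply mul_le_mul_of_nonneg_left _ hm
        apply mul_le_mul_of_nonneg_left _ (by positivity)
        linarith
      refine le_trans ?_ h6
      have h7 : w * (m * (1 / n * (1 - 6 * (D + 2 * r / n)))) =
          m * (w / n) - (w * (6 * m * D / n)) - w * (12 * r * m / n ^ 2) := by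
        field_simp
        ring
      rw [h7]
      have h8 : w * (6 * m * D / n) ≤ r * (6 * m * D / n) :=
        mul_le_mul_of_nonneg_right hwr (by positivity)
      have h9 : w * (12 * r * m / n ^ 2) ≤ r * (12 * r * m / n ^ 2) :=
        mul_le_mul_of_nonneg_right hwr (by positivity)
      have h10 : m * (w / n - 12 * r ^ 2 / n ^ 2) - 6 * r / n * m * D =
          m * (w / n) - r * (6 * m * D / n) - r * (12 * r * m / n ^ 2) := by ring
      rw [h10]
      linarith
    linarith
  intro f g hf hg hRf hSg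
  rcases (sum_nonneg fun x (_ : x ∈ (univ : Finset G)) => hg x).eq_or_lt with h0 | h0
  · have hz : ∀ x, g x = 0 := fun x =>
      (sum_eq_zero_iff_of_nonneg (fun x _ => hg x)).1 h0.symm x (mem_univ x)
    have hg' : g = fun _ => 0 := funext hz
    have hcv0 : cv f g = fun _ => 0 := by
      funext c
      unfold cv
      simp [hz]
    have hH0 : Ht (fun _ : G => (0 : ℝ)) = 0 := by
      unfold Ht
      simp
    rw [hcv0, hg', hH0]
    simp
  · obtain ⟨m', hm'⟩ : ∃ m' : ℝ, m' = ∑ x, g x := ⟨_, rfl⟩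
    rw [← hm'] at h0
    have h1 := main f (fun x => m'⁻¹ * g x) hf (fun x => mul_nonneg (by positivity) (hg x)) hRf
      (fun x hx => by rw [hSg x hx, mul_zero]) (by rw [← mul_sum, ← hm']; field_simp)
    have h2 : cv f (fun x => m'⁻¹ * g x) = fun c => m'⁻¹ * cv f g c := by
      funext c
      unfold cv
      rw [mul_sum]
      refine sum_congr rfl fun x _ => ?_
      ring
    rw [h2, Ht_smul, Ht_smul] at h1
    rw [← hm']
    have h3 := mul_le_mul_of_nonneg_left h1 h0.le
    have h4 : m' * (m'⁻¹ * Ht (cv f g)) = Ht (cv f g) := by field_simp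
    have h5 : m' * (Ht f + (∑ x, f x) * (w / n - 12 * r ^ 2 / n ^ 2) -
        6 * r / n * (∑ x, f x) * (Real.log S.card - m'⁻¹ * Ht g)) =
        m' * Ht f + (∑ x, f x) * m' * (w / n - 12 * r ^ 2 / n ^ 2) -
        6 * r / n * (∑ x, f x) * (m' * Real.log S.card - Ht g) := by
      field_simp
    rw [h4, h5] at h3
    exact h3

/-- without gain -/
theorem loc_zero {G : Type} [AddCommGroup G] [Fintype G] (R S : Finset G) : Loc G R S 0 0 := by
  classical
  intro f g hf hg hRf hSg
  rw [mul_zero, zero_mul, zero_mul, sub_zero, add_zero]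
  -- `cv f g` is a sum of translates of `f`
  have h1 : cv f g = fun c => ∑ y, g y * f (c - y) := by
    funext c
    unfold cv
    rw [← Equiv.sum_comp (Equiv.subLeft c)]
    refine sum_congr rfl fun x _ => ?_
    simp [mul_comm]
  rw [h1]
  refine le_trans (le_of_eq ?_) (Ht_sum univ (fun y c => g y * f (c - y))
    (fun y _ c => mul_nonneg (hg y) (hf _)))
  rw [sum_mul]
  refine sum_congr rfl fun y _ => ?_
  rw [Ht_smul (g y) (fun c => f (c - y))]
  congr 1
  have e1 : ∑ x, f (x - y) = ∑ x, f x := Equiv.sum_comp (Equiv.subRight y) f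
  have e2 : ∑ x, Real.negMulLog (f (x - y)) = ∑ x, Real.negMulLog (f x) :=
    Equiv.sum_comp (Equiv.subRight y) (fun x => Real.negMulLog (f x))
  unfold Ht
  simp only
  rw [e1, e2]

/-- the use of the inequality -/
theorem loc_use {G : Type} [AddCommGroup G] [Fintype G] {R S : Finset G} {L κ : ℝ}
    (hL : Loc G R S L κ) (f : G → ℝ) (hf : ∀ x, 0 ≤ f x) (hR : ∀ x, x ∉ R → f x = 0)
    (B : Finset G) (hB : B ⊆ S) (hBne : B.Nonempty) (M : G → ℝ) (hM : ∀ x, 0 ≤ M x) {t : ℝ} (ht : 0 < t)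
    (h : ∀ a, 0 < f a → ∀ b ∈ B, t * f a ≤ M (a + b)) :
    t * (∑ x, f x) * Real.exp (L - κ * (Real.log S.card - Real.log B.card)) ≤ ∑ x, M x := by
  classical
  have hM0 : 0 ≤ ∑ x, M x := sum_nonneg fun x _ => hM x
  rcases (sum_nonneg fun x (_ : x ∈ (univ : Finset G)) => hf x).eq_or_lt with h0 | h0
  · rw [← h0, mul_zero, zero_mul]; exact hM0
  obtain ⟨m, hm⟩ : ∃ m : ℝ, m = ∑ x, f x := ⟨_, rfl⟩
  rw [← hm] at h0 ⊢
  obtain ⟨b, hb⟩ : ∃ b : ℝ, b = (B.card : ℝ) := ⟨_, rfl⟩
  have hb0 : 0 < b := by rw [hb]; exact_mod_cast card_pos.2 hBne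
  rw [← hb]
  obtain ⟨g, hg⟩ : ∃ g : G → ℝ, g = fun x => if x ∈ B then 1 else 0 := ⟨_, rfl⟩
  have hg0 : ∀ x, 0 ≤ g x := fun x => by rw [hg]; simp only; split_ifs <;> norm_num
  have hgs : ∑ x, g x = b := by rw [hg, hb]; simp
  have hgH : Ht g = b * Real.log b := by
    unfold Ht
    rw [hgs]
    have : ∀ x, Real.negMulLog (g x) = 0 := by
      intro x
      rw [hg]
      simp only
      split_ifs <;> simp
    simp only [this]
    unfold Real.negMulLog
    simp
  have h1 := hL f g hf hg0 hR (fun x hx => by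
    rw [hg]
    simp only
    rw [if_neg (fun h' => hx (hB h'))])
  rw [← hm, hgs, hgH] at h1
  -- positive elements
  have hpos : ∀ x y, 0 < f x → y ∈ B → 0 < M (x + y) := fun x y hx hy =>
    lt_of_lt_of_le (mul_pos ht hx) (h x hx y hy)
  have h2 := gibbs (cv f g) M (cv_nonneg hf hg0) hM (fun c hc => by
    unfold cv
    apply sum_eq_zero
    intro x _
    rcases (hf x).eq_or_lt with h3 | h3
    · rw [← h3, zero_mul]
    · rw [hg]
      simp only
      split_ifs with h4
      · exfalso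
        have := hpos x (c - x) h3 h4
        rw [add_sub_cancel, hc] at this
        exact lt_irrefl _ this
      · rw [mul_zero])
  rw [cv_mass, ← hm, hgs, cv_sum f g (fun c => Real.log (M c))] at h2
  have h3 : m * b * Real.log t + b * ∑ x, f x * Real.log (f x) ≤
      ∑ x, ∑ y, f x * g y * Real.log (M (x + y)) := by
    have e1 : ∀ x y, f x * g y * (Real.log t + Real.log (f x)) ≤ f x * g y * Real.log (M (x + y)) := by
      intro x y
      rcases (hf x).eq_or_lt with h3 | h3
      · rw [← h3]; simp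
      · rw [hg]
        simp only
        split_ifs with h4
        · apply mul_le_mul_of_nonneg_left _ (by linarith)
          rw [← Real.log_mul ht.ne' h3.ne']
          exact Real.log_le_log (by positivity) (h x h3 y h4)
        · simp
    refine le_trans (le_of_eq ?_) (sum_le_sum fun x _ => sum_le_sum fun y _ => e1 x y)
    have e2 : ∀ x, ∑ y, f x * g y * (Real.log t + Real.log (f x)) =
        b * (f x * Real.log t + f x * Real.log (f x)) := by
      intro x
      rw [← sum_mul, ← mul_sum, hgs]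
      ring
    rw [sum_congr rfl fun x _ => e2 x, ← mul_sum, sum_add_distrib, ← sum_mul, ← hm]
    ring
  have h4 : ∑ x, f x * Real.log (f x) = - Ht f + m * Real.log m := by
    unfold Ht Real.negMulLog
    rw [← hm]
    simp only [neg_mul, sum_neg_distrib]
    ring
  rw [h4] at h3
  have hMpos : 0 < ∑ x, M x := by
    obtain ⟨x, -, hx⟩ : ∃ x ∈ (univ : Finset G), 0 < f x := by
      by_contra hcon
      push Not at hcon
      have : ∑ x, f x ≤ 0 := sum_nonpos fun x hx => hcon x hx
      linarith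
    obtain ⟨y, hy⟩ := hBne
    exact lt_of_lt_of_le (hpos x y hx hy) (single_le_sum (f := M) (fun x _ => hM x) (mem_univ _))
  have h5 : Real.log t + Real.log m + (L - κ * (Real.log S.card - Real.log b)) ≤
      Real.log (∑ x, M x) := by
    have h6 : m * b * (Real.log t + Real.log m + (L - κ * (Real.log S.card - Real.log b))) ≤
        m * b * Real.log (∑ x, M x) := by
      nlinarith
    exact le_of_mul_le_mul_left h6 (by positivity)
  have h6 := Real.exp_le_exp.2 h5
  rw [Real.exp_log hMpos, Real.exp_add, Real.exp_add, Real.exp_log ht, Real.exp_log h0] at h6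
  exact h6

end Pool.Agent.K7.H64.LS
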