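import Pool.Agent.K7.H64.LS.Loc
import Pool.Agent.K7.H64.LS.Sums2

/-!
The entropy inequality for the residue classes modulo the product of the primes up to `n`.
-/

set_option autoImplicit false

open Finset

namespace Pool.Agent.K7.H64.LS

open Pool.Agent.Y843.HS

/-- the classes modulo `W` which are outside of `Z p` for all primes `p ≤ n` -/
def RW (Z : ℕ → Finset ℕ) (n W : ℕ) [NeZero W] : Finset (ZMod W) :=
  univ.filter (fun c => ∀ p ∈ Finset.Icc 1 n, p.Prime → c.val % p ∉ Z p)

theorem RW_mem {Z : ℕ → Finset ℕ} {n W : ℕ} [NeZero W] {c : ZMod W} :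
    c ∈ RW Z n W ↔ ∀ p : ℕ, p.Prime → p ≤ n → c.val % p ∉ Z p := by
  unfold RW
  rw [mem_filter]
  constructor
  · rintro ⟨-, h⟩ p hp hpn
    exact h p (Finset.mem_Icc.2 ⟨hp.one_le, hpn⟩) hp
  · intro h
    exact ⟨mem_univ _, fun p hp hpp => h p hpp (Finset.mem_Icc.1 hp).2⟩

theorem primorial_step (n : ℕ) : primorial (n + 1) =
    if (n + 1).Prime then (n + 1) * primorial n else primorial n := by
  unfold primorial
  rw [range_add_one, filter_insert]
  split_ifs with h
  · rw [prod_insert]
    simp
  · rfl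

theorem Pr_step (z n : ℕ) : Pr z (n + 1) =
    if z < n + 1 ∧ (n + 1).Prime then insert (n + 1) (Pr z n) else Pr z n := by
  ext p
  split_ifs with h
  · rw [mem_insert, Pr_mem, Pr_mem]
    constructor
    · rintro ⟨⟨h1, h2⟩, h3⟩
      rcases Nat.lt_or_ge n p with h4 | h4
      · left; omega
      · right; exact ⟨⟨h1, h4⟩, h3⟩
    · rintro (rfl | ⟨⟨h1, h2⟩, h3⟩)
      · exact ⟨⟨h.1, le_rfl⟩, h.2⟩
      · exact ⟨⟨h1, by omega⟩, h3⟩
  · rw [Pr_mem, Pr_mem]
    constructor
    · rintro ⟨⟨h1, h2⟩, h3⟩
      refine ⟨⟨h1, ?_⟩, h3⟩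
      by_contra h4
      have : p = n + 1 := by omega
      subst this
      exact h ⟨h1, h3⟩
    · rintro ⟨⟨h1, h2⟩, h3⟩
      exact ⟨⟨h1, by omega⟩, h3⟩

/-- the classes modulo a prime outside of a set -/
def R1 (T : Finset ℕ) (p : ℕ) [NeZero p] : Finset (ZMod p) := univ.filter (fun a => a.val ∉ T)

theorem R1_compl {T : Finset ℕ} {p : ℕ} [NeZero p] (hT : ∀ c ∈ T, c < p) : (R1 T p)ᶜ.card = T.card := by
  apply card_bij (fun a _ => a.val)
  · intro a ha
    rw [mem_compl, R1, mem_filter] at ha
    by_contra h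
    exact ha ⟨mem_univ _, h⟩
  · intro a _ b _ hab
    exact ZMod.val_injective p hab
  · intro c hc
    refine ⟨(c : ZMod p), ?_, ?_⟩
    · rw [mem_compl, R1, mem_filter]
      rintro ⟨-, h⟩
      apply h
      rw [ZMod.val_natCast, Nat.mod_eq_of_lt (hT c hc)]
      exact hc
    · rw [ZMod.val_natCast, Nat.mod_eq_of_lt (hT c hc)]

theorem RW_step (Z : ℕ → Finset ℕ) (n W' : ℕ) [NeZero W'] [NeZero (n + 1)] [NeZero ((n + 1) * W')]
    (hW' : W' = primorial n) (hp : (n + 1).Prime) (hcop : (n + 1).Coprime W')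
    (x : ZMod (n + 1) × ZMod W') :
    x ∈ R1 (Z (n + 1)) (n + 1) ×ˢ RW Z n W' ↔
      (ZMod.chineseRemainder hcop).symm.toAddEquiv x ∈ RW Z (n + 1) ((n + 1) * W') := by
  obtain ⟨y, hy⟩ : ∃ y : ZMod ((n + 1) * W'), y = (ZMod.chineseRemainder hcop).symm x := ⟨_, rfl⟩
  have hx : x = ZMod.chineseRemainder hcop y := by rw [hy]; simp
  have hyv : ZMod.chineseRemainder hcop y = (((y.val : ℕ) : ZMod (n + 1)), ((y.val : ℕ) : ZMod W')) := by
    conv_lhs => rw [← ZMod.natCast_zmod_val y]
    rw [map_natCast]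
    rfl
  have h1 : x.1.val = y.val % (n + 1) := by rw [hx, hyv, ZMod.val_natCast]
  have h2 : x.2.val = y.val % W' := by rw [hx, hyv, ZMod.val_natCast]
  have h3 : (ZMod.chineseRemainder hcop).symm.toAddEquiv x = y := by rw [hy]; rfl
  rw [h3, mem_product, RW_mem, RW_mem, R1, mem_filter, h1, h2]
  constructor
  · rintro ⟨⟨-, h4⟩, h5⟩ p hpp hpn
    rcases Nat.lt_or_ge n p with h6 | h6
    · have : p = n + 1 := by omega
      rw [this]; exact h4
    · have h7 := h5 p hpp h6
      have hd : p ∣ W' := by rw [hW']; exact hpp.dvd_primorial_iff.2 h6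
      rwa [Nat.mod_mod_of_dvd _ hd] at h7
  · intro h
    refine ⟨⟨mem_univ _, h (n + 1) hp le_rfl⟩, fun p hpp hpn => ?_⟩
    have hd : p ∣ W' := by rw [hW']; exact hpp.dvd_primorial_iff.2 hpn
    rw [Nat.mod_mod_of_dvd _ hd]
    exact h p hpp (by omega)

theorem locW (r z : ℕ) (hr : 2 * r ≤ z) (Z Z' : ℕ → Finset ℕ) : ∀ n : ℕ,
    (∀ p : ℕ, p.Prime → p ≤ n → (Z p).card ≤ r ∧ ∀ c ∈ Z p, c < p) →
    (∀ p : ℕ, p.Prime → p ≤ n → (Z' p).card ≤ r ∧ ∀ c ∈ Z' p, c < p) →
    ∀ (W : ℕ) [NeZero W], W = primorial n →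
    Loc (ZMod W) (RW Z n W) (RW Z' n W)
      (∑ p ∈ Pr z n, (((Z p).card : ℝ) / p - 12 * r ^ 2 / (p : ℝ) ^ 2)) (6 * r / z) := by
  intro n
  induction n with
  | zero =>
    intro _ _ W _ hW
    have h1 : Pr z 0 = ∅ := by
      rw [eq_empty_iff_forall_notMem]
      intro p hp
      rw [Pr_mem] at hp
      omega
    rw [h1, sum_empty]
    exact loc_mono (loc_zero _ _) le_rfl (by positivity)
  | succ n ih =>
    intro hZ hZ' W _ hW
    have ih' := ih (fun p hp hpn => hZ p hp (by omega)) (fun p hp hpn => hZ' p hp (by omega))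
    by_cases hp : (n + 1).Prime
    · rw [primorial_step, if_pos hp] at hW
      haveI : NeZero (primorial n) := ⟨primorial_ne_zero n⟩
      haveI : NeZero (n + 1) := ⟨by omega⟩
      have hcop : (n + 1).Coprime (primorial n) := by
        rw [Nat.Prime.coprime_iff_not_dvd hp, hp.dvd_primorial_iff]
        omega
      subst hW
      have h1 := ih' (primorial n) rfl
      have hcard : Fintype.card (ZMod (n + 1)) = n + 1 := ZMod.card _
      obtain ⟨z1, z2⟩ := hZ (n + 1) hp le_rfl
      obtain ⟨z3, z4⟩ := hZ' (n + 1) hp le_rfl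
      rcases Nat.lt_or_ge z (n + 1) with hz | hz
      · have h2 := loc_one (R1 (Z (n + 1)) (n + 1)) (R1 (Z' (n + 1)) (n + 1)) r
          (by rw [R1_compl z2]; exact z1) (by rw [R1_compl z4]; exact z3) (by rw [hcard]; omega)
        rw [R1_compl z2, hcard] at h2
        rcases Nat.eq_zero_or_pos z with hz0 | hz0
        · -- then `r = 0`
          have hr0 : r = 0 := by omega
          have h3 : (6 * (r : ℝ) / ((n + 1 : ℕ) : ℝ)) = 6 * r / z := by rw [hr0]; simp
          rw [h3] at h2
          have h4 := loc_iso (ZMod.chineseRemainder hcop).symm.toAddEquiv (loc_prod h2 h1)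
            (RW_step Z n (primorial n) rfl hp hcop) (RW_step Z' n (primorial n) rfl hp hcop)
          rw [Pr_step, if_pos ⟨hz, hp⟩, sum_insert (by rw [Pr_mem]; omega)]
          exact h4
        · have h3 : (6 * (r : ℝ) / ((n + 1 : ℕ) : ℝ)) ≤ 6 * r / z := by
            apply div_le_div_of_nonneg_left (by positivity) (by positivity)
            exact_mod_cast hz.le
          have h4 := loc_iso (ZMod.chineseRemainder hcop).symm.toAddEquiv
            (loc_prod (loc_mono h2 le_rfl h3) h1)
            (RW_step Z n (primorial n) rfl hp hcop) (RW_step Z' n (primorial n) rfl hp hcop)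
          rw [Pr_step, if_pos ⟨hz, hp⟩, sum_insert (by rw [Pr_mem]; omega)]
          exact h4
      · have h2 := loc_mono (loc_zero (R1 (Z (n + 1)) (n + 1)) (R1 (Z' (n + 1)) (n + 1))) le_rfl
          (show (0 : ℝ) ≤ 6 * r / z by positivity)
        have h4 := loc_iso (ZMod.chineseRemainder hcop).symm.toAddEquiv (loc_prod h2 h1)
          (RW_step Z n (primorial n) rfl hp hcop) (RW_step Z' n (primorial n) rfl hp hcop)
        rw [Pr_step, if_neg (by omega)]
        rw [zero_add] at h4
        exact h4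
    · rw [primorial_step, if_neg hp] at hW
      have h1 := ih' W hW
      rw [Pr_step, if_neg (fun h => hp h.2)]
      have h2 : ∀ Z : ℕ → Finset ℕ, RW Z (n + 1) W = RW Z n W := by
        intro Z
        ext c
        rw [RW_mem, RW_mem]
        constructor
        · intro h p hpp hpn
          exact h p hpp (by omega)
        · intro h p hpp hpn
          apply h p hpp
          by_contra h4
          have : p = n + 1 := by omega
          exact hp (this ▸ hpp)
      rw [h2, h2]
      exact h1

theorem card_RW (Z : ℕ → Finset ℕ) : ∀ n : ℕ,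
    (∀ p : ℕ, p.Prime → p ≤ n → ∀ c ∈ Z p, c < p) →
    ∀ (W : ℕ) [NeZero W], W = primorial n → ((RW Z n W).card : ℝ) = W * VV Z 0 n := by
  intro n
  induction n with
  | zero =>
    intro _ W _ hW
    have h1 : Pr 0 0 = ∅ := by
      rw [eq_empty_iff_forall_notMem]
      intro p hp
      rw [Pr_mem] at hp
      omega
    unfold VV
    rw [h1, prod_empty, mul_one]
    have h2 : RW Z 0 W = univ := by
      ext c
      rw [RW_mem]
      simp only [mem_univ, iff_true]
      intro p hp hp0
      exfalso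
      have := hp.pos
      omega
    rw [h2, card_univ, ZMod.card]
  | succ n ih =>
    intro hZ W _ hW
    have ih' := ih (fun p hp hpn => hZ p hp (by omega))
    by_cases hp : (n + 1).Prime
    · rw [primorial_step, if_pos hp] at hW
      haveI : NeZero (primorial n) := ⟨primorial_ne_zero n⟩
      haveI : NeZero (n + 1) := ⟨by omega⟩
      have hcop : (n + 1).Coprime (primorial n) := by
        rw [Nat.Prime.coprime_iff_not_dvd hp, hp.dvd_primorial_iff]
        omega
      subst hW
      have h1 := ih' (primorial n) rfl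
      have h2 : (RW Z (n + 1) ((n + 1) * primorial n)).card =
          (R1 (Z (n + 1)) (n + 1) ×ˢ RW Z n (primorial n)).card := by
        symm
        apply card_bij (fun x _ => (ZMod.chineseRemainder hcop).symm.toAddEquiv x)
        · intro x hx
          exact (RW_step Z n (primorial n) rfl hp hcop x).1 hx
        · intro x _ y _ hxy
          exact (ZMod.chineseRemainder hcop).symm.toAddEquiv.injective hxy
        · intro y hy
          refine ⟨(ZMod.chineseRemainder hcop).symm.toAddEquiv.symm y, ?_, by simp⟩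
          rw [RW_step Z n (primorial n) rfl hp hcop]
          simpa using hy
      have h3 := card_add_card_compl (R1 (Z (n + 1)) (n + 1))
      rw [R1_compl (hZ (n + 1) hp le_rfl), ZMod.card] at h3
      have h4 : ((R1 (Z (n + 1)) (n + 1)).card : ℝ) = (n + 1 : ℕ) - (Z (n + 1)).card := by
        have : (((R1 (Z (n + 1)) (n + 1)).card + (Z (n + 1)).card : ℕ) : ℝ) = (n + 1 : ℕ) := by rw [h3]
        push_cast at this ⊢
        linarith
      rw [h2, card_product]
      push_cast
      rw [h1, h4]
      unfold VV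
      rw [Pr_step, if_pos ⟨by omega, hp⟩, prod_insert (by rw [Pr_mem]; omega)]
      have h5 : ((n + 1 : ℕ) : ℝ) ≠ 0 := by positivity
      field_simp
      push_cast
      ring
    · rw [primorial_step, if_neg hp] at hW
      have h1 := ih' W hW
      unfold VV at h1 ⊢
      rw [Pr_step, if_neg (fun h => hp h.2), ← h1]
      congr 2
      ext c
      rw [RW_mem, RW_mem]
      constructor
      · intro h p hpp hpn
        exact h p hpp (by omega)
      · intro h p hpp hpn
        apply h p hpp
        by_contra h4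
        have : p = n + 1 := by omega
        exact hp (this ▸ hpp)

end Pool.Agent.K7.H64.LS
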