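import Pool.Agent.K7.H64.LS.Main

/-!
From the large sieve inequality at few points to sums of higher powers.
-/

set_option autoImplicit false

open Finset

namespace Pool.Agent.K7.H64.LS

open Pool.Agent.Y843.HS
open Pool.Agent.Helper112 (ee ls_norm_ee lsSep)

/-- if all subsums are small, so are the sums of higher powers -/
theorem power_sum {ι : Type} [DecidableEq ι] (u : ι → ℝ) (hu : ∀ i, 0 ≤ u i) (G : ℕ → ℝ) {s : ℝ}
    (hs : 0 ≤ s) : ∀ I : Finset ι, (∀ T ⊆ I, ∑ i ∈ T, u i ≤ G T.card) →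
    ∑ i ∈ I, u i ^ s ≤ ∑ k ∈ Icc 1 I.card, (G k / k) ^ s := by
  intro I
  induction I using Finset.strongInduction with
  | H I ih =>
    intro h
    rcases I.eq_empty_or_nonempty with rfl | hne
    · simp
    · obtain ⟨i0, hi0, hmin⟩ := exists_min_image I u hne
      have h1 := ih (I.erase i0) (erase_ssubset hi0) fun T hT => h T (hT.trans (erase_subset _ _))
      have hc : (I.erase i0).card + 1 = I.card := card_erase_add_one hi0
      have hpos : 0 < I.card := card_pos.2 hne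
      have hpr : (0 : ℝ) < I.card := by exact_mod_cast hpos
      have h2 : u i0 ≤ G I.card / I.card := by
        rw [le_div_iff₀ hpr]
        have h3 := h I (Subset.refl _)
        have h4 : (I.card : ℝ) * u i0 ≤ ∑ i ∈ I, u i := by
          rw [← nsmul_eq_mul, ← sum_const]
          exact sum_le_sum fun i hi => hmin i hi
        linarith
      rw [← add_sum_erase I (fun i => u i ^ s) hi0, ← hc, sum_Icc_succ_top (by omega), add_comm]
      refine add_le_add h1 ?_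
      rw [hc]
      exact Real.rpow_le_rpow (hu i0) h2 hs

/-- the series of the powers -/
theorem series_bound (m : ℕ) {s : ℝ} (hs : 1 < s) : ∃ C : ℝ, 0 < C ∧ ∀ n : ℕ,
    ∑ k ∈ Icc 1 n, ((1 + Real.log k) ^ m / k) ^ s ≤ C := by
  obtain ⟨e, he⟩ : ∃ e : ℝ, e = (s - 1) / (2 * s * (m + 1)) := ⟨_, rfl⟩
  have he0 : 0 < e := by rw [he]; apply div_pos <;> nlinarith
  obtain ⟨D, hD⟩ : ∃ D : ℝ, D = 1 + 1 / e := ⟨_, rfl⟩
  have hD0 : 0 < D := by rw [hD]; positivity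
  have hsum : Summable (fun k : ℕ => 1 / (k : ℝ) ^ ((1 + s) / 2)) :=
    Real.summable_one_div_nat_rpow.2 (by linarith)
  refine ⟨D ^ (m * s : ℝ) * (∑' k : ℕ, 1 / (k : ℝ) ^ ((1 + s) / 2)) + 1, ?_, fun n => ?_⟩
  · have : 0 ≤ ∑' k : ℕ, 1 / (k : ℝ) ^ ((1 + s) / 2) := tsum_nonneg fun k => by positivity
    positivity
  have h1 : ∀ k ∈ Icc 1 n, ((1 + Real.log k) ^ m / k) ^ s ≤ D ^ (m * s : ℝ) * (1 / (k : ℝ) ^ ((1 + s) / 2)) := by
    intro k hk
    rw [mem_Icc] at hk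
    have hk1 : (1 : ℝ) ≤ k := by exact_mod_cast hk.1
    have hk0 : (0 : ℝ) < k := by linarith
    have hl : 0 ≤ Real.log k := Real.log_nonneg hk1
    have h2 : 1 + Real.log k ≤ D * (k : ℝ) ^ e := by
      have h3 := Real.log_le_rpow_div (x := k) hk0.le he0
      have h4 : (1 : ℝ) ≤ (k : ℝ) ^ e := Real.one_le_rpow hk1 he0.le
      rw [hD]
      have h5 : (k : ℝ) ^ e / e = 1 / e * (k : ℝ) ^ e := by ring
      rw [h5] at h3
      nlinarith
    have h3 : (1 + Real.log k) ^ m ≤ D ^ m * (k : ℝ) ^ (e * m) := by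
      calc (1 + Real.log k) ^ m ≤ (D * (k : ℝ) ^ e) ^ m := pow_le_pow_left₀ (by linarith) h2 m
        _ = _ := by rw [mul_pow, ← Real.rpow_mul_natCast hk0.le]
    have h4 : ((1 + Real.log k) ^ m / k) ^ s ≤ (D ^ m * (k : ℝ) ^ (e * m) / k) ^ s := by
      apply Real.rpow_le_rpow (by positivity) _ (by linarith)
      exact div_le_div_of_nonneg_right h3 hk0.le
    refine h4.trans ?_
    have h5 : D ^ m * (k : ℝ) ^ (e * m) / k = D ^ m * (k : ℝ) ^ (e * m - 1) := by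
      rw [Real.rpow_sub hk0, Real.rpow_one]
      ring
    rw [h5, Real.mul_rpow (by positivity) (by positivity), ← Real.rpow_mul hk0.le,
      ← Real.rpow_natCast_mul hD0.le]
    apply mul_le_mul_of_nonneg_left _ (by positivity)
    rw [one_div, ← Real.rpow_neg hk0.le]
    apply Real.rpow_le_rpow_of_exponent_le hk1
    have h6 : e * m * s ≤ (s - 1) / 2 := by
      have hm : (0 : ℝ) ≤ m := Nat.cast_nonneg m
      rw [he, div_mul_eq_mul_div, div_mul_eq_mul_div, div_le_div_iff₀ (by positivity) (by norm_num)]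
      nlinarith [mul_nonneg (by linarith : (0 : ℝ) ≤ s - 1) (by linarith : (0 : ℝ) ≤ s)]
    linarith
  refine (sum_le_sum h1).trans ?_
  rw [← mul_sum]
  have h2 : ∑ k ∈ Icc 1 n, 1 / (k : ℝ) ^ ((1 + s) / 2) ≤ ∑' k : ℕ, 1 / (k : ℝ) ^ ((1 + s) / 2) :=
    hsum.sum_le_tsum _ fun k _ => by positivity
  have h3 := mul_le_mul_of_nonneg_left h2 (by positivity : 0 ≤ D ^ (m * s : ℝ))
  linarith

/-- the truncated product compared with the full product -/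
theorem VV_cmp (r : ℕ) : ∃ C : ℝ, 0 < C ∧ ∀ k Y : ℕ, 1 ≤ k → ∀ Z : ℕ → Finset ℕ,
    (∀ p ∈ Pr 0 Y, (Z p).card ≤ r ∧ (Z p).card < p ∧ ∀ c ∈ Z p, c < p) →
    VV Z k Y ≤ C * VV Z 0 Y * (1 + Real.log k) ^ (2 * r) := by
  obtain ⟨cV, hcV, hVlow⟩ := Pool.Agent.Y843.HG.VV_low r
  obtain ⟨c1, hc1, hc11, hlow⟩ := low_const r 1 (2 * r + 3)
  refine ⟨1 / c1 + 1 / cV, by positivity, ?_⟩
  intro k Y hk Z hZ
  have hk1 : (1 : ℝ) ≤ k := by exact_mod_cast hk
  have hl : 0 ≤ Real.log k := Real.log_nonneg hk1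
  have hlp : (1 : ℝ) ≤ (1 + Real.log k) ^ (2 * r) := one_le_pow₀ (by linarith)
  have hV0 : 0 < VV Z 0 Y := VV_nonneg fun p hp => (hZ p hp).2.1
  have hZ' : ∀ a b : ℕ, b ≤ Y → ∀ p ∈ Pr a b, (Z p).card ≤ r ∧ (Z p).card < p ∧ ∀ c ∈ Z p, c < p := by
    intro a b hb p hp
    rw [Pr_mem] at hp
    exact hZ p (Pr_mem.2 ⟨by omega, hp.2⟩)
  -- a lower bound for the product up to `min k Y`
  have key : ∀ m : ℕ, m ≤ Y → m ≤ k → 1 ≤ (1 / c1 + 1 / cV) * (1 + Real.log k) ^ (2 * r) * VV Z 0 m := by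
    intro m hm hmk
    have hVm : 0 < VV Z 0 m := VV_nonneg fun p hp => (hZ' 0 m hm p hp).2.1
    rcases le_or_gt m (2 * r + 3) with h | h
    · have h1 : c1 ≤ VV Z 0 m := hlow 0 m Z (hZ' 0 m hm) (h.trans (le_max_left _ _))
      have h2 : 1 ≤ 1 / c1 * VV Z 0 m := by
        rw [one_div_mul_eq_div, le_div_iff₀ hc1]
        linarith
      have h3 : 0 ≤ 1 / cV * (1 + Real.log k) ^ (2 * r) * VV Z 0 m := by positivity
      have h4 : 1 / c1 * VV Z 0 m ≤ 1 / c1 * (1 + Real.log k) ^ (2 * r) * VV Z 0 m := by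
        apply mul_le_mul_of_nonneg_right _ hVm.le
        have : 0 ≤ 1 / c1 := by positivity
        nlinarith
      nlinarith
    · have h1 := hVlow m h.le Z (hZ' 0 m hm)
      have hm1 : (1 : ℝ) < m := by exact_mod_cast (by omega : 1 < m)
      have hlm : 0 < Real.log m := Real.log_pos hm1
      rw [div_le_iff₀ (by positivity)] at h1
      have h2 : Real.log m ^ (2 * r) ≤ (1 + Real.log k) ^ (2 * r) := by
        apply pow_le_pow_left₀ hlm.le
        have : Real.log m ≤ Real.log k := Real.log_le_log (by linarith) (by exact_mod_cast hmk)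
        linarith
      have h3 : cV ≤ VV Z 0 m * (1 + Real.log k) ^ (2 * r) :=
        h1.trans (mul_le_mul_of_nonneg_left h2 hVm.le)
      have h4 : 1 ≤ 1 / cV * (1 + Real.log k) ^ (2 * r) * VV Z 0 m := by
        rw [mul_assoc, one_div_mul_eq_div, le_div_iff₀ hcV]
        linarith
      have h5 : 0 ≤ 1 / c1 * (1 + Real.log k) ^ (2 * r) * VV Z 0 m := by positivity
      nlinarith
  rcases le_or_gt k Y with h | h
  · have h1 := key k h le_rfl
    have h2 := VV_split Z (Nat.zero_le k) h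
    have h3 : 0 < VV Z k Y := VV_nonneg fun p hp => (hZ' k Y le_rfl p hp).2.1
    calc VV Z k Y = 1 * VV Z k Y := (one_mul _).symm
      _ ≤ ((1 / c1 + 1 / cV) * (1 + Real.log k) ^ (2 * r) * VV Z 0 k) * VV Z k Y :=
          mul_le_mul_of_nonneg_right h1 h3.le
      _ = (1 / c1 + 1 / cV) * (VV Z 0 k * VV Z k Y) * (1 + Real.log k) ^ (2 * r) := by ring
      _ = _ := by rw [h2]
  · have h1 := key Y le_rfl h.le
    have h2 : VV Z k Y ≤ 1 := VV_le_one fun p hp => (hZ' k Y le_rfl p hp).2.1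
    calc VV Z k Y ≤ 1 := h2
      _ ≤ _ := h1
      _ = _ := by ring

/-- **powers at spaced points** -/
theorem lsp (r : ℕ) {κ : ℝ} (hκ : 0 < κ) {s : ℝ} (hs : 1 < s) : ∃ C : ℝ, 0 < C ∧ ∀ N : ℕ, 1 ≤ N →
    ∀ (A : ℕ) (Z : ℕ → Finset ℕ),
    (∀ p : ℕ, p.Prime → (p : ℝ) ≤ (N : ℝ) ^ κ → (Z p).card ≤ r ∧ (Z p).card < p ∧ ∀ c ∈ Z p, c < p) →
    ∀ S : Finset ℕ, S ⊆ Ioc A (A + N) →
    (∀ n ∈ S, ∀ p : ℕ, p.Prime → (p : ℝ) ≤ (N : ℝ) ^ κ → n % p ∉ Z p) →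
    ∀ (ι : Type) [DecidableEq ι] (I : Finset ι) (ξ : ι → ℝ) (K : ℕ), 1 ≤ K →
    (∀ i ∈ I, ∀ j ∈ I, i ≠ j → lsSep K (ξ j - ξ i)) → ∀ a : ℕ → ℂ,
    ∑ i ∈ I, (‖∑ n ∈ S, a n * ee (n * ξ i)‖ ^ 2) ^ s ≤
      C * (((N : ℝ) + K) * VV Z 0 ⌊(N : ℝ) ^ κ⌋₊ * ∑ n ∈ S, ‖a n‖ ^ 2) ^ s := by
  classical
  obtain ⟨C1, hC1, h1⟩ := lsf r hκ
  obtain ⟨C2, hC2, h2⟩ := VV_cmp r
  obtain ⟨C3, hC3, h3⟩ := series_bound (2 * r) hs
  have hs0 : 0 < s := by linarith
  refine ⟨(C1 * C2) ^ s * C3, by positivity, ?_⟩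
  intro N hN A Z hZ S hSI hSZ ι _ I ξ K hK hsep a
  obtain ⟨Y, hY⟩ : ∃ Y : ℕ, Y = ⌊(N : ℝ) ^ κ⌋₊ := ⟨_, rfl⟩
  rw [← hY]
  set G : ℝ := ∑ n ∈ S, ‖a n‖ ^ 2 with hG
  have hG0 : 0 ≤ G := sum_nonneg fun i _ => by positivity
  have hYN : (Y : ℝ) ≤ (N : ℝ) ^ κ := by rw [hY]; exact Nat.floor_le (by positivity)
  have hZ' : ∀ p ∈ Pr 0 Y, (Z p).card ≤ r ∧ (Z p).card < p ∧ ∀ c ∈ Z p, c < p := by
    intro p hp
    rw [Pr_mem] at hp
    exact hZ p hp.2 (le_trans (by exact_mod_cast hp.1.2) hYN)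
  have hV0 : 0 < VV Z 0 Y := VV_nonneg fun p hp => (hZ' p hp).2.1
  obtain ⟨B, hB⟩ : ∃ B : ℝ, B = ((N : ℝ) + K) * VV Z 0 Y * G := ⟨_, rfl⟩
  have hB0 : 0 ≤ B := by rw [hB]; positivity
  rw [← hB]
  have h4 := power_sum (fun i => ‖∑ n ∈ S, a n * ee (n * ξ i)‖ ^ 2) (fun i => by positivity)
    (fun k => C1 * ((N : ℝ) + K) * VV Z k Y * G) hs0.le I (fun T hT => by
      have := h1 N hN A Z hZ S hSI hSZ ι T ξ K hK (fun i hi j hj => hsep i (hT hi) j (hT hj)) a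
      rw [← hY] at this
      exact this)
  refine h4.trans ?_
  have h5 : ∀ k ∈ Icc 1 I.card, (C1 * ((N : ℝ) + K) * VV Z k Y * G / k) ^ s ≤
      (C1 * C2 * B) ^ s * ((1 + Real.log k) ^ (2 * r) / k) ^ s := by
    intro k hk
    rw [mem_Icc] at hk
    have hk1 : (1 : ℝ) ≤ k := by exact_mod_cast hk.1
    have hk0 : (0 : ℝ) < k := by linarith
    have hl : 0 ≤ Real.log k := Real.log_nonneg hk1
    have hVk : 0 < VV Z k Y := VV_nonneg fun p hp => by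
      rw [Pr_mem] at hp
      exact (hZ' p (Pr_mem.2 ⟨by omega, hp.2⟩)).2.1
    rw [← Real.mul_rpow (by positivity) (by positivity)]
    apply Real.rpow_le_rpow (by positivity) _ hs0.le
    have h6 := h2 k Y hk.1 Z hZ'
    calc C1 * ((N : ℝ) + K) * VV Z k Y * G / k ≤
          C1 * ((N : ℝ) + K) * (C2 * VV Z 0 Y * (1 + Real.log k) ^ (2 * r)) * G / k := by
          apply div_le_div_of_nonneg_right _ hk0.le
          apply mul_le_mul_of_nonneg_right _ hG0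
          apply mul_le_mul_of_nonneg_left h6 (by positivity)
      _ = _ := by rw [hB]; ring
  refine (sum_le_sum h5).trans ?_
  rw [← mul_sum, Real.mul_rpow (by positivity) hB0]
  calc (C1 * C2) ^ s * B ^ s * ∑ k ∈ Icc 1 I.card, ((1 + Real.log k) ^ (2 * r) / k) ^ s
      ≤ (C1 * C2) ^ s * B ^ s * C3 := mul_le_mul_of_nonneg_left (h3 _) (by positivity)
    _ = _ := by ring

end Pool.Agent.K7.H64.LS
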