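import Pool.Agent.K7.H64.LS.LSF

/-!
The large sieve inequality at few points for sifted sets: the choice of the parameters.
-/

set_option autoImplicit false

open Finset

namespace Pool.Agent.K7.H64.LS

open Pool.Agent.Y843.HS
open Pool.Agent.Helper112 (ee ls_norm_ee lsSep)

theorem fac_low {Z : ℕ → Finset ℕ} {p : ℕ} (hp : p.Prime) (h : (Z p).card < p) :
    (1 : ℝ) / p ≤ 1 - ((Z p).card : ℝ) / p := by
  have hp0 : (0 : ℝ) < p := by exact_mod_cast hp.pos
  have h2 : ((Z p).card : ℝ) + 1 ≤ p := by exact_mod_cast h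
  rw [div_le_iff₀ hp0, sub_mul, div_mul_cancel₀ _ hp0.ne']
  linarith

theorem fac_le_one {Z : ℕ → Finset ℕ} {p : ℕ} : 1 - ((Z p).card : ℝ) / p ≤ 1 := by
  have : 0 ≤ ((Z p).card : ℝ) / p := by positivity
  linarith

theorem VV_nonneg {Z : ℕ → Finset ℕ} {a b : ℕ} (h : ∀ p ∈ Pr a b, (Z p).card < p) :
    0 < VV Z a b := by
  unfold VV
  refine prod_pos fun p hp => ?_
  have h1 := fac_low (Pr_prime hp) (h p hp)
  have hp0 : (0 : ℝ) < p := by exact_mod_cast (Pr_prime hp).pos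
  have : (0 : ℝ) < 1 / p := by positivity
  linarith

theorem VV_le_one {Z : ℕ → Finset ℕ} {a b : ℕ} (h : ∀ p ∈ Pr a b, (Z p).card < p) :
    VV Z a b ≤ 1 := by
  unfold VV
  refine prod_le_one (fun p hp => ?_) fun p hp => fac_le_one
  have h1 := fac_low (Pr_prime hp) (h p hp)
  have : (0 : ℝ) ≤ 1 / p := by positivity
  linarith

theorem low_const (r L B0 : ℕ) : ∃ c : ℝ, 0 < c ∧ c ≤ 1 ∧ ∀ a b : ℕ, ∀ Z : ℕ → Finset ℕ,
    (∀ p ∈ Pr a b, (Z p).card ≤ r ∧ (Z p).card < p ∧ ∀ c ∈ Z p, c < p) →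
    b ≤ max B0 (a ^ L) → c ≤ VV Z a b := by
  obtain ⟨c1, hc1, R0, h1⟩ := Pool.Agent.Y79.HS.den r (L + 1)
  set M := max R0 (B0 + 1) with hM
  set b1 := max B0 (M ^ L) with hb1
  have hfac : (0 : ℝ) < ∏ p ∈ Pr 0 b1, (1 / (p : ℝ)) := prod_pos fun p hp => by
    have : (0 : ℝ) < p := by exact_mod_cast (Pr_prime hp).pos
    positivity
  refine ⟨min 1 (min c1 (∏ p ∈ Pr 0 b1, (1 / (p : ℝ)))), lt_min one_pos (lt_min hc1 hfac),
    min_le_left _ _, ?_⟩
  intro a b Z hZ hb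
  rcases le_or_gt M a with ha | ha
  · refine (min_le_right _ _).trans ((min_le_left _ _).trans ?_)
    have hR : R0 ≤ a := (le_max_left _ _).trans ha
    have hB : B0 + 1 ≤ a := (le_max_right _ _).trans ha
    refine h1 a b hR ?_ Z fun p hp => ⟨(hZ p hp).1, (hZ p hp).2.2⟩
    refine hb.trans (max_le ?_ ?_)
    · calc B0 ≤ a ^ 1 := by rw [pow_one]; omega
        _ ≤ a ^ (L + 1) := Nat.pow_le_pow_right (by omega) (by omega)
    · exact Nat.pow_le_pow_right (by omega) (by omega)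
  · refine (min_le_right _ _).trans ((min_le_right _ _).trans ?_)
    have hbb : b ≤ b1 := by
      refine hb.trans (max_le_max le_rfl ?_)
      exact Nat.pow_le_pow_left ha.le L
    calc ∏ p ∈ Pr 0 b1, (1 / (p : ℝ)) ≤ ∏ p ∈ Pr a b, (1 / (p : ℝ)) := by
          have hsub : Pr a b ⊆ Pr 0 b1 := by
            intro p hp
            rw [Pr_mem] at hp ⊢
            exact ⟨⟨by omega, by omega⟩, hp.2⟩
          rw [← prod_sdiff hsub]
          have h2 : ∏ p ∈ Pr 0 b1 \ Pr a b, (1 / (p : ℝ)) ≤ 1 := by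
            refine prod_le_one (fun p _ => by positivity) fun p hp => ?_
            rw [mem_sdiff] at hp
            have : (1 : ℝ) ≤ p := by exact_mod_cast (Pr_prime hp.1).one_lt.le
            exact div_le_one_of_le₀ this (by positivity)
          calc _ ≤ 1 * ∏ p ∈ Pr a b, (1 / (p : ℝ)) :=
                mul_le_mul_of_nonneg_right h2 (prod_nonneg fun p _ => by positivity)
            _ = _ := one_mul _
      _ ≤ VV Z a b := by
          unfold VV
          refine prod_le_prod (fun p _ => by positivity) fun p hp => ?_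
          exact fac_low (Pr_prime hp) (hZ p hp).2.1

/-- the largest `J` with `2 ^ 2 ^ J ≤ x` -/
theorem exists_J {x : ℝ} (hx : 2 ≤ x) : ∃ J : ℕ, ((2 ^ 2 ^ J : ℕ) : ℝ) ≤ x ∧ x < ((2 ^ 2 ^ (J + 1) : ℕ) : ℝ) := by
  classical
  have h1 : ∃ n : ℕ, x < ((2 ^ 2 ^ n : ℕ) : ℝ) := by
    obtain ⟨n, hn⟩ := exists_nat_gt x
    refine ⟨n, hn.trans_le ?_⟩
    have h2 : n < 2 ^ n := Nat.lt_two_pow_self
    have h3 : 2 ^ n < 2 ^ 2 ^ n := Nat.lt_two_pow_self
    exact_mod_cast (h2.trans h3).le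
  have h2 := Nat.find_spec h1
  have h3 : Nat.find h1 ≠ 0 := by
    intro h
    rw [h] at h2
    norm_num at h2
    linarith
  obtain ⟨J, hJ⟩ := Nat.exists_eq_succ_of_ne_zero h3
  refine ⟨J, ?_, ?_⟩
  · have := Nat.find_min h1 (m := J) (by omega)
    push Not at this
    exact this
  · rw [hJ] at h2
    exact h2

set_option maxHeartbeats 4000000 in
/-- **the large sieve inequality at few points for sifted sets** -/
theorem lsf (r : ℕ) {κ : ℝ} (hκ : 0 < κ) : ∃ C : ℝ, 0 < C ∧ ∀ N : ℕ, 1 ≤ N → ∀ (A : ℕ) (Z : ℕ → Finset ℕ),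
    (∀ p : ℕ, p.Prime → (p : ℝ) ≤ (N : ℝ) ^ κ → (Z p).card ≤ r ∧ (Z p).card < p ∧ ∀ c ∈ Z p, c < p) →
    ∀ S : Finset ℕ, S ⊆ Ioc A (A + N) →
    (∀ n ∈ S, ∀ p : ℕ, p.Prime → (p : ℝ) ≤ (N : ℝ) ^ κ → n % p ∉ Z p) →
    ∀ (ι : Type) [DecidableEq ι] (I : Finset ι) (ξ : ι → ℝ) (K : ℕ), 1 ≤ K →
    (∀ i ∈ I, ∀ j ∈ I, i ≠ j → lsSep K (ξ j - ξ i)) → ∀ a : ℕ → ℂ,
    ∑ i ∈ I, ‖∑ n ∈ S, a n * ee (n * ξ i)‖ ^ 2 ≤
      C * ((N : ℝ) + K) * VV Z I.card ⌊(N : ℝ) ^ κ⌋₊ * ∑ n ∈ S, ‖a n‖ ^ 2 := by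
  classical
  obtain ⟨C, hC1, hTH⟩ := s_TH2 r
  have hCr : (1 : ℝ) ≤ C := by exact_mod_cast hC1
  obtain ⟨κ', hκ'⟩ : ∃ κ' : ℝ, κ' = min κ (1 / (16 * C)) := ⟨_, rfl⟩
  have hκ'0 : 0 < κ' := by rw [hκ']; exact lt_min hκ (by positivity)
  have hκ'1 : κ' ≤ κ := by rw [hκ']; exact min_le_left _ _
  have hκ'2 : κ' ≤ 1 / (16 * C) := by rw [hκ']; exact min_le_right _ _
  have hκ'3 : 4 * C * κ' ≤ 1 / 4 := by
    calc 4 * C * κ' ≤ 4 * C * (1 / (16 * C)) := mul_le_mul_of_nonneg_left hκ'2 (by positivity)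
      _ = 1 / 4 := by field_simp; norm_num
  have hκ'4 : κ' ≤ 1 / 4 := by nlinarith
  -- the starting block
  obtain ⟨C', hC'⟩ : ∃ C' : ℕ, C' = C + (C * r) ^ 2 + 2 * r + 3 := ⟨_, rfl⟩
  have hpp : ∀ n : ℕ, n < 2 ^ 2 ^ n := fun n =>
    (Nat.lt_two_pow_self (n := n)).trans (Nat.lt_two_pow_self (n := 2 ^ n))
  obtain ⟨L2, hL2⟩ := exists_nat_ge (4 * (κ / κ'))
  have hκκ : 0 < κ / κ' := by positivity
  obtain ⟨c1, hc1, hc11, hlow⟩ := low_const r (L2 + 4) ((2 ^ 2 ^ C') ^ (L2 + 4))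
  obtain ⟨cV, hcV, hVlow⟩ := Pool.Agent.Y843.HG.VV_low r
  -- log power against power
  obtain ⟨cL, hcL, hlog⟩ : ∃ cL : ℝ, 0 < cL ∧ ∀ N : ℕ, 1 ≤ N →
      Real.log N ^ (2 * r) ≤ cL * (N : ℝ) ^ (1 / 2 : ℝ) := by
    refine ⟨(4 * r + 1) ^ (2 * r), by positivity, fun N hN => ?_⟩
    have hN1 : (1 : ℝ) ≤ N := by exact_mod_cast hN
    have h1 : Real.log N ≤ (4 * r + 1) * (N : ℝ) ^ ((1 : ℝ) / (4 * r + 1)) := by
      have := Real.log_le_rpow_div (x := N) (by positivity) (ε := 1 / (4 * (r : ℝ) + 1)) (by positivity)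
      refine this.trans (le_of_eq ?_)
      field_simp
    calc Real.log N ^ (2 * r) ≤ ((4 * r + 1) * (N : ℝ) ^ ((1 : ℝ) / (4 * r + 1))) ^ (2 * r) :=
          pow_le_pow_left₀ (Real.log_nonneg hN1) h1 _
      _ = (4 * r + 1) ^ (2 * r) * (N : ℝ) ^ ((1 : ℝ) / (4 * r + 1) * (2 * r : ℕ)) := by
          rw [mul_pow, ← Real.rpow_mul_natCast (by positivity)]
      _ ≤ (4 * r + 1) ^ (2 * r) * (N : ℝ) ^ (1 / 2 : ℝ) := by
          apply mul_le_mul_of_nonneg_left _ (by positivity)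
          apply Real.rpow_le_rpow_of_exponent_le hN1
          push_cast
          rw [div_mul_eq_mul_div, one_mul, div_le_div_iff₀ (by positivity) (by norm_num)]
          have : (0 : ℝ) ≤ r := Nat.cast_nonneg r
          linarith
  refine ⟨6 / c1 + (6 * C + C + cL / cV) / (c1 * c1), by positivity, ?_⟩
  intro N hN A Z hZ S hSI hSZ ι _ I ξ K hK hsep a
  have hN1 : (1 : ℝ) ≤ N := by exact_mod_cast hN
  have hN0 : (0 : ℝ) < N := by linarith
  obtain ⟨Y, hY⟩ : ∃ Y : ℕ, Y = ⌊(N : ℝ) ^ κ⌋₊ := ⟨_, rfl⟩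
  rw [← hY]
  have hYN : (Y : ℝ) ≤ (N : ℝ) ^ κ := by rw [hY]; exact Nat.floor_le (by positivity)
  have hpY : ∀ p : ℕ, p ≤ Y → (p : ℝ) ≤ (N : ℝ) ^ κ := fun p hp =>
    le_trans (by exact_mod_cast hp) hYN
  have hZ' : ∀ a : ℕ, ∀ b ≤ Y, ∀ p ∈ Pr a b, (Z p).card ≤ r ∧ (Z p).card < p ∧ ∀ c ∈ Z p, c < p := by
    intro a b hb p hp
    rw [Pr_mem] at hp
    exact hZ p hp.2 (hpY p (by omega))
  obtain ⟨k, hk⟩ : ∃ k : ℕ, k = I.card := ⟨_, rfl⟩
  rw [← hk]
  set G : ℝ := ∑ n ∈ S, ‖a n‖ ^ 2 with hG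
  have hG0 : 0 ≤ G := sum_nonneg fun i _ => by positivity
  have hVV0 : 0 < VV Z k Y := VV_nonneg fun p hp => (hZ' _ _ le_rfl p hp).2.1
  have hNK : (0 : ℝ) < (N : ℝ) + K := by positivity
  rcases Nat.eq_zero_or_pos k with hk0 | hk0
  · have hI : I = ∅ := card_eq_zero.1 (hk ▸ hk0)
    rw [hI, sum_empty]
    positivity
  -- the trivial case
  have triv : c1 ≤ VV Z k Y → ∑ i ∈ I, ‖∑ n ∈ S, a n * ee (n * ξ i)‖ ^ 2 ≤
      (6 / c1 + (6 * C + C + cL / cV) / (c1 * c1)) * ((N : ℝ) + K) * VV Z k Y * G := by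
    intro hV
    have h1 : ∑ i ∈ I, ‖∑ n ∈ S, a n * ee (n * ξ i)‖ ^ 2 ≤ 6 * ((N : ℝ) + K) * G := by
      -- the ordinary large sieve
      have h2 := Pool.Agent.Helper112.ls_general I ξ K N hK hsep
        (fun m => if A + m ∈ S then a (A + m) else 0)
      have h3 : ∑ m ∈ Icc 1 N, ‖(if A + m ∈ S then a (A + m) else 0 : ℂ)‖ ^ 2 = G := by
        have h4 : ∀ m ∈ Icc 1 N, ‖(if A + m ∈ S then a (A + m) else 0 : ℂ)‖ ^ 2 =
            (fun n => if n ∈ S then ‖a n‖ ^ 2 else 0) (A + m) := by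
          intro m _
          simp only
          split_ifs <;> simp
        rw [sum_congr rfl h4, ← sum_image (g := fun m => A + m)
          (f := fun n => if n ∈ S then ‖a n‖ ^ 2 else 0) (fun _ _ _ _ h => by simpa using h)]
        have h5 : (Icc 1 N).image (fun m => A + m) = Ioc A (A + N) := by
          ext n
          rw [mem_Ioc, mem_image]
          constructor
          · rintro ⟨j, hj, rfl⟩
            rw [mem_Icc] at hj
            omega
          · intro h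
            exact ⟨n - A, mem_Icc.2 (by omega), by omega⟩
        rw [h5, ← sum_filter, filter_mem_eq_inter, inter_eq_right.2 hSI]
      rw [h3] at h2
      refine le_trans (le_of_eq ?_) h2
      refine sum_congr rfl fun i _ => ?_
      have h6 : ∑ n ∈ S, a n * ee (n * ξ i) = ee (A * ξ i) *
          ∑ m ∈ Icc 1 N, (if A + m ∈ S then a (A + m) else 0) * ee (m * ξ i) := by
        have h4 : ∀ m ∈ Icc 1 N, ee (A * ξ i) * ((if A + m ∈ S then a (A + m) else 0) * ee (m * ξ i)) =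
            (fun n : ℕ => if n ∈ S then a n * ee (n * ξ i) else 0) (A + m) := by
          intro m _
          simp only
          split_ifs
          · rw [show ((A + m : ℕ) : ℝ) * ξ i = A * ξ i + m * ξ i by push_cast; ring,
              Pool.Agent.Helper112.ls_ee_add]
            ring
          · simp
        rw [mul_sum, sum_congr rfl h4, ← sum_image (g := fun m => A + m)
          (f := fun n : ℕ => if n ∈ S then a n * ee (n * ξ i) else 0) (fun _ _ _ _ h => by simpa using h)]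
        have h5 : (Icc 1 N).image (fun m => A + m) = Ioc A (A + N) := by
          ext n
          rw [mem_Ioc, mem_image]
          constructor
          · rintro ⟨j, hj, rfl⟩
            rw [mem_Icc] at hj
            omega
          · intro h
            exact ⟨n - A, mem_Icc.2 (by omega), by omega⟩
        rw [h5, ← sum_filter, filter_mem_eq_inter, inter_eq_right.2 hSI]
      rw [h6, norm_mul, ls_norm_ee, one_mul]
    refine h1.trans ?_
    apply mul_le_mul_of_nonneg_right _ hG0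
    have h2 : (6 : ℝ) ≤ 6 / c1 * VV Z k Y := by
      rw [div_mul_eq_mul_div, le_div_iff₀ hc1]
      nlinarith
    have h3 : 0 ≤ (6 * C + C + cL / cV) / (c1 * c1) * VV Z k Y := by positivity
    calc 6 * ((N : ℝ) + K) ≤ (6 / c1 * VV Z k Y + (6 * C + C + cL / cV) / (c1 * c1) * VV Z k Y) *
          ((N : ℝ) + K) := mul_le_mul_of_nonneg_right (by linarith) hNK.le
      _ = _ := by ring
  -- the block of the points
  have hex : ∃ n : ℕ, C' ≤ n ∧ k ^ 2 ≤ 2 ^ 2 ^ n := ⟨C' + k ^ 2, by omega, by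
    have := hpp (C' + k ^ 2)
    omega⟩
  obtain ⟨J0, hJ0⟩ : ∃ J0 : ℕ, J0 = Nat.find hex := ⟨_, rfl⟩
  have hJ0s : C' ≤ J0 ∧ k ^ 2 ≤ 2 ^ 2 ^ J0 := by rw [hJ0]; exact Nat.find_spec hex
  have hzle : 2 ^ 2 ^ J0 ≤ max (2 ^ 2 ^ C') (k ^ 4) := by
    rcases eq_or_lt_of_le hJ0s.1 with h | h
    · rw [← h]; exact le_max_left _ _
    · have h1 := Nat.find_min hex (m := J0 - 1) (by omega)
      have h2 : ¬ k ^ 2 ≤ 2 ^ 2 ^ (J0 - 1) := fun h3 => h1 ⟨by omega, h3⟩
      refine le_trans ?_ (le_max_right _ _)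
      have h3 : (2 : ℕ) ^ 2 ^ J0 = (2 ^ 2 ^ (J0 - 1)) ^ 2 := by
        rw [← pow_mul, ← pow_succ]
        congr 2
        omega
      rw [h3, show k ^ 4 = (k ^ 2) ^ 2 by ring]
      exact Nat.pow_le_pow_left (by omega) 2
  -- from N ^ κ' to N ^ κ
  have hNκ : ∀ x : ℝ, 1 ≤ x → (N : ℝ) ^ κ' ≤ x → (N : ℝ) ^ κ ≤ x ^ (κ / κ') := by
    intro x _ hx
    have h1 : (N : ℝ) ^ κ = ((N : ℝ) ^ κ') ^ (κ / κ') := by
      rw [← Real.rpow_mul (by positivity)]
      congr 1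
      field_simp
    rw [h1]
    exact Real.rpow_le_rpow (by positivity) hx (by positivity)
  have hYle : ∀ m e : ℕ, 1 ≤ m → (N : ℝ) ^ κ' ≤ ((m ^ e : ℕ) : ℝ) → (e : ℝ) * (κ / κ') ≤ L2 + 4 →
      Y ≤ m ^ (L2 + 4) := by
    intro m e hm h he
    have hm1 : (1 : ℝ) ≤ m := by exact_mod_cast hm
    have h1 := hNκ _ (by push_cast; exact one_le_pow₀ hm1) h
    have h2 : (((m ^ e : ℕ) : ℝ)) ^ (κ / κ') ≤ (m : ℝ) ^ ((L2 : ℝ) + 4) := by
      push_cast
      rw [← Real.rpow_natCast_mul (by positivity)]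
      exact Real.rpow_le_rpow_of_exponent_le hm1 he
    have h3 : (Y : ℝ) ≤ ((m ^ (L2 + 4) : ℕ) : ℝ) := by
      refine hYN.trans (h1.trans (h2.trans (le_of_eq ?_)))
      push_cast
      rw [← Real.rpow_natCast]
      push_cast
      rfl
    exact_mod_cast h3
  have e1 : (1 : ℝ) * (κ / κ') ≤ L2 + 4 := by
    have : κ / κ' ≤ 4 * (κ / κ') := by linarith
    linarith
  have e2 : (2 : ℝ) * (κ / κ') ≤ L2 + 4 := by
    have : 2 * (κ / κ') ≤ 4 * (κ / κ') := by linarith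
    linarith
  have e4 : (4 : ℝ) * (κ / κ') ≤ L2 + 4 := by linarith
  rcases lt_or_ge ((N : ℝ) ^ κ') (((2 ^ 2 ^ J0 : ℕ)) : ℝ) with hcase | hcase
  · -- trivial
    apply triv
    apply hlow k Y Z (hZ' _ _ le_rfl)
    rcases le_total (2 ^ 2 ^ C') (k ^ 4) with h | h
    · rw [max_eq_right h] at hzle
      refine le_trans ?_ (le_max_right _ _)
      apply hYle k 4 hk0
      · exact hcase.le.trans (by exact_mod_cast hzle)
      · exact_mod_cast e4
    · rw [max_eq_left h] at hzle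
      refine le_trans ?_ (le_max_left _ _)
      apply hYle (2 ^ 2 ^ C') 1 (Nat.one_le_two_pow)
      · rw [pow_one]
        exact hcase.le.trans (by exact_mod_cast hzle)
      · rw [Nat.cast_one]
        exact e1
  · -- the main case
    have hx2 : (2 : ℝ) ≤ (N : ℝ) ^ κ' := by
      refine le_trans ?_ hcase
      have := hpp J0
      exact_mod_cast (by omega : 2 ≤ 2 ^ 2 ^ J0)
    obtain ⟨J, hJ1, hJ2⟩ := exists_J hx2
    have hJJ : J0 ≤ J := by
      by_contra h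
      push Not at h
      have h1 : (2 : ℕ) ^ 2 ^ (J + 1) ≤ 2 ^ 2 ^ J0 :=
        Nat.pow_le_pow_right (by norm_num) (Nat.pow_le_pow_right (by norm_num) h)
      have h2 : (((2 ^ 2 ^ (J + 1) : ℕ)) : ℝ) ≤ ((2 ^ 2 ^ J0 : ℕ) : ℝ) := by exact_mod_cast h1
      linarith
    obtain ⟨z, hz⟩ : ∃ z : ℕ, z = 2 ^ 2 ^ J0 := ⟨_, rfl⟩
    obtain ⟨R, hR⟩ : ∃ R : ℕ, R = 2 ^ 2 ^ J := ⟨_, rfl⟩
    rw [← hR] at hJ1
    rw [← hz] at hzle hcase
    have hzR : z ≤ R := by
      rw [hz, hR]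
      exact Nat.pow_le_pow_right (by norm_num) (Nat.pow_le_pow_right (by norm_num) hJJ)
    have hR1 : 1 ≤ R := by rw [hR]; exact Nat.one_le_two_pow
    have hz1 : 1 ≤ z := by rw [hz]; exact Nat.one_le_two_pow
    have hzC : C' ≤ z := by
      have := hpp J0
      omega
    have hkz : k ^ 2 ≤ z := by rw [hz]; exact hJ0s.2
    have hkz' : k ≤ z := by nlinarith
    have hNκκ : (N : ℝ) ^ κ' ≤ (N : ℝ) ^ κ := Real.rpow_le_rpow_of_exponent_le hN1 hκ'1
    have hRY : R ≤ Y := by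
      rw [hY]
      exact Nat.le_floor (hJ1.trans hNκκ)
    have hSv : Sv r z R Z := fun p hp => ⟨(hZ' _ _ hRY p hp).1, (hZ' _ _ hRY p hp).2.2⟩
    obtain ⟨θ, hW, hsup⟩ := hTH J0 J (by omega) hJJ Z (by rw [← hz, ← hR]; exact hSv)
    rw [← hz, ← hR] at hW hsup
    have hV0 : 0 < VV Z z R := VV_nonneg fun p hp => (hZ' _ _ hRY p hp).2.1
    have hmain := core hW hSv hsup hV0.le hR1 hz1 (by omega) I ξ K hK hsep A N S hSI
      (fun n hn p hp => by
        rw [Pr_mem] at hp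
        exact hSZ n hn p hp.2 (hpY p (by omega))) a
    refine hmain.trans ?_
    apply mul_le_mul_of_nonneg_right _ hG0
    rw [← hk]
    -- the three terms
    have hqq : qq Z z R θ ≤ C * VV Z z R := hW.hi
    have hks : (k : ℝ) ≤ Real.sqrt z := by
      apply Real.le_sqrt_of_sq_le
      exact_mod_cast hkz
    have hs0 : 0 < Real.sqrt z := by
      have : (0 : ℝ) < k := by exact_mod_cast hk0
      linarith
    have t1 : 6 * ((N : ℝ) + K) * qq Z z R θ ≤ 6 * C * (((N : ℝ) + K) * VV Z z R) := by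
      calc 6 * ((N : ℝ) + K) * qq Z z R θ ≤ 6 * ((N : ℝ) + K) * (C * VV Z z R) :=
            mul_le_mul_of_nonneg_left hqq (by positivity)
        _ = _ := by ring
    have t2 : (k : ℝ) * (C * VV Z z R * (N / Real.sqrt z)) ≤ C * (((N : ℝ) + K) * VV Z z R) := by
      calc (k : ℝ) * (C * VV Z z R * (N / Real.sqrt z)) = C * VV Z z R * N * (k / Real.sqrt z) := by ring
        _ ≤ C * VV Z z R * N * 1 := by
            apply mul_le_mul_of_nonneg_left _ (by positivity)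
            rw [div_le_one hs0]
            exact hks
        _ ≤ C * (((N : ℝ) + K) * VV Z z R) := by
            have : 0 ≤ C * VV Z z R * K := by positivity
            nlinarith
    have t3 : (k : ℝ) * ((R ^ C : ℕ) : ℝ) ^ 4 ≤ cL / cV * (((N : ℝ) + K) * VV Z z R) := by
      have h1 : (k : ℝ) ≤ (N : ℝ) ^ (1 / 4 : ℝ) := by
        have h2 : (k : ℝ) ≤ R := by exact_mod_cast hkz'.trans hzR
        exact h2.trans (hJ1.trans (Real.rpow_le_rpow_of_exponent_le hN1 hκ'4))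
      have h2 : ((R ^ C : ℕ) : ℝ) ^ 4 ≤ (N : ℝ) ^ (1 / 4 : ℝ) := by
        calc ((R ^ C : ℕ) : ℝ) ^ 4 = (R : ℝ) ^ (C * 4) := by push_cast; rw [← pow_mul]
          _ ≤ ((N : ℝ) ^ κ') ^ (C * 4) := pow_le_pow_left₀ (Nat.cast_nonneg R) hJ1 _
          _ = (N : ℝ) ^ (κ' * (C * 4 : ℕ)) := by rw [← Real.rpow_mul_natCast (by positivity)]
          _ ≤ _ := by
              apply Real.rpow_le_rpow_of_exponent_le hN1
              push_cast
              linarith
      have h3 : (k : ℝ) * ((R ^ C : ℕ) : ℝ) ^ 4 ≤ (N : ℝ) ^ (1 / 2 : ℝ) := by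
        calc (k : ℝ) * ((R ^ C : ℕ) : ℝ) ^ 4 ≤ (N : ℝ) ^ (1 / 4 : ℝ) * (N : ℝ) ^ (1 / 4 : ℝ) :=
              mul_le_mul h1 h2 (by positivity) (by positivity)
          _ = _ := by rw [← Real.rpow_add hN0]; norm_num
      have h4 : cV / Real.log R ^ (2 * r) ≤ VV Z z R := by
        have h5 := hVlow R (by omega) Z (hZ' _ _ hRY)
        rw [← VV_split Z (Nat.zero_le z) hzR] at h5
        have h6 : VV Z 0 z ≤ 1 := VV_le_one fun p hp => (hZ' 0 z (hzR.trans hRY) p hp).2.1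
        calc cV / Real.log R ^ (2 * r) ≤ VV Z 0 z * VV Z z R := h5
          _ ≤ 1 * VV Z z R := mul_le_mul_of_nonneg_right h6 hV0.le
          _ = _ := one_mul _
      have hR2 : (2 : ℝ) ≤ R := by exact_mod_cast (by omega : 2 ≤ R)
      have hlR : 0 < Real.log R := Real.log_pos (by linarith)
      have hRN : (R : ℝ) ≤ N := by
        refine hJ1.trans ?_
        calc (N : ℝ) ^ κ' ≤ (N : ℝ) ^ (1 : ℝ) :=
              Real.rpow_le_rpow_of_exponent_le hN1 (by linarith)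
          _ = N := Real.rpow_one _
      have h5 : Real.log R ^ (2 * r) ≤ cL * (N : ℝ) ^ (1 / 2 : ℝ) := by
        refine le_trans ?_ (hlog N hN)
        exact pow_le_pow_left₀ hlR.le (Real.log_le_log (by linarith) hRN) _
      have h6 : cV ≤ VV Z z R * (cL * (N : ℝ) ^ (1 / 2 : ℝ)) := by
        rw [div_le_iff₀ (by positivity)] at h4
        exact h4.trans (mul_le_mul_of_nonneg_left h5 hV0.le)
      have h7 : (N : ℝ) ^ (1 / 2 : ℝ) * (N : ℝ) ^ (1 / 2 : ℝ) = N := by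
        rw [← Real.rpow_add hN0]
        norm_num
      have h8 : (N : ℝ) ^ (1 / 2 : ℝ) ≤ cL / cV * (N * VV Z z R) := by
        rw [div_mul_eq_mul_div, le_div_iff₀ hcV]
        calc (N : ℝ) ^ (1 / 2 : ℝ) * cV ≤
              (N : ℝ) ^ (1 / 2 : ℝ) * (VV Z z R * (cL * (N : ℝ) ^ (1 / 2 : ℝ))) :=
              mul_le_mul_of_nonneg_left h6 (by positivity)
          _ = cL * (((N : ℝ) ^ (1 / 2 : ℝ) * (N : ℝ) ^ (1 / 2 : ℝ)) * VV Z z R) := by ring
          _ = _ := by rw [h7]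
      refine h3.trans (h8.trans ?_)
      apply mul_le_mul_of_nonneg_left _ (by positivity)
      apply mul_le_mul_of_nonneg_right _ hV0.le
      linarith [Nat.cast_nonneg (α := ℝ) K]
    -- comparison of the products
    have hcmp : c1 * c1 * VV Z z R ≤ VV Z k Y := by
      rw [← VV_split Z hkz' (hzR.trans hRY), ← VV_split Z hzR hRY]
      have h1 : c1 ≤ VV Z k z := by
        apply hlow k z Z (hZ' _ _ (hzR.trans hRY))
        refine hzle.trans (max_le_max ?_ ?_)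
        · exact Nat.le_self_pow (by omega) _
        · exact Nat.pow_le_pow_right hk0 (by omega)
      have h2 : c1 ≤ VV Z R Y := by
        apply hlow R Y Z (hZ' _ _ le_rfl)
        refine le_trans ?_ (le_max_right _ _)
        apply hYle R 2 hR1
        · refine hJ2.le.trans (le_of_eq ?_)
          rw [hR, ← pow_mul, ← pow_succ]
        · exact_mod_cast e2
      calc c1 * c1 * VV Z z R = c1 * (VV Z z R * c1) := by ring
        _ ≤ VV Z k z * (VV Z z R * VV Z R Y) := by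
            apply mul_le_mul h1 (mul_le_mul_of_nonneg_left h2 hV0.le) (by positivity)
            linarith
    have hcmp' : VV Z z R ≤ VV Z k Y / (c1 * c1) := by
      rw [le_div_iff₀ (by positivity)]
      linarith
    calc 6 * ((N : ℝ) + K) * qq Z z R θ + (k : ℝ) *
          (C * VV Z z R * (N / Real.sqrt z) + ((R ^ C : ℕ) : ℝ) ^ 4)
        ≤ (6 * C + C + cL / cV) * (((N : ℝ) + K) * VV Z z R) := by
          rw [mul_add]
          linarith
      _ ≤ (6 * C + C + cL / cV) * (((N : ℝ) + K) * (VV Z k Y / (c1 * c1))) := by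
          apply mul_le_mul_of_nonneg_left _ (by positivity)
          exact mul_le_mul_of_nonneg_left hcmp' hNK.le
      _ = (6 * C + C + cL / cV) / (c1 * c1) * (((N : ℝ) + K) * VV Z k Y) := by ring
      _ ≤ _ := by
          have : 0 ≤ 6 / c1 * (((N : ℝ) + K) * VV Z k Y) := by positivity
          linarith

end Pool.Agent.K7.H64.LS
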