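import Pool.Agent.K7.H64.LS.Lp

/-!
The restriction theorem for sifted sets.
-/

set_option autoImplicit false

open Finset

namespace Pool.Agent.K7.H64.LS

open Pool.Agent.Y843.HS
open Pool.Agent.Helper112 (ee ls_norm_ee lsSep)

/-- the points `t + j / N` are spaced -/
theorem sep_grid {N : ℕ} (t : ℝ) {i j : ℕ} (hi : i < N) (hj : j < N) (hij : i ≠ j) :
    lsSep N ((t + (j : ℝ) / N) - (t + (i : ℝ) / N)) := by
  have hN0 : (0 : ℝ) < N := by exact_mod_cast (by omega : 0 < N)
  unfold lsSep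
  have e : (t + (j : ℝ) / N) - (t + (i : ℝ) / N) = ((j : ℝ) - i) / N := by ring
  rw [e]
  rcases lt_or_gt_of_ne hij with h | h
  · have h1 : Int.fract (((j : ℝ) - i) / N) = ((j : ℝ) - i) / N := by
      rw [Int.fract_eq_self]
      have h2 : (i : ℝ) < j := by exact_mod_cast h
      have h3 : (j : ℝ) < N := by exact_mod_cast hj
      constructor
      · apply div_nonneg _ hN0.le
        linarith
      · rw [div_lt_one hN0]
        have : (0 : ℝ) ≤ i := Nat.cast_nonneg i
        linarith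
    rw [h1]
    have h2 : (i : ℝ) + 1 ≤ j := by exact_mod_cast h
    have h3 : (j : ℝ) + 1 ≤ N := by exact_mod_cast hj
    have h4 : (0 : ℝ) ≤ i := Nat.cast_nonneg i
    constructor
    · exact div_le_div_of_nonneg_right (by linarith) hN0.le
    · rw [one_sub_div hN0.ne']
      exact div_le_div_of_nonneg_right (by linarith) hN0.le
  · have h1 : Int.fract (((j : ℝ) - i) / N) = ((N : ℝ) + j - i) / N := by
      rw [Int.fract_eq_iff]
      have h2 : (j : ℝ) < i := by exact_mod_cast h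
      have h3 : (i : ℝ) < N := by exact_mod_cast hi
      have h4 : (0 : ℝ) ≤ j := Nat.cast_nonneg j
      refine ⟨?_, ?_, -1, ?_⟩
      · apply div_nonneg _ hN0.le
        linarith
      · rw [div_lt_one hN0]
        linarith
      · push_cast
        field_simp
        ring
    rw [h1]
    have h2 : (j : ℝ) + 1 ≤ i := by exact_mod_cast h
    have h3 : (i : ℝ) + 1 ≤ N := by exact_mod_cast hi
    have h4 : (0 : ℝ) ≤ j := Nat.cast_nonneg j
    constructor
    · exact div_le_div_of_nonneg_right (by linarith) hN0.le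
    · rw [one_sub_div hN0.ne']
      exact div_le_div_of_nonneg_right (by linarith) hN0.le

/-- from the grid to the integral -/
theorem grid_integral {N : ℕ} (hN : 1 ≤ N) (g : ℝ → ℝ) (hg : Continuous g) (B : ℝ)
    (h : ∀ t : ℝ, ∑ j ∈ range N, g (t + (j : ℝ) / N) ≤ B) : ∫ α in (0 : ℝ)..1, g α ≤ B / N := by
  have hN0 : (0 : ℝ) < N := by exact_mod_cast hN
  have h1 := intervalIntegral.sum_integral_adjacent_intervals (f := g) (μ := MeasureTheory.volume)
    (a := fun k : ℕ => (k : ℝ) / N) (n := N) (fun k _ => hg.intervalIntegrable _ _)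
  simp only [Nat.cast_zero, zero_div] at h1
  rw [div_self hN0.ne'] at h1
  rw [← h1]
  have h2 : ∀ k ∈ range N, ∫ x in ((k : ℝ) / N)..(((k + 1 : ℕ) : ℝ) / N), g x =
      ∫ t in (0 : ℝ)..(1 / N), g (t + (k : ℝ) / N) := by
    intro k _
    rw [intervalIntegral.integral_comp_add_right]
    congr 1
    · ring
    · push_cast
      ring
  rw [sum_congr rfl h2, ← intervalIntegral.integral_finsetSum]
  · calc ∫ t in (0 : ℝ)..(1 / N), ∑ k ∈ range N, g (t + (k : ℝ) / N)
        ≤ ∫ _t in (0 : ℝ)..(1 / N), B := by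
          apply intervalIntegral.integral_mono_on (by positivity)
          · exact (continuous_finsetSum _ fun k _ => hg.comp (by fun_prop)).intervalIntegrable _ _
          · exact intervalIntegrable_const
          · intro t _
            exact h t
      _ = B / N := by
          rw [intervalIntegral.integral_const, smul_eq_mul]
          ring
  · intro k _
    exact (hg.comp (by fun_prop)).intervalIntegrable _ _

theorem ee_cont : Continuous ee := by
  unfold ee
  fun_prop

/-- **the restriction theorem for sifted sets** -/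
theorem restr (r : ℕ) {κ : ℝ} (hκ : 0 < κ) {p : ℝ} (hp : 2 < p) : ∃ C : ℝ, 0 < C ∧ ∀ N : ℕ, 1 ≤ N →
    ∀ (A : ℕ) (Z : ℕ → Finset ℕ),
    (∀ q : ℕ, q.Prime → (q : ℝ) ≤ (N : ℝ) ^ κ → (Z q).card ≤ r ∧ (Z q).card < q ∧ ∀ c ∈ Z q, c < q) →
    ∀ S : Finset ℕ, S ⊆ Ioc A (A + N) →
    (∀ n ∈ S, ∀ q : ℕ, q.Prime → (q : ℝ) ≤ (N : ℝ) ^ κ → n % q ∉ Z q) → ∀ a : ℕ → ℂ,
    ∫ α in (0 : ℝ)..1, ‖∑ n ∈ S, a n * ee (n * α)‖ ^ p ≤
      C * ((N : ℝ) ^ (p / 2 - 1) * VV Z 0 ⌊(N : ℝ) ^ κ⌋₊ ^ (p / 2) * (∑ n ∈ S, ‖a n‖ ^ 2) ^ (p / 2)) := by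
  classical
  obtain ⟨C, hC, h⟩ := lsp r hκ (s := p / 2) (by linarith)
  refine ⟨C * 2 ^ (p / 2), by positivity, ?_⟩
  intro N hN A Z hZ S hSI hSZ a
  have hN0 : (0 : ℝ) < N := by exact_mod_cast hN
  set V : ℝ := VV Z 0 ⌊(N : ℝ) ^ κ⌋₊ with hV
  have hV0 : 0 < V := VV_nonneg fun q hq => by
    rw [Pr_mem] at hq
    refine (hZ q hq.2 (le_trans ?_ (Nat.floor_le (by positivity)))).2.1
    exact_mod_cast hq.1.2
  set G : ℝ := ∑ n ∈ S, ‖a n‖ ^ 2 with hG
  have hG0 : 0 ≤ G := sum_nonneg fun i _ => by positivity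
  have hcont : Continuous (fun α : ℝ => ‖∑ n ∈ S, a n * ee (n * α)‖ ^ p) := by
    have h1 : Continuous (fun α : ℝ => ‖∑ n ∈ S, a n * ee (n * α)‖) := by
      refine Continuous.norm ?_
      exact continuous_finsetSum _ fun n _ => continuous_const.mul (ee_cont.comp (by fun_prop))
    exact h1.rpow_const fun _ => Or.inr (by linarith)
  have key := grid_integral hN _ hcont (C * (((N : ℝ) + N) * V * G) ^ (p / 2)) (fun t => by
    have h1 := h N hN A Z hZ S hSI hSZ ℕ (range N) (fun j => t + (j : ℝ) / N) N hN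
      (fun i hi j hj hij => sep_grid t (mem_range.1 hi) (mem_range.1 hj) hij) a
    refine le_trans (le_of_eq ?_) h1
    refine sum_congr rfl fun j _ => ?_
    rw [← Real.rpow_natCast_mul (norm_nonneg _)]
    congr 1
    push_cast
    ring)
  refine key.trans (le_of_eq ?_)
  have h2 : ((N : ℝ) + N) * V * G = 2 * (N * (V * G)) := by ring
  rw [h2, Real.mul_rpow (by norm_num) (by positivity), Real.mul_rpow hN0.le (by positivity),
    Real.mul_rpow hV0.le hG0, Real.rpow_sub hN0, Real.rpow_one]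
  ring

end Pool.Agent.K7.H64.LS
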