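import Pool.Agent.K7.H64.LS.Sums
import Pool.Agent.W123.RU.PolyV

/-!
Systems of irreducible polynomials: the sieve products and the exceptional arguments.
-/

set_option autoImplicit false

open Finset Polynomial

namespace Pool.Agent.K7.H64.LS

open Pool.Agent.Y843.HS
open Pool.Agent.W123.RU.Poly (Sys V_bounds exists_c)
open Pool.Agent.H373R2.T7 (nuB PerB pz mem_pz)
open Pool.Agent.W123.RP (Vq)

variable {ι : Type} [Fintype ι]

open Classical in
/-- the classes modulo `q` at which some polynomial of the system vanishes -/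
noncomputable def ZS (f : ι → ℤ[X]) (q : ℕ) : Finset ℕ :=
  (range q).filter (fun c => Pool.Agent.W123.RU.Poly.Q f q c)

theorem ZS_card (f : ι → ℤ[X]) (q : ℕ) : (ZS f q).card = nuB (Pool.Agent.W123.RU.Poly.Q f) q := by
  unfold ZS nuB
  congr

theorem ZS_lt (f : ι → ℤ[X]) (q : ℕ) : ∀ c ∈ ZS f q, c < q := fun c hc => by
  classical
  exact mem_range.1 (mem_filter.1 hc).1

theorem ZS_mem (f : ι → ℤ[X]) {q : ℕ} (hq : 0 < q) (n : ℕ) :
    n % q ∈ ZS f q ↔ ∃ i, (q : ℤ) ∣ (f i).eval (n : ℤ) := by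
  classical
  unfold ZS
  rw [mem_filter, mem_range]
  have h := Pool.Agent.W123.RU.Poly.per f q n
  constructor
  · intro h1
    exact h.2 h1.2
  · intro h1
    exact ⟨Nat.mod_lt _ hq, h.1 h1⟩

theorem ZS_ok (f : ι → ℤ[X]) (hf : Sys f) : ∃ r : ℕ, ∀ q : ℕ, q.Prime →
    (ZS f q).card ≤ r ∧ (ZS f q).card < q ∧ ∀ c ∈ ZS f q, c < q := by
  obtain ⟨c, _, hc⟩ := exists_c f hf
  refine ⟨c, fun q hq => ⟨?_, ?_, ZS_lt f q⟩⟩
  · rw [ZS_card]
    exact hc.few q hq
  · rw [ZS_card]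
    exact Pool.Agent.W123.RU.Poly.adm f hf q hq

theorem VV_ZS (f : ι → ℤ[X]) (y : ℕ) : VV (ZS f) 0 y = Vq (Pool.Agent.W123.RU.Poly.Q f) y := by
  unfold VV Vq
  have h : Pr 0 y = pz y := by
    ext p
    rw [Pr_mem, mem_pz]
    constructor
    · rintro ⟨⟨h1, h2⟩, h3⟩
      exact ⟨by omega, h3⟩
    · rintro ⟨h1, h3⟩
      exact ⟨⟨h3.pos, by omega⟩, h3⟩
  rw [h]
  refine prod_congr rfl fun p _ => ?_
  rw [ZS_card]

/-- the sieve products of a system -/
theorem W_bounds (f : ι → ℤ[X]) (hf : Sys f) {κ : ℝ} (hκ : 0 < κ) : ∃ C : ℝ, 0 < C ∧ ∀ N : ℕ, 2 ≤ N →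
    VV (ZS f) 0 ⌊(N : ℝ) ^ κ⌋₊ * Real.log N ^ Fintype.card ι ≤ C ∧
    1 ≤ C * (VV (ZS f) 0 ⌊(N : ℝ) ^ κ⌋₊ * Real.log N ^ Fintype.card ι) ∧
    ∀ k : ℕ, 1 ≤ k → VV (ZS f) k ⌊(N : ℝ) ^ κ⌋₊ * Real.log N ^ Fintype.card ι ≤
      C * Real.log (2 * k) ^ Fintype.card ι := by
  obtain ⟨r, hr⟩ := ZS_ok f hf
  obtain ⟨v, Cv, hv, hCv, hV⟩ := V_bounds f hf
  set g := Fintype.card ι with hg
  have hlog2 : 0 < Real.log 2 := Real.log_pos (by norm_num)
  have hlog3 : Real.log 3 ≤ 2 * Real.log 2 := by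
    rw [show (2 : ℝ) * Real.log 2 = Real.log (2 ^ 2) by rw [Real.log_pow]; norm_num]
    exact Real.log_le_log (by norm_num) (by norm_num)
  -- large `N`
  obtain ⟨N1, hN1⟩ : ∃ N1 : ℕ, ∀ N : ℕ, N1 ≤ N → (9 : ℝ) ≤ (N : ℝ) ^ κ := by
    obtain ⟨N1, hN1⟩ := exists_nat_ge ((9 : ℝ) ^ (1 / κ))
    refine ⟨N1, fun N hN => ?_⟩
    have h1 : (9 : ℝ) ^ (1 / κ) ≤ N := hN1.trans (by exact_mod_cast hN)
    calc (9 : ℝ) = ((9 : ℝ) ^ (1 / κ)) ^ κ := by
          rw [← Real.rpow_mul (by norm_num), one_div_mul_cancel hκ.ne', Real.rpow_one]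
      _ ≤ _ := Real.rpow_le_rpow (by positivity) h1 hκ.le
  obtain ⟨c1, hc1, hc11, hlow⟩ := low_const r 0 ⌊((N1 + 2 : ℕ) : ℝ) ^ κ⌋₊
  have hlN1 : 0 < Real.log (N1 + 2 : ℕ) := Real.log_pos (by push_cast; have : (0 : ℝ) ≤ N1 := Nat.cast_nonneg _; linarith)
  have hVV0 : ∀ a b : ℕ, 0 < VV (ZS f) a b := fun a b => VV_nonneg fun p hp => (hr p (Pr_prime hp)).2.1
  have hVV1 : ∀ a b : ℕ, VV (ZS f) a b ≤ 1 := fun a b => VV_le_one fun p hp => (hr p (Pr_prime hp)).2.1
  -- lower bound for the products up to `k`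
  have hk2 : ∀ k : ℕ, 1 ≤ k → v / (2 * Real.log (2 * k)) ^ g ≤ VV (ZS f) 0 k := by
    intro k hk
    have hk1 : (1 : ℝ) ≤ k := by exact_mod_cast hk
    have hl2k : Real.log 2 ≤ Real.log (2 * k) := Real.log_le_log (by norm_num) (by linarith)
    rcases le_or_gt 3 k with h | h
    · have h1 := (hV k h).1
      rw [← VV_ZS] at h1
      refine le_trans ?_ h1
      have h3 : (3 : ℝ) ≤ k := by exact_mod_cast h
      have h4 : 0 < Real.log k := Real.log_pos (by linarith)
      apply div_le_div_of_nonneg_left hv.le (by positivity)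
      apply pow_le_pow_left₀ h4.le
      have h5 : Real.log k ≤ Real.log (2 * k) := Real.log_le_log (by linarith) (by linarith)
      linarith
    · have h1 := (hV 3 le_rfl).1
      rw [← VV_ZS, ← VV_split (ZS f) (Nat.zero_le k) h.le] at h1
      have h2 : VV (ZS f) 0 k * VV (ZS f) k 3 ≤ VV (ZS f) 0 k * 1 :=
        mul_le_mul_of_nonneg_left (hVV1 k 3) (hVV0 0 k).le
      have h3 : v / (2 * Real.log (2 * k)) ^ g ≤ v / Real.log (3 : ℕ) ^ g := by
        have h4 : 0 < Real.log (3 : ℕ) := Real.log_pos (by norm_num)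
        apply div_le_div_of_nonneg_left hv.le (by positivity)
        apply pow_le_pow_left₀ h4.le
        push_cast
        linarith
      linarith
  refine ⟨Cv * (2 / κ) ^ g + Real.log (N1 + 2 : ℕ) ^ g + κ ^ g / v + 1 / (c1 * Real.log 2 ^ g) +
    (2 / κ) ^ g + Cv * (2 / κ) ^ g * 2 ^ g / v + Real.log (N1 + 2 : ℕ) ^ g / Real.log 2 ^ g,
    by positivity, ?_⟩
  intro N hN
  set Y := ⌊(N : ℝ) ^ κ⌋₊ with hY
  have hN2 : (2 : ℝ) ≤ N := by exact_mod_cast hN
  have hlN : 0 < Real.log N := Real.log_pos (by linarith)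
  have p1 : 0 ≤ Cv * (2 / κ) ^ g := by positivity
  have p2 : 0 ≤ Real.log (N1 + 2 : ℕ) ^ g := by positivity
  have p3 : 0 ≤ κ ^ g / v := by positivity
  have p4 : 0 ≤ 1 / (c1 * Real.log 2 ^ g) := by positivity
  have p5 : 0 ≤ (2 / κ) ^ g := by positivity
  have p6 : 0 ≤ Cv * (2 / κ) ^ g * 2 ^ g / v := by positivity
  have p7 : 0 ≤ Real.log (N1 + 2 : ℕ) ^ g / Real.log 2 ^ g := by positivity
  rcases le_or_gt N1 N with hbig | hsmall
  · have h9 := hN1 N hbig
    have hYle : (Y : ℝ) ≤ (N : ℝ) ^ κ := Nat.floor_le (by positivity)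
    have hYge : (N : ℝ) ^ κ < Y + 1 := Nat.lt_floor_add_one _
    have hY3 : 3 ≤ Y := by
      have : (3 : ℝ) ≤ (N : ℝ) ^ κ := by linarith
      exact Nat.le_floor (by exact_mod_cast this)
    have hYr : (3 : ℝ) ≤ Y := by exact_mod_cast hY3
    have hlY0 : 0 < Real.log Y := Real.log_pos (by linarith)
    have hlY1 : Real.log Y ≤ κ * Real.log N := by
      rw [← Real.log_rpow (by linarith)]
      exact Real.log_le_log (by linarith) hYle
    have hlY2 : κ / 2 * Real.log N ≤ Real.log Y := by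
      have h1 : (N : ℝ) ^ (κ / 2) ≤ Y := by
        have h2 : (N : ℝ) ^ (κ / 2) * (N : ℝ) ^ (κ / 2) = (N : ℝ) ^ κ := by
          rw [← Real.rpow_add (by linarith)]
          congr 1
          ring
        have h3 : 0 ≤ (N : ℝ) ^ (κ / 2) := by positivity
        have h4 : (3 : ℝ) ≤ (N : ℝ) ^ (κ / 2) := by nlinarith
        nlinarith
      rw [← Real.log_rpow (by linarith)]
      exact Real.log_le_log (by positivity) h1
    have hlNY : Real.log N ≤ 2 / κ * Real.log Y := by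
      rw [div_mul_eq_mul_div, le_div_iff₀ hκ]
      linarith
    obtain ⟨hV1, hV2⟩ := hV Y hY3
    rw [← VV_ZS] at hV1 hV2
    have hlNYg : Real.log N ^ g ≤ (2 / κ) ^ g * Real.log Y ^ g := by
      rw [← mul_pow]
      exact pow_le_pow_left₀ hlN.le hlNY g
    have ha : VV (ZS f) 0 Y * Real.log N ^ g ≤ Cv * (2 / κ) ^ g := by
      rw [le_div_iff₀ (by positivity)] at hV2
      calc VV (ZS f) 0 Y * Real.log N ^ g ≤ VV (ZS f) 0 Y * ((2 / κ) ^ g * Real.log Y ^ g) :=
            mul_le_mul_of_nonneg_left hlNYg (hVV0 0 Y).le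
        _ = (VV (ZS f) 0 Y * Real.log Y ^ g) * (2 / κ) ^ g := by ring
        _ ≤ Cv * (2 / κ) ^ g := mul_le_mul_of_nonneg_right hV2 (by positivity)
    refine ⟨by linarith, ?_, ?_⟩
    · have h1 : v / (κ * Real.log N) ^ g ≤ VV (ZS f) 0 Y := by
        refine le_trans ?_ hV1
        apply div_le_div_of_nonneg_left hv.le (by positivity)
        exact pow_le_pow_left₀ hlY0.le hlY1 g
      rw [div_le_iff₀ (by positivity), mul_pow] at h1
      have h2 : 1 ≤ κ ^ g / v * (VV (ZS f) 0 Y * Real.log N ^ g) := by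
        rw [div_mul_eq_mul_div, le_div_iff₀ hv]
        linarith
      have h3 : 0 ≤ VV (ZS f) 0 Y * Real.log N ^ g := mul_nonneg (hVV0 0 Y).le (by positivity)
      have h4 : κ ^ g / v * (VV (ZS f) 0 Y * Real.log N ^ g) ≤
          (Cv * (2 / κ) ^ g + Real.log (N1 + 2 : ℕ) ^ g + κ ^ g / v + 1 / (c1 * Real.log 2 ^ g) +
          (2 / κ) ^ g + Cv * (2 / κ) ^ g * 2 ^ g / v + Real.log (N1 + 2 : ℕ) ^ g / Real.log 2 ^ g) *
          (VV (ZS f) 0 Y * Real.log N ^ g) := mul_le_mul_of_nonneg_right (by linarith) h3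
      linarith
    · intro k hk
      have hk1 : (1 : ℝ) ≤ k := by exact_mod_cast hk
      have hl2k : 0 < Real.log (2 * k) := Real.log_pos (by linarith)
      have hl2kg : 0 < Real.log (2 * k) ^ g := by positivity
      have goal1 : VV (ZS f) k Y * Real.log N ^ g ≤
          ((2 / κ) ^ g + Cv * (2 / κ) ^ g * 2 ^ g / v) * Real.log (2 * k) ^ g := by
        rcases le_or_gt Y k with h | h
        · have h1 : Real.log Y ≤ Real.log (2 * k) := by
            apply Real.log_le_log (by linarith)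
            have : (Y : ℝ) ≤ k := by exact_mod_cast h
            linarith
          have h2 : Real.log N ^ g ≤ (2 / κ) ^ g * Real.log (2 * k) ^ g := by
            refine hlNYg.trans ?_
            apply mul_le_mul_of_nonneg_left _ (by positivity)
            exact pow_le_pow_left₀ hlY0.le h1 g
          have h3 : VV (ZS f) k Y * Real.log N ^ g ≤ 1 * Real.log N ^ g :=
            mul_le_mul_of_nonneg_right (hVV1 k Y) (by positivity)
          have h4 : 0 ≤ Cv * (2 / κ) ^ g * 2 ^ g / v * Real.log (2 * k) ^ g := by positivity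
          linarith
        · have h1 := hk2 k hk
          have h2 := VV_split (ZS f) (Nat.zero_le k) h.le
          rw [div_le_iff₀ (by positivity)] at h1
          have h3 : v * VV (ZS f) k Y ≤ (VV (ZS f) 0 Y) * (2 * Real.log (2 * k)) ^ g := by
            calc v * VV (ZS f) k Y ≤ (VV (ZS f) 0 k * (2 * Real.log (2 * k)) ^ g) * VV (ZS f) k Y :=
                  mul_le_mul_of_nonneg_right h1 (hVV0 k Y).le
              _ = (VV (ZS f) 0 k * VV (ZS f) k Y) * (2 * Real.log (2 * k)) ^ g := by ring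
              _ = _ := by rw [h2]
          have h4 : v * (VV (ZS f) k Y * Real.log N ^ g) ≤
              (Cv * (2 / κ) ^ g) * (2 * Real.log (2 * k)) ^ g := by
            calc v * (VV (ZS f) k Y * Real.log N ^ g) = (v * VV (ZS f) k Y) * Real.log N ^ g := by ring
              _ ≤ ((VV (ZS f) 0 Y) * (2 * Real.log (2 * k)) ^ g) * Real.log N ^ g :=
                  mul_le_mul_of_nonneg_right h3 (by positivity)
              _ = (VV (ZS f) 0 Y * Real.log N ^ g) * (2 * Real.log (2 * k)) ^ g := by ring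
              _ ≤ _ := mul_le_mul_of_nonneg_right ha (by positivity)
          have h5 : VV (ZS f) k Y * Real.log N ^ g ≤
              (Cv * (2 / κ) ^ g) * (2 * Real.log (2 * k)) ^ g / v := by
            rw [le_div_iff₀ hv]
            linarith
          rw [mul_pow] at h5
          have h6 : 0 ≤ (2 / κ) ^ g * Real.log (2 * k) ^ g := by positivity
          calc VV (ZS f) k Y * Real.log N ^ g ≤ _ := h5
            _ = Cv * (2 / κ) ^ g * 2 ^ g / v * Real.log (2 * k) ^ g := by ring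
            _ ≤ _ := by linarith
      refine goal1.trans ?_
      apply mul_le_mul_of_nonneg_right _ hl2kg.le
      linarith
  · have hNN : (N : ℝ) ≤ (N1 + 2 : ℕ) := by exact_mod_cast (by omega : N ≤ N1 + 2)
    have hlNN : Real.log N ≤ Real.log (N1 + 2 : ℕ) := Real.log_le_log (by linarith) hNN
    have hlNg : Real.log N ^ g ≤ Real.log (N1 + 2 : ℕ) ^ g := pow_le_pow_left₀ hlN.le hlNN g
    have hYb : Y ≤ ⌊((N1 + 2 : ℕ) : ℝ) ^ κ⌋₊ :=
      Nat.floor_le_floor (Real.rpow_le_rpow (by linarith) hNN hκ.le)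
    have hlow' : c1 ≤ VV (ZS f) 0 Y :=
      hlow 0 Y (ZS f) (fun p hp => hr p (Pr_prime hp)) (hYb.trans (le_max_left _ _))
    have hl2 : Real.log 2 ^ g ≤ Real.log N ^ g :=
      pow_le_pow_left₀ hlog2.le (Real.log_le_log (by norm_num) hN2) g
    refine ⟨?_, ?_, ?_⟩
    · have h3 : VV (ZS f) 0 Y * Real.log N ^ g ≤ 1 * Real.log N ^ g :=
        mul_le_mul_of_nonneg_right (hVV1 0 Y) (by positivity)
      linarith
    · have h1 : c1 * Real.log 2 ^ g ≤ VV (ZS f) 0 Y * Real.log N ^ g :=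
        mul_le_mul hlow' hl2 (by positivity) (hVV0 0 Y).le
      have h2 : 1 ≤ 1 / (c1 * Real.log 2 ^ g) * (VV (ZS f) 0 Y * Real.log N ^ g) := by
        rw [one_div_mul_eq_div, le_div_iff₀ (by positivity)]
        linarith
      have h3 : 0 ≤ VV (ZS f) 0 Y * Real.log N ^ g := mul_nonneg (hVV0 0 Y).le (by positivity)
      have h4 : 1 / (c1 * Real.log 2 ^ g) * (VV (ZS f) 0 Y * Real.log N ^ g) ≤
          (Cv * (2 / κ) ^ g + Real.log (N1 + 2 : ℕ) ^ g + κ ^ g / v + 1 / (c1 * Real.log 2 ^ g) +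
          (2 / κ) ^ g + Cv * (2 / κ) ^ g * 2 ^ g / v + Real.log (N1 + 2 : ℕ) ^ g / Real.log 2 ^ g) *
          (VV (ZS f) 0 Y * Real.log N ^ g) := mul_le_mul_of_nonneg_right (by linarith) h3
      linarith
    · intro k hk
      have hk1 : (1 : ℝ) ≤ k := by exact_mod_cast hk
      have hl2k : Real.log 2 ^ g ≤ Real.log (2 * k) ^ g :=
        pow_le_pow_left₀ hlog2.le (Real.log_le_log (by norm_num) (by linarith)) g
      have h2 : VV (ZS f) k Y * Real.log N ^ g ≤ 1 * Real.log N ^ g :=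
        mul_le_mul_of_nonneg_right (hVV1 k Y) (by positivity)
      have h3 : Real.log (N1 + 2 : ℕ) ^ g ≤ Real.log (N1 + 2 : ℕ) ^ g / Real.log 2 ^ g * Real.log (2 * k) ^ g := by
        rw [div_mul_eq_mul_div, le_div_iff₀ (by positivity)]
        exact mul_le_mul_of_nonneg_left hl2k p2
      have h4 : 0 < Real.log (2 * k) ^ g := lt_of_lt_of_le (by positivity) hl2k
      have h5 : Real.log (N1 + 2 : ℕ) ^ g / Real.log 2 ^ g * Real.log (2 * k) ^ g ≤
          (Cv * (2 / κ) ^ g + Real.log (N1 + 2 : ℕ) ^ g + κ ^ g / v + 1 / (c1 * Real.log 2 ^ g) +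
          (2 / κ) ^ g + Cv * (2 / κ) ^ g * 2 ^ g / v + Real.log (N1 + 2 : ℕ) ^ g / Real.log 2 ^ g) *
          Real.log (2 * k) ^ g := mul_le_mul_of_nonneg_right (by linarith) h4.le
      linarith

/-- few arguments with small values -/
theorem few_small (f : ℤ[X]) (hf : 0 < f.natDegree) (y : ℕ) (S : Finset ℕ)
    (h : ∀ n ∈ S, |f.eval (n : ℤ)| ≤ y) : S.card ≤ f.natDegree * (2 * y + 1) := by
  classical
  have h1 : ∀ a ∈ S.image (fun n : ℕ => f.eval (n : ℤ)),
      (S.filter (fun n : ℕ => f.eval (n : ℤ) = a)).card ≤ f.natDegree := by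
    intro a _
    have hne : f - C a ≠ 0 := by
      intro h0
      have : f.natDegree = 0 := by
        rw [sub_eq_zero.1 h0, natDegree_C]
      omega
    have h2 : ((S.filter (fun n : ℕ => f.eval (n : ℤ) = a)).image (fun n : ℕ => (n : ℤ))) ⊆
        (f - C a).roots.toFinset := by
      intro x hx
      rw [mem_image] at hx
      obtain ⟨n, hn, rfl⟩ := hx
      rw [mem_filter] at hn
      rw [Multiset.mem_toFinset, mem_roots hne, IsRoot.def, eval_sub, eval_C, hn.2, sub_self]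
    have h3 := card_le_card h2
    rw [card_image_of_injective _ Nat.cast_injective] at h3
    refine h3.trans ((Multiset.toFinset_card_le _).trans ((card_roots' _).trans ?_))
    rw [natDegree_sub_C]
  refine (card_le_mul_card_image S f.natDegree h1).trans ?_
  apply Nat.mul_le_mul_left
  have h2 : S.image (fun n : ℕ => f.eval (n : ℤ)) ⊆ Finset.Icc (-(y : ℤ)) y := by
    intro x hx
    rw [mem_image] at hx
    obtain ⟨n, hn, rfl⟩ := hx
    rw [Finset.mem_Icc]
    exact abs_le.1 (h n hn)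
  refine (card_le_card h2).trans ?_
  rw [Int.card_Icc]
  omega

end Pool.Agent.K7.H64.LS
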