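import Pool.Agent.K7.H64.LS.SysB

/-!
The large sieve at few points, the restriction theorem and the theorem on sumsets for the arguments with
prime or almost prime values of a system of polynomials.
-/

set_option autoImplicit false

open Finset Polynomial

namespace Pool.Agent.K7.H64.LS

open Pool.Agent.Y843.HS
open Pool.Agent.W123.RU.Poly (Sys)
open Pool.Agent.Helper112 (ee ls_norm_ee lsSep)

variable {ι : Type} [Fintype ι]

/-- no prime up to `N ^ κ` divides a value, or all values are primes up to the sign -/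
def Good (f : ι → ℤ[X]) (κ : ℝ) (N n : ℕ) : Prop :=
  (∀ q : ℕ, q.Prime → (∃ i, (q : ℤ) ∣ (f i).eval (n : ℤ)) → (N : ℝ) ^ κ < q) ∨
    ∀ i, ((f i).eval (n : ℤ)).natAbs.Prime

/-- no prime up to `N ^ κ` divides a value -/
def Rough (f : ι → ℤ[X]) (κ : ℝ) (N n : ℕ) : Prop :=
  ∀ q : ℕ, q.Prime → (∃ i, (q : ℤ) ∣ (f i).eval (n : ℤ)) → (N : ℝ) ^ κ < q

open Classical in
/-- few exceptions -/
theorem few_exc (f : ι → ℤ[X]) (hf : Sys f) (κ : ℝ) : ∃ C : ℝ, 0 < C ∧ ∀ N : ℕ, 1 ≤ N →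
    ∀ S : Finset ℕ, (∀ n ∈ S, Good f κ N n) →
    ((S.filter (fun n => ¬ Rough f (min κ (1 / 2)) N n)).card : ℝ) ≤ C * Real.sqrt N := by
  refine ⟨3 * (∑ i, (f i).natDegree : ℕ) + 1, by positivity, fun N hN S hS => ?_⟩
  have hN1 : (1 : ℝ) ≤ N := by exact_mod_cast hN
  have hs1 : (1 : ℝ) ≤ Real.sqrt N := by rw [Real.one_le_sqrt]; exact hN1
  obtain ⟨y, hy⟩ : ∃ y : ℕ, y = ⌊Real.sqrt N⌋₊ := ⟨_, rfl⟩
  have hyle : (y : ℝ) ≤ Real.sqrt N := by rw [hy]; exact Nat.floor_le (by positivity)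
  have h1 : S.filter (fun n => ¬ Rough f (min κ (1 / 2)) N n) ⊆
      univ.biUnion (fun i => S.filter (fun n : ℕ => |(f i).eval (n : ℤ)| ≤ y)) := by
    intro n hn
    rw [mem_filter] at hn
    obtain ⟨hnS, hR⟩ := hn
    unfold Rough at hR
    push Not at hR
    obtain ⟨q, hq, ⟨i, hi⟩, hqN⟩ := hR
    have hprime : ((f i).eval (n : ℤ)).natAbs.Prime := by
      rcases hS n hnS with h | h
      · exfalso
        have h2 := h q hq ⟨i, hi⟩
        have h3 : (N : ℝ) ^ min κ (1 / 2) ≤ (N : ℝ) ^ κ :=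
          Real.rpow_le_rpow_of_exponent_le hN1 (min_le_left _ _)
        linarith
      · exact h i
    have hqe : q = ((f i).eval (n : ℤ)).natAbs := by
      have h2 : q ∣ ((f i).eval (n : ℤ)).natAbs := Int.natCast_dvd.1 hi
      exact (Nat.prime_dvd_prime_iff_eq hq hprime).1 h2
    rw [mem_biUnion]
    refine ⟨i, mem_univ _, mem_filter.2 ⟨hnS, ?_⟩⟩
    have h3 : q ≤ y := by
      rw [hy]
      apply Nat.le_floor
      calc (q : ℝ) ≤ (N : ℝ) ^ min κ (1 / 2) := hqN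
        _ ≤ (N : ℝ) ^ (1 / 2 : ℝ) := Real.rpow_le_rpow_of_exponent_le hN1 (min_le_right _ _)
        _ = Real.sqrt N := (Real.sqrt_eq_rpow _).symm
    rw [Int.abs_eq_natAbs, ← hqe]
    exact_mod_cast h3
  have h2 := (card_le_card h1).trans card_biUnion_le
  have h3 : ∑ i, (S.filter (fun n : ℕ => |(f i).eval (n : ℤ)| ≤ y)).card ≤
      ∑ i, (f i).natDegree * (2 * y + 1) := by
    refine sum_le_sum fun i _ => ?_
    exact few_small (f i) (hf.deg i) y _ fun n hn => (mem_filter.1 hn).2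
  rw [← sum_mul] at h3
  have h4 : ((S.filter (fun n => ¬ Rough f (min κ (1 / 2)) N n)).card : ℝ) ≤
      ((∑ i, (f i).natDegree : ℕ) : ℝ) * (2 * y + 1) := by exact_mod_cast h2.trans h3
  refine h4.trans ?_
  have h5 : (0 : ℝ) ≤ ((∑ i, (f i).natDegree : ℕ) : ℝ) := Nat.cast_nonneg _
  nlinarith

/-- the ordinary large sieve for a subset of an interval -/
theorem ls_sub {ι' : Type} [DecidableEq ι'] (I : Finset ι') (ξ : ι' → ℝ) (K N A : ℕ) (hK : 1 ≤ K)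
    (hsep : ∀ i ∈ I, ∀ j ∈ I, i ≠ j → lsSep K (ξ j - ξ i)) (S : Finset ℕ) (hSI : S ⊆ Ioc A (A + N))
    (a : ℕ → ℂ) :
    ∑ i ∈ I, ‖∑ n ∈ S, a n * ee (n * ξ i)‖ ^ 2 ≤ 6 * ((N : ℝ) + K) * ∑ n ∈ S, ‖a n‖ ^ 2 := by
  classical
  have h2 := Pool.Agent.Helper112.ls_general I ξ K N hK hsep
    (fun m => if A + m ∈ S then a (A + m) else 0)
  have himg : (Finset.Icc 1 N).image (fun m => A + m) = Ioc A (A + N) := by
    ext n
    rw [mem_Ioc, mem_image]
    constructor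
    · rintro ⟨j, hj, rfl⟩
      rw [Finset.mem_Icc] at hj
      omega
    · intro h
      exact ⟨n - A, Finset.mem_Icc.2 (by omega), by omega⟩
  have h3 : ∑ m ∈ Finset.Icc 1 N, ‖(if A + m ∈ S then a (A + m) else 0 : ℂ)‖ ^ 2 = ∑ n ∈ S, ‖a n‖ ^ 2 := by
    have h4 : ∀ m ∈ Finset.Icc 1 N, ‖(if A + m ∈ S then a (A + m) else 0 : ℂ)‖ ^ 2 =
        (fun n => if n ∈ S then ‖a n‖ ^ 2 else 0) (A + m) := by
      intro m _
      simp only
      split_ifs <;> simp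
    rw [sum_congr rfl h4, ← sum_image (g := fun m => A + m)
      (f := fun n => if n ∈ S then ‖a n‖ ^ 2 else 0) (fun _ _ _ _ h => by simpa using h)]
    rw [himg, ← sum_filter, filter_mem_eq_inter, inter_eq_right.2 hSI]
  rw [h3] at h2
  refine le_trans (le_of_eq ?_) h2
  refine sum_congr rfl fun i _ => ?_
  have h6 : ∑ n ∈ S, a n * ee (n * ξ i) = ee (A * ξ i) *
      ∑ m ∈ Finset.Icc 1 N, (if A + m ∈ S then a (A + m) else 0) * ee (m * ξ i) := by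
    have h4 : ∀ m ∈ Finset.Icc 1 N, ee (A * ξ i) * ((if A + m ∈ S then a (A + m) else 0) * ee (m * ξ i)) =
        (fun n : ℕ => if n ∈ S then a n * ee (n * ξ i) else 0) (A + m) := by
      intro m _
      simp only
      split_ifs
      · rw [show ((A + m : ℕ) : ℝ) * ξ i = A * ξ i + m * ξ i by push_cast; ring,
          Pool.Agent.Helper112.ls_ee_add]
        ring
      · simp
    rw [mul_sum, sum_congr rfl h4, ← sum_image (g := fun m => A + m)
      (f := fun n : ℕ => if n ∈ S then a n * ee (n * ξ i) else 0) (fun _ _ _ _ h => by simpa using h)]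
    rw [himg, ← sum_filter, filter_mem_eq_inter, inter_eq_right.2 hSI]
  rw [h6, norm_mul, ls_norm_ee, one_mul]

theorem log_pow_le' (g : ℕ) : ∃ C : ℝ, 0 < C ∧ ∀ N : ℕ, 1 ≤ N →
    Real.log N ^ g ≤ C * (N : ℝ) ^ (1 / 4 : ℝ) := by
  refine ⟨(4 * g + 1) ^ g, by positivity, fun N hN => ?_⟩
  have hN1 : (1 : ℝ) ≤ N := by exact_mod_cast hN
  have e0 : (0 : ℝ) < 1 / (4 * g + 1) := by positivity
  have h1 : Real.log N ≤ (4 * g + 1) * (N : ℝ) ^ ((1 : ℝ) / (4 * g + 1)) := by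
    have := Real.log_le_rpow_div (x := N) (by positivity) e0
    refine this.trans (le_of_eq ?_)
    field_simp
  calc Real.log N ^ g ≤ ((4 * g + 1) * (N : ℝ) ^ ((1 : ℝ) / (4 * g + 1))) ^ g :=
        pow_le_pow_left₀ (Real.log_nonneg hN1) h1 _
    _ = (4 * g + 1) ^ g * (N : ℝ) ^ ((1 : ℝ) / (4 * g + 1) * (g : ℕ)) := by
        rw [mul_pow, ← Real.rpow_mul_natCast (by positivity)]
    _ ≤ (4 * g + 1) ^ g * (N : ℝ) ^ (1 / 4 : ℝ) := by
        apply mul_le_mul_of_nonneg_left _ (by positivity)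
        apply Real.rpow_le_rpow_of_exponent_le hN1
        rw [div_mul_eq_mul_div, one_mul, div_le_div_iff₀ (by positivity) (by norm_num)]
        have : (0 : ℝ) ≤ g := Nat.cast_nonneg g
        linarith

/-- **the large sieve at few points for a system of polynomials** -/
theorem lsf_sys (f : ι → ℤ[X]) (hf : Sys f) {κ : ℝ} (hκ : 0 < κ) : ∃ C : ℝ, 0 < C ∧ ∀ N : ℕ, 2 ≤ N →
    ∀ (A : ℕ) (S : Finset ℕ), S ⊆ Ioc A (A + N) → (∀ n ∈ S, Good f κ N n) →
    ∀ (ι' : Type) [DecidableEq ι'] (I : Finset ι') (ξ : ι' → ℝ) (K : ℕ), 1 ≤ K →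
    (∀ i ∈ I, ∀ j ∈ I, i ≠ j → lsSep K (ξ j - ξ i)) → ∀ a : ℕ → ℂ,
    ∑ i ∈ I, ‖∑ n ∈ S, a n * ee (n * ξ i)‖ ^ 2 ≤
      C * ((N : ℝ) + K) * (Real.log (2 * I.card) / Real.log N) ^ Fintype.card ι *
        ∑ n ∈ S, ‖a n‖ ^ 2 := by
  classical
  obtain ⟨κ0, hκ0⟩ : ∃ κ0 : ℝ, κ0 = min κ (1 / 2) := ⟨_, rfl⟩
  have hκ00 : 0 < κ0 := by rw [hκ0]; exact lt_min hκ (by norm_num)
  obtain ⟨r, hr⟩ := ZS_ok f hf
  obtain ⟨C1, hC1, h1⟩ := lsf r hκ00
  obtain ⟨C2, hC2, h2⟩ := W_bounds f hf hκ00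
  obtain ⟨C3, hC3, h3⟩ := few_exc f hf κ
  set g := Fintype.card ι with hg
  obtain ⟨C4, hC4, h4⟩ := log_pow_le' g
  have hlog2 : 0 < Real.log 2 := Real.log_pos (by norm_num)
  refine ⟨2 * (C1 * C2) + 2 * (C3 * C4 / Real.log 2 ^ g + 6 * 4 ^ g), by positivity, ?_⟩
  intro N hN A S hSI hSG ι' _ I ξ K hK hsep a
  have hN1 : 1 ≤ N := by omega
  have hN2 : (2 : ℝ) ≤ N := by exact_mod_cast hN
  have hN0 : (0 : ℝ) < N := by linarith
  have hlN : 0 < Real.log N := Real.log_pos (by linarith)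
  have hNK : (0 : ℝ) < (N : ℝ) + K := by positivity
  set G : ℝ := ∑ n ∈ S, ‖a n‖ ^ 2 with hG
  have hG0 : 0 ≤ G := sum_nonneg fun i _ => by positivity
  obtain ⟨k, hk⟩ : ∃ k : ℕ, k = I.card := ⟨_, rfl⟩
  rw [← hk]
  rcases Nat.eq_zero_or_pos k with hk0 | hk0
  · have hI : I = ∅ := card_eq_zero.1 (hk ▸ hk0)
    rw [hI, sum_empty, hk0]
    have : 0 ≤ (Real.log (2 * ((0 : ℕ) : ℝ)) / Real.log N) ^ g := by
      apply pow_nonneg
      simp
    positivity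
  have hk1 : (1 : ℝ) ≤ k := by exact_mod_cast hk0
  have hl2k : Real.log 2 ≤ Real.log (2 * k) := Real.log_le_log (by norm_num) (by linarith)
  have hl2k0 : 0 < Real.log (2 * k) := by linarith
  set W : ℝ := (Real.log (2 * k) / Real.log N) ^ g with hW
  have hW0 : 0 < W := by rw [hW]; positivity
  -- the two parts
  set S0 := S.filter (fun n => Rough f κ0 N n) with hS0
  set S1 := S.filter (fun n => ¬ Rough f κ0 N n) with hS1
  have hS0s : S0 ⊆ S := filter_subset _ _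
  have hS1s : S1 ⊆ S := filter_subset _ _
  have hsum0 : ∑ n ∈ S0, ‖a n‖ ^ 2 ≤ G := sum_le_sum_of_subset_of_nonneg hS0s fun _ _ _ => by positivity
  have hsum1 : ∑ n ∈ S1, ‖a n‖ ^ 2 ≤ G := sum_le_sum_of_subset_of_nonneg hS1s fun _ _ _ => by positivity
  have hsum00 : 0 ≤ ∑ n ∈ S0, ‖a n‖ ^ 2 := sum_nonneg fun i _ => by positivity
  have hsum10 : 0 ≤ ∑ n ∈ S1, ‖a n‖ ^ 2 := sum_nonneg fun i _ => by positivity
  have hsplit : ∀ i ∈ I, ‖∑ n ∈ S, a n * ee (n * ξ i)‖ ^ 2 ≤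
      2 * ‖∑ n ∈ S0, a n * ee (n * ξ i)‖ ^ 2 + 2 * ‖∑ n ∈ S1, a n * ee (n * ξ i)‖ ^ 2 := by
    intro i _
    rw [← sum_filter_add_sum_filter_not S (fun n => Rough f κ0 N n)]
    have h5 := norm_add_le (∑ n ∈ S0, a n * ee (n * ξ i)) (∑ n ∈ S1, a n * ee (n * ξ i))
    have h6 := pow_le_pow_left₀ (norm_nonneg _) h5 2
    refine h6.trans ?_
    nlinarith [sq_nonneg (‖∑ n ∈ S0, a n * ee (n * ξ i)‖ - ‖∑ n ∈ S1, a n * ee (n * ξ i)‖)]
  refine (sum_le_sum hsplit).trans ?_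
  rw [sum_add_distrib, ← mul_sum, ← mul_sum]
  -- the sifted part
  have p0 : ∑ i ∈ I, ‖∑ n ∈ S0, a n * ee (n * ξ i)‖ ^ 2 ≤ C1 * C2 * (((N : ℝ) + K) * W * G) := by
    have e1 := h1 N hN1 A (ZS f) (fun p hp _ => hr p hp) S0 (hS0s.trans hSI) (fun n hn p hp hpN => by
      rw [ZS_mem f hp.pos]
      intro hd
      have := (mem_filter.1 hn).2 p hp hd
      linarith) ι' I ξ K hK hsep a
    rw [← hk] at e1
    have e2 := (h2 N hN).2.2 k hk0
    have e3 : VV (ZS f) k ⌊(N : ℝ) ^ κ0⌋₊ ≤ C2 * W := by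
      rw [hW, div_pow, ← mul_div_assoc, le_div_iff₀ (by positivity)]
      exact e2
    have e4 : 0 < VV (ZS f) k ⌊(N : ℝ) ^ κ0⌋₊ := VV_nonneg fun p hp => (hr p (Pr_prime hp)).2.1
    calc _ ≤ C1 * ((N : ℝ) + K) * VV (ZS f) k ⌊(N : ℝ) ^ κ0⌋₊ * ∑ n ∈ S0, ‖a n‖ ^ 2 := e1
      _ ≤ C1 * ((N : ℝ) + K) * (C2 * W) * G := by
          apply mul_le_mul (mul_le_mul_of_nonneg_left e3 (by positivity)) hsum0 hsum00 (by positivity)
      _ = _ := by ring
  -- the exceptional part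
  have p1 : ∑ i ∈ I, ‖∑ n ∈ S1, a n * ee (n * ξ i)‖ ^ 2 ≤
      (C3 * C4 / Real.log 2 ^ g + 6 * 4 ^ g) * (((N : ℝ) + K) * W * G) := by
    have hprod0 : 0 ≤ ((N : ℝ) + K) * W * G := by positivity
    rcases le_or_gt (k : ℝ) ((N : ℝ) ^ (1 / 4 : ℝ)) with h | h
    · have hcard : (S1.card : ℝ) ≤ C3 * Real.sqrt N := by
        rw [hS1, hκ0]
        exact h3 N hN1 S hSG
      have e1 : ∀ i ∈ I, ‖∑ n ∈ S1, a n * ee (n * ξ i)‖ ^ 2 ≤ C3 * Real.sqrt N * G := by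
        intro i _
        calc ‖∑ n ∈ S1, a n * ee (n * ξ i)‖ ^ 2 ≤ (∑ n ∈ S1, ‖a n‖) ^ 2 := by
              apply pow_le_pow_left₀ (norm_nonneg _)
              refine (norm_sum_le _ _).trans (le_of_eq ?_)
              exact sum_congr rfl fun n _ => by rw [norm_mul, ls_norm_ee, mul_one]
          _ ≤ S1.card * ∑ n ∈ S1, ‖a n‖ ^ 2 := sq_sum_le_card_mul_sum_sq
          _ ≤ C3 * Real.sqrt N * G := mul_le_mul hcard hsum1 hsum10 (by positivity)
      have e2 : (k : ℝ) * Real.sqrt N * (N : ℝ) ^ (1 / 4 : ℝ) ≤ N := by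
        calc (k : ℝ) * Real.sqrt N * (N : ℝ) ^ (1 / 4 : ℝ) ≤
              (N : ℝ) ^ (1 / 4 : ℝ) * Real.sqrt N * (N : ℝ) ^ (1 / 4 : ℝ) := by gcongr
          _ = N := by
              rw [Real.sqrt_eq_rpow, ← Real.rpow_add hN0, ← Real.rpow_add hN0]
              norm_num
      have e3 := h4 N hN1
      have e4 : Real.log 2 ^ g ≤ Real.log (2 * k) ^ g := pow_le_pow_left₀ hlog2.le hl2k g
      have e5 : (k : ℝ) * Real.sqrt N ≤ C4 / Real.log 2 ^ g * (N * W) := by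
        rw [hW, div_pow, div_mul_eq_mul_div, ← mul_div_assoc, le_div_iff₀ (by positivity),
          ← mul_div_assoc, le_div_iff₀ (by positivity)]
        calc (k : ℝ) * Real.sqrt N * Real.log 2 ^ g * Real.log N ^ g ≤
              (k : ℝ) * Real.sqrt N * Real.log (2 * k) ^ g * (C4 * (N : ℝ) ^ (1 / 4 : ℝ)) := by
              gcongr
          _ = ((k : ℝ) * Real.sqrt N * (N : ℝ) ^ (1 / 4 : ℝ)) * (C4 * Real.log (2 * k) ^ g) := by ring
          _ ≤ N * (C4 * Real.log (2 * k) ^ g) := mul_le_mul_of_nonneg_right e2 (by positivity)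
          _ = _ := by ring
      calc ∑ i ∈ I, ‖∑ n ∈ S1, a n * ee (n * ξ i)‖ ^ 2 ≤ ∑ _i ∈ I, C3 * Real.sqrt N * G :=
            sum_le_sum e1
        _ = C3 * ((k : ℝ) * Real.sqrt N) * G := by
            rw [sum_const, nsmul_eq_mul, ← hk]
            ring
        _ ≤ C3 * (C4 / Real.log 2 ^ g * (N * W)) * G := by gcongr
        _ = C3 * C4 / Real.log 2 ^ g * (N * W * G) := by ring
        _ ≤ C3 * C4 / Real.log 2 ^ g * (((N : ℝ) + K) * W * G) := by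
            apply mul_le_mul_of_nonneg_left _ (by positivity)
            have : (0 : ℝ) ≤ K := Nat.cast_nonneg K
            gcongr
            linarith
        _ ≤ _ := by
            apply mul_le_mul_of_nonneg_right _ hprod0
            have : (0 : ℝ) ≤ 6 * 4 ^ g := by positivity
            linarith
    · have e1 := ls_sub I ξ K N A hK hsep S1 (hS1s.trans hSI) a
      have e2 : 1 ≤ 4 ^ g * W := by
        rw [hW, ← mul_pow]
        apply one_le_pow₀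
        rw [← mul_div_assoc, le_div_iff₀ hlN, one_mul]
        have e3 : Real.log ((N : ℝ) ^ (1 / 4 : ℝ)) ≤ Real.log (2 * k) :=
          Real.log_le_log (by positivity) (by linarith)
        rw [Real.log_rpow hN0] at e3
        linarith
      calc ∑ i ∈ I, ‖∑ n ∈ S1, a n * ee (n * ξ i)‖ ^ 2 ≤ 6 * ((N : ℝ) + K) * ∑ n ∈ S1, ‖a n‖ ^ 2 := e1
        _ ≤ 6 * ((N : ℝ) + K) * G := mul_le_mul_of_nonneg_left hsum1 (by positivity)
        _ = 6 * (((N : ℝ) + K) * G) * 1 := by ring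
        _ ≤ 6 * (((N : ℝ) + K) * G) * (4 ^ g * W) := mul_le_mul_of_nonneg_left e2 (by positivity)
        _ = 6 * 4 ^ g * (((N : ℝ) + K) * W * G) := by ring
        _ ≤ _ := by
            apply mul_le_mul_of_nonneg_right _ hprod0
            have : (0 : ℝ) ≤ C3 * C4 / Real.log 2 ^ g := by positivity
            linarith
  calc 2 * ∑ i ∈ I, ‖∑ n ∈ S0, a n * ee (n * ξ i)‖ ^ 2 + 2 * ∑ i ∈ I, ‖∑ n ∈ S1, a n * ee (n * ξ i)‖ ^ 2
      ≤ 2 * (C1 * C2 * (((N : ℝ) + K) * W * G)) +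
        2 * ((C3 * C4 / Real.log 2 ^ g + 6 * 4 ^ g) * (((N : ℝ) + K) * W * G)) := by linarith
    _ = _ := by ring

/-- **powers at spaced points** -/
theorem lsp_sys (f : ι → ℤ[X]) (hf : Sys f) {κ : ℝ} (hκ : 0 < κ) {s : ℝ} (hs : 1 < s) :
    ∃ C : ℝ, 0 < C ∧ ∀ N : ℕ, 2 ≤ N →
    ∀ (A : ℕ) (S : Finset ℕ), S ⊆ Ioc A (A + N) → (∀ n ∈ S, Good f κ N n) →
    ∀ (ι' : Type) [DecidableEq ι'] (I : Finset ι') (ξ : ι' → ℝ) (K : ℕ), 1 ≤ K →
    (∀ i ∈ I, ∀ j ∈ I, i ≠ j → lsSep K (ξ j - ξ i)) → ∀ a : ℕ → ℂ,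
    ∑ i ∈ I, (‖∑ n ∈ S, a n * ee (n * ξ i)‖ ^ 2) ^ s ≤
      C * (((N : ℝ) + K) / Real.log N ^ Fintype.card ι * ∑ n ∈ S, ‖a n‖ ^ 2) ^ s := by
  classical
  obtain ⟨C1, hC1, h1⟩ := lsf_sys f hf hκ
  set g := Fintype.card ι with hg
  obtain ⟨C3, hC3, h3⟩ := series_bound g hs
  have hs0 : 0 < s := by linarith
  refine ⟨C1 ^ s * C3, by positivity, ?_⟩
  intro N hN A S hSI hSG ι' _ I ξ K hK hsep a
  have hN2 : (2 : ℝ) ≤ N := by exact_mod_cast hN
  have hlN : 0 < Real.log N := Real.log_pos (by linarith)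
  set G : ℝ := ∑ n ∈ S, ‖a n‖ ^ 2 with hG
  have hG0 : 0 ≤ G := sum_nonneg fun i _ => by positivity
  obtain ⟨B, hB⟩ : ∃ B : ℝ, B = ((N : ℝ) + K) / Real.log N ^ g * G := ⟨_, rfl⟩
  have hB0 : 0 ≤ B := by rw [hB]; positivity
  rw [← hB]
  have h4 := power_sum (fun i => ‖∑ n ∈ S, a n * ee (n * ξ i)‖ ^ 2) (fun i => by positivity)
    (fun k : ℕ => C1 * ((N : ℝ) + K) * (Real.log (2 * k) / Real.log N) ^ g * G) hs0.le I (fun T hT =>
      h1 N hN A S hSI hSG ι' T ξ K hK (fun i hi j hj => hsep i (hT hi) j (hT hj)) a)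
  refine h4.trans ?_
  have h5 : ∀ k ∈ Finset.Icc 1 I.card, (C1 * ((N : ℝ) + K) * (Real.log (2 * k) / Real.log N) ^ g * G / k) ^ s ≤
      (C1 * B) ^ s * ((1 + Real.log k) ^ g / k) ^ s := by
    intro k hk
    rw [Finset.mem_Icc] at hk
    have hk1 : (1 : ℝ) ≤ k := by exact_mod_cast hk.1
    have hk0 : (0 : ℝ) < k := by linarith
    have hl : 0 ≤ Real.log k := Real.log_nonneg hk1
    have hl2 : 0 ≤ Real.log (2 * k) := Real.log_nonneg (by linarith)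
    have hle : Real.log (2 * k) ≤ 1 + Real.log k := by
      rw [Real.log_mul (by norm_num) hk0.ne']
      linarith [Real.log_two_lt_d9]
    rw [← Real.mul_rpow (by positivity) (by positivity)]
    apply Real.rpow_le_rpow (by positivity) _ hs0.le
    calc C1 * ((N : ℝ) + K) * (Real.log (2 * k) / Real.log N) ^ g * G / k ≤
          C1 * ((N : ℝ) + K) * ((1 + Real.log k) / Real.log N) ^ g * G / k := by
          gcongr
      _ = _ := by rw [hB, div_pow]; ring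
  refine (sum_le_sum h5).trans ?_
  rw [← mul_sum, Real.mul_rpow (by positivity) hB0]
  calc C1 ^ s * B ^ s * ∑ k ∈ Finset.Icc 1 I.card, ((1 + Real.log k) ^ g / k) ^ s
      ≤ C1 ^ s * B ^ s * C3 := mul_le_mul_of_nonneg_left (h3 _) (by positivity)
    _ = _ := by ring

/-- **the restriction theorem for a system of polynomials** -/
theorem restr_sys (f : ι → ℤ[X]) (hf : Sys f) {κ : ℝ} (hκ : 0 < κ) {p : ℝ} (hp : 2 < p) :
    ∃ C : ℝ, 0 < C ∧ ∀ N : ℕ, 2 ≤ N →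
    ∀ (A : ℕ) (S : Finset ℕ), S ⊆ Ioc A (A + N) → (∀ n ∈ S, Good f κ N n) → ∀ a : ℕ → ℂ,
    ∫ α in (0 : ℝ)..1, ‖∑ n ∈ S, a n * ee (n * α)‖ ^ p ≤
      C * ((N : ℝ) ^ (p / 2 - 1) / (Real.log N ^ Fintype.card ι) ^ (p / 2) *
        (∑ n ∈ S, ‖a n‖ ^ 2) ^ (p / 2)) := by
  classical
  obtain ⟨C, hC, h⟩ := lsp_sys f hf hκ (s := p / 2) (by linarith)
  set g := Fintype.card ι with hg
  refine ⟨C * 2 ^ (p / 2), by positivity, ?_⟩
  intro N hN A S hSI hSG a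
  have hN0 : (0 : ℝ) < N := by exact_mod_cast (by omega : 0 < N)
  have hN2 : (2 : ℝ) ≤ N := by exact_mod_cast hN
  have hlN : 0 < Real.log N := Real.log_pos (by linarith)
  set G : ℝ := ∑ n ∈ S, ‖a n‖ ^ 2 with hG
  have hG0 : 0 ≤ G := sum_nonneg fun i _ => by positivity
  have hcont : Continuous (fun α : ℝ => ‖∑ n ∈ S, a n * ee (n * α)‖ ^ p) := by
    have h1 : Continuous (fun α : ℝ => ‖∑ n ∈ S, a n * ee (n * α)‖) := by
      refine Continuous.norm ?_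
      exact continuous_finsetSum _ fun n _ => continuous_const.mul (ee_cont.comp (by fun_prop))
    exact h1.rpow_const fun _ => Or.inr (by linarith)
  have key := grid_integral (by omega : 1 ≤ N) _ hcont
    (C * (((N : ℝ) + N) / Real.log N ^ g * G) ^ (p / 2)) (fun t => by
    have h1 := h N hN A S hSI hSG ℕ (range N) (fun j => t + (j : ℝ) / N) N (by omega)
      (fun i hi j hj hij => sep_grid t (mem_range.1 hi) (mem_range.1 hj) hij) a
    refine le_trans (le_of_eq ?_) h1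
    refine sum_congr rfl fun j _ => ?_
    rw [← Real.rpow_natCast_mul (norm_nonneg _)]
    congr 1
    push_cast
    ring)
  refine key.trans (le_of_eq ?_)
  have h2 : ((N : ℝ) + N) / Real.log N ^ g * G = 2 * (N * (G / Real.log N ^ g)) := by ring
  rw [h2, Real.mul_rpow (by norm_num) (by positivity), Real.mul_rpow hN0.le (by positivity),
    Real.div_rpow hG0 (by positivity), Real.rpow_sub hN0, Real.rpow_one]
  ring

end Pool.Agent.K7.H64.LS
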