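import Pool.Agent.Y257.HS.TH

/-!
The upper bound sieve of Brun and Hooley, with bounds for its Fourier coefficients (adapted from
`Pool.Agent.Y257.HS.TH`).
-/

set_option autoImplicit false

open Finset

namespace Pool.Agent.K7.H64.LS

open Pool.Agent.Y843.HS
open Pool.Agent.Y257.HS
open Pool.Agent.Helper112.LP Pool.Agent.Helper112.LP.Kbh

/-- upper bound sieve weights with bounds for the sums over the multiples of a set -/
def S_TH2 : Prop := ∀ r : ℕ, ∃ C : ℕ, 1 ≤ C ∧ ∀ J0 J : ℕ, C ≤ J0 → J0 ≤ J →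
  ∀ Z : ℕ → Finset ℕ, Sv r (2 ^ 2 ^ J0) (2 ^ 2 ^ J) Z →
    ∃ θ : Finset ℕ → ℝ, Wt C Z (2 ^ 2 ^ J0) (2 ^ 2 ^ J) θ ∧
      ∀ Q ⊆ Pr (2 ^ 2 ^ J0) (2 ^ 2 ^ J),
        |∑ U ∈ (Pr (2 ^ 2 ^ J0) (2 ^ 2 ^ J)).powerset.filter (fun U => Q ⊆ U),
          θ U * ∏ p ∈ U \ Q, ((Z p).card : ℝ) / p| ≤
          (C : ℝ) ^ (Q.card + 1) * VV Z (2 ^ 2 ^ J0) (2 ^ 2 ^ J)

/-- the functional of the weights on the multiples of `Q` is a product over the blocks -/
lemma th_sumQ (J0 J m0 : ℕ) (hJ : J0 ≤ J) (g : ℕ → ℝ) (Q : Finset ℕ)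
    (hQ : Q ⊆ Pr (2 ^ 2 ^ J0) (2 ^ 2 ^ J)) :
    ∑ U ∈ (Pr (2 ^ 2 ^ J0) (2 ^ 2 ^ J)).powerset.filter (fun U => Q ⊆ U),
      th J0 J m0 U * ∏ p ∈ U \ Q, g p =
      ∏ i ∈ Ico J0 J, ∑ V ∈ (Bl i).powerset, (if Q ∩ Bl i ⊆ V then
        ph (J - i + m0) V * ∏ p ∈ V \ Q, g p else 0) := by
  rw [← sum_blocks J0 (fun i V => if Q ∩ Bl i ⊆ V then
        ph (J - i + m0) V * ∏ p ∈ V \ Q, g p else 0) J hJ, sum_filter]
  refine sum_congr rfl fun U hU => ?_
  rw [mem_powerset] at hU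
  by_cases h : Q ⊆ U
  · rw [if_pos h]
    have h1 : ∏ i ∈ Ico J0 J, (if Q ∩ Bl i ⊆ U ∩ Bl i then
        ph (J - i + m0) (U ∩ Bl i) * ∏ p ∈ (U ∩ Bl i) \ Q, g p else 0) =
        ∏ i ∈ Ico J0 J, (ph (J - i + m0) (U ∩ Bl i) * ∏ p ∈ (U \ Q) ∩ Bl i, g p) := by
      refine prod_congr rfl fun i _ => ?_
      rw [if_pos (inter_subset_inter_right h)]
      congr 2
      ext p
      simp only [mem_sdiff, mem_inter]
      tauto
    rw [h1, prod_mul_distrib, ← prod_blocks J0 g (U \ Q) J hJ,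
      inter_eq_left.2 (sdiff_subset.trans hU)]
    rfl
  · rw [if_neg h]
    symm
    rw [not_subset] at h
    obtain ⟨p, hp, hpU⟩ := h
    have hp1 := hQ hp
    have h2 : ∀ J : ℕ, J0 ≤ J → p ∈ Pr (2 ^ 2 ^ J0) (2 ^ 2 ^ J) → ∃ i ∈ Ico J0 J, p ∈ Bl i := by
      intro J hJ
      induction J, hJ using Nat.le_induction with
      | base => intro h; unfold Pr at h; simp at h
      | succ J hJ ih =>
        intro h
        rw [Pr_succ J0 J hJ, mem_union] at h
        rcases h with h | h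
        · obtain ⟨i, hi, hi2⟩ := ih h
          rw [mem_Ico] at hi
          exact ⟨i, mem_Ico.2 ⟨hi.1, by omega⟩, hi2⟩
        · exact ⟨J, mem_Ico.2 ⟨hJ, by omega⟩, h⟩
    obtain ⟨i, hi, hpi⟩ := h2 J hJ hp1
    refine prod_eq_zero hi ?_
    rw [if_neg]
    intro h3
    exact hpU (mem_inter.1 (h3 (mem_inter.2 ⟨hp, hpi⟩))).1

lemma block_abs (t : ℕ) (g : ℕ → ℝ) (B Q : Finset ℕ) (hg : ∀ p ∈ B, 0 ≤ g p) :
    |∑ V ∈ B.powerset, (if Q ∩ B ⊆ V then ph t V * ∏ p ∈ V \ Q, g p else 0)| ≤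
      Real.exp (∑ p ∈ B, g p) := by
  have h1 : |∑ V ∈ B.powerset, (if Q ∩ B ⊆ V then ph t V * ∏ p ∈ V \ Q, g p else 0)| ≤
      ∑ V ∈ B.powerset.filter (fun V => Q ∩ B ⊆ V), ∏ p ∈ V \ Q, g p := by
    refine (abs_sum_le_sum_abs _ _).trans ?_
    rw [sum_filter]
    refine sum_le_sum fun V hV => ?_
    rw [mem_powerset] at hV
    split_ifs with h
    · rw [abs_mul]
      have h2 : 0 ≤ ∏ p ∈ V \ Q, g p := prod_nonneg fun p hp => hg p (hV (mem_sdiff.1 hp).1)
      rw [abs_of_nonneg h2]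
      calc |ph t V| * ∏ p ∈ V \ Q, g p ≤ 1 * ∏ p ∈ V \ Q, g p :=
            mul_le_mul_of_nonneg_right (ph_abs t V) h2
        _ = _ := one_mul _
    · simp
  have h2 : ∑ V ∈ B.powerset.filter (fun V => Q ∩ B ⊆ V), ∏ p ∈ V \ Q, g p ≤
      ∑ W ∈ B.powerset, ∏ p ∈ W, g p := by
    rw [← sum_image (f := fun W : Finset ℕ => ∏ p ∈ W, g p) (g := fun V : Finset ℕ => V \ Q)
      (s := B.powerset.filter (fun V => Q ∩ B ⊆ V))]
    · apply sum_le_sum_of_subset_of_nonneg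
      · intro W hW
        rw [mem_image] at hW
        obtain ⟨V, hV, rfl⟩ := hW
        rw [mem_filter, mem_powerset] at hV
        exact mem_powerset.2 (sdiff_subset.trans hV.1)
      · intro W hW _
        rw [mem_powerset] at hW
        exact prod_nonneg fun p hp => hg p (hW hp)
    · intro V hV V' hV' h
      rw [mem_coe, mem_filter, mem_powerset] at hV hV'
      simp only at h
      ext p
      by_cases hpQ : p ∈ Q
      · constructor
        · intro hp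
          exact hV'.2 (mem_inter.2 ⟨hpQ, hV.1 hp⟩)
        · intro hp
          exact hV.2 (mem_inter.2 ⟨hpQ, hV'.1 hp⟩)
      · constructor
        · intro hp
          have : p ∈ V \ Q := mem_sdiff.2 ⟨hp, hpQ⟩
          rw [h] at this
          exact (mem_sdiff.1 this).1
        · intro hp
          have : p ∈ V' \ Q := mem_sdiff.2 ⟨hp, hpQ⟩
          rw [← h] at this
          exact (mem_sdiff.1 this).1
  have h3 : ∑ W ∈ B.powerset, ∏ p ∈ W, g p = ∏ p ∈ B, (1 + g p) := by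
    rw [prod_one_add]
  rw [h3] at h2
  refine h1.trans (h2.trans ?_)
  rw [Real.exp_sum]
  refine prod_le_prod (fun p hp => by linarith [hg p hp]) fun p hp => ?_
  linarith [Real.add_one_le_exp (g p)]

theorem s_TH2 : S_TH2 := by
  intro r
  obtain ⟨CM, hCM, hM⟩ := mertens_group
  set L : ℝ := Real.log 2 + CM with hLdef
  have hlog2 : 0 < Real.log 2 := Real.log_pos (by norm_num)
  have hL0 : 0 < L := by rw [hLdef]; linarith
  have hLs : ∀ i : ℕ, ∑ l ∈ Gj (i + 1), (1 : ℝ) / l ≤ L := by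
    intro i
    have h1 := (abs_le.1 (hM (i + 1) (by omega))).2
    have h2 : CM / 2 ^ (i + 1) ≤ CM := div_le_self hCM.le (one_le_pow₀ (by norm_num))
    rw [hLdef]; linarith
  set x0 : ℝ := r * L with hx0
  have hx00 : 0 ≤ x0 := by positivity
  obtain ⟨m0, hm0⟩ := exists_nat_ge (21 * x0)
  obtain ⟨e0, he0⟩ := exists_nat_ge (Real.exp (3 * x0))
  refine ⟨4 * (m0 + 2) + 2 * r + 3 + e0, by omega, ?_⟩
  intro J0 J hJ0 hJ Z hZ
  set C : ℕ := 4 * (m0 + 2) + 2 * r + 3 + e0 with hC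
  have hz : ∀ p ∈ Pr (2 ^ 2 ^ J0) (2 ^ 2 ^ J), 2 * r < p := by
    intro p hp
    unfold Pr at hp
    rw [mem_filter, mem_Ioc] at hp
    have h1 : J0 < 2 ^ J0 := Nat.lt_two_pow_self
    have h2 : 2 ^ J0 < 2 ^ 2 ^ J0 := Nat.lt_two_pow_self
    omega
  set g : ℕ → ℝ := fun p => ((Z p).card : ℝ) / p with hg
  have hgr : ∀ p ∈ Pr (2 ^ 2 ^ J0) (2 ^ 2 ^ J), 0 ≤ g p ∧ g p ≤ r * (1 / (p : ℝ)) ∧ g p ≤ 1 / 2 := by
    intro p hp
    have h1 : ((Z p).card : ℝ) ≤ r := by exact_mod_cast (hZ p hp).1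
    have h2 := hz p hp
    have h3 : 2 * (r : ℝ) < p := by exact_mod_cast h2
    have h4 : (0 : ℝ) < p := by
      have : (0 : ℝ) ≤ r := Nat.cast_nonneg r
      linarith
    refine ⟨by rw [hg]; positivity, ?_, ?_⟩
    · rw [hg]
      simp only
      rw [mul_one_div]
      gcongr
    · rw [hg]
      simp only
      rw [div_le_div_iff₀ h4 (by norm_num)]
      linarith
  have hBg : ∀ i ∈ Ico J0 J, ∀ p ∈ Bl i, 0 ≤ g p ∧ g p ≤ r * (1 / (p : ℝ)) ∧ g p ≤ 1 / 2 := by
    intro i hi p hp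
    rw [mem_Ico] at hi
    exact hgr p (Bl_sub J0 J i hi.1 hi.2 hp)
  set V : ℕ → ℝ := fun i => ∏ p ∈ Bl i, (1 - g p) with hV
  set Tr : ℕ → ℝ := fun i => bhA g (2 * (J - i + m0)) (Bl i) with hTr
  set Er : ℕ → ℝ := fun i => bhE g (2 * (J - i + m0) + 1) (Bl i) with hEr
  have hbonf : ∀ i ∈ Ico J0 J, V i ≤ Tr i ∧ Tr i ≤ V i + Er i := by
    intro i hi
    have h := bh_bonf g (Bl i) (fun l hl => ⟨(hBg i hi l hl).1, by
      linarith [(hBg i hi l hl).2.2]⟩) (2 * (J - i + m0))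
    rw [(even_two_mul _).neg_one_pow, one_mul] at h
    constructor
    · have := h.1; simp only [hV, hTr]; linarith
    · have := h.2; simp only [hV, hTr, hEr]; linarith
  have hgsum : ∀ i ∈ Ico J0 J, ∑ l ∈ Bl i, g l ≤ x0 := by
    intro i hi
    calc ∑ l ∈ Bl i, g l ≤ ∑ l ∈ Bl i, (r : ℝ) * (1 / (l : ℝ)) :=
          sum_le_sum fun l hl => (hBg i hi l hl).2.1
      _ = r * ∑ l ∈ Bl i, 1 / (l : ℝ) := by rw [mul_sum]
      _ ≤ r * ∑ l ∈ Gj (i + 1), 1 / (l : ℝ) := by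
          apply mul_le_mul_of_nonneg_left _ (Nat.cast_nonneg r)
          apply sum_le_sum_of_subset_of_nonneg (Bl_sub_Gj i)
          intro l _ _
          positivity
      _ ≤ r * L := mul_le_mul_of_nonneg_left (hLs i) (Nat.cast_nonneg r)
      _ = x0 := by rw [hx0]
  set v : ℝ := Real.exp (-(2 * x0)) with hv
  have hv0 : 0 < v := Real.exp_pos _
  have hVv : ∀ i ∈ Ico J0 J, v ≤ V i := by
    intro i hi
    have h1 : Real.exp (-(2 * ∑ l ∈ Bl i, g l)) ≤ V i := by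
      have h2 : -(2 * ∑ l ∈ Bl i, g l) = ∑ l ∈ Bl i, -(2 * g l) := by
        rw [mul_sum, ← sum_neg_distrib]
      rw [h2, Real.exp_sum]
      refine prod_le_prod (fun l _ => (Real.exp_pos _).le) fun l hl => ?_
      exact bh_inv_ge (hBg i hi l hl).1 (hBg i hi l hl).2.2
    refine le_trans ?_ h1
    rw [hv]
    exact Real.exp_le_exp.2 (by linarith [hgsum i hi])
  have hEr0 : ∀ i ∈ Ico J0 J, 0 ≤ Er i := fun i hi =>
    bhE_nonneg _ _ _ fun l hl => (hBg i hi l hl).1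
  have hErv : ∀ i ∈ Ico J0 J, Er i / v ≤ (1 / 2) ^ (2 * (J - i + m0) + 1) := by
    intro i hi
    have h1 : Er i / v = Er i * Real.exp (2 * x0) := by
      rw [hv, Real.exp_neg, div_inv_eq_mul]
    rw [h1]
    have h2 : Er i ≤ x0 ^ (2 * (J - i + m0) + 1) / (2 * (J - i + m0) + 1).factorial := by
      refine (bhE_le g (Bl i) (fun l hl => (hBg i hi l hl).1) _).trans ?_
      have h0 : 0 ≤ ∑ l ∈ Bl i, g l := sum_nonneg fun l hl => (hBg i hi l hl).1
      exact div_le_div_of_nonneg_right (pow_le_pow_left₀ h0 (hgsum i hi) _) (Nat.cast_nonneg _)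
    refine le_trans (mul_le_mul_of_nonneg_right h2 (Real.exp_pos _).le) ?_
    apply tail1 x0 hx00 _ (by omega)
    refine hm0.trans ?_
    exact_mod_cast (by omega : m0 ≤ 2 * (J - i + m0) + 1)
  have htail : ∑ i ∈ Ico J0 J, Er i / v ≤ 1 := by
    have h1 : ∑ i ∈ Ico J0 J, Er i / v ≤ ∑ i ∈ Ico J0 J, (1 / 2 : ℝ) ^ (J - i) := by
      refine sum_le_sum fun i hi => (hErv i hi).trans ?_
      apply pow_le_pow_of_le_one (by norm_num) (by norm_num)
      omega
    have h2 : ∀ J : ℕ, J0 ≤ J → ∑ i ∈ Ico J0 J, (1 / 2 : ℝ) ^ (J - i) ≤ 1 := by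
      intro J hJ
      induction J, hJ using Nat.le_induction with
      | base => simp
      | succ J hJ ih =>
        rw [sum_Ico_succ_top hJ]
        have h3 : ∑ i ∈ Ico J0 J, (1 / 2 : ℝ) ^ (J + 1 - i) =
            1 / 2 * ∑ i ∈ Ico J0 J, (1 / 2 : ℝ) ^ (J - i) := by
          rw [mul_sum]
          refine sum_congr rfl fun i hi => ?_
          rw [mem_Ico] at hi
          rw [show J + 1 - i = (J - i) + 1 by omega, pow_succ]
          ring
        rw [h3, show J + 1 - J = 1 by omega, pow_one]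
        linarith
    exact h1.trans (h2 J hJ)
  have hV0 : ∀ i ∈ Ico J0 J, 0 < V i := fun i hi => lt_of_lt_of_le hv0 (hVv i hi)
  have hTr0 : ∀ i ∈ Ico J0 J, 0 < Tr i := fun i hi => lt_of_lt_of_le (hV0 i hi) (hbonf i hi).1
  have hqq : qq Z (2 ^ 2 ^ J0) (2 ^ 2 ^ J) (th J0 J m0) = ∏ i ∈ Ico J0 J, Tr i :=
    th_sum J0 J m0 hJ g
  have hVV : VV Z (2 ^ 2 ^ J0) (2 ^ 2 ^ J) = ∏ i ∈ Ico J0 J, V i := VV_blocks Z J0 J hJ
  refine ⟨th J0 J m0, ⟨th_empty J0 J m0, fun U => th_abs J0 J m0 U, ?_, ?_, ?_, ?_⟩, ?_⟩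
  · intro U hU hne
    refine (level J0 J m0 hJ U hU hne).trans ?_
    exact Nat.pow_le_pow_right (by positivity) (by omega)
  · intro n
    have h1 := Th_eq Z J0 J m0 n hJ
    rw [h1]
    refine prod_nonneg fun i _ => ?_
    have h2 : ∀ l ∈ Bl i, (0 : ℝ) ≤ (if n % l ∈ Z l then 1 else 0) ∧
        (if n % l ∈ Z l then (1 : ℝ) else 0) ≤ 1 := by
      intro l _
      split_ifs <;> norm_num
    have h := bh_bonf (fun p => if n % p ∈ Z p then 1 else 0) (Bl i) h2 (2 * (J - i + m0))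
    rw [(even_two_mul _).neg_one_pow, one_mul] at h
    have h3 : (0 : ℝ) ≤ ∏ l ∈ Bl i, (1 - (if n % l ∈ Z l then (1 : ℝ) else 0)) :=
      prod_nonneg fun l hl => by linarith [(h2 l hl).2]
    linarith [h.1]
  · rw [hqq, hVV]
    exact prod_le_prod (fun i hi => (hV0 i hi).le) fun i hi => (hbonf i hi).1
  · rw [hqq, hVV]
    have h1 : ∏ i ∈ Ico J0 J, Tr i ≤ ∏ i ∈ Ico J0 J, V i * Real.exp (Er i / v) := by
      refine prod_le_prod (fun i hi => (hTr0 i hi).le) fun i hi => ?_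
      refine (hbonf i hi).2.trans ?_
      have h2 := Real.add_one_le_exp (Er i / v)
      have h3 : V i * (Er i / v + 1) ≤ V i * Real.exp (Er i / v) :=
        mul_le_mul_of_nonneg_left h2 (hV0 i hi).le
      refine le_trans ?_ h3
      have h4 : Er i ≤ V i * (Er i / v) := by
        rw [← mul_div_assoc, le_div_iff₀ hv0, mul_comm (V i)]
        exact mul_le_mul_of_nonneg_left (hVv i hi) (hEr0 i hi)
      linarith
    rw [prod_mul_distrib, ← Real.exp_sum] at h1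
    have h2 : 0 ≤ ∏ i ∈ Ico J0 J, V i := prod_nonneg fun i hi => (hV0 i hi).le
    have h3 : Real.exp (∑ i ∈ Ico J0 J, Er i / v) ≤ C := by
      calc Real.exp (∑ i ∈ Ico J0 J, Er i / v) ≤ Real.exp 1 := Real.exp_le_exp.2 htail
        _ ≤ 3 := by linarith [Real.exp_one_lt_d9]
        _ ≤ C := by exact_mod_cast (by omega : 3 ≤ C)
    calc ∏ i ∈ Ico J0 J, Tr i
        ≤ (∏ i ∈ Ico J0 J, V i) * Real.exp (∑ i ∈ Ico J0 J, Er i / v) := h1
      _ ≤ (∏ i ∈ Ico J0 J, V i) * C := mul_le_mul_of_nonneg_left h3 h2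
      _ = _ := mul_comm _ _
  · intro Q hQ
    have key := th_sumQ J0 J m0 hJ g Q hQ
    have key' : ∑ U ∈ (Pr (2 ^ 2 ^ J0) (2 ^ 2 ^ J)).powerset.filter (fun U => Q ⊆ U),
      th J0 J m0 U * ∏ p ∈ U \ Q, ((Z p).card : ℝ) / p =
      ∏ i ∈ Ico J0 J, ∑ V ∈ (Bl i).powerset, (if Q ∩ Bl i ⊆ V then
        ph (J - i + m0) V * ∏ p ∈ V \ Q, (((Z p).card : ℝ) / p) else 0) := key
    rw [key', abs_prod, hVV]
    set Bq : ℕ → ℝ := fun i => |∑ V ∈ (Bl i).powerset, (if Q ∩ Bl i ⊆ V then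
        ph (J - i + m0) V * ∏ p ∈ V \ Q, (((Z p).card : ℝ) / p) else 0)| with hBq
    have hb : ∀ i ∈ Ico J0 J, Bq i ≤ (V i * Real.exp (Er i / v)) *
        Real.exp (3 * x0) ^ (Q ∩ Bl i).card := by
      intro i hi
      by_cases hQi : Q ∩ Bl i = ∅
      · rw [hQi, card_empty, pow_zero, mul_one]
        have h1 : Bq i = |Tr i| := by
          simp only [hBq, hTr]
          congr 1
          unfold bhA ph
          rw [sum_filter]
          refine sum_congr rfl fun W hW => ?_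
          rw [mem_powerset] at hW
          rw [hQi, if_pos (empty_subset _)]
          have h2 : W \ Q = W := by
            rw [Finset.sdiff_eq_self_iff_disjoint, disjoint_left]
            intro p hp hpQ
            have : p ∈ Q ∩ Bl i := mem_inter.2 ⟨hpQ, hW hp⟩
            rw [hQi] at this
            exact absurd this (notMem_empty p)
          rw [h2]
          split_ifs
          · rfl
          · simp
        rw [h1, abs_of_pos (hTr0 i hi)]
        refine (hbonf i hi).2.trans ?_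
        have h2 := Real.add_one_le_exp (Er i / v)
        have h3 : V i * (Er i / v + 1) ≤ V i * Real.exp (Er i / v) :=
          mul_le_mul_of_nonneg_left h2 (hV0 i hi).le
        refine le_trans ?_ h3
        have h4 : Er i ≤ V i * (Er i / v) := by
          rw [← mul_div_assoc, le_div_iff₀ hv0, mul_comm (V i)]
          exact mul_le_mul_of_nonneg_left (hVv i hi) (hEr0 i hi)
        linarith
      · have h1 : 1 ≤ (Q ∩ Bl i).card := card_pos.2 (nonempty_iff_ne_empty.2 hQi)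
        have h2 : Bq i ≤ Real.exp x0 := by
          refine (block_abs _ _ (Bl i) Q fun p hp => (hBg i hi p hp).1).trans ?_
          exact Real.exp_le_exp.2 (hgsum i hi)
        have h3 : (1 : ℝ) ≤ Real.exp (3 * x0) := Real.one_le_exp (by positivity)
        have h4 : Real.exp (3 * x0) ≤ Real.exp (3 * x0) ^ (Q ∩ Bl i).card :=
          le_self_pow₀ h3 (by omega)
        have h5 : (1 : ℝ) ≤ Real.exp (Er i / v) :=
          Real.one_le_exp (div_nonneg (hEr0 i hi) hv0.le)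
        have h6 : Real.exp x0 = v * Real.exp (3 * x0) := by
          rw [hv, ← Real.exp_add]
          congr 1
          ring
        calc Bq i ≤ v * Real.exp (3 * x0) := h6 ▸ h2
          _ ≤ (V i * Real.exp (Er i / v)) * Real.exp (3 * x0) := by
              apply mul_le_mul_of_nonneg_right _ (Real.exp_pos _).le
              calc v ≤ V i := hVv i hi
                _ = V i * 1 := (mul_one _).symm
                _ ≤ V i * Real.exp (Er i / v) := mul_le_mul_of_nonneg_left h5 (hV0 i hi).le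
          _ ≤ _ := by
              apply mul_le_mul_of_nonneg_left h4
              exact mul_nonneg (hV0 i hi).le (Real.exp_pos _).le
    have h1 : ∏ i ∈ Ico J0 J, Bq i ≤ ∏ i ∈ Ico J0 J, ((V i * Real.exp (Er i / v)) *
        Real.exp (3 * x0) ^ (Q ∩ Bl i).card) :=
      prod_le_prod (fun i _ => abs_nonneg _) hb
    have h2 : ∏ i ∈ Ico J0 J, Real.exp (3 * x0) ^ (Q ∩ Bl i).card = Real.exp (3 * x0) ^ Q.card := by
      have h3 := prod_blocks J0 (fun _ => Real.exp (3 * x0)) Q J hJ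
      rw [inter_eq_left.2 hQ, prod_const] at h3
      rw [h3]
      refine prod_congr rfl fun i _ => ?_
      rw [prod_const]
    have h3 : Real.exp (∑ i ∈ Ico J0 J, Er i / v) ≤ C := by
      calc Real.exp (∑ i ∈ Ico J0 J, Er i / v) ≤ Real.exp 1 := Real.exp_le_exp.2 htail
        _ ≤ 3 := by linarith [Real.exp_one_lt_d9]
        _ ≤ C := by exact_mod_cast (by omega : 3 ≤ C)
    have h4 : Real.exp (3 * x0) ^ Q.card ≤ (C : ℝ) ^ Q.card := by
      apply pow_le_pow_left₀ (Real.exp_pos _).le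
      refine he0.trans ?_
      exact_mod_cast (by omega : e0 ≤ C)
    have hVp : 0 ≤ ∏ i ∈ Ico J0 J, V i := prod_nonneg fun i hi => (hV0 i hi).le
    calc ∏ i ∈ Ico J0 J, Bq i ≤ _ := h1
      _ = (∏ i ∈ Ico J0 J, V i) * Real.exp (∑ i ∈ Ico J0 J, Er i / v) *
          Real.exp (3 * x0) ^ Q.card := by
          rw [prod_mul_distrib, prod_mul_distrib, h2, ← Real.exp_sum]
      _ ≤ (∏ i ∈ Ico J0 J, V i) * C * (C : ℝ) ^ Q.card := by
          apply mul_le_mul (mul_le_mul_of_nonneg_left h3 hVp) h4 (by positivity)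
          exact mul_nonneg hVp (Nat.cast_nonneg C)
      _ = (C : ℝ) ^ (Q.card + 1) * ∏ i ∈ Ico J0 J, V i := by ring

end Pool.Agent.K7.H64.LS
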