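import Pool.Agent.K7.H64.LS.Four

/-!
The exponential sums of the upper bound sieve weights minus their mean value are uniformly small.
-/

set_option autoImplicit false

open Finset

namespace Pool.Agent.K7.H64.LS

open Pool.Agent.Y843.HS
open Pool.Agent.Helper112 (ee ls_ee_zero ls_ee_add ls_ee_int ls_ee_nat ls_norm_ee ls_ee_ne_zero
  ls_conj_ee ls_ee_nat_mul ls_ee_eq_one lsD lsD_fract lsD_bound_sin)

/-- the complete sum -/
noncomputable def EE (A N : ℕ) (x : ℝ) : ℂ := ∑ n ∈ Ioc A (A + N), ee (n * x)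

theorem EE_norm_le (A N : ℕ) (x : ℝ) : ‖EE A N x‖ ≤ N := by
  unfold EE
  refine (norm_sum_le _ _).trans ?_
  simp [ls_norm_ee]

theorem EE_eq (A N : ℕ) (x : ℝ) : EE A N x = ee ((A + 1 : ℕ) * x) * lsD N x := by
  unfold EE lsD
  rw [mul_sum]
  have h : Ioc A (A + N) = (range N).image (fun j => A + 1 + j) := by
    ext n
    rw [mem_Ioc, mem_image]
    constructor
    · intro h
      exact ⟨n - (A + 1), mem_range.2 (by omega), by omega⟩
    · rintro ⟨j, hj, rfl⟩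
      rw [mem_range] at hj
      omega
  rw [h, sum_image]
  · refine sum_congr rfl fun j _ => ?_
    rw [← ls_ee_add]
    congr 1
    push_cast
    ring
  · intro a _ b _ hab
    simp only at hab
    omega

theorem EE_far (A N : ℕ) (x τ : ℝ) (hτ : 0 < τ) (h : ∀ k : ℤ, τ ≤ |x - k|) :
    ‖EE A N x‖ ≤ 1 / (2 * τ) := by
  rw [EE_eq, norm_mul, ls_norm_ee, one_mul, ← lsD_fract]
  have h0 := h ⌊x⌋
  have h1 := h (⌊x⌋ + 1)
  have hf : x - ⌊x⌋ = Int.fract x := rfl
  have hf0 := Int.fract_nonneg x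
  have hf1 := Int.fract_lt_one x
  rw [hf, abs_of_nonneg hf0] at h0
  push_cast at h1
  rw [show x - ((⌊x⌋ : ℝ) + 1) = Int.fract x - 1 by rw [← hf]; ring, abs_of_nonpos (by linarith)] at h1
  have ht0 : 0 < Int.fract x := by linarith
  have hb := lsD_bound_sin N (Int.fract x) ht0 hf1
  have hn : 0 ≤ ‖lsD N (Int.fract x)‖ := norm_nonneg _
  have hs : 2 * τ ≤ Real.sin (Real.pi * Int.fract x) := by
    have hpi := Real.pi_pos
    rcases le_total (Int.fract x) (1 / 2) with h2 | h2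
    · have := Real.mul_le_sin (x := Real.pi * Int.fract x) (by positivity) (by nlinarith)
      have h3 : 2 / Real.pi * (Real.pi * Int.fract x) = 2 * Int.fract x := by
        field_simp
      rw [h3] at this
      linarith
    · have := Real.mul_le_sin (x := Real.pi * (1 - Int.fract x)) (by nlinarith) (by nlinarith)
      have h3 : 2 / Real.pi * (Real.pi * (1 - Int.fract x)) = 2 * (1 - Int.fract x) := by
        field_simp
      rw [h3] at this
      have h4 : Real.sin (Real.pi * (1 - Int.fract x)) = Real.sin (Real.pi * Int.fract x) := by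
        rw [show Real.pi * (1 - Int.fract x) = Real.pi - Real.pi * Int.fract x by ring,
          Real.sin_pi_sub]
      rw [h4] at this
      linarith
  rw [le_div_iff₀ (by positivity)]
  calc ‖lsD N (Int.fract x)‖ * (2 * τ) ≤ ‖lsD N (Int.fract x)‖ * Real.sin (Real.pi * Int.fract x) :=
        mul_le_mul_of_nonneg_left hs hn
    _ ≤ 1 := hb

/-- at most one fraction is close -/
theorem close_unique {D d d' b b' : ℕ} (hD : 1 ≤ D) (hd : d ≤ D) (hd' : d' ≤ D) (hb : 0 < b) (hbd : b < d)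
    (hb' : 0 < b') (hbd' : b' < d') {α : ℝ} {k k' : ℤ}
    (h : |α + (b : ℝ) / d - k| < 1 / (2 * (D : ℝ) ^ 2))
    (h' : |α + (b' : ℝ) / d' - k'| < 1 / (2 * (D : ℝ) ^ 2)) : (b : ℝ) / d = b' / d' := by
  have hd0 : (0 : ℝ) < d := by exact_mod_cast (by omega : 0 < d)
  have hd0' : (0 : ℝ) < d' := by exact_mod_cast (by omega : 0 < d')
  have hD0 : (0 : ℝ) < D := by exact_mod_cast hD
  have h1 : |(b : ℝ) / d - b' / d' - ((k - k' : ℤ) : ℝ)| < 1 / (D : ℝ) ^ 2 := by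
    have h2 : (b : ℝ) / d - b' / d' - ((k - k' : ℤ) : ℝ) =
        (α + (b : ℝ) / d - k) - (α + (b' : ℝ) / d' - k') := by
      push_cast
      ring
    rw [h2]
    calc |(α + (b : ℝ) / d - k) - (α + (b' : ℝ) / d' - k')| ≤
        |α + (b : ℝ) / d - k| + |α + (b' : ℝ) / d' - k'| := abs_sub _ _
      _ < 1 / (2 * (D : ℝ) ^ 2) + 1 / (2 * (D : ℝ) ^ 2) := add_lt_add h h'
      _ = _ := by field_simp; norm_num
  have h2 : |(((b : ℤ) * d' - b' * d - (k - k') * (d * d') : ℤ) : ℝ)| < 1 := by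
    have h3 : (((b : ℤ) * d' - b' * d - (k - k') * (d * d') : ℤ) : ℝ) =
        ((b : ℝ) / d - b' / d' - ((k - k' : ℤ) : ℝ)) * (d * d') := by
      push_cast
      field_simp
    rw [h3, abs_mul, abs_of_pos (by positivity : (0 : ℝ) < d * d')]
    have h4 : (d : ℝ) * d' ≤ (D : ℝ) ^ 2 := by
      rw [sq]
      have : (d : ℝ) ≤ D := by exact_mod_cast hd
      have : (d' : ℝ) ≤ D := by exact_mod_cast hd'
      gcongr
    calc |(b : ℝ) / d - b' / d' - ((k - k' : ℤ) : ℝ)| * (d * d')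
        < 1 / (D : ℝ) ^ 2 * (d * d') := mul_lt_mul_of_pos_right h1 (by positivity)
      _ ≤ 1 / (D : ℝ) ^ 2 * (D : ℝ) ^ 2 := mul_le_mul_of_nonneg_left h4 (by positivity)
      _ = 1 := by field_simp
  have h3 : (b : ℤ) * d' - b' * d - (k - k') * (d * d') = 0 := by
    have : |((b : ℤ) * d' - b' * d - (k - k') * (d * d') : ℤ)| < 1 := by exact_mod_cast h2
    exact Int.abs_lt_one_iff.1 this
  have h4 : (b : ℝ) / d - b' / d' = ((k - k' : ℤ) : ℝ) := by
    have h5 : ((b : ℝ) * d' - b' * d - (k - k') * (d * d')) = 0 := by exact_mod_cast h3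
    push_cast
    field_simp
    linarith
  have h5 : (b : ℝ) / d < 1 := by rw [div_lt_one hd0]; exact_mod_cast hbd
  have h6 : (b' : ℝ) / d' < 1 := by rw [div_lt_one hd0']; exact_mod_cast hbd'
  have h7 : 0 < (b : ℝ) / d := by positivity
  have h8 : 0 < (b' : ℝ) / d' := by positivity
  have h9 : |((k - k' : ℤ) : ℝ)| < 1 := by
    rw [← h4, abs_lt]
    constructor <;> linarith
  have h10 : k - k' = 0 := by
    have : |(k - k' : ℤ)| < 1 := by exact_mod_cast h9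
    exact Int.abs_lt_one_iff.1 this
  rw [h10] at h4
  push_cast at h4
  linarith

variable {r C : ℕ} {Z : ℕ → Finset ℕ} {z R : ℕ} {θ : Finset ℕ → ℝ}

theorem Th_sum (n : ℕ) : Th Z z R θ n = ∑ U ∈ (Pr z R).powerset, θ U * hU Z U n := by
  unfold Th
  rw [sum_filter]
  refine sum_congr rfl fun U _ => ?_
  by_cases h : ∀ p ∈ U, n % p ∈ Z p
  · have h1 : hU Z U n = 1 := prod_eq_one fun p hp => if_pos (h p hp)
    rw [if_pos h, h1, mul_one]
  · have h1 : hU Z U n = 0 := by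
      push Not at h
      obtain ⟨p, hp, hnp⟩ := h
      exact prod_eq_zero hp (if_neg hnp)
    rw [if_neg h, h1, mul_zero]

/-- one set `U` -/
theorem one_set {U : Finset ℕ} (h : ∀ p ∈ U, p.Prime ∧ ∀ c ∈ Z p, c < p) (A N : ℕ) (α : ℝ) :
    ∑ n ∈ Ioc A (A + N), ((hU Z U n - ∏ p ∈ U, ((Z p).card : ℝ) / p : ℝ) : ℂ) * ee (n * α) =
      ∑ b ∈ Ico 1 (∏ p ∈ U, p), co Z U (b / (∏ p ∈ U, p : ℕ)) * EE A N (α + b / (∏ p ∈ U, p : ℕ)) := by
  obtain ⟨d, hd⟩ : ∃ d : ℕ, d = ∏ q ∈ U, q := ⟨_, rfl⟩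
  have hd0 : 0 < d := by
    rw [hd]
    exact Nat.pos_of_ne_zero (prod_ne_zero_iff.2 fun q hq => (h q hq).1.ne_zero)
  have h1 : ∀ n ∈ Ioc A (A + N), ((hU Z U n - ∏ p ∈ U, ((Z p).card : ℝ) / p : ℝ) : ℂ) * ee (n * α) =
      ∑ b ∈ Ico 1 d, co Z U (b / (d : ℝ)) * ee (n * (α + b / (d : ℝ))) := by
    intro n _
    have h2 := inversion Z (fun p hp => (h p hp).1) (U := U) n
    rw [← hd, range_eq_Ico, sum_eq_sum_Ico_succ_bot hd0] at h2
    rw [Nat.cast_zero, zero_div, mul_zero, ls_ee_zero, mul_one, co_zero h] at h2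
    rw [Complex.ofReal_sub, h2, add_sub_cancel_left, sum_mul]
    refine sum_congr rfl fun b _ => ?_
    rw [mul_assoc, ← ls_ee_add]
    congr 2
    ring
  rw [← hd, sum_congr rfl h1, sum_comm]
  refine sum_congr rfl fun b _ => ?_
  unfold EE
  rw [mul_sum]

/-- the sets `U` in the support of the weights -/
noncomputable def FF (z R : ℕ) (θ : Finset ℕ → ℝ) : Finset (Finset ℕ) :=
  (Pr z R).powerset.filter (fun U => θ U ≠ 0)

theorem FF_card (hW : Wt C Z z R θ) : (FF z R θ).card ≤ R ^ C := by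
  classical
  have h1 : (FF z R θ).card ≤ (Icc 1 (R ^ C)).card := by
    refine card_le_card_of_injOn (fun U => ∏ p ∈ U, p) ?_ ?_
    · intro U hU
      rw [mem_coe, FF, mem_filter, mem_powerset] at hU
      rw [mem_coe, mem_Icc]
      refine ⟨?_, hW.lev U hU.1 hU.2⟩
      refine Nat.one_le_iff_ne_zero.2 (prod_ne_zero_iff.2 fun p hp => ?_)
      have := hU.1 hp
      rw [Pr, mem_filter] at this
      exact this.2.ne_zero
    · intro U hU V hV h
      rw [mem_coe, FF, mem_filter, mem_powerset] at hU hV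
      simp only at h
      have h2 : ∀ W : Finset ℕ, W ⊆ Pr z R → (∏ p ∈ W, p).primeFactors = W := by
        intro W hW'
        refine Nat.primeFactors_prod fun p hp => ?_
        have := hW' hp
        rw [Pr, mem_filter] at this
        exact this.2
      rw [← h2 U hU.1, ← h2 V hV.1, h]
  simpa using h1

theorem exists_core (x0 : ℝ) {U0 : Finset ℕ} (hU0 : U0 ⊆ Pr z R)
    (h0 : ∃ k : ℤ, ((∏ p ∈ U0, p : ℕ) : ℝ) * x0 = k) :
    ∃ Q ⊆ Pr z R, (∃ k : ℤ, ((∏ p ∈ Q, p : ℕ) : ℝ) * x0 = k) ∧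
      ∀ U ⊆ Pr z R, (∃ k : ℤ, ((∏ p ∈ U, p : ℕ) : ℝ) * x0 = k) → Q ⊆ U := by
  classical
  set P := (Pr z R).powerset.filter (fun U => ∃ k : ℤ, ((∏ p ∈ U, p : ℕ) : ℝ) * x0 = k) with hP
  have hne : P.Nonempty := ⟨U0, by rw [hP, mem_filter, mem_powerset]; exact ⟨hU0, h0⟩⟩
  obtain ⟨Q, hQ, hmin⟩ := exists_min_image P card hne
  rw [hP, mem_filter, mem_powerset] at hQ
  refine ⟨Q, hQ.1, hQ.2, fun U hU hUk => ?_⟩
  obtain ⟨k, hk⟩ := hQ.2
  obtain ⟨l, hl⟩ := hUk
  have hprime : ∀ p ∈ Pr z R, p.Prime := fun p hp => by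
    rw [Pr, mem_filter] at hp
    exact hp.2
  have hcop : (∏ p ∈ U \ Q, p).Coprime (∏ p ∈ Q \ U, p) := by
    refine Nat.Coprime.prod_left fun p hp => Nat.Coprime.prod_right fun q hq => ?_
    rw [mem_sdiff] at hp hq
    rw [Nat.coprime_primes (hprime p (hU hp.1)) (hprime q (hQ.1 hq.1))]
    rintro rfl
    exact hp.2 hq.1
  obtain ⟨a, b, hab⟩ := Nat.isCoprime_iff_coprime.2 hcop
  have e1 : ((∏ p ∈ U, p : ℕ) : ℝ) = (∏ p ∈ U ∩ Q, p : ℕ) * (∏ p ∈ U \ Q, p : ℕ) := by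
    rw [← Nat.cast_mul, prod_inter_mul_prod_sdiff]
  have e2 : ((∏ p ∈ Q, p : ℕ) : ℝ) = (∏ p ∈ U ∩ Q, p : ℕ) * (∏ p ∈ Q \ U, p : ℕ) := by
    rw [inter_comm, ← Nat.cast_mul, prod_inter_mul_prod_sdiff]
  have hab' : (a : ℝ) * (∏ p ∈ U \ Q, p : ℕ) + b * (∏ p ∈ Q \ U, p : ℕ) = 1 := by
    exact_mod_cast hab
  have h1 : U ∩ Q ∈ P := by
    rw [hP, mem_filter, mem_powerset]
    refine ⟨inter_subset_left.trans hU, a * l + b * k, ?_⟩
    push_cast
    rw [← hl, ← hk, e1, e2]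
    push_cast at hab' ⊢
    linear_combination (-(((∏ p ∈ U ∩ Q, (p : ℝ))) * x0)) * hab'
  have h2 := hmin _ h1
  have h3 : U ∩ Q = Q := eq_of_subset_of_card_le inter_subset_right h2
  rw [← h3]
  exact inter_subset_left

/-- the sum over the far fractions for one set -/
theorem far_sum {U : Finset ℕ} (h : ∀ p ∈ U, p.Prime ∧ ∀ c ∈ Z p, c < p) {D : ℕ} (hD : 1 ≤ D)
    (hUD : ∏ p ∈ U, p ≤ D) (A N : ℕ) (α : ℝ) (T : Finset ℕ) (hT : T ⊆ Ico 1 (∏ p ∈ U, p))
    (hfar : ∀ b ∈ T, ∀ k : ℤ, 1 / (2 * (D : ℝ) ^ 2) ≤ |α + (b : ℝ) / (∏ p ∈ U, p : ℕ) - k|) :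
    ‖∑ b ∈ T, co Z U (b / (∏ p ∈ U, p : ℕ)) * EE A N (α + b / (∏ p ∈ U, p : ℕ))‖ ≤ (D : ℝ) ^ 3 := by
  have hD0 : (0 : ℝ) < D := by exact_mod_cast hD
  have h1 : ∀ b ∈ T, ‖co Z U (b / (∏ p ∈ U, p : ℕ)) * EE A N (α + b / (∏ p ∈ U, p : ℕ))‖ ≤
      (D : ℝ) ^ 2 := by
    intro b hb
    rw [norm_mul]
    have h2 := co_norm_one h (b / (∏ p ∈ U, p : ℕ))
    have h3 := EE_far A N (α + (b : ℝ) / (∏ p ∈ U, p : ℕ)) _ (by positivity) (hfar b hb)
    have h4 : 1 / (2 * (1 / (2 * (D : ℝ) ^ 2))) = (D : ℝ) ^ 2 := by field_simp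
    rw [h4] at h3
    calc _ ≤ 1 * (D : ℝ) ^ 2 := mul_le_mul h2 h3 (norm_nonneg _) zero_le_one
      _ = _ := one_mul _
  refine (norm_sum_le _ _).trans ((sum_le_sum h1).trans ?_)
  rw [sum_const, nsmul_eq_mul]
  have h2 : (T.card : ℝ) ≤ D := by
    have h3 := card_le_card hT
    rw [Nat.card_Ico] at h3
    exact_mod_cast (by omega : T.card ≤ D)
  calc (T.card : ℝ) * (D : ℝ) ^ 2 ≤ D * (D : ℝ) ^ 2 := mul_le_mul_of_nonneg_right h2 (by positivity)
    _ = _ := by ring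

theorem unif (hW : Wt C Z z R θ) (hS : Sv r z R Z)
    (hsup : ∀ Q ⊆ Pr z R, |∑ U ∈ (Pr z R).powerset.filter (fun U => Q ⊆ U),
      θ U * ∏ p ∈ U \ Q, ((Z p).card : ℝ) / p| ≤ (C : ℝ) ^ (Q.card + 1) * VV Z z R)
    (hV : 0 ≤ VV Z z R) (hR : 1 ≤ R) (hz : 1 ≤ z) (hCr : (C * r) ^ 2 ≤ z) (A N : ℕ) (α : ℝ) :
    ‖∑ n ∈ Ioc A (A + N), ((Th Z z R θ n - qq Z z R θ : ℝ) : ℂ) * ee (n * α)‖ ≤
      C * VV Z z R * (N / Real.sqrt z) + ((R ^ C : ℕ) : ℝ) ^ 4 := by
  classical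
  obtain ⟨D, hD⟩ : ∃ D : ℕ, D = R ^ C := ⟨_, rfl⟩
  have hD1 : 1 ≤ D := by rw [hD]; exact Nat.one_le_pow _ _ hR
  have hD0 : (0 : ℝ) < D := by exact_mod_cast hD1
  rw [← hD]
  have hprime : ∀ p ∈ Pr z R, p.Prime ∧ z < p := fun p hp => by
    rw [Pr, mem_filter, mem_Ioc] at hp
    exact ⟨hp.2, hp.1.1⟩
  have hUU : ∀ U ∈ (Pr z R).powerset, ∀ p ∈ U, p.Prime ∧ ∀ c ∈ Z p, c < p := by
    intro U hU p hp
    rw [mem_powerset] at hU
    exact ⟨(hprime p (hU hp)).1, (hS p (hU hp)).2⟩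
  -- the sum over the sets
  have key : ∑ n ∈ Ioc A (A + N), ((Th Z z R θ n - qq Z z R θ : ℝ) : ℂ) * ee (n * α) =
      ∑ U ∈ (Pr z R).powerset, (θ U : ℂ) * ∑ b ∈ Ico 1 (∏ p ∈ U, p),
        co Z U (b / (∏ p ∈ U, p : ℕ)) * EE A N (α + b / (∏ p ∈ U, p : ℕ)) := by
    have h1 : ∀ n ∈ Ioc A (A + N), ((Th Z z R θ n - qq Z z R θ : ℝ) : ℂ) * ee (n * α) =
        ∑ U ∈ (Pr z R).powerset, (θ U : ℂ) *
          (((hU Z U n - ∏ p ∈ U, ((Z p).card : ℝ) / p : ℝ) : ℂ) * ee (n * α)) := by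
      intro n _
      rw [Th_sum, qq, ← sum_sub_distrib, Complex.ofReal_sum, sum_mul]
      refine sum_congr rfl fun U _ => ?_
      push_cast
      ring
    rw [sum_congr rfl h1, sum_comm]
    refine sum_congr rfl fun U hU' => ?_
    rw [← mul_sum, one_set (hUU U hU')]
  rw [key]
  have hsq : (1 : ℝ) ≤ Real.sqrt z := by
    rw [Real.one_le_sqrt]
    exact_mod_cast hz
  have hmain0 : 0 ≤ C * VV Z z R * (N / Real.sqrt z) := by positivity
  -- only the support matters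
  have hsupp : ∀ G : Finset ℕ → ℂ, ∑ U ∈ (Pr z R).powerset, (θ U : ℂ) * G U =
      ∑ U ∈ FF z R θ, (θ U : ℂ) * G U := by
    intro G
    rw [FF, sum_filter_of_ne]
    intro U _ h
    intro h2
    apply h
    rw [h2]
    simp
  have hFD : ∀ U ∈ FF z R θ, ∏ p ∈ U, p ≤ D := by
    intro U hU'
    rw [FF, mem_filter, mem_powerset] at hU'
    rw [hD]
    exact hW.lev U hU'.1 hU'.2
  have hFP : ∀ U ∈ FF z R θ, U ∈ (Pr z R).powerset := fun U hU' => (mem_filter.1 hU').1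
  have hFc : ((FF z R θ).card : ℝ) ≤ D := by
    rw [hD]
    exact_mod_cast FF_card hW
  have hfarall : ∀ G : Finset ℕ → ℂ, (∀ U ∈ FF z R θ, ‖G U‖ ≤ (D : ℝ) ^ 3) →
      ‖∑ U ∈ FF z R θ, (θ U : ℂ) * G U‖ ≤ (D : ℝ) ^ 4 := by
    intro G hG
    refine (norm_sum_le _ _).trans ?_
    have h1 : ∀ U ∈ FF z R θ, ‖(θ U : ℂ) * G U‖ ≤ (D : ℝ) ^ 3 := by
      intro U hU'
      rw [norm_mul, Complex.norm_real, Real.norm_eq_abs]
      calc |θ U| * ‖G U‖ ≤ 1 * (D : ℝ) ^ 3 :=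
            mul_le_mul (hW.abs U) (hG U hU') (norm_nonneg _) zero_le_one
        _ = _ := one_mul _
    refine (sum_le_sum h1).trans ?_
    rw [sum_const, nsmul_eq_mul]
    calc ((FF z R θ).card : ℝ) * (D : ℝ) ^ 3 ≤ D * (D : ℝ) ^ 3 :=
          mul_le_mul_of_nonneg_right hFc (by positivity)
      _ = _ := by ring
  by_cases hclose : ∃ U ∈ FF z R θ, ∃ b ∈ Ico 1 (∏ p ∈ U, p), ∃ k : ℤ,
      |α + (b : ℝ) / (∏ p ∈ U, p : ℕ) - k| < 1 / (2 * (D : ℝ) ^ 2)
  · obtain ⟨U0, hU0, b0, hb0, k0, hk0⟩ := hclose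
    rw [mem_Ico] at hb0
    obtain ⟨x0, hx0⟩ : ∃ x0 : ℝ, x0 = (b0 : ℝ) / (∏ p ∈ U0, p : ℕ) := ⟨_, rfl⟩
    have hd0 : (0 : ℝ) < (∏ p ∈ U0, p : ℕ) := by exact_mod_cast (by omega : 0 < ∏ p ∈ U0, p)
    have hx0pos : 0 < x0 := by
      rw [hx0]
      have : (0 : ℝ) < b0 := by exact_mod_cast hb0.1
      positivity
    have hx0lt : x0 < 1 := by
      rw [hx0, div_lt_one hd0]
      exact_mod_cast hb0.2
    obtain ⟨Q, hQ, ⟨kQ, hkQ⟩, hQmin⟩ := exists_core (z := z) (R := R) x0 (mem_powerset.1 (hFP U0 hU0))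
      ⟨b0, by rw [hx0]; push_cast; push_cast at hd0; field_simp⟩
    have hQne : Q.Nonempty := by
      rw [nonempty_iff_ne_empty]
      rintro rfl
      rw [prod_empty, Nat.cast_one, one_mul] at hkQ
      rw [hkQ] at hx0pos hx0lt
      have h1 : (0 : ℤ) < kQ := by exact_mod_cast hx0pos
      have h2 : kQ < (1 : ℤ) := by exact_mod_cast hx0lt
      omega
    -- split
    have hsplit : ∀ U ∈ FF z R θ, ∑ b ∈ Ico 1 (∏ p ∈ U, p),
        co Z U (b / (∏ p ∈ U, p : ℕ)) * EE A N (α + b / (∏ p ∈ U, p : ℕ)) =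
        (if Q ⊆ U then co Z U x0 * EE A N (α + x0) else 0) +
        ∑ b ∈ (Ico 1 (∏ p ∈ U, p)).filter (fun b : ℕ => (b : ℝ) / (∏ p ∈ U, p : ℕ) ≠ x0),
          co Z U (b / (∏ p ∈ U, p : ℕ)) * EE A N (α + b / (∏ p ∈ U, p : ℕ)) := by
      intro U hU'
      have hUp := hUU U (hFP U hU')
      have hdU : 0 < ∏ p ∈ U, p :=
        Nat.pos_of_ne_zero (prod_ne_zero_iff.2 fun q hq => (hUp q hq).1.ne_zero)
      have hdUr : (0 : ℝ) < (∏ p ∈ U, p : ℕ) := by exact_mod_cast hdU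
      rw [← sum_filter_add_sum_filter_not (Ico 1 (∏ p ∈ U, p))
        (fun b : ℕ => (b : ℝ) / (∏ p ∈ U, p : ℕ) = x0)]
      congr 1
      by_cases hQU : Q ⊆ U
      · rw [if_pos hQU]
        have h1 : ((∏ p ∈ U, p : ℕ) : ℝ) * x0 = (((∏ p ∈ U \ Q, p : ℕ) : ℤ) * kQ : ℤ) := by
          rw [← prod_sdiff hQU]
          push_cast
          push_cast at hkQ
          rw [mul_assoc, hkQ]
        obtain ⟨m, hm⟩ : ∃ m : ℤ, m = ((∏ p ∈ U \ Q, p : ℕ) : ℤ) * kQ := ⟨_, rfl⟩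
        rw [← hm] at h1
        have hm0 : 0 < m := by
          have : (0 : ℝ) < m := by rw [← h1]; positivity
          exact_mod_cast this
        have hm1 : m < (∏ p ∈ U, p : ℕ) := by
          have : (m : ℝ) < (∏ p ∈ U, p : ℕ) := by
            rw [← h1]
            calc ((∏ p ∈ U, p : ℕ) : ℝ) * x0 < (∏ p ∈ U, p : ℕ) * 1 :=
                  mul_lt_mul_of_pos_left hx0lt hdUr
              _ = _ := mul_one _
          exact_mod_cast this
        obtain ⟨b1, hb1⟩ : ∃ b1 : ℕ, (b1 : ℤ) = m := ⟨m.toNat, Int.toNat_of_nonneg hm0.le⟩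
        have hb1r : (b1 : ℝ) = (∏ p ∈ U, p : ℕ) * x0 := by
          rw [h1, ← hb1]
          simp
        have h2 : (Ico 1 (∏ p ∈ U, p)).filter (fun b : ℕ => (b : ℝ) / (∏ p ∈ U, p : ℕ) = x0) = {b1} := by
          ext b
          rw [mem_filter, mem_Ico, mem_singleton]
          constructor
          · rintro ⟨-, h3⟩
            rw [div_eq_iff hdUr.ne'] at h3
            have : (b : ℝ) = b1 := by rw [h3, hb1r, mul_comm]
            exact_mod_cast this
          · rintro rfl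
            refine ⟨⟨by omega, by omega⟩, ?_⟩
            rw [hb1r]
            field_simp
        rw [h2, sum_singleton, hb1r]
        have h3 : ((∏ p ∈ U, p : ℕ) : ℝ) * x0 / (∏ p ∈ U, p : ℕ) = x0 := by field_simp
        rw [h3]
      · rw [if_neg hQU]
        apply sum_eq_zero
        intro b hb
        exfalso
        rw [mem_filter] at hb
        apply hQU
        apply hQmin U (mem_powerset.1 (hFP U hU'))
        refine ⟨b, ?_⟩
        rw [← hb.2]
        push_cast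
        have : (∏ p ∈ U, (p : ℝ)) ≠ 0 := by
          have := hdUr.ne'
          push_cast at this
          exact this
        field_simp
    rw [hsupp, sum_congr rfl fun U hU' => by rw [hsplit U hU', mul_add], sum_add_distrib]
    refine (norm_add_le _ _).trans ?_
    refine add_le_add ?_ ?_
    · -- the main term
      have h1 : ∑ U ∈ FF z R θ, (θ U : ℂ) * (if Q ⊆ U then co Z U x0 * EE A N (α + x0) else 0) =
          ((∑ U ∈ (Pr z R).powerset.filter (fun U => Q ⊆ U),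
            θ U * ∏ p ∈ U \ Q, ((Z p).card : ℝ) / p : ℝ) : ℂ) * (co Z Q x0 * EE A N (α + x0)) := by
        rw [← hsupp (fun U => if Q ⊆ U then co Z U x0 * EE A N (α + x0) else 0), Complex.ofReal_sum,
          sum_mul, sum_filter]
        refine sum_congr rfl fun U hU' => ?_
        by_cases hQU : Q ⊆ U
        · rw [if_pos hQU, if_pos hQU]
          have h2 := co_union (Z := Z) (Q := Q) (fun q hq => (hprime q (hQ hq)).1) hkQ (U \ Q)
            (fun p hp => by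
              rw [mem_sdiff] at hp
              exact ⟨(hUU U hU' p hp.1).1, hp.2, (hUU U hU' p hp.1).2⟩)
          rw [sdiff_union_of_subset hQU] at h2
          rw [h2]
          push_cast
          ring
        · rw [if_neg hQU, if_neg hQU, mul_zero]
      rw [h1, norm_mul, norm_mul, Complex.norm_real, Real.norm_eq_abs]
      have h2 := hsup Q hQ
      have h3 : ‖co Z Q x0‖ ≤ ∏ p ∈ Q, ((Z p).card : ℝ) / p :=
        co_norm (fun p hp => hUU Q (mem_powerset.2 hQ) p hp) x0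
      have h4 := EE_norm_le A N (α + x0)
      have h5 : (C : ℝ) ^ Q.card * ∏ p ∈ Q, ((Z p).card : ℝ) / p ≤ 1 / Real.sqrt z := by
        rw [← prod_const, ← prod_mul_distrib]
        have hs0 : 0 < Real.sqrt z := by linarith
        have h6 : ∀ p ∈ Q, (C : ℝ) * (((Z p).card : ℝ) / p) ≤ 1 / Real.sqrt z := by
          intro p hp
          have h7 := (hprime p (hQ hp)).2
          have h8 : ((Z p).card : ℝ) ≤ r := by exact_mod_cast (hS p (hQ hp)).1
          have h9 : (z : ℝ) ≤ p := by exact_mod_cast h7.le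
          have hp0 : (0 : ℝ) < p := by
            have : (1 : ℝ) ≤ z := by exact_mod_cast hz
            linarith
          have h10 : (C : ℝ) * r ≤ Real.sqrt z := by
            apply Real.le_sqrt_of_sq_le
            exact_mod_cast hCr
          rw [← mul_div_assoc, div_le_div_iff₀ hp0 hs0]
          calc (C : ℝ) * (Z p).card * Real.sqrt z ≤ (C : ℝ) * r * Real.sqrt z := by gcongr
            _ ≤ Real.sqrt z * Real.sqrt z := mul_le_mul_of_nonneg_right h10 hs0.le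
            _ = z := Real.mul_self_sqrt (Nat.cast_nonneg z)
            _ ≤ 1 * p := by linarith
        calc ∏ p ∈ Q, (C : ℝ) * (((Z p).card : ℝ) / p) ≤ ∏ _p ∈ Q, 1 / Real.sqrt z :=
              prod_le_prod (fun p _ => by positivity) h6
          _ = (1 / Real.sqrt z) ^ Q.card := by rw [prod_const]
          _ ≤ 1 / Real.sqrt z := by
              apply pow_le_of_le_one (by positivity)
              · rw [div_le_one hs0]
                exact hsq
              · exact (card_pos.2 hQne).ne'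
      have h6 : 0 ≤ ∏ p ∈ Q, ((Z p).card : ℝ) / p := prod_nonneg fun p _ => by positivity
      calc |∑ U ∈ (Pr z R).powerset.filter (fun U => Q ⊆ U),
            θ U * ∏ p ∈ U \ Q, ((Z p).card : ℝ) / p| * (‖co Z Q x0‖ * ‖EE A N (α + x0)‖)
          ≤ ((C : ℝ) ^ (Q.card + 1) * VV Z z R) * ((∏ p ∈ Q, ((Z p).card : ℝ) / p) * N) := by
            apply mul_le_mul h2 (mul_le_mul h3 h4 (norm_nonneg _) h6) (by positivity)
            positivity
        _ = (C * VV Z z R * N) * ((C : ℝ) ^ Q.card * ∏ p ∈ Q, ((Z p).card : ℝ) / p) := by ring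
        _ ≤ (C * VV Z z R * N) * (1 / Real.sqrt z) :=
            mul_le_mul_of_nonneg_left h5 (by positivity)
        _ = _ := by ring
    · apply hfarall
      intro U hU'
      apply far_sum (hUU U (hFP U hU')) hD1 (hFD U hU') A N α _ (filter_subset _ _)
      intro b hb k
      rw [mem_filter, mem_Ico] at hb
      by_contra hcon
      push Not at hcon
      apply hb.2
      rw [hx0]
      exact close_unique hD1 (hFD U hU') (hFD U0 hU0) (by omega) hb.1.2 (by omega) hb0.2 hcon hk0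
  · push Not at hclose
    rw [hsupp]
    have h1 : ‖∑ U ∈ FF z R θ, (θ U : ℂ) * ∑ b ∈ Ico 1 (∏ p ∈ U, p),
        co Z U (b / (∏ p ∈ U, p : ℕ)) * EE A N (α + b / (∏ p ∈ U, p : ℕ))‖ ≤ (D : ℝ) ^ 4 := by
      apply hfarall
      intro U hU'
      apply far_sum (hUU U (hFP U hU')) hD1 (hFD U hU') A N α _ (Subset.refl _)
      intro b hb k
      exact hclose U hU' b hb k
    linarith

end Pool.Agent.K7.H64.LS
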